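import Mathlib.MeasureTheory.Constructions.BorelSpace.Complex
import Mathlib.MeasureTheory.Measure.Haar.OfBasis
import Mathlib.LinearAlgebra.Complex.FiniteDimensional
import Mathlib.Analysis.Analytic.Order
import Mathlib.Analysis.CStarAlgebra.Classes

/-!
Definitions for the problem on coefficient combinations of mean `p`-valent functions.
-/

namespace Pool.Agent.MP_e3615c_an

open MeasureTheory Metric
open scoped ENNReal

/-- `n(w)`: the number of solutions of `f z = w` in the unit disc, counted with multiplicity. -/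
noncomputable def valence (f : ℂ → ℂ) (w : ℂ) : ℝ≥0∞ :=
  ∑' z : ball (0 : ℂ) 1, (analyticOrderAt (fun u => f u - w) (z : ℂ) : ℝ≥0∞)

/-- `f` is (areally) mean `p`-valent in the unit disc. -/
def MeanValent (p : ℝ) (f : ℂ → ℂ) : Prop :=
  ∀ R : ℝ, 0 < R → ∫⁻ w in ball (0 : ℂ) R, valence f w ≤ ENNReal.ofReal (Real.pi * p * R ^ 2)

/-- The exponent `α` is admissible for `(m, p)`. -/
def Admissible (m : ℕ) (p α : ℝ) : Prop :=
  ∀ (f : ℂ → ℂ) (a : ℕ → ℂ), (∀ z ∈ ball (0 : ℂ) 1, HasSum (fun n => a n * z ^ n) (f z)) →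
    MeanValent p f → ∀ k : ℕ, 1 ≤ k → ∃ K : ℝ, ∀ n : ℕ, 1 ≤ n →
      ∃ c : Fin (m + 1) → ℂ, c 0 = 1 ∧ 1 / 4 ^ m ≤ ‖c (Fin.last m)‖ ∧
        ∀ j : ℕ, j ≤ k → ‖∑ i : Fin (m + 1), c i * a (n + j + i)‖ ≤ K * (n : ℝ) ^ α

/-- Symmetric matrices with entries in `[0, 1]` and `min (H i j) (H j k) ≤ H i k`. -/
def IsUltra {m : ℕ} (H : Fin (m + 1) → Fin (m + 1) → ℝ) : Prop :=
  (∀ i j, H i j = H j i) ∧ (∀ i j, 0 ≤ H i j ∧ H i j ≤ 1) ∧
    ∀ i j k, min (H i j) (H j k) ≤ H i k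

/-- `c_i = ∑_j H_ij - H_ii / 2`. -/
noncomputable def cost {m : ℕ} (H : Fin (m + 1) → Fin (m + 1) → ℝ) (i : Fin (m + 1)) : ℝ :=
  ∑ j, H i j - H i i / 2

/-- The quadratic form `∑_{i,j} a_i a_j (2 p H_ij - min (c_i, c_j))`. -/
noncomputable def form {m : ℕ} (p : ℝ) (H : Fin (m + 1) → Fin (m + 1) → ℝ)
    (a : Fin (m + 1) → ℝ) : ℝ :=
  ∑ i, ∑ j, a i * a j * (2 * p * H i j - min (cost H i) (cost H j))

/-- `γ_m(p) = max_H min_{a ∈ simplex} form p H a`. -/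
noncomputable def gamma (m : ℕ) (p : ℝ) : ℝ :=
  sSup {x : ℝ | ∃ H : Fin (m + 1) → Fin (m + 1) → ℝ, IsUltra H ∧
    ∀ a ∈ stdSimplex ℝ (Fin (m + 1)), x ≤ form p H a}

end Pool.Agent.MP_e3615c_an
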