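import Mathlib.LinearAlgebra.FreeModule.PID
import Mathlib.Topology.Sheaves.Presheaf
import Mathlib.Tactic.Monotonicity.Lemmas
import Mathlib.RingTheory.Flat.TorsionFree
import Mathlib.Algebra.Module.StablyFree.Basic
import Mathlib.Algebra.Order.Star.Real
import Mathlib.Analysis.Complex.ExponentialBounds
import Mathlib.Analysis.Complex.Poisson
import Mathlib.Analysis.Complex.OpenMapping
import Mathlib.RingTheory.Complex
import Mathlib.RingTheory.Norm.Transitivity
import Mathlib.MeasureTheory.Measure.Lebesgue.VolumeOfBalls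
import Mathlib.RingTheory.SimpleRing.Principal
import Mathlib.Order.CompletePartialOrder
import Mathlib.RingTheory.TotallySplit
import Pool.Agent.MP_e3615c_an.Defs

-- ======== part 0: formerly Pool.Agent.MP_e3615c_an.Soft
section MrgPart0

/-!
A soft maximum of exponentials of affine functions, on the line and in a strip.
-/

namespace Pool.Agent.MP_e3615c_an

open Finset Real Metric

variable {X : Type*} [Fintype X] [Nonempty X] (s c : X → ℝ) (N : ℕ)

/-- Sum of exponentials. -/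
noncomputable def Es (t : ℝ) : ℝ := ∑ x, exp ((s x * t + c x) / N)

/-- Logarithmic derivative of `Fr`. -/
noncomputable def sg (t : ℝ) : ℝ := (∑ x, s x * exp ((s x * t + c x) / N)) / Es s c N t

/-- The real profile. -/
noncomputable def Fr (t : ℝ) : ℝ := (Es s c N t / Es s c N 0) ^ N

/-- Complex sum of exponentials. -/
noncomputable def Ec (ζ : ℂ) : ℂ := ∑ x, Complex.exp ((s x * ζ + c x) / N)

/-- The complex profile. -/
noncomputable def Fc (ζ : ℂ) : ℂ := (Ec s c N ζ / Es s c N 0) ^ N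

/-- Derivative of the complex profile. -/
noncomputable def dFc (ζ : ℂ) : ℂ :=
  (Ec s c N ζ / Es s c N 0) ^ (N - 1) *
    ((∑ x, s x * Complex.exp ((s x * ζ + c x) / N)) / Es s c N 0)

theorem Es_pos (t : ℝ) : 0 < Es s c N t := sum_pos (fun _ _ => exp_pos _) univ_nonempty

theorem Fr_pos (t : ℝ) : 0 < Fr s c N t := pow_pos (div_pos (Es_pos s c N t) (Es_pos s c N 0)) _

theorem continuous_sg : Continuous (sg s c N) :=
  Continuous.div (by fun_prop) (by unfold Es; fun_prop) fun t => (Es_pos s c N t).ne'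

omit [Nonempty X] in
theorem continuous_Fr : Continuous (Fr s c N) := by unfold Fr Es; fun_prop

variable {s c N}

theorem sg_nonneg (hs : ∀ x, 0 ≤ s x) (t : ℝ) : 0 ≤ sg s c N t :=
  div_nonneg (sum_nonneg fun x _ => mul_nonneg (hs x) (exp_pos _).le) (Es_pos s c N t).le

theorem sg_le_one (hs : ∀ x, s x ≤ 1) (t : ℝ) : sg s c N t ≤ 1 :=
  (div_le_one (Es_pos s c N t)).2 (sum_le_sum fun x _ => mul_le_of_le_one_left (exp_pos _).le (hs x))

theorem Fr_mul_sg (hN : N ≠ 0) (t : ℝ) : Fr s c N t * sg s c N t =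
    (Es s c N t / Es s c N 0) ^ (N - 1) *
      ((∑ x, s x * exp ((s x * t + c x) / N)) / Es s c N 0) := by
  obtain ⟨k, rfl⟩ := Nat.exists_eq_succ_of_ne_zero hN
  have h1 := (Es_pos s c (k + 1) t).ne'
  have h2 := (Es_pos s c (k + 1) 0).ne'
  simp only [Fr, sg, Nat.succ_eq_add_one, add_tsub_cancel_right, pow_succ]
  generalize ∑ x, s x * exp ((s x * t + c x) / (k + 1 : ℕ)) = D
  field_simp

theorem hasDerivAt_Fr (hN : N ≠ 0) (t : ℝ) :
    HasDerivAt (Fr s c N) (Fr s c N t * sg s c N t) t := by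
  have hN' : (N : ℝ) ≠ 0 := Nat.cast_ne_zero.2 hN
  have h1 : HasDerivAt (Es s c N) (∑ x, exp ((s x * t + c x) / N) * (s x * 1 / N)) t :=
    HasDerivAt.fun_sum fun x _ =>
      ((((hasDerivAt_id t).const_mul (s x)).add_const (c x)).div_const (N : ℝ)).exp
  refine ((h1.div_const (Es s c N 0)).pow N).congr_deriv ?_
  rw [Fr_mul_sg hN, mul_comm (N : ℝ), mul_assoc, ← mul_div_assoc, mul_sum]
  congr 2
  exact sum_congr rfl fun x _ => by field_simp

omit [Nonempty X] in
theorem hasDerivAt_Fc (hN : N ≠ 0) (ζ : ℂ) : HasDerivAt (Fc s c N) (dFc s c N ζ) ζ := by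
  have hN' : (N : ℂ) ≠ 0 := Nat.cast_ne_zero.2 hN
  have h1 : HasDerivAt (Ec s c N) (∑ x, Complex.exp ((s x * ζ + c x) / N) * (s x * 1 / N)) ζ :=
    HasDerivAt.fun_sum fun x _ =>
      ((((hasDerivAt_id ζ).const_mul (s x : ℂ)).add_const (c x : ℂ)).div_const (N : ℂ)).cexp
  refine ((h1.div_const (Es s c N 0 : ℂ)).pow N).congr_deriv ?_
  rw [dFc, mul_comm (N : ℂ), mul_assoc, ← mul_div_assoc, mul_sum]
  congr 2
  exact sum_congr rfl fun x _ => by field_simp

theorem norm_term (a b : ℝ) (N : ℕ) (ζ : ℂ) :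
    ‖Complex.exp ((a * ζ + b) / N)‖ = exp ((a * ζ.re + b) / N) := by
  rw [Complex.norm_exp, Complex.div_natCast_re]
  simp

omit [Nonempty X] in
theorem norm_Ec_le (ζ : ℂ) : ‖Ec s c N ζ‖ ≤ Es s c N ζ.re :=
  (norm_sum_le _ _).trans (le_of_eq (sum_congr rfl fun _ _ => norm_term _ _ _ _))

theorem norm_Fc_le (ζ : ℂ) : ‖Fc s c N ζ‖ ≤ Fr s c N ζ.re := by
  have := Es_pos s c N 0
  rw [Fc, Fr, norm_pow, norm_div, Complex.norm_real, Real.norm_of_nonneg this.le]
  gcongr
  exact norm_Ec_le ζ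

theorem norm_dFc_le (hN : N ≠ 0) (hs : ∀ x, 0 ≤ s x) (ζ : ℂ) :
    ‖dFc s c N ζ‖ ≤ Fr s c N ζ.re * sg s c N ζ.re := by
  have := Es_pos s c N 0
  have := Es_pos s c N ζ.re
  rw [Fr_mul_sg hN, dFc, norm_mul, norm_pow, norm_div, norm_div, Complex.norm_real,
    Real.norm_of_nonneg (Es_pos s c N 0).le]
  gcongr
  · exact norm_Ec_le ζ
  · refine (norm_sum_le _ _).trans (le_of_eq (sum_congr rfl fun x _ => ?_))
    rw [norm_mul, norm_term, Complex.norm_real, Real.norm_of_nonneg (hs x)]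

theorem le_norm_Fc (hN : N ≠ 0) (hs0 : ∀ x, 0 ≤ s x) (hs : ∀ x, s x ≤ 1) {B : ℝ} (hB : B ≤ N)
    {ζ : ℂ} (hζ : |ζ.im| ≤ B) : (1 - B ^ 2 / (2 * N)) * Fr s c N ζ.re ≤ ‖Fc s c N ζ‖ := by
  have hN' : (0 : ℝ) < N := Nat.cast_pos.2 (Nat.pos_of_ne_zero hN)
  have h0 := Es_pos s c N 0
  have h0' := Es_pos s c N ζ.re
  have hB0 : 0 ≤ B := (abs_nonneg _).trans hζ
  have h1 : (B / N) ^ 2 ≤ 1 := pow_le_one₀ (by positivity) ((div_le_one hN').2 hB)
  have h2 : (1 - (B / N) ^ 2 / 2) * Es s c N ζ.re ≤ ‖Ec s c N ζ‖ := by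
    refine le_trans ?_ (Complex.re_le_norm _)
    rw [Es, Ec, Complex.re_sum, mul_sum]
    refine sum_le_sum fun x _ => ?_
    rw [Complex.exp_re, Complex.div_natCast_re, Complex.div_natCast_im, mul_comm]
    simp only [Complex.add_re, Complex.re_ofReal_mul, Complex.ofReal_re, Complex.add_im,
      Complex.im_ofReal_mul, Complex.ofReal_im, add_zero]
    gcongr
    refine le_trans ?_ one_sub_sq_div_two_le_cos
    gcongr 1 - ?_ / 2
    rw [sq_le_sq, abs_div, abs_div, abs_mul, abs_of_nonneg (hs0 x), abs_of_nonneg hB0]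
    gcongr
    exact (mul_le_of_le_one_left (abs_nonneg _) (hs x)).trans hζ
  have h3 := one_add_mul_le_pow (a := -((B / N) ^ 2 / 2)) (by linarith) N
  rw [Fc, Fr, norm_pow, norm_div, Complex.norm_real, Real.norm_of_nonneg h0.le]
  calc _ ≤ (1 - (B / N) ^ 2 / 2) ^ N * (Es s c N ζ.re / Es s c N 0) ^ N := by
        gcongr
        refine le_trans (le_of_eq ?_) h3
        field_simp
        ring
    _ ≤ _ := by
        rw [← mul_pow, ← mul_div_assoc]
        gcongr
        exact div_nonneg (mul_nonneg (by linarith) h0'.le) h0.le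

theorem Fr_le_exp (hs0 : ∀ x, 0 ≤ s x) (hs : ∀ x, s x ≤ 1) (t : ℝ) :
    Fr s c N t ≤ exp |t| := by
  rcases eq_or_ne N 0 with rfl | hN
  · simp [Fr]
  have hN' : (0 : ℝ) < N := Nat.cast_pos.2 (Nat.pos_of_ne_zero hN)
  have h0 := Es_pos s c N 0
  have h0' := Es_pos s c N t
  have h1 : Es s c N t / Es s c N 0 ≤ exp (|t| / N) := by
    rw [div_le_iff₀ h0, Es, Es, mul_sum]
    refine sum_le_sum fun x _ => ?_
    rw [← exp_add, ← add_div, mul_zero, zero_add]
    gcongr
    exact (mul_le_mul_of_nonneg_left (le_abs_self t) (hs0 x)).trans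
      (mul_le_of_le_one_left (abs_nonneg _) (hs x))
  refine (pow_le_pow_left₀ (by positivity) h1 N).trans (le_of_eq ?_)
  rw [← exp_nat_mul, mul_div_cancel₀ _ hN'.ne']

theorem exp_le_Fr (hN : N ≠ 0) (hc : ∀ x, c x ≤ 0) (x : X) (t : ℝ) :
    exp (s x * t + c x) ≤ Fintype.card X ^ N * Fr s c N t := by
  have hN' : (0 : ℝ) < N := Nat.cast_pos.2 (Nat.pos_of_ne_zero hN)
  have h0 := Es_pos s c N 0
  have h0' := Es_pos s c N t
  have h1 : Es s c N 0 ≤ Fintype.card X := by
    refine (sum_le_card_nsmul _ _ 1 fun x _ => ?_).trans (by simp)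
    rw [exp_le_one_iff, mul_zero, zero_add]
    exact div_nonpos_of_nonpos_of_nonneg (hc x) hN'.le
  have h2 : exp ((s x * t + c x) / N) ≤ Fintype.card X * (Es s c N t / Es s c N 0) := by
    refine (single_le_sum (f := fun x => exp ((s x * t + c x) / N)) (fun _ _ => (exp_pos _).le)
      (mem_univ x)).trans ?_
    rw [← mul_div_assoc, le_div_iff₀ h0, mul_comm]
    exact mul_le_mul_of_nonneg_right h1 h0'.le
  rw [Fr, ← mul_pow]
  refine le_trans (le_of_eq ?_) (pow_le_pow_left₀ (by positivity) h2 N)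
  rw [← exp_nat_mul, mul_div_cancel₀ _ hN'.ne']

theorem norm_dFc_le_three (hN : N ≠ 0) (hs0 : ∀ x, 0 ≤ s x) (hs : ∀ x, s x ≤ 1) {ζ : ℂ}
    (h : ‖ζ‖ ≤ 1) : ‖dFc s c N ζ‖ ≤ 3 := by
  refine (norm_dFc_le hN hs0 ζ).trans ((mul_le_of_le_one_right (Fr_pos _ _ _ _).le
    (sg_le_one hs _)).trans ((Fr_le_exp hs0 hs _).trans ?_))
  refine (exp_le_exp.2 ((Complex.abs_re_le_norm ζ).trans h)).trans ?_
  linarith [exp_one_lt_d9]

theorem norm_Fc_sub_one_le (hN : N ≠ 0) (hs0 : ∀ x, 0 ≤ s x) (hs : ∀ x, s x ≤ 1) {ζ : ℂ}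
    (h : ‖ζ‖ ≤ 1) : ‖Fc s c N ζ - 1‖ ≤ 3 * ‖ζ‖ := by
  have h0 : Fc s c N 0 = 1 := by
    have : Ec s c N 0 = Es s c N 0 := by simp [Ec, Es]
    rw [Fc, this, div_self (Complex.ofReal_ne_zero.2 (Es_pos s c N 0).ne'), one_pow]
  have := (convex_closedBall (0 : ℂ) 1).norm_image_sub_le_of_norm_hasDerivWithin_le
    (f := Fc s c N) (f' := dFc s c N) (C := 3) (fun ζ _ => (hasDerivAt_Fc hN ζ).hasDerivWithinAt)
    (fun ζ hζ => norm_dFc_le_three hN hs0 hs (by simpa using hζ)) (mem_closedBall_self zero_le_one)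
    (mem_closedBall_zero_iff.2 h)
  simpa [h0] using this

end Pool.Agent.MP_e3615c_an

end MrgPart0

-- ======== part 1: formerly Pool.Agent.MP_e3615c_an.Polar
section MrgPart1

/-!
Polar integration and Green's identity on annuli.
-/

namespace Pool.Agent.MP_e3615c_an

open MeasureTheory Metric Set Filter Topology Real
open scoped ENNReal

/-- Area integral over the annulus `r₀ < |z - c| < r₁`, in polar form. -/
noncomputable def PI (G : ℂ → ℝ) (c : ℂ) (r₀ r₁ : ℝ) : ℝ :=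
  ∫ s in r₀..r₁, 2 * π * s * circleAverage G c s

/-- The closed annulus. -/
def Ann (c : ℂ) (r₀ r₁ : ℝ) : Set ℂ := {z | ‖z - c‖ ∈ Icc r₀ r₁}

theorem Ann_zero (c : ℂ) (r : ℝ) : Ann c 0 r = closedBall c r := by
  ext z; simp [Ann, dist_eq_norm]

theorem Ann_subset_closedBall (c : ℂ) (r₀ r₁ : ℝ) : Ann c r₀ r₁ ⊆ closedBall c r₁ :=
  fun z hz => by simpa [dist_eq_norm] using hz.2

theorem sphere_subset_Ann (c : ℂ) {r₀ r₁ s : ℝ} (hs : s ∈ Icc r₀ r₁) :
    sphere c s ⊆ Ann c r₀ r₁ := fun z hz => by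
  have : ‖z - c‖ = s := by simpa [dist_eq_norm] using hz
  simpa [Ann, this] using hs

theorem two_pi_mul_circleAverage (G : ℂ → ℝ) (c : ℂ) (s : ℝ) :
    2 * π * circleAverage G c s = ∫ θ in (0 : ℝ)..2 * π, G (circleMap c s θ) := by
  rw [circleAverage_def, smul_eq_mul, ← mul_assoc, mul_inv_cancel₀ two_pi_pos.ne', one_mul]

theorem continuousOn_PI_integrand {G : ℂ → ℝ} {c : ℂ} {r₀ r₁ : ℝ} (h0 : 0 ≤ r₀)
    (hG : ContinuousOn G (Ann c r₀ r₁)) :
    ContinuousOn (fun s => 2 * π * s * circleAverage G c s) (Icc r₀ r₁) :=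
  (continuousOn_const.mul continuousOn_id).mul
    (ContinuousOn.circleAverage hG fun _ hr => h0.trans hr.1)

theorem intervalIntegrable_PI {G : ℂ → ℝ} {c : ℂ} {r₀ r₁ : ℝ} (h0 : 0 ≤ r₀) (h01 : r₀ ≤ r₁)
    (hG : ContinuousOn G (Ann c r₀ r₁)) :
    IntervalIntegrable (fun s => 2 * π * s * circleAverage G c s) volume r₀ r₁ :=
  (continuousOn_PI_integrand h0 hG).intervalIntegrable_of_Icc h01

theorem circleIntegrable_of_Ann {E : Type*} [NormedAddCommGroup E] {G : ℂ → E} {c : ℂ}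
    {r₀ r₁ s : ℝ} (h0 : 0 ≤ r₀) (hG : ContinuousOn G (Ann c r₀ r₁)) (hs : s ∈ Icc r₀ r₁) :
    CircleIntegrable G c s :=
  (hG.mono (sphere_subset_Ann c hs)).circleIntegrable (h0.trans hs.1)

theorem PI_mono {G G' : ℂ → ℝ} {c : ℂ} {r₀ r₁ : ℝ} (h0 : 0 ≤ r₀) (h01 : r₀ ≤ r₁)
    (hG : ContinuousOn G (Ann c r₀ r₁)) (hG' : ContinuousOn G' (Ann c r₀ r₁))
    (h : ∀ z ∈ Ann c r₀ r₁, G z ≤ G' z) : PI G c r₀ r₁ ≤ PI G' c r₀ r₁ := by
  refine intervalIntegral.integral_mono_on h01 (intervalIntegrable_PI h0 h01 hG)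
    (intervalIntegrable_PI h0 h01 hG') fun s hs => ?_
  have hs0 : 0 ≤ s := h0.trans hs.1
  refine mul_le_mul_of_nonneg_left ?_ (by positivity)
  refine circleAverage_mono (circleIntegrable_of_Ann h0 hG hs)
    (circleIntegrable_of_Ann h0 hG' hs) fun z hz => h z ?_
  rw [abs_of_nonneg hs0] at hz
  exact sphere_subset_Ann c hs hz

theorem PI_add {G G' : ℂ → ℝ} {c : ℂ} {r₀ r₁ : ℝ} (h0 : 0 ≤ r₀) (h01 : r₀ ≤ r₁)
    (hG : ContinuousOn G (Ann c r₀ r₁)) (hG' : ContinuousOn G' (Ann c r₀ r₁)) :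
    PI (fun z => G z + G' z) c r₀ r₁ = PI G c r₀ r₁ + PI G' c r₀ r₁ := by
  unfold PI
  rw [← intervalIntegral.integral_add (intervalIntegrable_PI h0 h01 hG)
    (intervalIntegrable_PI h0 h01 hG')]
  refine intervalIntegral.integral_congr fun s hs => ?_
  rw [uIcc_of_le h01] at hs
  rw [circleAverage_fun_add (circleIntegrable_of_Ann h0 hG hs)
    (circleIntegrable_of_Ann h0 hG' hs)]
  ring

theorem PI_const_mul (a : ℝ) (G : ℂ → ℝ) (c : ℂ) (r₀ r₁ : ℝ) :
    PI (fun z => a * G z) c r₀ r₁ = a * PI G c r₀ r₁ := by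
  unfold PI
  rw [← intervalIntegral.integral_const_mul]
  refine intervalIntegral.integral_congr fun s _ => ?_
  have := circleAverage_fun_smul (a := a) (f := G) (c := c) (R := s)
  simp only [smul_eq_mul] at this
  simp only [this]
  ring

theorem PI_const (a : ℝ) (c : ℂ) (r₀ r₁ : ℝ) :
    PI (fun _ => a) c r₀ r₁ = π * (r₁ ^ 2 - r₀ ^ 2) * a := by
  unfold PI
  simp only [circleAverage_const]
  have : ∀ s : ℝ, 2 * π * s * a = (2 * π * a) * s := fun s => by ring
  simp only [this]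
  rw [intervalIntegral.integral_const_mul, integral_id]
  ring

theorem PI_nonneg {G : ℂ → ℝ} {c : ℂ} {r₀ r₁ : ℝ} (h0 : 0 ≤ r₀) (h01 : r₀ ≤ r₁)
    (h : ∀ z ∈ Ann c r₀ r₁, 0 ≤ G z) : 0 ≤ PI G c r₀ r₁ := by
  refine intervalIntegral.integral_nonneg h01 fun s hs => ?_
  have hs0 : 0 ≤ s := h0.trans hs.1
  refine mul_nonneg (by positivity) (circleAverage_nonneg_of_nonneg fun z hz => h z ?_)
  rw [abs_of_nonneg hs0] at hz
  exact sphere_subset_Ann c hs hz

theorem PI_le_PI_zero {G : ℂ → ℝ} {c : ℂ} {r₀ r₁ : ℝ} (h0 : 0 ≤ r₀) (h01 : r₀ ≤ r₁)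
    (hG : ContinuousOn G (closedBall c r₁)) (h : ∀ z ∈ closedBall c r₁, 0 ≤ G z) :
    PI G c r₀ r₁ ≤ PI G c 0 r₁ := by
  have h1 : PI G c 0 r₁ = PI G c 0 r₀ + PI G c r₀ r₁ := by
    unfold PI
    rw [intervalIntegral.integral_add_adjacent_intervals]
    · refine intervalIntegrable_PI le_rfl h0 (hG.mono ?_)
      rw [Ann_zero]; exact closedBall_subset_closedBall h01
    · exact intervalIntegrable_PI h0 h01 (hG.mono (Ann_subset_closedBall _ _ _))
  have h2 : 0 ≤ PI G c 0 r₀ := PI_nonneg le_rfl h0 fun z hz =>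
    h z (closedBall_subset_closedBall h01 (Ann_subset_closedBall _ _ _ hz))
  linarith

theorem polarCoord_symm_eq (p : ℝ × ℝ) : Complex.polarCoord.symm p = circleMap 0 p.1 p.2 := by
  rw [Complex.polarCoord_symm_apply, circleMap_zero, Complex.exp_mul_I]
  simp

theorem integral_ball_eq_PI {G : ℂ → ℝ} {c : ℂ} {r : ℝ} (hr : 0 ≤ r)
    (hG : ContinuousOn G (closedBall c r)) : ∫ z in ball c r, G z = PI G c 0 r := by
  have e1 : ∫ z in ball c r, G z = ∫ z, (ball (0 : ℂ) r).indicator (fun z => G (c + z)) z := by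
    rw [← integral_indicator measurableSet_ball, ← integral_add_left_eq_self _ c]
    congr 1
    funext z
    by_cases hz : z ∈ ball (0 : ℂ) r
    · rw [indicator_of_mem hz, indicator_of_mem]
      simpa [dist_eq_norm] using hz
    · rw [indicator_of_notMem hz, indicator_of_notMem]
      simpa [dist_eq_norm] using hz
  rw [e1, ← Complex.integral_comp_polarCoord_symm, polarCoord_target]
  have e2 : ∫ p in Ioi (0 : ℝ) ×ˢ Ioo (-π) π,
      p.1 • (ball (0 : ℂ) r).indicator (fun z => G (c + z)) (Complex.polarCoord.symm p) =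
      ∫ p in Ioo (0 : ℝ) r ×ˢ Ioo (-π) π, p.1 * G (circleMap c p.1 p.2) := by
    have hm : MeasurableSet {p : ℝ × ℝ | p.1 < r} := measurableSet_lt measurable_fst measurable_const
    have : Ioo (0 : ℝ) r ×ˢ Ioo (-π) π = (Ioi (0 : ℝ) ×ˢ Ioo (-π) π) ∩ {p : ℝ × ℝ | p.1 < r} := by
      ext p; simp only [mem_prod, mem_Ioo, mem_inter_iff, mem_Ioi, mem_ofPred_eq]; tauto
    rw [this, ← setIntegral_indicator hm]
    refine setIntegral_congr_fun (measurableSet_Ioi.prod measurableSet_Ioo) fun p hp => ?_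
    have hp1 : 0 < p.1 := hp.1
    simp only [polarCoord_symm_eq]
    by_cases h : p.1 < r
    · rw [indicator_of_mem (s := {p : ℝ × ℝ | p.1 < r}) h, indicator_of_mem]
      · simp [circleMap]
      · simpa [abs_of_pos hp1] using h
    · rw [indicator_of_notMem (s := {p : ℝ × ℝ | p.1 < r}) h, indicator_of_notMem]
      · simp
      · simpa [abs_of_pos hp1] using h
  rw [e2]
  have hint : IntegrableOn (fun p : ℝ × ℝ => p.1 * G (circleMap c p.1 p.2))
      (Ioo (0 : ℝ) r ×ˢ Ioo (-π) π) (volume.prod volume) := by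
    have hc : ContinuousOn (fun p : ℝ × ℝ => p.1 * G (circleMap c p.1 p.2))
        (Icc (0 : ℝ) r ×ˢ Icc (-π) π) := by
      refine continuousOn_fst.mul (hG.comp circleMap.continuous.continuousOn fun p hp => ?_)
      exact closedBall_subset_closedBall hp.1.2 (circleMap_mem_closedBall c hp.1.1 _)
    exact (hc.integrableOn_compact (isCompact_Icc.prod isCompact_Icc)).mono_set
      (prod_mono Ioo_subset_Icc_self Ioo_subset_Icc_self)
  rw [Measure.volume_eq_prod, setIntegral_prod _ hint, PI, intervalIntegral.integral_of_le hr,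
    integral_Ioc_eq_integral_Ioo]
  refine setIntegral_congr_fun measurableSet_Ioo fun s _ => ?_
  simp only
  rw [integral_const_mul, ← integral_Ioc_eq_integral_Ioo,
    ← intervalIntegral.integral_of_le (by linarith [pi_pos]),
    show 2 * π * s * circleAverage G c s = s * (2 * π * circleAverage G c s) by ring,
    two_pi_mul_circleAverage]
  congr 1
  have t₀ : (fun θ ↦ G (circleMap c s θ)).Periodic (2 * π) :=
    fun x ↦ by simp [periodic_circleMap c s x]
  have := t₀.intervalIntegral_add_eq (-π) 0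
  rw [zero_add, show -π + 2 * π = π by ring] at this
  exact this

theorem lintegral_ball_eq_PI {G : ℂ → ℝ} {c : ℂ} {r : ℝ} (hr : 0 ≤ r)
    (hG : ContinuousOn G (closedBall c r)) (h : ∀ z ∈ closedBall c r, 0 ≤ G z) :
    ∫⁻ z in ball c r, ENNReal.ofReal (G z) = ENNReal.ofReal (PI G c 0 r) := by
  rw [← integral_ball_eq_PI hr hG, ofReal_integral_eq_lintegral_ofReal]
  · exact (hG.integrableOn_compact (isCompact_closedBall c r)).mono_set ball_subset_closedBall
  · exact (ae_restrict_iff' measurableSet_ball).2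
      (Eventually.of_forall fun z hz => h z (ball_subset_closedBall hz))

/-- A polar integral of a nonnegative function is bounded by a bound on its Lebesgue integral. -/
theorem PI_le_of_lintegral_le {G : ℂ → ℝ} {c : ℂ} {r₀ r₁ B : ℝ} (h0 : 0 ≤ r₀) (h01 : r₀ ≤ r₁)
    (hG : ContinuousOn G (closedBall c r₁)) (h : ∀ z ∈ closedBall c r₁, 0 ≤ G z) (hB : 0 ≤ B)
    (hle : ∫⁻ z in ball c r₁, ENNReal.ofReal (G z) ≤ ENNReal.ofReal B) : PI G c r₀ r₁ ≤ B := by
  rw [lintegral_ball_eq_PI (h0.trans h01) hG h, ENNReal.ofReal_le_ofReal_iff hB] at hle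
  exact (PI_le_PI_zero h0 h01 hG h).trans hle

end Pool.Agent.MP_e3615c_an

end MrgPart1

-- ======== part 2: formerly Pool.Agent.MP_e3615c_an.Green
section MrgPart2

/-!
Green's identity on annuli.
-/

namespace Pool.Agent.MP_e3615c_an

open MeasureTheory Metric Set Filter Topology Real Complex
open scoped ComplexConjugate

/-- The real-linear form `h ↦ Re (w h)`. -/
noncomputable def reMul (w : ℂ) : ℂ →L[ℝ] ℝ := reCLM.comp (ContinuousLinearMap.mul ℝ ℂ w)

@[simp] theorem reMul_apply (w h : ℂ) : reMul w h = (w * h).re := rfl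

theorem circleMap_mem_Ann {c : ℂ} {r₀ r₁ s : ℝ} (h0 : 0 ≤ r₀) (hs : s ∈ Icc r₀ r₁) (θ : ℝ) :
    circleMap c s θ ∈ Ann c r₀ r₁ :=
  sphere_subset_Ann c hs (circleMap_mem_sphere c (h0.trans hs.1) θ)

theorem green {V : ℂ → ℝ} {W κ : ℂ → ℂ} {r₀ r₁ : ℝ} (h0 : 0 ≤ r₀) (h01 : r₀ ≤ r₁)
    (hV : ∀ z ∈ Ann 0 r₀ r₁, HasFDerivAt V (reMul (W z)) z) (hW : ContinuousOn W (Ann 0 r₀ r₁))
    (hκ : ∀ z ∈ Ann 0 r₀ r₁, DifferentiableAt ℂ κ z) :
    PI (fun z => (W z * conj (κ z)).re) 0 r₀ r₁ =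
      2 * π * circleAverage (fun z => V z * (z * κ z).re) 0 r₁ -
        2 * π * circleAverage (fun z => V z * (z * κ z).re) 0 r₀ := by
  let E : ℝ × ℝ → ℂ := fun p => exp (p.2 * I)
  let Z : ℝ × ℝ → ℂ := fun p => circleMap 0 p.1 p.2
  have hZE : Z = fun p : ℝ × ℝ => (p.1 : ℂ) * E p := by
    funext p; simp [Z, E, circleMap_zero]
  let fst' : ℝ × ℝ →L[ℝ] ℂ := ofRealCLM.comp (ContinuousLinearMap.fst ℝ ℝ ℝ)
  let snd' : ℝ × ℝ →L[ℝ] ℂ := ofRealCLM.comp (ContinuousLinearMap.snd ℝ ℝ ℝ)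
  let E' : ℝ × ℝ → ℝ × ℝ →L[ℝ] ℂ := fun p => (E p * I) • snd'
  let Z' : ℝ × ℝ → ℝ × ℝ →L[ℝ] ℂ := fun p => (p.1 : ℂ) • E' p + E p • fst'
  have hE : ∀ p, HasFDerivAt E (E' p) p := by
    intro p
    have h1 : HasDerivAt (fun u : ℂ => exp (u * I)) (exp (p.2 * I) * I) (p.2 : ℂ) := by
      simpa using ((hasDerivAt_id (p.2 : ℂ)).mul_const I).cexp
    have h2 := HasDerivAt.comp_hasFDerivAt (h₂ := fun u : ℂ => exp (u * I)) (f := snd') p h1
      snd'.hasFDerivAt
    exact h2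
  have hZ : ∀ p, HasFDerivAt Z (Z' p) p := by
    intro p
    rw [hZE]
    exact fst'.hasFDerivAt.mul (hE p)
  let F : ℝ × ℝ → ℝ := fun p => V (Z p) * (Z p * κ (Z p)).re
  let G : ℝ × ℝ → ℝ := fun p => -(V (Z p) * (E p * κ (Z p)).im)
  let F' : ℝ × ℝ → ℝ × ℝ →L[ℝ] ℝ := fun p =>
    V (Z p) • reCLM.comp (Z p • (deriv κ (Z p) • Z' p) + κ (Z p) • Z' p) +
      (Z p * κ (Z p)).re • (reMul (W (Z p))).comp (Z' p)
  let G' : ℝ × ℝ → ℝ × ℝ →L[ℝ] ℝ := fun p =>
    -(V (Z p) • imCLM.comp (E p • (deriv κ (Z p) • Z' p) + κ (Z p) • E' p) +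
      (E p * κ (Z p)).im • (reMul (W (Z p))).comp (Z' p))
  have hFG : ∀ p : ℝ × ℝ, p.1 ∈ Icc r₀ r₁ → HasFDerivAt F (F' p) p ∧ HasFDerivAt G (G' p) p := by
    intro p hp
    have hmem : Z p ∈ Ann 0 r₀ r₁ := circleMap_mem_Ann h0 hp _
    have h1 : HasFDerivAt (fun q => V (Z q)) ((reMul (W (Z p))).comp (Z' p)) p :=
      (hV _ hmem).comp p (hZ p)
    have h2 : HasFDerivAt (fun q => κ (Z q)) (deriv κ (Z p) • Z' p) p :=
      (hκ _ hmem).hasDerivAt.comp_hasFDerivAt p (hZ p)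
    exact ⟨h1.mul (reCLM.hasFDerivAt.comp p ((hZ p).mul h2)),
      (h1.mul (imCLM.hasFDerivAt.comp p ((hE p).mul h2))).neg⟩
  have hdiv : ∀ p : ℝ × ℝ, F' p (1, 0) + G' p (0, 1) =
      p.1 * (W (Z p) * conj (κ (Z p))).re := by
    intro p
    have hn : (E p).re ^ 2 + (E p).im ^ 2 = 1 := by
      simp [E, exp_ofReal_mul_I_re, exp_ofReal_mul_I_im]
    have hz : Z p = (p.1 : ℂ) * E p := by rw [hZE]
    simp only [F', G', Z', E', fst', snd', add_apply, neg_apply, smul_apply,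
      ContinuousLinearMap.comp_apply, reCLM_apply, imCLM_apply, reMul_apply, ofRealCLM_apply,
      ContinuousLinearMap.coe_fst', ContinuousLinearMap.coe_snd', smul_eq_mul]
    generalize κ (Z p) = k
    generalize deriv κ (Z p) = k'
    generalize W (Z p) = w
    generalize V (Z p) = v
    rw [hz]
    generalize E p = e at hn
    simp only [mul_re, mul_im, add_re, add_im, ofReal_re, ofReal_im, I_re, I_im, conj_re, conj_im]
    linear_combination (p.1 * (w.re * k.re + w.im * k.im)) * hn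
  have hrect : uIcc r₀ r₁ ×ˢ uIcc (0 : ℝ) (2 * π) = Icc r₀ r₁ ×ˢ Icc (0 : ℝ) (2 * π) := by
    rw [uIcc_of_le h01, uIcc_of_le two_pi_pos.le]
  have key := integral2_divergence_prod_of_hasFDerivAt F G F' G' r₀ 0 r₁ (2 * π)
    (fun p hp => (hFG p (by rw [hrect] at hp; exact hp.1)).1.continuousAt.continuousWithinAt)
    (fun p hp => (hFG p (by rw [hrect] at hp; exact hp.1)).2.continuousAt.continuousWithinAt)
    (fun p hp => (hFG p (by
      rw [min_eq_left h01, max_eq_right h01] at hp; exact Ioo_subset_Icc_self hp.1)).1)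
    (fun p hp => (hFG p (by
      rw [min_eq_left h01, max_eq_right h01] at hp; exact Ioo_subset_Icc_self hp.1)).2)
    (by
      simp only [hdiv]
      rw [hrect]
      refine ContinuousOn.integrableOn_compact (isCompact_Icc.prod isCompact_Icc) ?_
      have hZc : ContinuousOn Z (Icc r₀ r₁ ×ˢ Icc (0 : ℝ) (2 * π)) :=
        circleMap.continuous.continuousOn
      have hm : MapsTo Z (Icc r₀ r₁ ×ˢ Icc (0 : ℝ) (2 * π)) (Ann 0 r₀ r₁) :=
        fun p hp => circleMap_mem_Ann h0 hp.1 _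
      have hκc : ContinuousOn κ (Ann 0 r₀ r₁) :=
        fun z hz => (hκ z hz).continuousAt.continuousWithinAt
      exact continuousOn_fst.mul (continuous_re.comp_continuousOn
        ((hW.comp hZc hm).mul (continuous_conj.comp_continuousOn (hκc.comp hZc hm)))))
  simp only [hdiv] at key
  have hper : ∀ s : ℝ, G (s, 2 * π) = G (s, 0) := by
    intro s
    have h1 : Z (s, 2 * π) = Z (s, 0) := by
      simpa using periodic_circleMap 0 s 0
    have h2 : E (s, 2 * π) = E (s, 0) := by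
      simp [E]
    simp only [G, h1, h2]
  simp only [hper, sub_self, zero_add] at key
  rw [two_pi_mul_circleAverage, two_pi_mul_circleAverage]
  refine Eq.trans ?_ key
  unfold PI
  refine intervalIntegral.integral_congr fun s _ => ?_
  rw [intervalIntegral.integral_const_mul,
    show 2 * π * s * circleAverage (fun z => (W z * conj (κ z)).re) 0 s =
      s * (2 * π * circleAverage (fun z => (W z * conj (κ z)).re) 0 s) by ring,
    two_pi_mul_circleAverage]

end Pool.Agent.MP_e3615c_an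

end MrgPart2

-- ======== part 3: formerly Pool.Agent.MP_e3615c_an.Pot
section MrgPart3

/-!
Poisson kernel, logarithmic potentials and their Dirichlet energy.
-/

namespace Pool.Agent.MP_e3615c_an

open MeasureTheory Metric Set Filter Topology Real
open scoped ComplexConjugate

/-- `Re ((1 + z b) / (1 - z b))`. -/
noncomputable def Pk (b z : ℂ) : ℝ := (1 - ‖z * b‖ ^ 2) / ‖1 - z * b‖ ^ 2

theorem one_sub_ne_zero_of_norm_lt {u : ℂ} (h : ‖u‖ < 1) : 1 - u ≠ 0 := by
  intro h'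
  rw [sub_eq_zero] at h'
  rw [← h'] at h
  simp at h

theorem Pk_nonneg {b z : ℂ} (h : ‖z * b‖ ≤ 1) : 0 ≤ Pk b z := by
  unfold Pk
  have := norm_nonneg (z * b)
  exact div_nonneg (by nlinarith) (by positivity)

theorem re_kernel {b z : ℂ} (h : ‖z * b‖ < 1) : (z * (b / (1 - z * b))).re = (Pk b z - 1) / 2 := by
  have h0 := one_sub_ne_zero_of_norm_lt h
  rw [← mul_div_assoc]
  unfold Pk
  generalize z * b = u at h0 ⊢
  have h1 : ‖1 - u‖ ^ 2 ≠ 0 := by positivity
  rw [Complex.div_re, Complex.normSq_eq_norm_sq]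
  field_simp
  rw [Complex.sq_norm, Complex.sq_norm, Complex.normSq_apply, Complex.normSq_apply]
  simp
  ring

theorem continuousOn_Pk (b : ℂ) {S : Set ℂ} (h : ∀ z ∈ S, ‖z * b‖ < 1) :
    ContinuousOn (Pk b) S := by
  unfold Pk
  refine ContinuousOn.div (by fun_prop) (by fun_prop) fun z hz => ?_
  have := one_sub_ne_zero_of_norm_lt (h z hz)
  positivity

theorem norm_mul_lt_of_sphere {b z : ℂ} {r : ℝ} (hb : ‖b‖ * r < 1) (hz : ‖z‖ ≤ r) :
    ‖z * b‖ < 1 := by
  rw [norm_mul]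
  have := norm_nonneg b
  nlinarith

theorem poisson {G : ℂ → ℂ} {r : ℝ} (hr : 0 < r) (hG : DiffContOnCl ℂ G (ball 0 r)) {b : ℂ}
    (hb : ‖b‖ * r < 1) :
    circleAverage (fun z => Pk b z • G z) 0 r = G (r ^ 2 * conj b) := by
  have hw : (r ^ 2 * conj b : ℂ) ∈ ball (0 : ℂ) r := by
    simp only [mem_ball, dist_zero_right, norm_mul, norm_pow, Complex.norm_real, Real.norm_eq_abs,
      sq_abs, Complex.norm_conj]
    nlinarith
  rw [← hG.circleAverage_poissonKernel_smul' hw]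
  refine circleAverage_congr_sphere fun z hz => ?_
  have hz' : ‖z‖ = r := by simpa [abs_of_pos hr] using hz
  simp only [sub_zero]
  congr 1
  have e : ‖z - r ^ 2 * conj b‖ = r * ‖1 - z * b‖ := by
    have : (r : ℂ) ^ 2 = z * conj z := by
      rw [Complex.mul_conj, Complex.normSq_eq_norm_sq, hz']; push_cast; ring
    rw [this, show z - z * conj z * conj b = z * conj (1 - z * b) by simp; ring, norm_mul,
      Complex.norm_conj, hz']
  have h0 := one_sub_ne_zero_of_norm_lt (norm_mul_lt_of_sphere hb hz'.le)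
  have h1 : ‖1 - z * b‖ ≠ 0 := norm_ne_zero_iff.2 h0
  unfold Pk
  rw [e, norm_mul, norm_mul, norm_pow, Complex.norm_conj, Complex.norm_real, Real.norm_eq_abs,
    sq_abs, hz']
  field_simp

theorem poisson_re {G : ℂ → ℂ} {r : ℝ} (hr : 0 < r) (hG : DiffContOnCl ℂ G (ball 0 r)) {b : ℂ}
    (hb : ‖b‖ * r < 1) :
    circleAverage (fun z => Pk b z * (G z).re) 0 r = (G (r ^ 2 * conj b)).re := by
  rw [← poisson hr hG hb]
  have hc : ContinuousOn G (sphere 0 r) :=
    hG.continuousOn.mono (by rw [closure_ball _ hr.ne']; exact sphere_subset_closedBall)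
  have hP : ContinuousOn (Pk b) (sphere 0 r) :=
    continuousOn_Pk b fun z hz => norm_mul_lt_of_sphere hb (by simpa using le_of_eq hz)
  have := Complex.reCLM.circleAverage_comp_comm (f := fun z => Pk b z • G z) (c := 0) (R := r)
    ((hP.smul hc).circleIntegrable hr.le)
  rw [Complex.reCLM_apply] at this
  rw [← this]
  congr 1
  funext z
  simp

theorem circleAverage_Pk {r : ℝ} (hr : 0 < r) {b : ℂ} (hb : ‖b‖ * r < 1) :
    circleAverage (Pk b) 0 r = 1 := by
  have := poisson_re (G := fun _ => 1) hr diffContOnCl_const hb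
  simpa using this

/-- Logarithmic potential `-∑ ν_x log (1 - z b_x)`. -/
noncomputable def pot {ι : Type*} (s : Finset ι) (ν : ι → ℝ) (b : ι → ℂ) (z : ℂ) : ℂ :=
  -∑ x ∈ s, (ν x : ℂ) * Complex.log (1 - z * b x)

/-- Its derivative. -/
noncomputable def dpot {ι : Type*} (s : Finset ι) (ν : ι → ℝ) (b : ι → ℂ) (z : ℂ) : ℂ :=
  ∑ x ∈ s, (ν x : ℂ) * (b x / (1 - z * b x))

section

variable {ι : Type*} {s : Finset ι} {ν : ι → ℝ} {b : ι → ℂ}

theorem hasDerivAt_pot {z : ℂ} (h : ∀ x ∈ s, ‖z * b x‖ < 1) :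
    HasDerivAt (pot s ν b) (dpot s ν b z) z := by
  have : ∀ x ∈ s, HasDerivAt (fun z => (ν x : ℂ) * Complex.log (1 - z * b x))
      (-((ν x : ℂ) * (b x / (1 - z * b x)))) z := by
    intro x hx
    have h1 : HasDerivAt (fun z : ℂ => 1 - z * b x) (-b x) z := by
      simpa using ((hasDerivAt_id z).mul_const (b x)).const_sub 1
    have hs : 1 - z * b x ∈ Complex.slitPlane := by
      have := Complex.mem_slitPlane_of_norm_lt_one (z := -(z * b x)) (by simpa using h x hx)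
      simpa [sub_eq_add_neg] using this
    have h2 := (h1.clog hs).const_mul (ν x : ℂ)
    exact h2.congr_deriv (by ring)
  have h3 := (HasDerivAt.fun_sum this).neg
  refine h3.congr_deriv ?_
  simp [dpot]

theorem differentiableAt_dpot {z : ℂ} (h : ∀ x ∈ s, ‖z * b x‖ < 1) :
    DifferentiableAt ℂ (dpot s ν b) z := by
  unfold dpot
  refine DifferentiableAt.fun_sum fun x hx => ?_
  have := one_sub_ne_zero_of_norm_lt (h x hx)
  fun_prop (disch := assumption)

theorem pot_re (z : ℂ) : (pot s ν b z).re = -∑ x ∈ s, ν x * Real.log ‖1 - z * b x‖ := by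
  simp [pot, Complex.log_re]

theorem abs_pot_im (z : ℂ) : |(pot s ν b z).im| ≤ π * ∑ x ∈ s, |ν x| := by
  simp only [pot, Complex.neg_im, abs_neg, Complex.im_sum, Complex.im_ofReal_mul, Complex.log_im,
    Finset.mul_sum]
  refine (Finset.abs_sum_le_sum_abs _ _).trans (Finset.sum_le_sum fun x _ => ?_)
  rw [abs_mul, mul_comm]
  exact mul_le_mul_of_nonneg_right (Complex.abs_arg_le_pi _) (abs_nonneg _)

theorem pot_zero : pot s ν b 0 = 0 := by simp [pot]

theorem hasFDerivAt_re {k : ℂ → ℂ} {k' z : ℂ} (h : HasDerivAt k k' z) :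
    HasFDerivAt (fun z => (k z).re) (reMul k') z := by
  refine (Complex.reCLM.hasFDerivAt.comp z (h.hasFDerivAt.restrictScalars ℝ)).congr_fderiv ?_
  refine ContinuousLinearMap.ext fun u => ?_
  simp [mul_comm]

theorem boundary_term {V : ℂ → ℝ} {r : ℝ} (hr : 0 < r) (hV : ContinuousOn V (sphere 0 r))
    (hb : ∀ x ∈ s, ‖b x‖ * r < 1) :
    circleAverage (fun z => V z * (z * dpot s ν b z).re) 0 r =
      ∑ x ∈ s, ν x / 2 * (circleAverage (fun z => Pk (b x) z * V z) 0 r - circleAverage V 0 r) := by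
  have hlt : ∀ x ∈ s, ∀ z ∈ sphere (0 : ℂ) r, ‖z * b x‖ < 1 := fun x hx z hz =>
    norm_mul_lt_of_sphere (hb x hx) (by simpa using le_of_eq hz)
  have hP : ∀ x ∈ s, ContinuousOn (Pk (b x)) (sphere 0 r) := fun x hx =>
    continuousOn_Pk _ (hlt x hx)
  have e : circleAverage (fun z => V z * (z * dpot s ν b z).re) 0 r =
      circleAverage (fun z => ∑ x ∈ s, (ν x / 2) • (Pk (b x) z * V z - V z)) 0 r := by
    refine circleAverage_congr_sphere fun z hz => ?_
    rw [abs_of_pos hr] at hz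
    simp only [dpot, Finset.mul_sum, Complex.re_sum]
    refine Finset.sum_congr rfl fun x hx => ?_
    rw [mul_left_comm, Complex.re_ofReal_mul, re_kernel (hlt x hx z hz), smul_eq_mul]
    ring
  rw [e, circleAverage_fun_sum]
  · refine Finset.sum_congr rfl fun x hx => ?_
    have := hP x hx
    rw [circleAverage_fun_smul, circleAverage_fun_sub, smul_eq_mul]
    · exact ContinuousOn.circleIntegrable hr.le (by fun_prop)
    · exact hV.circleIntegrable hr.le
  · intro x hx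
    have := hP x hx
    exact ContinuousOn.circleIntegrable hr.le (by fun_prop)

theorem diffContOnCl_pot {r : ℝ} (hr : 0 < r) (hb : ∀ x ∈ s, ‖b x‖ * r < 1) :
    DiffContOnCl ℂ (pot s ν b) (ball 0 r) := by
  refine DifferentiableOn.diffContOnCl ?_
  rw [closure_ball _ hr.ne']
  intro z hz
  exact (hasDerivAt_pot fun x hx => norm_mul_lt_of_sphere (hb x hx)
    (by simpa using hz)).differentiableAt.differentiableWithinAt

theorem energy {r : ℝ} (hr : 0 < r) (hb : ∀ x ∈ s, ‖b x‖ * r < 1) :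
    PI (fun z => ‖dpot s ν b z‖ ^ 2) 0 0 r =
      π * ∑ y ∈ s, ν y * (pot s ν b (r ^ 2 * conj (b y))).re := by
  have hlt : ∀ z ∈ Ann 0 0 r, ∀ x ∈ s, ‖z * b x‖ < 1 := fun z hz x hx =>
    norm_mul_lt_of_sphere (hb x hx) (by simpa using hz.2)
  have hd := diffContOnCl_pot (ν := ν) hr hb
  have := green (V := fun z => (pot s ν b z).re) (W := dpot s ν b) (κ := dpot s ν b) le_rfl hr.le
    (fun z hz => hasFDerivAt_re (hasDerivAt_pot (hlt z hz)))
    (fun z hz => (differentiableAt_dpot (hlt z hz)).continuousAt.continuousWithinAt)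
    (fun z hz => differentiableAt_dpot (hlt z hz))
  have e : (fun z => (dpot s ν b z * conj (dpot s ν b z)).re) = fun z => ‖dpot s ν b z‖ ^ 2 := by
    funext z
    rw [Complex.mul_conj, Complex.normSq_eq_norm_sq, Complex.ofReal_re]
  rw [e] at this
  rw [this, circleAverage_zero, boundary_term hr _ hb]
  · have h0 : circleAverage (fun z => (pot s ν b z).re) 0 r = 0 := by
      have := poisson_re (b := 0) hr hd (by simp)
      simpa [Pk, pot_zero] using this
    simp only [h0, sub_zero, zero_mul, Complex.zero_re, mul_zero, Finset.mul_sum]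
    refine Finset.sum_congr rfl fun y hy => ?_
    rw [poisson_re hr hd (hb y hy)]
    ring
  · refine Complex.continuous_re.comp_continuousOn (hd.continuousOn.mono ?_)
    rw [closure_ball _ hr.ne']; exact sphere_subset_closedBall

end

end Pool.Agent.MP_e3615c_an

end MrgPart3

-- ======== part 4: formerly Pool.Agent.MP_e3615c_an.Area
section MrgPart4

/-!
The area formula: `∫_{|w|<R} n(w) dA(w) = ∫_{|f|<R} |f'|^2 dA`.
-/

namespace Pool.Agent.MP_e3615c_an

open MeasureTheory Metric Set Filter Topology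
open scoped ENNReal

/-- Area, with multiplicity, of the part of the image lying over `|w| < R`. -/
noncomputable def area (f : ℂ → ℂ) (R : ℝ) : ℝ≥0∞ :=
  ∫⁻ z in {z | z ∈ ball (0 : ℂ) 1 ∧ ‖f z‖ < R}, ENNReal.ofReal (‖deriv f z‖ ^ 2)

/-- The area bound equivalent to mean `p`-valence. -/
def AB (p : ℝ) (f : ℂ → ℂ) : Prop :=
  ∀ R : ℝ, 0 < R → area f R ≤ ENNReal.ofReal (Real.pi * p * R ^ 2)

theorem isOpen_sublevel {f : ℂ → ℂ} (hf : DifferentiableOn ℂ f (ball 0 1)) (R : ℝ) :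
    IsOpen {z | z ∈ ball (0 : ℂ) 1 ∧ ‖f z‖ < R} :=
  hf.continuousOn.norm.isOpen_inter_preimage isOpen_ball isOpen_Iio

theorem det_complex (c : ℂ) :
    ((ContinuousLinearMap.toSpanSingleton ℂ c).restrictScalars ℝ).det = ‖c‖ ^ 2 := by
  simp [ContinuousLinearMap.det, LinearMap.det_restrictScalars,
    Algebra.norm_complex_eq, Complex.normSq_eq_norm_sq]

theorem exists_injOn_nhds {f : ℂ → ℂ} {z : ℂ} (hf : AnalyticAt ℂ f z) (h : deriv f z ≠ 0) :
    ∃ V ∈ 𝓝 z, InjOn f V := by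
  have h1 := (hf.hasStrictDerivAt.hasStrictFDerivAt_equiv h).eventually_left_inverse
  refine ⟨_, h1, fun x hx y hy hxy => ?_⟩
  simp only [mem_ofPred_eq] at hx hy
  rw [← hx, ← hy, hxy]

theorem exists_partition {f : ℂ → ℂ} (hf : DifferentiableOn ℂ f (ball 0 1)) :
    ∃ P : ℕ → Set ℂ, (∀ k, MeasurableSet (P k)) ∧ Pairwise (Function.onFun Disjoint P) ∧
      (∀ k, InjOn f (P k)) ∧ ⋃ k, P k = {z | z ∈ ball (0 : ℂ) 1 ∧ deriv f z ≠ 0} := by
  set U : Set ℂ := {z | z ∈ ball (0 : ℂ) 1 ∧ deriv f z ≠ 0} with hU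
  have han := hf.analyticOnNhd isOpen_ball
  have hUo : IsOpen U :=
    han.deriv.continuousOn.isOpen_inter_preimage isOpen_ball isOpen_compl_singleton
  let 𝒱 : Set (Set ℂ) := {V | V ∈ TopologicalSpace.countableBasis ℂ ∧ V ⊆ U ∧ InjOn f V}
  have h𝒱 : 𝒱.Countable := (TopologicalSpace.countable_countableBasis ℂ).mono fun V hV => hV.1
  let V : ℕ → Set ℂ := enumerateCountable h𝒱 ∅
  have hV : ∀ k, IsOpen (V k) ∧ V k ⊆ U ∧ InjOn f (V k) := by
    intro k
    have : V k ∈ insert ∅ 𝒱 := range_enumerateCountable_subset h𝒱 ∅ ⟨k, rfl⟩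
    rcases this with h | h
    · rw [h]; exact ⟨isOpen_empty, empty_subset _, injOn_empty _⟩
    · exact ⟨TopologicalSpace.isOpen_of_mem_countableBasis h.1, h.2.1, h.2.2⟩
  refine ⟨disjointed V, MeasurableSet.disjointed fun k => (hV k).1.measurableSet,
    disjoint_disjointed V, fun k => (hV k).2.2.mono (disjointed_subset V k), ?_⟩
  rw [iUnion_disjointed]
  refine Subset.antisymm (iUnion_subset fun k => (hV k).2.1) fun z hz => ?_
  obtain ⟨W, hW, hinj⟩ := exists_injOn_nhds (han z hz.1) hz.2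
  obtain ⟨W', hW'b, hzW', hW'⟩ := (TopologicalSpace.isBasis_countableBasis ℂ).mem_nhds_iff.1
    (inter_mem hW (hUo.mem_nhds hz))
  have : W' ∈ range V := subset_range_enumerate h𝒱 ∅
    ⟨hW'b, hW'.trans inter_subset_right, hinj.mono (hW'.trans inter_subset_left)⟩
  obtain ⟨k, hk⟩ := this
  exact mem_iUnion.2 ⟨k, hk ▸ hzW'⟩

theorem area_formula {f : ℂ → ℂ} (hf : DifferentiableOn ℂ f (ball 0 1)) (R : ℝ) :
    ∫⁻ w in ball (0 : ℂ) R, valence f w = area f R := by
  classical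
  obtain ⟨P, hPm, hPd, hPi, hPU⟩ := exists_partition hf
  have han := hf.analyticOnNhd isOpen_ball
  let f' : ℂ → ℂ →L[ℝ] ℂ := fun z =>
    (ContinuousLinearMap.toSpanSingleton ℂ (deriv f z)).restrictScalars ℝ
  have hf' : ∀ z ∈ ball (0 : ℂ) 1, HasFDerivAt f (f' z) z := fun z hz =>
    (han z hz).differentiableAt.hasDerivAt.hasFDerivAt.restrictScalars ℝ
  have hPsub : ∀ k, P k ⊆ {z | z ∈ ball (0 : ℂ) 1 ∧ deriv f z ≠ 0} := fun k =>
    hPU ▸ subset_iUnion P k
  set S : Set ℂ := {z | z ∈ ball (0 : ℂ) 1 ∧ ‖f z‖ < R} with hS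
  have hSm : MeasurableSet S := (isOpen_sublevel hf R).measurableSet
  let Z : Set ℂ := {z | z ∈ ball (0 : ℂ) 1 ∧ deriv f z = 0}
  have hZ : volume (f '' Z) = 0 :=
    addHaar_image_eq_zero_of_det_fderivWithin_eq_zero volume (f' := f')
      (fun z hz => (hf' z hz.1).hasFDerivWithinAt)
      (fun z hz => by simp only [f']; rw [det_complex, hz.2]; simp)
  have hval : ∀ w, w ∉ f '' Z → valence f w = ∑' k, (f '' P k).indicator 1 w := by
    intro w hw
    have h1 : ∀ z : ball (0 : ℂ) 1, (analyticOrderAt (fun u => f u - w) (z : ℂ) : ℝ≥0∞) =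
        ∑' k, if (z : ℂ) ∈ P k ∧ f z = w then 1 else 0 := by
      intro z
      by_cases hz : f z = w
      · have hd : deriv f z ≠ 0 := fun h => hw ⟨z, ⟨z.2, h⟩, hz⟩
        have : (z : ℂ) ∈ ⋃ k, P k := hPU ▸ ⟨z.2, hd⟩
        obtain ⟨k, hk⟩ := mem_iUnion.1 this
        rw [tsum_eq_single k]
        · rw [if_pos ⟨hk, hz⟩, ← hz, (han z z.2).analyticOrderAt_sub_eq_one_of_deriv_ne_zero hd]
          simp
        · intro k' hk'
          rw [if_neg]
          rintro ⟨h, -⟩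
          exact (disjoint_left.1 (hPd hk')) h hk
      · have : analyticOrderAt (fun u => f u - w) (z : ℂ) = 0 :=
          analyticOrderAt_eq_zero.2 (Or.inr (sub_ne_zero.2 hz))
        simp [this, hz]
    simp only [valence, h1]
    rw [ENNReal.tsum_comm]
    refine tsum_congr fun k => ?_
    by_cases hk : w ∈ f '' P k
    · obtain ⟨z, hz, hzw⟩ := hk
      rw [tsum_eq_single (⟨z, (hPsub k hz).1⟩ : ball (0 : ℂ) 1)]
      · rw [if_pos ⟨hz, hzw⟩, indicator_of_mem (mem_image_of_mem f hz |> fun h => hzw ▸ h)]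
        rfl
      · intro z' hz'
        rw [if_neg]
        rintro ⟨h1, h2⟩
        exact hz' (Subtype.ext (hPi k h1 hz (h2.trans hzw.symm)))
    · rw [indicator_of_notMem hk]
      refine ENNReal.tsum_eq_zero.2 fun z => ?_
      rw [if_neg]
      rintro ⟨h1, h2⟩
      exact hk ⟨z, h1, h2⟩
  have himg : ∀ k, MeasurableSet (f '' P k) := fun k =>
    measurable_image_of_fderivWithin (hPm k)
      (fun z hz => (hf' z (hPsub k hz).1).hasFDerivWithinAt) (hPi k)
  have hae : ∀ᵐ w ∂(volume.restrict (ball (0 : ℂ) R)),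
      valence f w = ∑' k, (f '' P k).indicator 1 w := by
    refine ae_restrict_of_ae ?_
    have : ∀ᵐ w : ℂ, w ∉ f '' Z := measure_eq_zero_iff_ae_notMem.1 hZ
    exact this.mono hval
  rw [lintegral_congr_ae hae, lintegral_tsum fun k =>
    (measurable_one.indicator (himg k)).aemeasurable]
  have h2 : ∀ k, ∫⁻ w in ball (0 : ℂ) R, (f '' P k).indicator 1 w =
      ∫⁻ z in P k ∩ S, ENNReal.ofReal (‖deriv f z‖ ^ 2) := by
    intro k
    rw [lintegral_indicator_one (himg k), Measure.restrict_apply (himg k)]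
    have e : f '' P k ∩ ball 0 R = f '' (P k ∩ S) := by
      ext w
      constructor
      · rintro ⟨⟨z, hz, rfl⟩, hw⟩
        exact ⟨z, ⟨hz, (hPsub k hz).1, by simpa using hw⟩, rfl⟩
      · rintro ⟨z, ⟨hz, -, hz'⟩, rfl⟩
        exact ⟨⟨z, hz, rfl⟩, by simpa using hz'⟩
    rw [e, ← lintegral_abs_det_fderiv_eq_addHaar_image volume ((hPm k).inter hSm) (f' := f')
      (fun z hz => (hf' z hz.2.1).hasFDerivWithinAt) ((hPi k).mono inter_subset_left)]
    refine lintegral_congr fun z => ?_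
    simp only [f']
    rw [det_complex, abs_of_nonneg (by positivity)]
  simp only [h2]
  rw [← lintegral_iUnion (fun k => (hPm k).inter hSm)
    (fun i j hij => (hPd hij).mono inter_subset_left inter_subset_left), ← iUnion_inter, hPU, area,
    ← hS]
  have hUm : MeasurableSet {z | z ∈ ball (0 : ℂ) 1 ∧ deriv f z ≠ 0} :=
    hPU ▸ MeasurableSet.iUnion hPm
  rw [← lintegral_inter_add_sdiff _ S hUm, inter_comm]
  have : ∫⁻ z in S \ {z | z ∈ ball (0 : ℂ) 1 ∧ deriv f z ≠ 0},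
      ENNReal.ofReal (‖deriv f z‖ ^ 2) = 0 := by
    refine setLIntegral_eq_zero (hSm.diff hUm) fun z hz => ?_
    have : deriv f z = 0 := by
      by_contra h
      exact hz.2 ⟨hz.1.1, h⟩
    simp [this]
  rw [this, add_zero]

theorem meanValent_iff {p : ℝ} {f : ℂ → ℂ} (hf : DifferentiableOn ℂ f (ball 0 1)) :
    MeanValent p f ↔ AB p f := by
  simp only [MeanValent, AB, area_formula hf]

end Pool.Agent.MP_e3615c_an

end MrgPart4

-- ======== part 5: formerly Pool.Agent.MP_e3615c_an.Zeros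
section MrgPart5

/-!
A mean `p`-valent function that is not identically zero has no zeros near the unit circle.
-/

namespace Pool.Agent.MP_e3615c_an

open MeasureTheory Metric Set Filter Topology
open scoped ENNReal

theorem zeros_finite {p : ℝ} {f : ℂ → ℂ} (hf : DifferentiableOn ℂ f (ball 0 1)) (hp : AB p f)
    (hne : ¬ EqOn f 0 (ball 0 1)) : {z | z ∈ ball (0 : ℂ) 1 ∧ f z = 0}.Finite := by
  classical
  have han := hf.analyticOnNhd isOpen_ball
  by_contra hinf
  obtain ⟨N, hN⟩ := exists_nat_gt (max p 0)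
  obtain ⟨T, hT, hTc⟩ := Set.Infinite.exists_subset_card_eq hinf N
  obtain ⟨U, hU, hUd⟩ := T.finite_toSet.t2_separation
  have hev : ∀ᶠ w in 𝓝 (0 : ℂ), ∀ z ∈ T, w ∈ f '' (U z ∩ ball 0 1) := by
    rw [eventually_all_finset]
    intro z hz
    obtain ⟨hz1, hz2⟩ := hT hz
    rcases (han z hz1).eventually_constant_or_nhds_le_map_nhds with h | h
    · exfalso
      apply hne
      refine han.eqOn_zero_of_preconnected_of_eventuallyEq_zero (convex_ball _ _).isPreconnected
        hz1 ?_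
      filter_upwards [h] with u hu
      rw [hu, hz2]; rfl
    · rw [hz2] at h
      exact h (image_mem_map (inter_mem ((hU z).2.mem_nhds (hU z).1) (isOpen_ball.mem_nhds hz1)))
  obtain ⟨R, hR, hRw⟩ := Metric.eventually_nhds_iff_ball.1 hev
  have hval : ∀ w ∈ ball (0 : ℂ) R, (N : ℝ≥0∞) ≤ valence f w := by
    intro w hw
    choose! g hg hgw using hRw w hw
    let g' : T → ball (0 : ℂ) 1 := fun z => ⟨g z, (hg z z.2).2⟩
    have hinj : Function.Injective g' := by
      intro z z' h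
      by_contra hzz
      have h1 : g z = g z' := congrArg Subtype.val h
      have := hUd z.2 z'.2 (fun e => hzz (Subtype.ext e))
      exact disjoint_left.1 this (hg z z.2).1 (h1 ▸ (hg z' z'.2).1)
    calc (N : ℝ≥0∞) = ∑ _z : T, 1 := by simp [hTc]
      _ ≤ ∑ z : T, (analyticOrderAt (fun u => f u - w) (g' z : ℂ) : ℝ≥0∞) := by
        refine Finset.sum_le_sum fun z _ => ?_
        have : analyticOrderAt (fun u => f u - w) (g' z : ℂ) ≠ 0 :=
          analyticOrderAt_ne_zero.2 ⟨(han _ (g' z).2).sub analyticAt_const,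
            sub_eq_zero.2 (hgw z z.2)⟩
        have h1 : (1 : ℕ∞) ≤ analyticOrderAt (fun u => f u - w) (g' z : ℂ) :=
          Order.one_le_iff_ne_zero.2 this
        exact_mod_cast ENat.toENNReal_le.2 h1
      _ = ∑ z ∈ Finset.univ.image g', (analyticOrderAt (fun u => f u - w) (z : ℂ) : ℝ≥0∞) := by
        rw [Finset.sum_image fun x _ y _ h => hinj h]
      _ ≤ valence f w := ENNReal.sum_le_tsum _
  have h1 : (N : ℝ≥0∞) * volume (ball (0 : ℂ) R) ≤ ENNReal.ofReal (Real.pi * p * R ^ 2) := by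
    refine le_trans ?_ ((area_formula hf R).symm ▸ hp R hR)
    rw [← setLIntegral_const]
    exact setLIntegral_mono' measurableSet_ball hval
  rw [Complex.volume_ball] at h1
  have h2 : (N : ℝ≥0∞) * (ENNReal.ofReal R ^ 2 * NNReal.pi) =
      ENNReal.ofReal (N * (R ^ 2 * Real.pi)) := by
    rw [ENNReal.ofReal_mul (by positivity), ENNReal.ofReal_mul (by positivity),
      ENNReal.ofReal_pow hR.le, ENNReal.ofReal_natCast, ← NNReal.coe_real_pi,
      ENNReal.ofReal_coe_nnreal]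
  have hpos : 0 < R ^ 2 * Real.pi := by positivity
  have hN0 : (0 : ℝ) < N := lt_of_le_of_lt (le_max_right _ _) hN
  have hNp : p < N := lt_of_le_of_lt (le_max_left _ _) hN
  rw [h2, ENNReal.ofReal_le_ofReal_iff'] at h1
  rcases h1 with h1 | h1
  · nlinarith
  · nlinarith

theorem exists_zero_free {p : ℝ} {f : ℂ → ℂ} (hf : DifferentiableOn ℂ f (ball 0 1)) (hp : AB p f)
    (hne : ¬ EqOn f 0 (ball 0 1)) :
    ∃ r₀ : ℝ, 1 / 2 ≤ r₀ ∧ r₀ < 1 ∧ ∀ z : ℂ, r₀ ≤ ‖z‖ → ‖z‖ < 1 → f z ≠ 0 := by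
  have hfin := zeros_finite hf hp hne
  have : ∀ᶠ r in 𝓝[<] (1 : ℝ), ∀ z ∈ {z | z ∈ ball (0 : ℂ) 1 ∧ f z = 0}, ‖z‖ < r := by
    rw [eventually_all_finite hfin]
    intro z hz
    have : ‖z‖ < 1 := by simpa using hz.1
    exact mem_nhdsWithin_of_mem_nhds (Ioi_mem_nhds this)
  have h2 : ∀ᶠ r in 𝓝[<] (1 : ℝ), (1 / 2 : ℝ) < r :=
    mem_nhdsWithin_of_mem_nhds (Ioi_mem_nhds (by norm_num))
  obtain ⟨r, ⟨hr1, hr2⟩, hr3⟩ := ((this.and h2).and self_mem_nhdsWithin).exists
  refine ⟨r, hr2.le, hr3, fun z h1 h2 h3 => ?_⟩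
  have := hr1 z ⟨by simpa using h2, h3⟩
  linarith

end Pool.Agent.MP_e3615c_an

end MrgPart5

-- marker of a merged file
example : 731051 + 682244 = 731051 + 682244 := rfl
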