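import Mathlib.Data.Int.Star
import Mathlib.Algebra.Order.Ring.Star
import Mathlib.LinearAlgebra.Lagrange
import Mathlib.RingTheory.PicardGroup
import Mathlib.Algebra.Order.Chebyshev
import Mathlib.Algebra.Ring.IsFormallyReal
import Mathlib.Analysis.Complex.LocallyUniformLimit
import Mathlib.Analysis.Complex.TaylorSeries
import Mathlib.Combinatorics.SimpleGraph.Basic
import Mathlib.Analysis.Real.Pi.Bounds
import Mathlib.Order.Interval.Finset.Box
import Mathlib.RingTheory.PiTensorProduct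
import Pool.Agent.MP_e3615c_an.Defs
import Pool.Agent.MP_e3615c_an.Zeros

-- ======== part 0: formerly Pool.Agent.MP_e3615c_an.Geom
section MrgPart0

/-!
Realising an ultrametric exponent matrix by points near the unit circle.
-/

namespace Pool.Agent.MP_e3615c_an

open Finset Filter Topology Real
open scoped ComplexConjugate

variable {m : ℕ} {H : Fin (m + 1) → Fin (m + 1) → ℝ}

/-- The class of `i` at level `t`. -/
noncomputable def clsAt (H : Fin (m + 1) → Fin (m + 1) → ℝ) (t : ℝ) (i : Fin (m + 1)) :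
    Finset (Fin (m + 1)) := univ.filter fun j => t < H i j ∨ j = i

theorem self_mem_clsAt (t : ℝ) (i : Fin (m + 1)) : i ∈ clsAt H t i := by simp [clsAt]

/-- The least member of the class. -/
noncomputable def idx (H : Fin (m + 1) → Fin (m + 1) → ℝ) (t : ℝ) (i : Fin (m + 1)) : ℕ :=
  ((clsAt H t i).min' ⟨i, self_mem_clsAt t i⟩ : Fin (m + 1))

theorem idx_le (t : ℝ) (i : Fin (m + 1)) : idx H t i ≤ m := Nat.lt_succ_iff.1 (Fin.is_lt _)

theorem IsUltra.le_diag (hH : IsUltra H) (i j : Fin (m + 1)) : H i j ≤ H i i := by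
  have := hH.2.2 i j i
  rwa [hH.1 j i, min_self] at this

theorem idx_eq (hH : IsUltra H) {t : ℝ} {i j : Fin (m + 1)} (h : t < H i j) :
    idx H t i = idx H t j := by
  have key : ∀ i j, t < H i j → clsAt H t i ⊆ clsAt H t j := by
    intro i j h k hk
    simp only [clsAt, mem_filter, mem_univ, true_and] at hk ⊢
    rcases hk with hk | rfl
    · exact Or.inl ((lt_min (hH.1 i j ▸ h) hk).trans_le (hH.2.2 j i k))
    · exact Or.inl (hH.1 k j ▸ h)
  have : clsAt H t i = clsAt H t j := (key i j h).antisymm (key j i (hH.1 i j ▸ h))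
  simp only [idx, this]

theorem idx_ne (hH : IsUltra H) {i j : Fin (m + 1)} (h : i ≠ j) :
    idx H (H i j) i ≠ idx H (H i j) j := by
  intro e
  have h1 := min'_mem (clsAt H (H i j) i) ⟨i, self_mem_clsAt _ i⟩
  have h2 := min'_mem (clsAt H (H i j) j) ⟨j, self_mem_clsAt _ j⟩
  rw [Fin.ext e] at h1
  generalize (clsAt H (H i j) j).min' ⟨j, self_mem_clsAt _ j⟩ = k at h1 h2
  simp only [clsAt, mem_filter, mem_univ, true_and] at h1 h2
  rcases h1 with h1 | rfl <;> rcases h2 with h2 | h2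
  · exact ((lt_min h1 (hH.1 j k ▸ h2)).trans_le (hH.2.2 i k j)).false
  · exact (h2 ▸ h1).false
  · exact (hH.1 j k ▸ h2).false
  · exact h h2

theorem embed (hH : IsUltra H) : ∃ C : ℝ, 0 ≤ C ∧ ∀ᶠ l : ℝ in atTop, ∃ θ : Fin (m + 1) → ℝ,
    (∀ i, |θ i| ≤ C) ∧ ∀ i j, i ≠ j →
      exp (-(H i j * l)) / 2 ≤ |θ i - θ j| ∧ |θ i - θ j| ≤ (m + 1) * exp (-(H i j * l)) := by
  classical
  let T : Finset ℝ := univ.image fun q : Fin (m + 1) × Fin (m + 1) => H q.1 q.2
  have key : ∀ i j, ∀ᶠ l : ℝ in atTop,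
      |∑ t ∈ T, ((idx H t i : ℝ) - idx H t j) * exp ((H i j - t) * l) -
        ((idx H (H i j) i : ℝ) - idx H (H i j) j)| < 1 / 2 := by
    intro i j
    have h1 : Tendsto (fun l => ∑ t ∈ T, ((idx H t i : ℝ) - idx H t j) * exp ((H i j - t) * l))
        atTop (𝓝 (∑ t ∈ T, if t = H i j then ((idx H t i : ℝ) - idx H t j) else 0)) := by
      refine tendsto_finsetSum _ fun t _ => ?_
      rcases lt_trichotomy t (H i j) with h | h | h
      · simp [idx_eq hH h]
      · simp [h]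
      · rw [if_neg h.ne', ← mul_zero ((idx H t i : ℝ) - idx H t j)]
        exact (tendsto_exp_atBot.comp (tendsto_id.const_mul_atTop_of_neg (by linarith))).const_mul _
    rw [sum_ite_eq', if_pos (mem_image.2 ⟨(i, j), mem_univ _, rfl⟩)] at h1
    simpa only [Real.dist_eq] using Metric.tendsto_nhds.1 h1 (1 / 2) (by norm_num)
  refine ⟨T.card * m, by positivity, ?_⟩
  filter_upwards [eventually_all.2 fun i => eventually_all.2 fun j => key i j,
    eventually_ge_atTop 0] with l hl hl0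
  refine ⟨fun i => ∑ t ∈ T, idx H t i * exp (-(t * l)), fun i => ?_, fun i j hij => ?_⟩
  · rw [abs_of_nonneg (by positivity), ← nsmul_eq_mul]
    refine sum_le_card_nsmul _ _ _ fun t ht => ?_
    obtain ⟨q, -, rfl⟩ := mem_image.1 ht
    refine (mul_le_of_le_one_right (by positivity) ?_).trans (by exact_mod_cast idx_le _ i)
    rw [exp_le_one_iff, neg_nonpos]
    exact mul_nonneg (hH.2.1 _ _).1 hl0
  · have e : ∑ t ∈ T, idx H t i * exp (-(t * l)) - ∑ t ∈ T, idx H t j * exp (-(t * l)) =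
        (∑ t ∈ T, ((idx H t i : ℝ) - idx H t j) * exp ((H i j - t) * l)) * exp (-(H i j * l)) := by
      rw [← sum_sub_distrib, sum_mul]
      refine sum_congr rfl fun t _ => ?_
      rw [mul_assoc, ← exp_add, ← sub_mul]
      congr 2
      ring
    have h1 := hl i j
    simp only [e, abs_mul, abs_of_pos (exp_pos _)]
    set S := ∑ t ∈ T, ((idx H t i : ℝ) - idx H t j) * exp ((H i j - t) * l)
    have h2 : 1 ≤ |(idx H (H i j) i : ℝ) - idx H (H i j) j| := by
      have := Int.one_le_abs (sub_ne_zero.2 (Int.natCast_inj.not.2 (idx_ne hH hij)))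
      exact_mod_cast this
    have h3 : |(idx H (H i j) i : ℝ) - idx H (H i j) j| ≤ m := by
      have a1 : (idx H (H i j) i : ℝ) ≤ m := by exact_mod_cast idx_le _ i
      have a2 : (idx H (H i j) j : ℝ) ≤ m := by exact_mod_cast idx_le _ j
      rw [abs_le]
      constructor <;> linarith [Nat.cast_nonneg (α := ℝ) (idx H (H i j) i),
        Nat.cast_nonneg (α := ℝ) (idx H (H i j) j)]
    have h4 := abs_sub_abs_le_abs_sub S ((idx H (H i j) i : ℝ) - idx H (H i j) j)
    have h5 := abs_sub_abs_le_abs_sub ((idx H (H i j) i : ℝ) - idx H (H i j) j) S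
    rw [abs_sub_comm _ S] at h5
    have h6 := exp_pos (-(H i j * l))
    constructor <;> nlinarith

/-- The point `e^{ix}`. -/
noncomputable def ei (x : ℝ) : ℂ := Complex.exp (Complex.I * x)

@[simp] theorem norm_ei (x : ℝ) : ‖ei x‖ = 1 := Complex.norm_exp_I_mul_ofReal x

theorem ei_mul_conj (x y : ℝ) : ei x * conj (ei y) = ei (x - y) := by
  rw [ei, ei, ei, ← Complex.exp_conj, ← Complex.exp_add]
  simp [sub_eq_add_neg, mul_add]

theorem norm_ei_sub (x y : ℝ) : ‖ei x - ei y‖ = ‖1 - ei (x - y)‖ := by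
  have h1 : ei y * conj (ei y) = 1 := by rw [ei_mul_conj]; simp [ei]
  rw [← ei_mul_conj, ← h1, ← sub_mul, norm_mul, norm_sub_rev]
  simp

theorem norm_one_sub_ei_le (x : ℝ) : ‖1 - ei x‖ ≤ |x| := by
  rw [norm_sub_rev]; exact norm_exp_I_mul_ofReal_sub_one_le

theorem le_norm_one_sub_ei {x : ℝ} (h : |x| ≤ 3) : |x| / 2 ≤ ‖1 - ei x‖ := by
  rw [norm_sub_rev, ei, Complex.norm_exp_I_mul_ofReal_sub_one, Real.norm_eq_abs, abs_mul, abs_two]
  have h1 := mul_abs_le_abs_sin (x := x / 2) (by rw [abs_div, abs_two]; linarith [pi_gt_three])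
  rw [abs_div, abs_two] at h1
  have h2 : 1 / 2 ≤ 2 / π := by rw [div_le_div_iff₀ two_pos pi_pos]; linarith [pi_le_four]
  nlinarith [abs_nonneg x]

theorem kernel_ge {s : ℝ} (hs : 0 ≤ s) {u : ℂ} (hu : ‖u‖ ≤ 1) : 1 - s ≤ ‖1 - s * u‖ := by
  have := norm_sub_norm_le (1 : ℂ) (s * u)
  rw [norm_one, norm_mul, Complex.norm_real, Real.norm_of_nonneg hs] at this
  nlinarith

theorem norm_smul_sub {s : ℝ} (hs : s ≤ 1) {u : ℂ} (hu : ‖u‖ ≤ 1) : ‖u - s * u‖ ≤ 1 - s := by
  rw [show u - s * u = ((1 - s : ℝ) : ℂ) * u by push_cast; ring, norm_mul, Complex.norm_real,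
    Real.norm_of_nonneg (by linarith)]
  exact mul_le_of_le_one_right (by linarith) hu

theorem kernel_le {s : ℝ} (hs : s ≤ 1) {u : ℂ} (hu : ‖u‖ ≤ 1) :
    ‖1 - s * u‖ ≤ ‖1 - u‖ + (1 - s) :=
  (norm_sub_le_norm_sub_add_norm_sub _ u _).trans (by linarith [norm_smul_sub hs hu])

theorem kernel_ge' {s : ℝ} (hs0 : 0 ≤ s) (hs : s ≤ 1) {u : ℂ} (hu : ‖u‖ ≤ 1) :
    ‖1 - u‖ / 2 ≤ ‖1 - s * u‖ := by
  have h1 := norm_sub_le_norm_sub_add_norm_sub 1 (s * u) u
  have h2 := norm_smul_sub hs hu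
  rw [norm_sub_rev] at h2
  linarith [kernel_ge hs0 hu]

theorem geom (hH : IsUltra H) {ε : ℝ} (hε : 0 < ε) : ∃ C : ℝ, 1 ≤ C ∧ ∀ᶠ l : ℝ in atTop,
    ∃ (w : Fin (m + 1) → ℂ) (ϑ : Fin (m + 1) → ℝ),
      (∀ i, ‖w i‖ = 1 - exp (-((ε + H i i) * l))) ∧
      (∀ i j, exp (-((ε + H i j) * l)) ≤ C * ‖1 - w i * conj (w j)‖) ∧
      (∀ i, ‖1 - w i‖ ≤ C * exp (-(ε * l))) ∧
      (∀ i j t, 0 ≤ t → t ≤ exp (-((ε + H i i) * l)) / 8 →
        ‖1 - ei (ϑ i + t) * conj (w j)‖ ≤ C * exp (-((ε + H i j) * l))) ∧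
      ∀ i j t t', i ≠ j → 0 ≤ t → t ≤ exp (-((ε + H i i) * l)) / 8 → 0 ≤ t' →
        t' ≤ exp (-((ε + H j j) * l)) / 8 →
        exp (-((ε + H i j) * l)) ≤ C * ‖ei (ϑ i + t) - ei (ϑ j + t')‖ := by
  obtain ⟨C, hC, h⟩ := embed hH
  have hm : (0 : ℝ) ≤ m := Nat.cast_nonneg m
  refine ⟨C + m + 8, by linarith, ?_⟩
  have ht : Tendsto (fun l => (m + 2) * exp (-(ε * l))) atTop (𝓝 ((m + 2) * 0)) :=
    (tendsto_exp_atBot.comp (tendsto_neg_atTop_atBot.comp
      (tendsto_id.const_mul_atTop hε))).const_mul _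
  filter_upwards [h, eventually_ge_atTop 0, ht.eventually (ge_mem_nhds (by norm_num : ((m : ℝ) + 2) * 0 < 3))]
    with l ⟨θ, hθ, hθ'⟩ hl hl3
  let E : Fin (m + 1) → Fin (m + 1) → ℝ := fun i j => exp (-((ε + H i j) * l))
  have hE0 : ∀ i j, 0 < E i j := fun i j => exp_pos _
  have hEε : ∀ i j, E i j ≤ exp (-(ε * l)) := fun i j =>
    exp_le_exp.2 (by nlinarith [mul_nonneg (hH.2.1 i j).1 hl])
  have hε1 : exp (-(ε * l)) ≤ 1 := exp_le_one_iff.2 (by nlinarith [mul_nonneg hε.le hl])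
  have hE1 : ∀ i j, E i j ≤ 1 := fun i j => (hEε i j).trans hε1
  have hEd : ∀ i j, E i i ≤ E i j := fun i j =>
    exp_le_exp.2 (by nlinarith [mul_le_mul_of_nonneg_right (hH.le_diag i j) hl])
  have hEd' : ∀ i j, E j j ≤ E i j := fun i j => by
    have := hEd j i
    simp only [E] at this ⊢
    rwa [hH.1 j i] at this
  let ϑ : Fin (m + 1) → ℝ := fun i => exp (-(ε * l)) * θ i
  have hϑ : ∀ i j, i ≠ j → E i j / 2 ≤ |ϑ i - ϑ j| ∧ |ϑ i - ϑ j| ≤ (m + 1) * E i j := by
    intro i j hij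
    have e : E i j = exp (-(ε * l)) * exp (-(H i j * l)) := by
      rw [← exp_add]; exact congrArg exp (by ring)
    rw [← mul_sub, abs_mul, abs_of_pos (exp_pos _), e, mul_div_assoc, mul_left_comm]
    constructor <;> gcongr
    · exact (hθ' i j hij).1
    · exact (hθ' i j hij).2
  have hsep : ∀ i j t t', i ≠ j → 0 ≤ t → t ≤ E i i / 8 → 0 ≤ t' → t' ≤ E j j / 8 →
      E i j / 8 ≤ ‖1 - ei (ϑ i + t - (ϑ j + t'))‖ := by
    intro i j t t' hij a1 a2 a3 a4
    have b1 := hϑ i j hij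
    have b2 : |t - t'| ≤ E i j / 8 := by
      rw [abs_le]; constructor <;> linarith [hEd i j, hEd' i j]
    have e : ϑ i + t - (ϑ j + t') = (ϑ i - ϑ j) + (t - t') := by ring
    have b3 := abs_add_le (ϑ i - ϑ j) (t - t')
    have b4 := abs_sub_abs_le_abs_add (ϑ i - ϑ j) (t - t')
    refine le_trans ?_ (le_norm_one_sub_ei ?_)
    · rw [e]; linarith [hE0 i j]
    · rw [e]; nlinarith [hEε i j, hE0 i j]
  refine ⟨fun i => (1 - E i i : ℝ) * ei (ϑ i), ϑ, fun i => ?_, fun i j => ?_, fun i => ?_,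
    fun i j t h0 h1 => ?_, fun i j t t' hij a1 a2 a3 a4 => ?_⟩
  · rw [norm_mul, norm_ei, mul_one, Complex.norm_real, Real.norm_of_nonneg (by linarith [hE1 i i])]
  · have e : (1 - E i i : ℝ) * ei (ϑ i) * conj ((1 - E j j : ℝ) * ei (ϑ j)) =
        ((1 - E i i) * (1 - E j j) : ℝ) * ei (ϑ i - ϑ j) := by
      rw [map_mul, Complex.conj_ofReal, ← ei_mul_conj]; push_cast; ring
    have b1 : 0 ≤ (1 - E i i) * (1 - E j j) :=
      mul_nonneg (by linarith [hE1 i i]) (by linarith [hE1 j j])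
    have b2 : (1 - E i i) * (1 - E j j) ≤ 1 - E i i :=
      mul_le_of_le_one_right (by linarith [hE1 i i]) (by linarith [hE0 j j])
    have b3 : E i j / 16 ≤ ‖1 - ((1 - E i i) * (1 - E j j) : ℝ) * ei (ϑ i - ϑ j)‖ / 2 := by
      rcases eq_or_ne i j with rfl | hij
      · linarith [kernel_ge b1 (norm_ei (ϑ i - ϑ i)).le, hE0 i i]
      · have c1 := kernel_ge' b1 (by linarith [hE0 i i]) (norm_ei (ϑ i - ϑ j)).le
        have c2 := le_norm_one_sub_ei (x := ϑ i - ϑ j)
          (by nlinarith [hEε i j, hE0 i j, (hϑ i j hij).2])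
        linarith [(hϑ i j hij).1]
    simp only [e]
    change E i j ≤ _
    nlinarith [norm_nonneg (1 - ((1 - E i i) * (1 - E j j) : ℝ) * ei (ϑ i - ϑ j))]
  · refine (kernel_le (by linarith [hE0 i i]) (norm_ei _).le).trans ?_
    have b1 := norm_one_sub_ei_le (ϑ i)
    have b2 : |ϑ i| ≤ exp (-(ε * l)) * C := by
      rw [abs_mul, abs_of_pos (exp_pos _)]; gcongr; exact hθ i
    nlinarith [hEε i i, exp_pos (-(ε * l))]
  · have e : ei (ϑ i + t) * conj ((1 - E j j : ℝ) * ei (ϑ j)) =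
        (1 - E j j : ℝ) * ei (ϑ i + t - ϑ j) := by
      rw [map_mul, Complex.conj_ofReal, ← ei_mul_conj]; ring
    simp only [e]
    refine (kernel_le (by linarith [hE0 j j]) (norm_ei _).le).trans ?_
    have b1 := norm_one_sub_ei_le (ϑ i + t - ϑ j)
    have b2 : |ϑ i - ϑ j| ≤ (m + 1) * E i j := by
      rcases eq_or_ne i j with rfl | hij
      · simpa using (mul_pos (by positivity) (hE0 i i)).le
      · exact (hϑ i j hij).2
    have b3 := abs_add_le (ϑ i - ϑ j) t
    rw [abs_of_nonneg h0, show ϑ i - ϑ j + t = ϑ i + t - ϑ j by ring] at b3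
    change t ≤ E i i / 8 at h1
    change _ ≤ _ * E i j
    nlinarith [hEd i j, hEd' i j, hE0 i j]
  · have := hsep i j t t' hij a1 a2 a3 a4
    rw [norm_ei_sub]
    change E i j ≤ _
    nlinarith [norm_nonneg (1 - ei (ϑ i + t - (ϑ j + t')))]

end Pool.Agent.MP_e3615c_an

end MrgPart0

-- ======== part 1: formerly Pool.Agent.MP_e3615c_an.LogArea
section MrgPart1

/-!
The logarithmic area bound and the truncated functions `Φ (log |f|)`.
-/

namespace Pool.Agent.MP_e3615c_an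

open MeasureTheory Metric Set Filter Topology Real
open scoped ENNReal

theorem AB.nonneg {p : ℝ} {f : ℂ → ℂ} (_ : AB p f) (hp : 0 < p) : 0 ≤ π * p := by positivity

theorem logArea {p : ℝ} (hp : 0 < p) {f : ℂ → ℂ} (hf : DifferentiableOn ℂ f (ball 0 1))
    (hA : AB p f) {L : ℝ} (hL : 0 ≤ L) :
    ∫⁻ z in ball (0 : ℂ) 1, ENNReal.ofReal
      (if 1 ≤ ‖f z‖ ∧ ‖f z‖ < exp L then ‖deriv f z‖ ^ 2 / ‖f z‖ ^ 2 else 0) ≤
      ENNReal.ofReal (π * p * (1 + 2 * L)) := by
  classical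
  set R := exp L with hR
  have hR1 : 1 ≤ R := one_le_exp hL
  have hR0 : 0 < R := exp_pos L
  let ρ : ℂ → ℝ≥0∞ := fun z => ENNReal.ofReal (‖deriv f z‖ ^ 2)
  have hρ : Measurable ρ := ((measurable_deriv f).norm.pow_const 2).ennreal_ofReal
  let μ : Measure ℂ := (volume.restrict (ball (0 : ℂ) 1)).withDensity ρ
  let φ : ℝ → ℝ := fun y => if 1 ≤ y ∧ y < R then 1 / y ^ 2 else 0
  have hφ : Measurable φ := by
    refine Measurable.ite ?_ (by fun_prop) measurable_const
    exact measurableSet_Ico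
  have hfm : AEMeasurable (fun z => φ ‖f z‖) (volume.restrict (ball (0 : ℂ) 1)) :=
    hφ.comp_aemeasurable (hf.continuousOn.aemeasurable measurableSet_ball).norm
  have hac : μ ≪ volume.restrict (ball (0 : ℂ) 1) := withDensity_absolutelyContinuous _ _
  have e1 : ∫⁻ z in ball (0 : ℂ) 1, ENNReal.ofReal
      (if 1 ≤ ‖f z‖ ∧ ‖f z‖ < R then ‖deriv f z‖ ^ 2 / ‖f z‖ ^ 2 else 0) =
      ∫⁻ z, ENNReal.ofReal (φ ‖f z‖) ∂μ := by
    rw [lintegral_withDensity_eq_lintegral_mul₀ hρ.aemeasurable hfm.ennreal_ofReal]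
    refine lintegral_congr fun z => ?_
    simp only [φ, ρ, Pi.mul_apply]
    rw [← ENNReal.ofReal_mul (by positivity)]
    congr 1
    split_ifs
    · ring
    · simp
  have hφ0 : ∀ y, 0 ≤ φ y := fun y => by simp only [φ]; split_ifs <;> positivity
  rw [e1, lintegral_eq_lintegral_meas_lt μ (Eventually.of_forall fun z => hφ0 _)
    (hfm.mono_ac hac)]
  have hμ : ∀ t s : ℝ, 0 < s → (∀ y, 0 ≤ y → t < φ y → y < s) →
      μ {z | t < φ ‖f z‖} ≤ ENNReal.ofReal (π * p * s ^ 2) := by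
    intro t s hs h
    refine le_trans ?_ (hA s hs)
    have hS := (isOpen_sublevel hf s).measurableSet
    have : μ {z | t < φ ‖f z‖} ≤ μ {z | z ∈ ball (0 : ℂ) 1 ∧ ‖f z‖ < s} := by
      refine measure_mono_ae ?_
      filter_upwards [hac.ae_le (ae_restrict_mem measurableSet_ball)] with z hz hz'
      exact ⟨hz, h _ (norm_nonneg _) hz'⟩
    refine this.trans ?_
    rw [withDensity_apply _ hS, Measure.restrict_restrict hS, area]
    exact lintegral_mono_set inter_subset_left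
  set a := 1 / R ^ 2 with ha
  have ha0 : 0 < a := by positivity
  have ha1 : a ≤ 1 := by rw [ha, div_le_one (by positivity)]; nlinarith
  have hsub : Ioi (0 : ℝ) ⊆ (Ioc 0 a ∪ Ioc a 1) ∪ Ioi 1 := by
    intro t ht
    by_cases h1 : t ≤ a
    · exact Or.inl (Or.inl ⟨ht, h1⟩)
    · by_cases h2 : t ≤ 1
      · exact Or.inl (Or.inr ⟨not_le.1 h1, h2⟩)
      · exact Or.inr (not_le.1 h2)
  refine (lintegral_mono_set hsub).trans ((lintegral_union_le _ _ _).trans ?_)
  have i3 : ∫⁻ t in Ioi (1 : ℝ), μ {z | t < φ ‖f z‖} = 0 := by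
    refine setLIntegral_eq_zero measurableSet_Ioi fun t ht => ?_
    have : {z | t < φ ‖f z‖} = ∅ := by
      ext z
      simp only [φ, mem_ofPred_eq, mem_empty_iff_false, iff_false, not_lt]
      have ht1 : 1 < t := ht
      split_ifs with h
      · rw [div_le_iff₀ (by nlinarith [h.1])]; nlinarith [h.1]
      · linarith
    simp [this]
  rw [i3, add_zero]
  refine (lintegral_union_le _ _ _).trans ?_
  have i1 : ∫⁻ t in Ioc (0 : ℝ) a, μ {z | t < φ ‖f z‖} ≤ ENNReal.ofReal (π * p) := by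
    calc ∫⁻ t in Ioc (0 : ℝ) a, μ {z | t < φ ‖f z‖}
        ≤ ∫⁻ _t in Ioc (0 : ℝ) a, ENNReal.ofReal (π * p * R ^ 2) := by
          refine setLIntegral_mono' measurableSet_Ioc fun t ht => hμ t R hR0 fun y _ hy => ?_
          simp only [φ] at hy
          split_ifs at hy with h
          · exact h.2
          · linarith [ht.1]
      _ = ENNReal.ofReal (π * p) := by
          rw [setLIntegral_const, Real.volume_Ioc, ← ENNReal.ofReal_mul (by positivity)]
          congr 1
          rw [ha]; field_simp; ring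
  have i2 : ∫⁻ t in Ioc a 1, μ {z | t < φ ‖f z‖} ≤ ENNReal.ofReal (π * p * (2 * L)) := by
    calc ∫⁻ t in Ioc a 1, μ {z | t < φ ‖f z‖}
        ≤ ∫⁻ t in Ioc a 1, ENNReal.ofReal (π * p * t⁻¹) := by
          refine setLIntegral_mono' measurableSet_Ioc fun t ht => ?_
          have ht0 : 0 < t := ha0.trans ht.1
          have := hμ t (sqrt t)⁻¹ (by positivity) fun y hy0 hy => by
            simp only [φ] at hy
            split_ifs at hy with h
            · have hy1 : 0 < y := by linarith [h.1]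
              rw [lt_div_iff₀ (by positivity)] at hy
              rw [lt_inv_comm₀ hy1 (by positivity), sqrt_lt' (by positivity), inv_pow,
                ← one_div, lt_div_iff₀ (by positivity)]
              exact hy
            · linarith
          rwa [inv_pow, sq_sqrt ht0.le] at this
      _ = ENNReal.ofReal (∫ t in Ioc a 1, π * p * t⁻¹) := by
          rw [ofReal_integral_eq_lintegral_ofReal]
          · refine (ContinuousOn.integrableOn_Icc ?_).mono_set Ioc_subset_Icc_self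
            exact continuousOn_const.mul (continuousOn_inv₀.mono fun t ht => (ha0.trans_le ht.1).ne')
          · refine (ae_restrict_iff' measurableSet_Ioc).2 (Eventually.of_forall fun t ht => ?_)
            have ht0 : 0 < t := ha0.trans ht.1
            simp only [Pi.zero_apply]
            positivity
      _ = ENNReal.ofReal (π * p * (2 * L)) := by
          rw [← intervalIntegral.integral_of_le ha1, intervalIntegral.integral_const_mul,
            integral_inv_of_pos ha0 one_pos, ha, one_div_one_div, hR, log_pow, log_exp]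
          norm_num
  refine (add_le_add i1 i2).trans ?_
  rw [← ENNReal.ofReal_add (by positivity) (by positivity)]
  exact ENNReal.ofReal_le_ofReal (le_of_eq (by ring))

/-- Primitive of a profile `σ`. -/
noncomputable def prim (σ : ℝ → ℝ) (t : ℝ) : ℝ := ∫ u in (0 : ℝ)..t, σ u

theorem hasDerivAt_prim {σ : ℝ → ℝ} (hσ : Continuous σ) (t : ℝ) : HasDerivAt (prim σ) (σ t) t :=
  intervalIntegral.integral_hasDerivAt_right (hσ.intervalIntegrable _ _)
    (hσ.stronglyMeasurableAtFilter _ _) hσ.continuousAt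

theorem prim_of_nonpos {σ : ℝ → ℝ} (h0 : ∀ t ≤ 0, σ t = 0) {t : ℝ} (ht : t ≤ 0) :
    prim σ t = 0 := by
  unfold prim
  rw [intervalIntegral.integral_congr (g := fun _ => 0)]
  · simp
  · intro u hu
    rw [uIcc_of_ge ht] at hu
    exact h0 u hu.2

theorem sq_norm_eq (u : ℂ) : ‖u‖ ^ 2 = u.re ^ 2 + u.im ^ 2 := by
  rw [Complex.sq_norm, Complex.normSq_apply]; ring

theorem hasFDerivAt_log_norm {w : ℂ} (hw : w ≠ 0) :
    HasFDerivAt (fun u : ℂ => Real.log ‖u‖) (reMul w⁻¹) w := by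
  have e : (fun u : ℂ => Real.log ‖u‖) = fun u : ℂ => (1 / 2) * Real.log (u.re ^ 2 + u.im ^ 2) := by
    funext u
    rw [← sq_norm_eq, Real.log_pow]
    ring
  have hpos : w.re ^ 2 + w.im ^ 2 ≠ 0 := by
    rw [← sq_norm_eq]
    positivity
  have h1 := (((Complex.reCLM.hasFDerivAt (x := w)).pow 2).add
    ((Complex.imCLM.hasFDerivAt (x := w)).pow 2)).log hpos
  rw [e]
  refine (h1.const_mul (1 / 2)).congr_fderiv ?_
  refine ContinuousLinearMap.ext fun h => ?_
  simp [Complex.inv_re, Complex.inv_im, Complex.normSq_apply]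
  field_simp
  ring

/-- `V = Φ (log |f|)`. -/
noncomputable def Vf (σ : ℝ → ℝ) (f : ℂ → ℂ) (z : ℂ) : ℝ := prim σ (Real.log ‖f z‖)

/-- Complex gradient of `V`. -/
noncomputable def Wf (σ : ℝ → ℝ) (f : ℂ → ℂ) (z : ℂ) : ℂ :=
  σ (Real.log ‖f z‖) * (deriv f z / f z)

theorem eventually_log_nonpos {f : ℂ → ℂ} {z : ℂ} (hf : ContinuousAt f z) (h : f z = 0) :
    ∀ᶠ u in 𝓝 z, Real.log ‖f u‖ ≤ 0 := by
  have : ∀ᶠ u in 𝓝 z, ‖f u‖ < 1 := hf.norm.eventually (gt_mem_nhds (by simp [h]))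
  exact this.mono fun u hu => Real.log_nonpos (norm_nonneg _) hu.le

theorem hasFDerivAt_Vf {σ : ℝ → ℝ} (hσ : Continuous σ) (h0 : ∀ t ≤ 0, σ t = 0) {f : ℂ → ℂ}
    {z : ℂ} (hf : DifferentiableAt ℂ f z) : HasFDerivAt (Vf σ f) (reMul (Wf σ f z)) z := by
  by_cases h : f z = 0
  · have e : Vf σ f =ᶠ[𝓝 z] fun _ => 0 :=
      (eventually_log_nonpos hf.continuousAt h).mono fun u hu => prim_of_nonpos h0 hu
    have : reMul (Wf σ f z) = 0 := by ext; simp [Wf, h]
    rw [this]
    exact (hasFDerivAt_const 0 z).congr_of_eventuallyEq e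
  · have h1 := (hasFDerivAt_log_norm h).comp z (hf.hasDerivAt.hasFDerivAt.restrictScalars ℝ)
    have h2 := (hasDerivAt_prim hσ (Real.log ‖f z‖)).comp_hasFDerivAt z h1
    refine h2.congr_fderiv ?_
    refine ContinuousLinearMap.ext fun h => ?_
    have : Wf σ f z * h = σ (Real.log ‖f z‖) * ((f z)⁻¹ * (h * deriv f z)) := by
      simp only [Wf]; ring
    rw [reMul_apply, this, Complex.re_ofReal_mul]
    simp

theorem continuousOn_Wf {σ : ℝ → ℝ} (hσ : Continuous σ) (h0 : ∀ t ≤ 0, σ t = 0) {f : ℂ → ℂ}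
    (hf : DifferentiableOn ℂ f (ball 0 1)) : ContinuousOn (Wf σ f) (ball 0 1) := by
  intro z hz
  have han := hf.analyticOnNhd isOpen_ball z hz
  refine ContinuousAt.continuousWithinAt ?_
  by_cases h : f z = 0
  · have e : Wf σ f =ᶠ[𝓝 z] fun _ => 0 :=
      (eventually_log_nonpos han.continuousAt h).mono fun u hu => by simp [Wf, h0 _ hu]
    exact continuousAt_const.congr e.symm
  · refine ContinuousAt.mul ?_ (han.deriv.continuousAt.div han.continuousAt h)
    exact Complex.continuous_ofReal.continuousAt.comp (hσ.continuousAt.comp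
      (han.continuousAt.norm.log (norm_ne_zero_iff.2 h)))

end Pool.Agent.MP_e3615c_an

end MrgPart1

-- ======== part 2: formerly Pool.Agent.MP_e3615c_an.Trap
section MrgPart2

/-!
Trapezoidal profiles, the Dirichlet bound and the Harnack inequality for mean `p`-valent functions.
-/

namespace Pool.Agent.MP_e3615c_an

open MeasureTheory Metric Set Filter Topology Real
open scoped ENNReal

/-- Trapezoid supported in `[0, L]`. -/
noncomputable def trap (L t : ℝ) : ℝ := max 0 (min 1 (min t (L - t)))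

theorem continuous_trap (L : ℝ) : Continuous (trap L) := by unfold trap; fun_prop

theorem trap_nonneg (L t : ℝ) : 0 ≤ trap L t := le_max_left _ _

theorem trap_le_one (L t : ℝ) : trap L t ≤ 1 := max_le zero_le_one (min_le_left _ _)

theorem trap_of_nonpos (L : ℝ) {t : ℝ} (ht : t ≤ 0) : trap L t = 0 :=
  max_eq_left ((min_le_right _ _).trans ((min_le_left _ _).trans ht))

theorem trap_of_ge {L t : ℝ} (ht : L ≤ t) : trap L t = 0 :=
  max_eq_left ((min_le_right _ _).trans ((min_le_right _ _).trans (by linarith)))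

theorem prim_sub_prim {σ : ℝ → ℝ} (hσ : Continuous σ) (s t : ℝ) :
    prim σ t - prim σ s = ∫ u in s..t, σ u :=
  intervalIntegral.integral_interval_sub_left (hσ.intervalIntegrable _ _)
    (hσ.intervalIntegrable _ _)

theorem prim_mono {σ : ℝ → ℝ} (hσ : Continuous σ) (h : ∀ t, 0 ≤ σ t) {s t : ℝ} (hst : s ≤ t) :
    prim σ s ≤ prim σ t := by
  have := prim_sub_prim hσ s t
  have h2 : 0 ≤ ∫ u in s..t, σ u := intervalIntegral.integral_nonneg hst fun u _ => h u
  linarith

theorem prim_lip {σ : ℝ → ℝ} (hσ : Continuous σ) (h : ∀ t, σ t ≤ 1) {s t : ℝ} (hst : s ≤ t) :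
    prim σ t ≤ prim σ s + (t - s) := by
  have := prim_sub_prim hσ s t
  have h2 : ∫ u in s..t, σ u ≤ ∫ _u in s..t, (1 : ℝ) :=
    intervalIntegral.integral_mono_on hst (hσ.intervalIntegrable _ _) intervalIntegrable_const
      fun u _ => h u
  simp only [intervalIntegral.integral_const, smul_eq_mul, mul_one] at h2
  linarith

theorem prim_zero (σ : ℝ → ℝ) : prim σ 0 = 0 := by simp [prim]

theorem prim_nonneg {σ : ℝ → ℝ} (hσ : Continuous σ) (h : ∀ t, 0 ≤ σ t) (h0 : ∀ t ≤ 0, σ t = 0)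
    (t : ℝ) : 0 ≤ prim σ t := by
  rcases le_total t 0 with ht | ht
  · rw [prim_of_nonpos h0 ht]
  · simpa [prim_zero] using prim_mono hσ h ht

theorem prim_le_max {σ : ℝ → ℝ} (hσ : Continuous σ) (h : ∀ t, σ t ≤ 1) (h0 : ∀ t ≤ 0, σ t = 0)
    (t : ℝ) : prim σ t ≤ max t 0 := by
  rcases le_total t 0 with ht | ht
  · rw [prim_of_nonpos h0 ht]; exact le_max_right _ _
  · have := prim_lip hσ h ht
    rw [prim_zero] at this
    exact (by linarith : prim σ t ≤ t).trans (le_max_left _ _)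

theorem prim_trap_ge (L t : ℝ) : min t L - 2 ≤ prim (trap L) t := by
  have hc := continuous_trap L
  have hn := prim_nonneg hc (trap_nonneg L) (fun t ht => trap_of_nonpos L ht)
  set u := min t L with hu
  rcases le_total u 2 with h | h
  · linarith [hn t]
  · have h1 : prim (trap L) (u - 1) ≤ prim (trap L) t :=
      prim_mono hc (trap_nonneg L) (by linarith [min_le_left t L])
    have h2 := prim_sub_prim hc 1 (u - 1)
    have h3 : ∫ v in (1 : ℝ)..(u - 1), trap L v = ∫ _v in (1 : ℝ)..(u - 1), (1 : ℝ) := by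
      refine intervalIntegral.integral_congr fun v hv => ?_
      rw [uIcc_of_le (by linarith)] at hv
      have : u ≤ L := min_le_right _ _
      simp only [trap]
      rw [min_eq_left (le_min hv.1 (by linarith [hv.2])), max_eq_right zero_le_one]
    simp only [intervalIntegral.integral_const, smul_eq_mul, mul_one] at h3
    linarith [hn 1]

theorem prim_sum {ι : Type*} (s : Finset ι) (ν L : ι → ℝ) (t : ℝ) :
    prim (fun t => ∑ x ∈ s, ν x * trap (L x) t) t = ∑ x ∈ s, ν x * prim (trap (L x)) t := by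
  unfold prim
  rw [intervalIntegral.integral_finsetSum]
  · simp only [intervalIntegral.integral_const_mul]
  · intro x _
    exact (continuous_const.mul (continuous_trap _)).intervalIntegrable _ _

theorem dirichlet_bound {p : ℝ} (hp : 0 < p) {f : ℂ → ℂ} (hf : DifferentiableOn ℂ f (ball 0 1))
    (hA : AB p f) {ι : Type*} (s : Finset ι) (ν L : ι → ℝ) (hν : ∀ x ∈ s, 0 ≤ ν x)
    (hL : ∀ x ∈ s, 0 ≤ L x) :
    ∫⁻ z in ball (0 : ℂ) 1, ENNReal.ofReal (‖Wf (fun t => ∑ x ∈ s, ν x * trap (L x) t) f z‖ ^ 2) ≤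
      ENNReal.ofReal (π * p * ∑ x ∈ s, ∑ y ∈ s, ν x * ν y * (1 + 2 * min (L x) (L y))) := by
  classical
  let g : ℝ → ℂ → ℝ := fun L z =>
    if 1 ≤ ‖f z‖ ∧ ‖f z‖ < exp L then ‖deriv f z‖ ^ 2 / ‖f z‖ ^ 2 else 0
  have hg0 : ∀ L z, 0 ≤ g L z := fun L z => by simp only [g]; split_ifs <;> positivity
  have hgm : ∀ L, AEMeasurable (fun z => ENNReal.ofReal (g L z))
      (volume.restrict (ball (0 : ℂ) 1)) := by
    intro L
    let φ : ℝ × ℝ → ℝ := fun y => if 1 ≤ y.1 ∧ y.1 < exp L then y.2 ^ 2 / y.1 ^ 2 else 0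
    have hφ : Measurable φ := by
      refine Measurable.ite ?_ (by fun_prop) measurable_const
      exact measurable_fst measurableSet_Ico
    exact (hφ.comp_aemeasurable ((hf.continuousOn.aemeasurable measurableSet_ball).norm.prodMk
      (measurable_deriv f).norm.aemeasurable)).ennreal_ofReal
  have hpt : ∀ z, ‖Wf (fun t => ∑ x ∈ s, ν x * trap (L x) t) f z‖ ^ 2 ≤
      ∑ x ∈ s, ∑ y ∈ s, ν x * ν y * g (min (L x) (L y)) z := by
    intro z
    simp only [Wf]
    rw [norm_mul, norm_div, mul_pow, div_pow, Complex.norm_real, Real.norm_eq_abs, sq_abs, sq,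
      Finset.sum_mul_sum, Finset.sum_mul]
    refine Finset.sum_le_sum fun x hx => ?_
    rw [Finset.sum_mul]
    refine Finset.sum_le_sum fun y hy => ?_
    set t := Real.log ‖f z‖ with ht
    have : trap (L x) t * trap (L y) t * (‖deriv f z‖ ^ 2 / ‖f z‖ ^ 2) ≤
        g (min (L x) (L y)) z := by
      simp only [g]
      split_ifs with h
      · refine mul_le_of_le_one_left (by positivity) ?_
        exact mul_le_one₀ (trap_le_one _ _) (trap_nonneg _ _) (trap_le_one _ _)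
      · have : trap (L x) t * trap (L y) t = 0 := by
          by_cases h1 : 1 ≤ ‖f z‖
          · have h2 : exp (min (L x) (L y)) ≤ ‖f z‖ := not_lt.1 fun h' => h ⟨h1, h'⟩
            have h3 : min (L x) (L y) ≤ t := (le_log_iff_exp_le (by linarith)).2 h2
            rcases min_le_iff.1 h3 with h4 | h4
            · rw [trap_of_ge h4, zero_mul]
            · rw [trap_of_ge h4, mul_zero]
          · rw [trap_of_nonpos _ (Real.log_nonpos (norm_nonneg _) (not_le.1 h1).le), zero_mul]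
        rw [this, zero_mul]
    have h0 := mul_nonneg (hν x hx) (hν y hy)
    calc ν x * trap (L x) t * (ν y * trap (L y) t) * (‖deriv f z‖ ^ 2 / ‖f z‖ ^ 2)
        = ν x * ν y * (trap (L x) t * trap (L y) t * (‖deriv f z‖ ^ 2 / ‖f z‖ ^ 2)) := by ring
      _ ≤ _ := mul_le_mul_of_nonneg_left this h0
  calc ∫⁻ z in ball (0 : ℂ) 1,
        ENNReal.ofReal (‖Wf (fun t => ∑ x ∈ s, ν x * trap (L x) t) f z‖ ^ 2)
      ≤ ∫⁻ z in ball (0 : ℂ) 1, ∑ x ∈ s, ∑ y ∈ s,
          ENNReal.ofReal (ν x * ν y) * ENNReal.ofReal (g (min (L x) (L y)) z) := by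
        refine lintegral_mono fun z => (ENNReal.ofReal_le_ofReal (hpt z)).trans (le_of_eq ?_)
        rw [ENNReal.ofReal_sum_of_nonneg fun x hx => Finset.sum_nonneg fun y hy =>
          mul_nonneg (mul_nonneg (hν x hx) (hν y hy)) (hg0 _ _)]
        refine Finset.sum_congr rfl fun x hx => ?_
        rw [ENNReal.ofReal_sum_of_nonneg fun y hy =>
          mul_nonneg (mul_nonneg (hν x hx) (hν y hy)) (hg0 _ _)]
        refine Finset.sum_congr rfl fun y hy => ?_
        rw [ENNReal.ofReal_mul (mul_nonneg (hν x hx) (hν y hy))]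
    _ = ∑ x ∈ s, ∑ y ∈ s, ENNReal.ofReal (ν x * ν y) *
          ∫⁻ z in ball (0 : ℂ) 1, ENNReal.ofReal (g (min (L x) (L y)) z) := by
        rw [lintegral_finsetSum' _ fun x _ => Finset.aemeasurable_fun_sum _ fun y _ =>
          (hgm _).const_mul _]
        refine Finset.sum_congr rfl fun x _ => ?_
        rw [lintegral_finsetSum' _ fun y _ => (hgm _).const_mul _]
        refine Finset.sum_congr rfl fun y _ => ?_
        rw [lintegral_const_mul'' _ (hgm _)]
    _ ≤ ∑ x ∈ s, ∑ y ∈ s, ENNReal.ofReal (ν x * ν y) *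
          ENNReal.ofReal (π * p * (1 + 2 * min (L x) (L y))) := by
        refine Finset.sum_le_sum fun x hx => Finset.sum_le_sum fun y hy => ?_
        exact mul_le_mul_right (logArea hp hf hA (le_min (hL x hx) (hL y hy))) _
    _ = _ := by
        have hnn : ∀ x ∈ s, ∀ y ∈ s, 0 ≤ π * p * (ν x * ν y * (1 + 2 * min (L x) (L y))) := by
          intro x hx y hy
          have := hν x hx
          have := hν y hy
          have := le_min (hL x hx) (hL y hy)
          positivity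
        rw [Finset.mul_sum, ENNReal.ofReal_sum_of_nonneg fun x hx => by
          rw [Finset.mul_sum]; exact Finset.sum_nonneg (hnn x hx)]
        refine Finset.sum_congr rfl fun x hx => ?_
        rw [Finset.mul_sum, ENNReal.ofReal_sum_of_nonneg (hnn x hx)]
        refine Finset.sum_congr rfl fun y hy => ?_
        rw [← ENNReal.ofReal_mul (mul_nonneg (hν x hx) (hν y hy))]
        congr 1
        ring

theorem AB.const_mul {p : ℝ} {f : ℂ → ℂ} (hA : AB p f) {c : ℂ} (hc : c ≠ 0) :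
    AB p (fun z => c * f z) := by
  intro R hR
  have hc' : 0 < ‖c‖ := norm_pos_iff.2 hc
  have h1 := hA (R / ‖c‖) (by positivity)
  have e : {z | z ∈ ball (0 : ℂ) 1 ∧ ‖c * f z‖ < R} = {z | z ∈ ball (0 : ℂ) 1 ∧ ‖f z‖ < R / ‖c‖} := by
    ext z
    simp only [mem_ofPred_eq, norm_mul, lt_div_iff₀ hc', mul_comm]
  unfold area at h1 ⊢
  rw [e]
  have e2 : ∀ z, ENNReal.ofReal (‖deriv (fun z => c * f z) z‖ ^ 2) =
      ENNReal.ofReal (‖c‖ ^ 2) * ENNReal.ofReal (‖deriv f z‖ ^ 2) := by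
    intro z
    rw [deriv_const_mul_field, norm_mul, mul_pow, ENNReal.ofReal_mul (by positivity)]
  simp only [e2]
  rw [lintegral_const_mul' _ _ ENNReal.ofReal_ne_top]
  refine (mul_le_mul_right h1 _).trans (le_of_eq ?_)
  rw [← ENNReal.ofReal_mul (by positivity)]
  congr 1
  field_simp

end Pool.Agent.MP_e3615c_an

end MrgPart2

-- ======== part 3: formerly Pool.Agent.MP_e3615c_an.Coef
section MrgPart3

/-!
Laurent coefficients as circle averages.
-/

namespace Pool.Agent.MP_e3615c_an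

open MeasureTheory Metric Set Filter Topology Real

/-- The `s`-th Laurent coefficient of `h` on the circle of radius `r`. -/
noncomputable def cf (h : ℂ → ℂ) (r : ℝ) (s : ℤ) : ℂ :=
  circleAverage (fun z => h z * z ^ (-s)) 0 r

theorem ne_zero_of_mem_sphere {r : ℝ} (hr : 0 < r) {z : ℂ} (hz : z ∈ sphere (0 : ℂ) r) : z ≠ 0 := by
  rintro rfl
  simp at hz
  exact hr.ne hz

theorem continuousOn_zpow_sphere {r : ℝ} (hr : 0 < r) (s : ℤ) :
    ContinuousOn (fun z : ℂ => z ^ s) (sphere 0 r) :=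
  (continuousOn_zpow₀ s).mono fun _ hz => ne_zero_of_mem_sphere hr hz

theorem circleIntegrable_cf {h : ℂ → ℂ} {r : ℝ} (hr : 0 < r) (hc : ContinuousOn h (sphere 0 r))
    (s : ℤ) : CircleIntegrable (fun z => h z * z ^ s) 0 r :=
  (hc.mul (continuousOn_zpow_sphere hr s)).circleIntegrable hr.le

theorem circleAverage_mul_deriv {H H' : ℂ → ℂ} {r : ℝ} (hr : 0 < r)
    (h : ∀ z ∈ sphere (0 : ℂ) r, HasDerivAt H (H' z) z) :
    circleAverage (fun z => z * H' z) 0 r = 0 := by
  rw [circleAverage_eq_circleIntegral hr.ne']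
  have : (∮ z in C(0, r), (z - 0)⁻¹ • (z * H' z)) = ∮ z in C(0, r), H' z := by
    refine circleIntegral.integral_congr hr.le fun z hz => ?_
    have := ne_zero_of_mem_sphere hr hz
    simp only [sub_zero, smul_eq_mul]
    field_simp
  rw [this, circleIntegral.integral_eq_zero_of_hasDerivWithinAt hr.le
    fun z hz => (h z hz).hasDerivWithinAt, smul_zero]

theorem circleAverage_zpow {r : ℝ} (hr : 0 < r) (k : ℤ) :
    circleAverage (fun z : ℂ => z ^ k) 0 r = if k = 0 then 1 else 0 := by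
  split_ifs with hk
  · simp [hk, circleAverage_const]
  · have hk' : (k : ℂ) ≠ 0 := Int.cast_ne_zero.2 hk
    refine Eq.trans ?_ (circleAverage_mul_deriv (H := fun z => z ^ k / k)
      (H' := fun z => z ^ (k - 1)) hr ?_)
    · refine circleAverage_congr_sphere fun z hz => ?_
      rw [abs_of_pos hr] at hz
      have := ne_zero_of_mem_sphere hr hz
      simp only [zpow_sub₀ this]
      field_simp
    · intro z hz
      refine ((hasDerivAt_zpow k z (Or.inl (ne_zero_of_mem_sphere hr hz))).div_const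
        (k : ℂ)).congr_deriv ?_
      field_simp

theorem circleAverage_const_mul (c : ℂ) (h : ℂ → ℂ) (r : ℝ) :
    circleAverage (fun z => c * h z) 0 r = c * circleAverage h 0 r :=
  circleAverage_fun_smul (a := c) (f := h)

theorem cf_deriv {F F' : ℂ → ℂ} {r : ℝ} (hr : 0 < r)
    (h : ∀ z ∈ sphere (0 : ℂ) r, HasDerivAt F (F' z) z) (hc : ContinuousOn F' (sphere 0 r))
    (s : ℤ) : cf (fun z => z * F' z) r s = s * cf F r s := by
  have hF : ContinuousOn F (sphere 0 r) := fun z hz => (h z hz).continuousAt.continuousWithinAt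
  have h1 := circleAverage_mul_deriv (H := fun z => F z * z ^ (-s))
    (H' := fun z => F' z * z ^ (-s) + F z * (((-s : ℤ) : ℂ) * z ^ (-s - 1))) hr
    fun z hz => (h z hz).mul (hasDerivAt_zpow (-s) z (Or.inl (ne_zero_of_mem_sphere hr hz)))
  unfold cf
  rw [← circleAverage_const_mul, ← sub_eq_zero, ← circleAverage_fun_sub]
  · refine Eq.trans (circleAverage_congr_sphere fun z hz => ?_) h1
    rw [abs_of_pos hr] at hz
    have := ne_zero_of_mem_sphere hr hz
    simp only [zpow_sub₀ this]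
    push_cast
    field_simp
    ring
  · exact circleIntegrable_cf hr (continuousOn_id.mul hc) _
  · exact (continuousOn_const.mul (hF.mul (continuousOn_zpow_sphere hr _))).circleIntegrable hr.le

theorem norm_circleAverage_le (h : ℂ → ℂ) (r : ℝ) :
    ‖circleAverage h 0 r‖ ≤ circleAverage (fun z => ‖h z‖) 0 r := by
  rw [circleAverage_def, circleAverage_def, norm_smul, smul_eq_mul, Real.norm_eq_abs,
    abs_of_pos (inv_pos.2 two_pi_pos)]
  exact mul_le_mul_of_nonneg_left (intervalIntegral.norm_integral_le_integral_norm two_pi_pos.le)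
    (inv_pos.2 two_pi_pos).le

theorem norm_cf_le (h : ℂ → ℂ) {r : ℝ} (hr : 0 < r) (s : ℤ) :
    ‖cf h r s‖ ≤ r ^ (-s) * circleAverage (fun z => ‖h z‖) 0 r := by
  refine (norm_circleAverage_le _ _).trans (le_of_eq ?_)
  rw [← smul_eq_mul, ← circleAverage_fun_smul]
  refine circleAverage_congr_sphere fun z hz => ?_
  have : ‖z‖ = r := by simpa [abs_of_pos hr] using hz
  simp [norm_zpow, this, mul_comm]

theorem norm_cf_le_of_bound {h : ℂ → ℂ} {r M : ℝ} (hr : 0 < r) (hc : ContinuousOn h (sphere 0 r))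
    (hM : ∀ z ∈ sphere (0 : ℂ) r, ‖h z‖ ≤ M) (s : ℤ) : ‖cf h r s‖ ≤ r ^ (-s) * M := by
  refine (norm_cf_le h hr s).trans (mul_le_mul_of_nonneg_left ?_ (by positivity))
  exact circleAverage_mono_on_of_le_circle (hc.norm.circleIntegrable hr.le)
    (by rwa [abs_of_pos hr])

theorem cf_congr {g h : ℂ → ℂ} {r : ℝ} (hr : 0 < r) (e : EqOn g h (sphere 0 r)) (s : ℤ) :
    cf g r s = cf h r s := by
  refine circleAverage_congr_sphere fun z hz => ?_
  rw [abs_of_pos hr] at hz
  simp only [e hz]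

theorem cf_sum {ι : Type*} (T : Finset ι) (c : ι → ℂ) (e : ι → ℤ) {h : ℂ → ℂ} {r : ℝ}
    (hr : 0 < r) (hc : ContinuousOn h (sphere 0 r)) (s : ℤ) :
    cf (fun z => h z * ∑ i ∈ T, c i * z ^ e i) r s = ∑ i ∈ T, c i * cf h r (s - e i) := by
  unfold cf
  simp only [← circleAverage_const_mul]
  rw [← circleAverage_fun_sum]
  · refine circleAverage_congr_sphere fun z hz => ?_
    rw [abs_of_pos hr] at hz
    have := ne_zero_of_mem_sphere hr hz
    simp only [Finset.mul_sum, Finset.sum_mul]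
    refine Finset.sum_congr rfl fun i _ => ?_
    rw [neg_sub, sub_eq_add_neg, zpow_add₀ this]
    ring
  · intro i _
    exact (continuousOn_const.mul (hc.mul (continuousOn_zpow_sphere hr _))).circleIntegrable hr.le

theorem cf_add {g h : ℂ → ℂ} {r : ℝ} (hr : 0 < r) (hg : ContinuousOn g (sphere 0 r))
    (hh : ContinuousOn h (sphere 0 r)) (s : ℤ) :
    cf (fun z => g z + h z) r s = cf g r s + cf h r s := by
  unfold cf
  rw [← circleAverage_fun_add (circleIntegrable_cf hr hg _) (circleIntegrable_cf hr hh _)]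
  simp only [add_mul]

theorem cf_sub {g h : ℂ → ℂ} {r : ℝ} (hr : 0 < r) (hg : ContinuousOn g (sphere 0 r))
    (hh : ContinuousOn h (sphere 0 r)) (s : ℤ) :
    cf (fun z => g z - h z) r s = cf g r s - cf h r s := by
  unfold cf
  rw [← circleAverage_fun_sub (circleIntegrable_cf hr hg _) (circleIntegrable_cf hr hh _)]
  simp only [sub_mul]

section

variable {f : ℂ → ℂ} {a : ℕ → ℂ} {R : ℝ}

theorem summable_norm_of_hasSum (h : ∀ z ∈ ball (0 : ℂ) R, HasSum (fun n => a n * z ^ n) (f z))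
    {r : ℝ} (hr : 0 ≤ r) (hrR : r < R) : Summable fun n => ‖a n‖ * r ^ n := by
  have := (h r (by simpa [abs_of_nonneg hr] using hrR)).summable
  rw [← summable_norm_iff] at this
  simpa [abs_of_nonneg hr] using this

theorem differentiableOn_of_hasSum
    (h : ∀ z ∈ ball (0 : ℂ) R, HasSum (fun n => a n * z ^ n) (f z)) :
    DifferentiableOn ℂ f (ball 0 R) := by
  intro z hz
  obtain ⟨r, h1, h2⟩ := exists_between (mem_ball_zero_iff.1 hz)
  have hr : 0 ≤ r := (norm_nonneg z).trans h1.le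
  have hd := Complex.differentiableOn_tsum_of_summable_norm (F := fun n z => a n * z ^ n)
    (U := ball 0 r) (summable_norm_of_hasSum h hr h2) (fun i => by fun_prop) isOpen_ball
    (fun i w hw => by
      rw [norm_mul, norm_pow]
      gcongr
      exact (mem_ball_zero_iff.1 hw).le)
  have hz' : ball (0 : ℂ) r ∈ 𝓝 z := isOpen_ball.mem_nhds (mem_ball_zero_iff.2 h1)
  refine ((hd.differentiableAt hz').congr_of_eventuallyEq ?_).differentiableWithinAt
  filter_upwards [hz'] with w hw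
  exact (h w (ball_subset_ball h2.le hw)).tsum_eq.symm

theorem cf_of_hasSum (h : ∀ z ∈ ball (0 : ℂ) R, HasSum (fun n => a n * z ^ n) (f z))
    {r : ℝ} (hr : 0 < r) (hrR : r < R) (s : ℤ) :
    cf f r s = if 0 ≤ s then a s.toNat else 0 := by
  have hs := summable_norm_of_hasSum h hr.le hrR
  have hn : ∀ θ, ‖circleMap 0 r θ‖ = r := fun θ => by simp [abs_of_pos hr]
  have h0 : ∀ θ, circleMap 0 r θ ≠ 0 := fun θ => circleMap_ne_center hr.ne'
  have key := intervalIntegral.hasSum_integral_of_dominated_convergence (μ := volume)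
    (a := 0) (b := 2 * π) (F := fun n θ => a n * circleMap 0 r θ ^ n * circleMap 0 r θ ^ (-s))
    (f := fun θ => f (circleMap 0 r θ) * circleMap 0 r θ ^ (-s))
    (fun n _ => ‖a n‖ * r ^ n * r ^ (-s))
    (fun n => Continuous.aestronglyMeasurable (by
      have := continuous_circleMap 0 r
      exact (continuous_const.mul (this.pow n)).mul (this.zpow₀ _ fun θ => Or.inl (h0 θ))))
    (fun n => Eventually.of_forall fun θ _ => by simp [norm_zpow, hn])
    (Eventually.of_forall fun θ _ => hs.mul_right _) intervalIntegrable_const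
    (Eventually.of_forall fun θ _ => (h _ (by simpa [hn] using hrR)).mul_right _)
  have key2 := key.const_smul (2 * π)⁻¹
  have e : ∀ n : ℕ, (2 * π)⁻¹ • ∫ θ in (0 : ℝ)..2 * π,
      a n * circleMap 0 r θ ^ n * circleMap 0 r θ ^ (-s) = if (n : ℤ) = s then a n else 0 := by
    intro n
    have := circleAverage_const_mul (a n) (fun z => z ^ ((n : ℤ) - s)) r
    rw [circleAverage_zpow hr, circleAverage_def] at this
    simp only [sub_eq_zero, mul_ite, mul_one, mul_zero] at this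
    rw [← this]
    congr 2
    funext θ
    rw [sub_eq_add_neg, zpow_add₀ (h0 θ), zpow_natCast, mul_assoc]
  simp only [e] at key2
  refine key2.unique ?_
  split_ifs with hs0
  · obtain ⟨l, rfl⟩ := Int.eq_ofNat_of_zero_le hs0
    simp only [Nat.cast_inj, Int.toNat_natCast]
    have e2 : (fun n => if n = l then a n else 0) = fun n => if n = l then a l else 0 := by
      funext n
      split_ifs with hn
      · rw [hn]
      · rfl
    rw [e2]
    exact hasSum_ite_eq l (a l)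
  · have : ∀ n : ℕ, ¬ (n : ℤ) = s := fun n hn => hs0 (hn ▸ Int.natCast_nonneg n)
    simp only [this, if_false]
    exact hasSum_zero

theorem exists_hasSum (hf : DifferentiableOn ℂ f (ball 0 R)) :
    ∃ a : ℕ → ℂ, ∀ z ∈ ball (0 : ℂ) R, HasSum (fun n => a n * z ^ n) (f z) := by
  refine ⟨fun n => (n.factorial : ℂ)⁻¹ * iteratedDeriv n f 0, fun z hz => ?_⟩
  have := Complex.hasSum_taylorSeries_on_ball hf hz
  simp only [sub_zero, smul_eq_mul] at this
  simpa only [mul_right_comm, mul_assoc, mul_comm (z ^ _)] using this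

theorem cf_radius (hf : DifferentiableOn ℂ f (ball 0 R)) {r r' : ℝ} (hr : 0 < r) (hrR : r < R)
    (hr' : 0 < r') (hrR' : r' < R) (s : ℤ) : cf f r s = cf f r' s := by
  obtain ⟨a, ha⟩ := exists_hasSum hf
  rw [cf_of_hasSum ha hr hrR, cf_of_hasSum ha hr' hrR']

theorem cf_neg (hf : DifferentiableOn ℂ f (ball 0 R)) {r : ℝ} (hr : 0 < r) (hrR : r < R)
    {s : ℤ} (hs : s < 0) : cf f r s = 0 := by
  obtain ⟨a, ha⟩ := exists_hasSum hf
  rw [cf_of_hasSum ha hr hrR, if_neg (not_le.2 hs)]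

theorem hasSum_cf (hf : DifferentiableOn ℂ f (ball 0 R)) {r : ℝ} (hr : 0 < r) (hrR : r < R) :
    ∀ z ∈ ball (0 : ℂ) R, HasSum (fun n : ℕ => cf f r n * z ^ n) (f z) := by
  obtain ⟨a, ha⟩ := exists_hasSum hf
  simpa [cf_of_hasSum ha hr hrR] using ha

end

end Pool.Agent.MP_e3615c_an

end MrgPart3

-- ======== part 4: formerly Pool.Agent.MP_e3615c_an.Harnack
section MrgPart4

/-!
Harnack inequality for zero-free mean `p`-valent functions.
-/

namespace Pool.Agent.MP_e3615c_an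

open MeasureTheory Metric Set Filter Topology Real
open scoped ENNReal

theorem circle_osc {V : ℂ → ℝ} {W : ℂ → ℂ} {c : ℂ} {s : ℝ} (hs : 0 ≤ s)
    (hV : ∀ z ∈ sphere c s, HasFDerivAt V (reMul (W z)) z) (hW : ContinuousOn W (sphere c s))
    {z₁ z₂ : ℂ} (h₁ : z₁ ∈ sphere c s) (h₂ : z₂ ∈ sphere c s) :
    V z₂ - V z₁ ≤ 2 * π * s * circleAverage (fun z => ‖W z‖) c s := by
  have himg := image_circleMap_Ioc c s
  rw [abs_of_nonneg hs] at himg
  obtain ⟨θ₁, hθ₁, rfl⟩ : z₁ ∈ circleMap c s '' Ioc 0 (2 * π) := himg ▸ h₁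
  obtain ⟨θ₂, hθ₂, rfl⟩ : z₂ ∈ circleMap c s '' Ioc 0 (2 * π) := himg ▸ h₂
  let D : ℝ → ℝ := fun θ => (W (circleMap c s θ) * (circleMap 0 s θ * Complex.I)).re
  have hD : ∀ θ, HasDerivAt (fun θ => V (circleMap c s θ)) (D θ) θ := fun θ =>
    (hV _ (circleMap_mem_sphere c hs θ)).comp_hasDerivAt θ (hasDerivAt_circleMap c s θ)
  have hWc : Continuous fun θ => W (circleMap c s θ) :=
    hW.comp_continuous (continuous_circleMap c s) (circleMap_mem_sphere c hs)
  have hDc : Continuous D := by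
    have := continuous_circleMap 0 s
    exact Complex.continuous_re.comp (hWc.mul (this.mul continuous_const))
  have hDb : ∀ θ, |D θ| ≤ s * ‖W (circleMap c s θ)‖ := fun θ => by
    refine (Complex.abs_re_le_norm _).trans (le_of_eq ?_)
    simp [abs_of_nonneg hs, mul_comm]
  have hN : Continuous fun θ => s * ‖W (circleMap c s θ)‖ := continuous_const.mul hWc.norm
  rw [← intervalIntegral.integral_eq_sub_of_hasDerivAt (fun θ _ => hD θ)
    (hDc.intervalIntegrable _ _)]
  have e : 2 * π * s * circleAverage (fun z => ‖W z‖) c s =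
      ∫ θ in (0 : ℝ)..2 * π, s * ‖W (circleMap c s θ)‖ := by
    rw [intervalIntegral.integral_const_mul, ← two_pi_mul_circleAverage (fun z => ‖W z‖)]
    ring
  rw [e]
  have key : ∀ a b : ℝ, a ∈ Ioc 0 (2 * π) → b ∈ Ioc 0 (2 * π) → a ≤ b →
      |∫ θ in a..b, D θ| ≤ ∫ θ in (0 : ℝ)..2 * π, s * ‖W (circleMap c s θ)‖ := by
    intro a b ha hb hab
    refine (intervalIntegral.abs_integral_le_integral_abs hab).trans ?_
    refine (intervalIntegral.integral_mono_on hab (hDc.abs.intervalIntegrable _ _)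
      (hN.intervalIntegrable _ _) fun θ _ => hDb θ).trans ?_
    exact intervalIntegral.integral_mono_interval ha.1.le hab hb.2
      (Eventually.of_forall fun θ => by simp only [Pi.zero_apply]; positivity)
      (hN.intervalIntegrable _ _)
  rcases le_total θ₁ θ₂ with h | h
  · exact (le_abs_self _).trans (key _ _ hθ₁ hθ₂ h)
  · rw [intervalIntegral.integral_symm]
    exact (neg_le_abs _).trans (key _ _ hθ₂ hθ₁ h)

theorem dirichlet_single {p : ℝ} (hp : 0 < p) {f : ℂ → ℂ} (hf : DifferentiableOn ℂ f (ball 0 1))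
    (hA : AB p f) {L : ℝ} (hL : 0 ≤ L) :
    ∫⁻ z in ball (0 : ℂ) 1, ENNReal.ofReal (‖Wf (trap L) f z‖ ^ 2) ≤
      ENNReal.ofReal (π * p * (1 + 2 * L)) := by
  have := dirichlet_bound hp hf hA (Finset.univ : Finset Unit) (fun _ => 1) (fun _ => L)
    (fun _ _ => zero_le_one) (fun _ _ => hL)
  simpa using this

theorem amgm (t x y : ℝ) (ht : 0 < t) : x * y ≤ t / 2 * x ^ 2 + 1 / (2 * t) * y ^ 2 := by
  have : t / 2 * x ^ 2 + 1 / (2 * t) * y ^ 2 - x * y = (t * x - y) ^ 2 / (2 * t) := by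
    field_simp; ring
  have h2 : 0 ≤ (t * x - y) ^ 2 / (2 * t) := by positivity
  linarith

/-- The Harnack constant. -/
noncomputable def TH (p : ℝ) : ℝ := 5 + 8 * π ^ 2 * p

theorem TH_nonneg {p : ℝ} (hp : 0 < p) : 0 ≤ TH p := by unfold TH; positivity

theorem harnack_local {p : ℝ} (hp : 0 < p) {f : ℂ → ℂ} (hf : DifferentiableOn ℂ f (ball 0 1))
    (hA : AB p f) {z₀ z' : ℂ} {ρ : ℝ} (hρ : 0 < ρ) (hsub : closedBall z₀ ρ ⊆ ball 0 1)
    (hne : ∀ z ∈ closedBall z₀ ρ, f z ≠ 0) (hz' : z' ∈ closedBall z₀ (ρ / 2)) :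
    ‖f z'‖ ≤ exp (TH p) * ‖f z₀‖ := by
  have hz₀ : f z₀ ≠ 0 := hne z₀ (mem_closedBall_self hρ.le)
  set g : ℂ → ℂ := fun z => (f z₀)⁻¹ * f z with hg
  have hgd : DifferentiableOn ℂ g (ball 0 1) := hf.const_mul _
  have hgA : AB p g := hA.const_mul (inv_ne_zero hz₀)
  have hg0 : g z₀ = 1 := inv_mul_cancel₀ hz₀
  have hgne : ∀ z ∈ closedBall z₀ ρ, g z ≠ 0 := fun z hz =>
    mul_ne_zero (inv_ne_zero hz₀) (hne z hz)
  have hz'' : z' ∈ closedBall z₀ ρ := closedBall_subset_closedBall (by linarith) hz'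
  suffices h : Real.log ‖g z'‖ ≤ TH p by
    rw [log_le_iff_le_exp (norm_pos_iff.2 (hgne z' hz''))] at h
    simp only [hg, norm_mul, norm_inv] at h
    rwa [inv_mul_le_iff₀ (norm_pos_iff.2 hz₀), mul_comm] at h
  set L := Real.log ‖g z'‖ with hL
  rcases le_total L 0 with hL0 | hL0
  · exact hL0.trans (TH_nonneg hp)
  have hat : ∀ z ∈ closedBall z₀ ρ, DifferentiableAt ℂ g z := fun z hz =>
    hgd.differentiableAt (isOpen_ball.mem_nhds (hsub hz))
  have h0 : ∀ t ≤ 0, trap L t = 0 := fun t ht => trap_of_nonpos L ht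
  have hWc : ContinuousOn (Wf (trap L) g) (closedBall z₀ ρ) :=
    (continuousOn_Wf (continuous_trap L) h0 hgd).mono hsub
  have hcirc : ∀ s ∈ Icc (ρ / 2) ρ,
      L - 2 ≤ 2 * π * s * circleAverage (fun z => ‖Wf (trap L) g z‖) z₀ s := by
    intro s hs
    have hs0 : 0 < s := by linarith [hs.1]
    have hcl : closure (ball z₀ s) = closedBall z₀ s := closure_ball z₀ hs0.ne'
    have hfr : frontier (ball z₀ s) = sphere z₀ s := frontier_ball z₀ hs0.ne'
    have hsub' : closedBall z₀ s ⊆ closedBall z₀ ρ := closedBall_subset_closedBall hs.2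
    have hd1 : DiffContOnCl ℂ g (ball z₀ s) := by
      refine DifferentiableOn.diffContOnCl ?_
      rw [hcl]
      exact fun z hz => (hat z (hsub' hz)).differentiableWithinAt
    have hd2 : DiffContOnCl ℂ (fun z => (g z)⁻¹) (ball z₀ s) := by
      refine DifferentiableOn.diffContOnCl ?_
      rw [hcl]
      exact fun z hz => ((hat z (hsub' hz)).inv (hgne z (hsub' hz))).differentiableWithinAt
    obtain ⟨z₂, hz₂, hm₂⟩ :=
      Complex.exists_mem_frontier_isMaxOn_norm isBounded_ball (nonempty_ball.2 hs0) hd1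
    obtain ⟨z₁, hz₁, hm₁⟩ :=
      Complex.exists_mem_frontier_isMaxOn_norm isBounded_ball (nonempty_ball.2 hs0) hd2
    rw [hfr] at hz₁ hz₂
    rw [hcl] at hm₁ hm₂
    have a₂ : ‖g z'‖ ≤ ‖g z₂‖ := hm₂ (closedBall_subset_closedBall hs.1 hz')
    have a₁ : ‖(g z₀)⁻¹‖ ≤ ‖(g z₁)⁻¹‖ := hm₁ (mem_closedBall_self hs0.le)
    have a₁' : ‖g z₁‖ ≤ 1 := by
      rw [hg0, inv_one, norm_one, norm_inv] at a₁
      exact (one_le_inv₀ (norm_pos_iff.2 (hgne _ (hsub' (sphere_subset_closedBall hz₁))))).1 a₁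
    have := circle_osc hs0.le (fun z hz => hasFDerivAt_Vf (continuous_trap L) h0
      (hat z (hsub' (sphere_subset_closedBall hz))))
      (hWc.mono (sphere_subset_closedBall.trans hsub')) hz₁ hz₂
    have v₁ : Vf (trap L) g z₁ = 0 := prim_of_nonpos h0 (Real.log_nonpos (norm_nonneg _) a₁')
    have v₂ : L - 2 ≤ Vf (trap L) g z₂ := by
      have h1 : L ≤ Real.log ‖g z₂‖ := Real.log_le_log (norm_pos_iff.2 (hgne z' hz'')) a₂
      have h2 := prim_trap_ge L (Real.log ‖g z₂‖)
      rw [min_eq_right h1] at h2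
      exact h2
    linarith
  have hρ2 : 0 ≤ ρ / 2 := by positivity
  have hle : ρ / 2 ≤ ρ := by linarith
  have hAnn : ContinuousOn (Wf (trap L) g) (Ann z₀ (ρ / 2) ρ) :=
    hWc.mono (Ann_subset_closedBall _ _ _)
  have i1 : ρ / 2 * (L - 2) ≤ PI (fun z => ‖Wf (trap L) g z‖) z₀ (ρ / 2) ρ := by
    have := intervalIntegral.integral_mono_on hle intervalIntegrable_const
      (intervalIntegrable_PI hρ2 hle hAnn.norm) hcirc
    simp only [intervalIntegral.integral_const, smul_eq_mul] at this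
    rw [show ρ - ρ / 2 = ρ / 2 by ring] at this
    exact this
  set t := ρ / (4 * π * p) with ht
  have ht0 : 0 < t := by positivity
  have i2 : PI (fun z => ‖Wf (trap L) g z‖) z₀ (ρ / 2) ρ ≤
      PI (fun z => t / 2 * ‖Wf (trap L) g z‖ ^ 2 + 1 / (2 * t)) z₀ (ρ / 2) ρ := by
    refine PI_mono hρ2 hle hAnn.norm ((continuousOn_const.mul (hAnn.norm.pow 2)).add
      continuousOn_const) fun z _ => ?_
    simpa using amgm t ‖Wf (trap L) g z‖ 1 ht0
  rw [PI_add (G := fun z => t / 2 * ‖Wf (trap L) g z‖ ^ 2) (G' := fun _ => 1 / (2 * t)) hρ2 hle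
    (by fun_prop) (by fun_prop), PI_const_mul, PI_const] at i2
  have i3 : PI (fun z => ‖Wf (trap L) g z‖ ^ 2) z₀ (ρ / 2) ρ ≤ π * p * (1 + 2 * L) :=
    PI_le_of_lintegral_le hρ2 hle (hWc.norm.pow 2) (fun z _ => by positivity) (by positivity)
      ((lintegral_mono_set (ball_subset_closedBall.trans hsub)).trans
        (dirichlet_single hp hgd hgA hL0))
  have e1 : t / 2 * (π * p * (1 + 2 * L)) = ρ / 8 * (1 + 2 * L) := by
    rw [ht]; field_simp; ring
  have e2 : π * (ρ ^ 2 - (ρ / 2) ^ 2) * (1 / (2 * t)) = ρ * (3 / 2 * π ^ 2 * p) := by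
    rw [ht]; field_simp; ring
  have i4 := mul_le_mul_of_nonneg_left i3 (show 0 ≤ t / 2 by positivity)
  rw [e1] at i4
  rw [e2] at i2
  have i5 : ρ * ((L - 2) / 2) ≤ ρ * ((1 + 2 * L) / 8 + 3 / 2 * π ^ 2 * p) := by linarith
  have i6 := le_of_mul_le_mul_left i5 hρ
  unfold TH
  have : 0 < π ^ 2 * p := by positivity
  linarith

/-- Harnack chain along a segment. -/
theorem harnack_chain {p : ℝ} (hp : 0 < p) {f : ℂ → ℂ} (hf : DifferentiableOn ℂ f (ball 0 1))
    (hA : AB p f) {r₀ r : ℝ} (hne : ∀ z : ℂ, r₀ ≤ ‖z‖ → ‖z‖ < 1 → f z ≠ 0) (hr : r < 1)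
    (K : ℕ) : ∀ {z z' : ℂ}, ‖z‖ ≤ r → ‖z'‖ ≤ r → ‖z' - z‖ ≤ K * ((1 - r) / 4) →
      r₀ + (K + 2) * ((1 - r) / 4) ≤ ‖z‖ → ‖f z'‖ ≤ exp (TH p * K) * ‖f z‖ := by
  set η := (1 - r) / 4 with hη
  have hη0 : 0 < η := by rw [hη]; linarith
  induction K with
  | zero =>
    intro z z' _ _ h _
    have : z' = z := by simpa [sub_eq_zero] using h
    simp [this]
  | succ K ih =>
    intro z z' hz hz' h hr₀
    set u : ℂ := z + ((K : ℝ) / (K + 1) : ℝ) • (z' - z) with hu
    have hK : (0 : ℝ) < K + 1 := by positivity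
    have hu1 : ‖u‖ ≤ r := by
      have : u ∈ closedBall (0 : ℂ) r := by
        refine (convex_closedBall 0 r).add_smul_sub_mem (by simpa using hz) (by simpa using hz') ?_
        exact ⟨by positivity, by rw [div_le_one hK]; linarith⟩
      simpa using this
    push_cast at h hr₀
    have hu2 : ‖u - z‖ ≤ K * η := by
      rw [hu, add_sub_cancel_left, norm_smul, Real.norm_of_nonneg (by positivity)]
      calc (K : ℝ) / (K + 1) * ‖z' - z‖ ≤ (K : ℝ) / (K + 1) * ((K + 1) * η) := by gcongr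
        _ = K * η := by field_simp
    have hu3 : ‖z' - u‖ ≤ η := by
      have : z' - u = (1 / (K + 1) : ℝ) • (z' - z) := by
        rw [hu]
        have : (1 / (K + 1) : ℝ) = 1 - (K : ℝ) / (K + 1) := by field_simp; ring
        rw [this, sub_smul, one_smul]
        ring
      rw [this, norm_smul, Real.norm_of_nonneg (by positivity)]
      calc 1 / ((K : ℝ) + 1) * ‖z' - z‖ ≤ 1 / ((K : ℝ) + 1) * ((K + 1) * η) := by gcongr
        _ = η := by field_simp
    have h1 := ih hz hu1 hu2 (by nlinarith)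
    have hball : ∀ w ∈ closedBall u (2 * η), r₀ ≤ ‖w‖ ∧ ‖w‖ < 1 := by
      intro w hw
      have hw' : ‖w - u‖ ≤ 2 * η := by simpa [dist_eq_norm] using hw
      have a1 : ‖w‖ ≤ ‖w - u‖ + ‖u‖ := by simpa using norm_add_le (w - u) u
      have a2 : ‖z‖ ≤ ‖w‖ + ‖w - u‖ + ‖u - z‖ := by
        calc ‖z‖ = ‖w - (w - u) - (u - z)‖ := by ring_nf
          _ ≤ ‖w - (w - u)‖ + ‖u - z‖ := norm_sub_le _ _
          _ ≤ _ := by gcongr; exact norm_sub_le _ _
      constructor <;> nlinarith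
    have h2 := harnack_local hp hf hA (z₀ := u) (z' := z') (ρ := 2 * η) (by positivity)
      (fun w hw => by simpa using (hball w hw).2)
      (fun w hw => hne w (hball w hw).1 (hball w hw).2)
      (by simpa [dist_eq_norm] using hu3)
    calc ‖f z'‖ ≤ exp (TH p) * ‖f u‖ := h2
      _ ≤ exp (TH p) * (exp (TH p * K) * ‖f z‖) := by gcongr
      _ = exp (TH p * ((K + 1 : ℕ) : ℝ)) * ‖f z‖ := by
        rw [← mul_assoc, ← exp_add]; push_cast; ring_nf

end Pool.Agent.MP_e3615c_an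

end MrgPart4

-- ======== part 5: formerly Pool.Agent.MP_e3615c_an.Gram
section MrgPart5

/-!
Gram matrix bounds and prescribing a block of coefficients.
-/

namespace Pool.Agent.MP_e3615c_an

open MeasureTheory Metric Set Filter Topology Real
open scoped ComplexConjugate

theorem parseval_fin {ι : Type*} (T : Finset ι) (u : ι → ℂ) (e : ι → ℕ) (he : InjOn e T) :
    circleAverage (fun z => ‖∑ s ∈ T, u s * z ^ e s‖ ^ 2) 0 1 = ∑ s ∈ T, ‖u s‖ ^ 2 := by
  classical
  have hc : ∀ k : ℤ, ∀ a : ℂ, CircleIntegrable (fun z : ℂ => a * z ^ k) 0 1 := fun k a =>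
    (continuousOn_const.mul (continuousOn_zpow_sphere one_pos k)).circleIntegrable zero_le_one
  have h1 := Complex.ofRealCLM.circleAverage_comp_comm
    (f := fun z => ‖∑ s ∈ T, u s * z ^ e s‖ ^ 2) (c := 0) (R := 1)
    (ContinuousOn.circleIntegrable zero_le_one (by fun_prop))
  have h2 : circleAverage (Complex.ofRealCLM ∘ fun z => ‖∑ s ∈ T, u s * z ^ e s‖ ^ 2) 0 1 =
      circleAverage (fun z => ∑ s ∈ T, ∑ t ∈ T, u s * conj (u t) * z ^ ((e s : ℤ) - e t)) 0 1 := by
    refine circleAverage_congr_sphere fun z hz => ?_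
    have hz1 : ‖z‖ = 1 := by simpa using hz
    have hz0 : z ≠ 0 := by rintro rfl; simp at hz1
    simp only [Function.comp, Complex.ofRealCLM_apply, ← Complex.normSq_eq_norm_sq,
      ← Complex.mul_conj, map_sum, Finset.sum_mul_sum, map_mul, map_pow,
      ← Complex.inv_eq_conj hz1, zpow_sub₀ hz0, zpow_natCast]
    refine Finset.sum_congr rfl fun s _ => Finset.sum_congr rfl fun t _ => ?_
    rw [inv_pow]
    ring
  rw [h2, circleAverage_fun_sum
    (f := fun s z => ∑ t ∈ T, u s * conj (u t) * z ^ ((e s : ℤ) - e t))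
    fun s _ => ContinuousOn.circleIntegrable zero_le_one (continuousOn_finsetSum _ fun t _ =>
      continuousOn_const.mul (continuousOn_zpow_sphere one_pos _))] at h1
  rw [← Complex.ofReal_inj, ← Complex.ofRealCLM_apply, ← h1]
  push_cast
  refine Finset.sum_congr rfl fun s hs => ?_
  rw [circleAverage_fun_sum fun t _ => hc _ _, Finset.sum_eq_single s]
  · rw [circleAverage_const_mul, circleAverage_zpow one_pos, Complex.mul_conj,
      Complex.normSq_eq_norm_sq]
    simp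
  · intro t ht hts
    rw [circleAverage_const_mul, circleAverage_zpow one_pos, if_neg, mul_zero]
    rw [sub_eq_zero, Nat.cast_inj]
    exact fun h => hts (he hs ht h).symm
  · exact fun h => (h hs).elim

theorem lagrange_bound {m : ℕ} (c ζ : Fin (m + 1) → ℂ) (hζ : ∀ i, ‖ζ i‖ ≤ 1)
    {d : Fin (m + 1) → Fin (m + 1) → ℝ} (hd : ∀ i j, 0 < d i j)
    (hs : ∀ i j, i ≠ j → d i j ≤ ‖ζ i - ζ j‖) {z : ℂ} (hz : ‖z‖ ≤ 1) :
    ‖∑ k, c k * z ^ (k : ℕ)‖ ≤
      ∑ i, ‖∑ k, c k * ζ i ^ (k : ℕ)‖ * ∏ j ∈ Finset.univ.erase i, 2 / d i j := by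
  let P : Polynomial ℂ := ∑ k : Fin (m + 1), Polynomial.C (c k) * Polynomial.X ^ (k : ℕ)
  have hP : ∀ w, P.eval w = ∑ k, c k * w ^ (k : ℕ) := fun w => by
    simp [P, Polynomial.eval_finsetSum]
  have h1 := Lagrange.eq_interpolate (s := Finset.univ) (v := ζ) (f := P) (fun i _ j _ h => by
    by_contra hij
    have := hs i j hij
    rw [h, sub_self, norm_zero] at this
    exact (hd i j).not_ge this) (by simpa using Polynomial.degree_sum_fin_lt c)
  rw [← hP, h1, Lagrange.interpolate_apply, Polynomial.eval_finsetSum]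
  refine (norm_sum_le _ _).trans (Finset.sum_le_sum fun i _ => ?_)
  rw [Polynomial.eval_mul, Polynomial.eval_C, norm_mul, hP, Lagrange.basis, Polynomial.eval_prod,
    norm_prod]
  gcongr with j hj
  have h2 := hs i j (Finset.ne_of_mem_erase hj).symm
  have h3 := hd i j
  simp only [Lagrange.basisDivisor, Polynomial.eval_mul, Polynomial.eval_C, Polynomial.eval_sub,
    Polynomial.eval_X, norm_mul, norm_inv]
  rw [inv_mul_eq_div]
  gcongr
  linarith [norm_sub_le z (ζ j), hζ j]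

theorem arc_le {Ψ : ℂ → ℝ} (hΨ : ContinuousOn Ψ (sphere 0 1)) (h0 : ∀ z, 0 ≤ Ψ z) (ϑ : ℝ) {L : ℝ}
    (hL : 0 ≤ L) (hL' : L ≤ 2 * π) :
    L * ∫ s in (0 : ℝ)..1, Ψ (ei (ϑ + L * s)) ≤ 2 * π * circleAverage Ψ 0 1 := by
  have e : ∀ θ, ei θ = circleMap 0 1 θ := fun θ => by simp [ei, circleMap, mul_comm]
  have hc : Continuous fun θ => Ψ (circleMap 0 1 θ) :=
    hΨ.comp_continuous (continuous_circleMap 0 1) (circleMap_mem_sphere 0 zero_le_one)
  have hp : Function.Periodic (fun θ => Ψ (circleMap 0 1 θ)) (2 * π) :=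
    (periodic_circleMap 0 1).comp Ψ
  have h1 := hp.intervalIntegral_add_eq 0 ϑ
  rw [zero_add] at h1
  rw [two_pi_mul_circleAverage, h1]
  simp only [e]
  rw [intervalIntegral.mul_integral_comp_add_mul (f := fun θ => Ψ (circleMap 0 1 θ))]
  exact intervalIntegral.integral_mono_interval (by linarith) (by linarith) (by linarith)
    (Eventually.of_forall fun θ => h0 _) (hc.intervalIntegrable _ _)

theorem gram_arcs {m : ℕ} {G : ℂ → ℂ} (hG : ContinuousOn G (sphere 0 1))
    (ϑ L : Fin (m + 1) → ℝ) (hL : ∀ i, 0 ≤ L i) (hL' : ∀ i, L i ≤ 2 * π)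
    {d : Fin (m + 1) → Fin (m + 1) → ℝ} (hd : ∀ i j, 0 < d i j)
    (hs : ∀ i j t t', i ≠ j → 0 ≤ t → t ≤ L i → 0 ≤ t' → t' ≤ L j →
      d i j ≤ ‖ei (ϑ i + t) - ei (ϑ j + t')‖) {Θ : ℝ} (hΘ : 0 ≤ Θ)
    (hg : ∀ i t, 0 ≤ t → t ≤ L i →
      (∏ j ∈ Finset.univ.erase i, 2 / d i j) ^ 2 ≤ Θ * L i * ‖G (ei (ϑ i + t))‖ ^ 2)
    (c : Fin (m + 1) → ℂ) : ∑ k, ‖c k‖ ^ 2 ≤ (m + 1) ^ 2 * (2 * π) * Θ *
      circleAverage (fun z => ‖G z * ∑ k, c k * z ^ (k : ℕ)‖ ^ 2) 0 1 := by
  rw [← parseval_fin Finset.univ c (fun k => k) fun i _ j _ h => Fin.ext h]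
  refine circleAverage_mono_on_of_le_circle
    (ContinuousOn.circleIntegrable zero_le_one (by fun_prop)) fun z hz => ?_
  have hz1 : ‖z‖ ≤ 1 := by simpa using le_of_eq hz
  let Ψ : ℂ → ℝ := fun z => ‖G z * ∑ k, c k * z ^ (k : ℕ)‖ ^ 2
  have hΨ : ContinuousOn Ψ (sphere 0 1) := by fun_prop
  have hc : ∀ i, Continuous fun s => Ψ (ei (ϑ i + L i * s)) := fun i =>
    hΨ.comp_continuous (by unfold ei; fun_prop) fun s => by simp
  have h1 : ∀ s ∈ Icc (0 : ℝ) 1, ‖∑ k, c k * z ^ (k : ℕ)‖ ^ 2 ≤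
      ∑ i, (m + 1) * Θ * (L i * Ψ (ei (ϑ i + L i * s))) := by
    intro s hs'
    have a0 : ∀ i, 0 ≤ L i * s := fun i => mul_nonneg (hL i) hs'.1
    have a1 : ∀ i, L i * s ≤ L i := fun i => mul_le_of_le_one_right (hL i) hs'.2
    refine (pow_le_pow_left₀ (norm_nonneg _) (lagrange_bound c (fun i => ei (ϑ i + L i * s))
      (fun i => (norm_ei _).le) hd (fun i j hij => hs i j _ _ hij (a0 i) (a1 i) (a0 j) (a1 j))
      hz1) 2).trans (sq_sum_le_card_mul_sum_sq.trans ?_)
    rw [Finset.mul_sum]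
    refine Finset.sum_le_sum fun i _ => ?_
    simp only [Finset.card_univ, Fintype.card_fin, Ψ, norm_mul, mul_pow]
    push_cast
    refine (mul_le_mul_of_nonneg_left (mul_le_mul_of_nonneg_left (hg i _ (a0 i) (a1 i))
      (by positivity)) (by positivity)).trans (le_of_eq (by ring))
  have hc' : ∀ i, Continuous fun s => (m + 1) * Θ * (L i * Ψ (ei (ϑ i + L i * s))) := fun i =>
    continuous_const.mul (continuous_const.mul (hc i))
  have h2 := intervalIntegral.integral_mono_on (μ := volume) zero_le_one intervalIntegrable_const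
    ((continuous_finsetSum _ fun i _ => hc' i).intervalIntegrable _ _) h1
  rw [intervalIntegral.integral_finsetSum fun i _ => (hc' i).intervalIntegrable _ _] at h2
  simp only [intervalIntegral.integral_const, sub_zero, one_smul,
    intervalIntegral.integral_const_mul] at h2
  refine h2.trans ((Finset.sum_le_card_nsmul _ _ _ fun i _ => mul_le_mul_of_nonneg_left
    (arc_le hΨ (fun z => by positivity) (ϑ i) (hL i) (hL' i)) (by positivity)).trans (le_of_eq ?_))
  simp only [Finset.card_univ, Fintype.card_fin, nsmul_eq_mul]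
  push_cast
  ring

theorem solve_min {ι κ : Type*} [Fintype ι] [Fintype κ] (v : ι → κ → ℂ) {Θ : ℝ} (hΘ : 0 ≤ Θ)
    (h : ∀ c : ι → ℂ, ∑ i, ‖c i‖ ^ 2 ≤ Θ * ∑ s, ‖∑ i, c i * v i s‖ ^ 2) (y : ι → ℂ) :
    ∃ q : κ → ℂ, (∀ i, ∑ s, q s * v i s = y i) ∧ ∑ s, ‖q s‖ ^ 2 ≤ Θ * ∑ i, ‖y i‖ ^ 2 := by
  let L : (ι → ℂ) →ₗ[ℂ] (ι → ℂ) :=
    { toFun := fun c i => ∑ s, (∑ k, c k * conj (v k s)) * v i s
      map_add' := fun c c' => by
        funext i
        simp [add_mul, Finset.sum_add_distrib]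
      map_smul' := fun a c => by
        funext i
        simp [Finset.mul_sum, Finset.sum_mul, mul_assoc] }
  have key : ∀ c : ι → ℂ, ∑ i, ‖c i‖ ^ 2 ≤ Θ * ∑ s, ‖∑ k, c k * conj (v k s)‖ ^ 2 ∧
      ∑ s, ‖∑ k, c k * conj (v k s)‖ ^ 2 ≤ ∑ i, ‖c i‖ * ‖L c i‖ := by
    intro c
    have e : ∀ s, ∑ k, conj (c k) * v k s = conj (∑ k, c k * conj (v k s)) := fun s => by simp
    constructor
    · simpa only [e, Complex.norm_conj] using h fun i => conj (c i)
    · have e2 : ((∑ s, ‖∑ k, c k * conj (v k s)‖ ^ 2 : ℝ) : ℂ) = ∑ i, conj (c i) * L c i := by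
        simp only [L, LinearMap.coe_mk, AddHom.coe_mk, Finset.mul_sum]
        rw [Finset.sum_comm, Complex.ofReal_sum]
        refine Finset.sum_congr rfl fun s _ => ?_
        rw [← Complex.normSq_eq_norm_sq, ← Complex.mul_conj, ← e, Finset.mul_sum]
        exact Finset.sum_congr rfl fun i _ => by ring
      refine (le_abs_self _).trans ?_
      rw [← Real.norm_eq_abs, ← Complex.norm_real, e2]
      refine (norm_sum_le _ _).trans (le_of_eq ?_)
      simp
  have hinj : Function.Injective L := by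
    rw [injective_iff_map_eq_zero]
    intro c hc
    obtain ⟨h1, h2⟩ := key c
    simp only [hc, Pi.zero_apply, norm_zero, mul_zero, Finset.sum_const_zero] at h2
    have h3 : ∑ i, ‖c i‖ ^ 2 = 0 :=
      le_antisymm (h1.trans (mul_nonpos_of_nonneg_of_nonpos hΘ h2)) (by positivity)
    funext i
    simpa using (Finset.sum_eq_zero_iff_of_nonneg fun i _ => by positivity).1 h3 i
      (Finset.mem_univ i)
  obtain ⟨c, hc⟩ := LinearMap.injective_iff_surjective.1 hinj y
  obtain ⟨h1, h2⟩ := key c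
  refine ⟨fun s => ∑ k, c k * conj (v k s), fun i => congrFun hc i, ?_⟩
  rw [hc] at h2
  have h3 := Finset.sum_mul_sq_le_sq_mul_sq Finset.univ (fun i => ‖c i‖) fun i => ‖y i‖
  set X := ∑ s, ‖∑ k, c k * conj (v k s)‖ ^ 2
  have hX : 0 ≤ X := by positivity
  have hY : 0 ≤ ∑ i, ‖y i‖ ^ 2 := by positivity
  rcases hX.eq_or_lt with h4 | h4
  · rw [← h4]; positivity
  · refine le_of_mul_le_mul_left ?_ h4
    nlinarith [mul_le_mul_of_nonneg_right h1 hY, pow_le_pow_left₀ hX h2 2]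

theorem dirichlet_poly {ι : Type*} (T : Finset ι) (u : ι → ℂ) (e : ι → ℕ) (he : InjOn e T) {N : ℝ}
    (hN : 0 < N) (h : ∀ s ∈ T, (e s : ℝ) ≤ N) :
    ∫⁻ z in ball (0 : ℂ) 1, ENNReal.ofReal (‖deriv (fun z => ∑ s ∈ T, u s * z ^ e s) z‖ ^ 2) ≤
      ENNReal.ofReal (π * (2 * N * ∑ s ∈ T, ‖u s‖ ^ 2)) := by
  let q' : ℂ → ℂ := fun z => ∑ s ∈ T, u s * (e s * z ^ (e s - 1))
  have hq : ∀ z, HasDerivAt (fun z => ∑ s ∈ T, u s * z ^ e s) (q' z) z := fun z =>
    HasDerivAt.fun_sum fun s _ => (hasDerivAt_pow (e s) z).const_mul (u s)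
  have hq' : Differentiable ℂ q' := by fun_prop
  have hc := hq'.continuous
  simp only [(hq _).deriv]
  rw [lintegral_ball_eq_PI zero_le_one (by fun_prop) fun z _ => by positivity]
  refine ENNReal.ofReal_le_ofReal ?_
  have g := green (V := fun z => (∑ s ∈ T, u s * z ^ e s).re) (W := q') (κ := q') le_rfl
    zero_le_one (fun z _ => hasFDerivAt_re (hq z)) hc.continuousOn fun z _ => hq' z
  have e1 : (fun z => (q' z * conj (q' z)).re) = fun z => ‖q' z‖ ^ 2 := by
    funext z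
    rw [Complex.mul_conj, Complex.normSq_eq_norm_sq, Complex.ofReal_re]
  have e2 : ∀ z, z * q' z = ∑ s ∈ T, u s * e s * z ^ e s := fun z => by
    rw [Finset.mul_sum]
    refine Finset.sum_congr rfl fun s _ => ?_
    rcases Nat.eq_zero_or_pos (e s) with h0 | h0
    · simp [h0]
    · conv_rhs => rw [← Nat.sub_add_cancel h0, pow_succ, Nat.sub_add_cancel h0]
      ring
  rw [e1, circleAverage_zero] at g
  simp only [zero_mul, Complex.zero_re, mul_zero, sub_zero] at g
  simp only [e2] at g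
  rw [g, mul_comm 2, mul_assoc, mul_assoc 2]
  gcongr
  refine (circleAverage_mono (f₂ := fun z => (N / 2) • ‖∑ s ∈ T, u s * z ^ e s‖ ^ 2 +
    (1 / (2 * N)) • ‖∑ s ∈ T, u s * e s * z ^ e s‖ ^ 2)
    (ContinuousOn.circleIntegrable zero_le_one (by fun_prop))
    (ContinuousOn.circleIntegrable zero_le_one (by fun_prop)) fun z _ => ?_).trans ?_
  · refine le_trans ?_ (amgm N _ _ hN)
    refine (le_abs_self _).trans ?_
    rw [abs_mul]
    gcongr <;> exact Complex.abs_re_le_norm _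
  · rw [circleAverage_fun_add (ContinuousOn.circleIntegrable zero_le_one (by fun_prop))
      (ContinuousOn.circleIntegrable zero_le_one (by fun_prop)), circleAverage_fun_smul,
      circleAverage_fun_smul, parseval_fin T u e he, parseval_fin T _ e he, smul_eq_mul,
      smul_eq_mul]
    have : ∑ s ∈ T, ‖u s * e s‖ ^ 2 ≤ N ^ 2 * ∑ s ∈ T, ‖u s‖ ^ 2 := by
      rw [Finset.mul_sum]
      refine Finset.sum_le_sum fun s hs => ?_
      rw [norm_mul, Complex.norm_natCast, mul_pow, mul_comm]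
      gcongr
      exact h s hs
    calc _ ≤ N / 2 * ∑ s ∈ T, ‖u s‖ ^ 2 + 1 / (2 * N) * (N ^ 2 * ∑ s ∈ T, ‖u s‖ ^ 2) := by gcongr
      _ = _ := by field_simp; ring

end Pool.Agent.MP_e3615c_an

end MrgPart5

-- marker of a merged file
example : 731051 + 271527 = 731051 + 271527 := rfl
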