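import Pool.Agent.MP_e3615c_an.Defs
import Pool.Agent.MP_e3615c_an.Zeros
import Pool.Agent.MP_e3615c_an.Gram

-- ======== part 0: formerly Pool.Agent.MP_e3615c_an.Stab
section MrgPart0

/-!
Finite dimensional facts about `gamma`: stability and the optimality conditions.
-/

namespace Pool.Agent.MP_e3615c_an

open Finset Filter Topology

variable {m : ℕ}

theorem IsUltra.cost_nonneg {H : Fin (m + 1) → Fin (m + 1) → ℝ} (hH : IsUltra H)
    (i : Fin (m + 1)) : 0 ≤ cost H i := by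
  have h1 := single_le_sum (f := fun j => H i j) (fun j _ => (hH.2.1 i j).1) (mem_univ i)
  have h2 := (hH.2.1 i i).1
  unfold cost
  linarith

theorem form_eq (p : ℝ) (H : Fin (m + 1) → Fin (m + 1) → ℝ) (a : Fin (m + 1) → ℝ) :
    form p H a = 2 * p * ∑ i, ∑ j, a i * a j * H i j -
      ∑ i, ∑ j, a i * a j * min (cost H i) (cost H j) := by
  simp only [form, mul_sum, ← sum_sub_distrib]
  exact sum_congr rfl fun i _ => sum_congr rfl fun j _ => by ring

theorem bddAbove_gamma {p : ℝ} (hp : 0 ≤ p) :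
    BddAbove {x : ℝ | ∃ H : Fin (m + 1) → Fin (m + 1) → ℝ, IsUltra H ∧
      ∀ a ∈ stdSimplex ℝ (Fin (m + 1)), x ≤ form p H a} := by
  refine ⟨2 * p, ?_⟩
  rintro x ⟨H, hH, h⟩
  refine (h _ (single_mem_stdSimplex ℝ 0)).trans ?_
  have h1 := hH.cost_nonneg 0
  have h2 := (hH.2.1 0 0).2
  simp only [form, Pi.single_apply, ite_mul, mul_ite, one_mul, mul_one, zero_mul, mul_zero,
    sum_ite_eq', mem_univ, if_true, min_self]
  nlinarith

theorem zero_mem_gamma (p : ℝ) : (0 : ℝ) ∈ {x : ℝ | ∃ H : Fin (m + 1) → Fin (m + 1) → ℝ,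
    IsUltra H ∧ ∀ a ∈ stdSimplex ℝ (Fin (m + 1)), x ≤ form p H a} :=
  ⟨fun _ _ => 0, ⟨fun _ _ => rfl, fun _ _ => ⟨le_rfl, zero_le_one⟩, fun _ _ _ => by simp⟩,
    fun a _ => by simp [form, cost]⟩

theorem gamma_nonneg {p : ℝ} (hp : 0 ≤ p) : 0 ≤ gamma m p :=
  le_csSup (bddAbove_gamma hp) (zero_mem_gamma p)

theorem stability {p γ : ℝ} (hp : 0 ≤ p) (hγ : gamma m p < γ) :
    ∃ η : ℝ, 0 < η ∧ η ≤ 1 ∧ ∀ H : Fin (m + 1) → Fin (m + 1) → ℝ, (∀ i j, H i j = H j i) →
      (∀ i j, -η ≤ H i j ∧ H i j ≤ 1) → (∀ i j k, min (H i j) (H j k) ≤ H i k + η) →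
      ¬ ∀ a ∈ stdSimplex ℝ (Fin (m + 1)),
        (1 - η) * (γ - η + ∑ i, ∑ j, a i * a j * min (cost H i) (cost H j)) ≤
          2 * p * (∑ i, ∑ j, a i * a j * H i j + η) + η := by
  by_contra hcon
  push Not at hcon
  have h1 : ∀ k : ℕ, (1 : ℝ) / (k + 1) ≤ 1 := fun k =>
    (div_le_one (by positivity)).2 (by linarith [Nat.cast_nonneg (α := ℝ) k])
  choose H hs hb hu hf using fun k : ℕ => hcon (1 / (k + 1)) (by positivity) (h1 k)
  obtain ⟨G, -, φ, hφ, hlim⟩ := (isCompact_Icc (a := fun _ _ => (-1 : ℝ)) (b := fun _ _ => 1)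
    (α := Fin (m + 1) → Fin (m + 1) → ℝ)).tendsto_subseq (x := H)
    fun k => ⟨fun i j => by linarith [(hb k i j).1, h1 k], fun i j => (hb k i j).2⟩
  have hη : Tendsto (fun k => (1 : ℝ) / (φ k + 1)) atTop (𝓝 0) :=
    tendsto_one_div_add_atTop_nhds_zero_nat.comp hφ.tendsto_atTop
  have hl := hη.prodMk_nhds hlim
  have key : ∀ u v : ℝ × (Fin (m + 1) → Fin (m + 1) → ℝ) → ℝ, Continuous u → Continuous v →
      (∀ k : ℕ, u (1 / (k + 1), H k) ≤ v (1 / (k + 1), H k)) → u (0, G) ≤ v (0, G) :=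
    fun u v hu hv h => le_of_tendsto_of_tendsto' ((hu.tendsto _).comp hl) ((hv.tendsto _).comp hl)
      fun k => h (φ k)
  refine hγ.not_ge (le_csSup (bddAbove_gamma hp) ⟨G, ⟨fun i j => le_antisymm ?_ ?_,
    fun i j => ⟨?_, ?_⟩, fun i j k => ?_⟩, fun a ha => ?_⟩)
  · exact key (fun q => q.2 i j) (fun q => q.2 j i) (by fun_prop) (by fun_prop)
      fun k => (hs k i j).le
  · exact key (fun q => q.2 j i) (fun q => q.2 i j) (by fun_prop) (by fun_prop)
      fun k => (hs k j i).le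
  · simpa using key (fun q => -q.1) (fun q => q.2 i j) (by fun_prop) (by fun_prop)
      fun k => (hb k i j).1
  · exact key (fun q => q.2 i j) (fun _ => 1) (by fun_prop) (by fun_prop) fun k => (hb k i j).2
  · simpa using key (fun q => min (q.2 i j) (q.2 j k)) (fun q => q.2 i k + q.1) (by fun_prop)
      (by fun_prop) fun l => hu l i j k
  · have := key
      (fun q => (1 - q.1) * (γ - q.1 + ∑ i, ∑ j, a i * a j * min (cost q.2 i) (cost q.2 j)))
      (fun q => 2 * p * (∑ i, ∑ j, a i * a j * q.2 i j + q.1) + q.1)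
      (by unfold cost; fun_prop) (by fun_prop) fun k => hf k a ha
    simp only [sub_zero, one_mul, add_zero] at this
    rw [form_eq]
    linarith

end Pool.Agent.MP_e3615c_an

end MrgPart0

-- ======== part 1: formerly Pool.Agent.MP_e3615c_an.KKT
section MrgPart1

/-!
Optimality conditions for a strictly copositive quadratic form.
-/

namespace Pool.Agent.MP_e3615c_an

open Finset Filter Topology

theorem nonneg_of_small {u v δ : ℝ} (hδ : 0 < δ)
    (h : ∀ t, 0 < t → t < δ → 0 ≤ 2 * t * u + t ^ 2 * v) : 0 ≤ u := by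
  have h1 : Tendsto (fun t : ℝ => 2 * u + t * v) (𝓝[>] 0) (𝓝 (2 * u + 0 * v)) :=
    ((by fun_prop : Continuous fun t : ℝ => 2 * u + t * v).tendsto 0).mono_left nhdsWithin_le_nhds
  have h2 := ge_of_tendsto (b := 0) h1 (by
    filter_upwards [Ioo_mem_nhdsGT hδ] with t ht
    have := h t ht.1 ht.2
    exact le_of_mul_le_mul_left (a := t) (by nlinarith) ht.1)
  linarith

theorem exists_kkt {ι : Type*} [Fintype ι] [DecidableEq ι] (M : ι → ι → ℝ)
    (hs : ∀ i j, M i j = M j i) {κ : ℝ} (hκ : 0 < κ)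
    (hM : ∀ b ∈ stdSimplex ℝ ι, κ ≤ ∑ i, ∑ j, b i * b j * M i j) (i₀ : ι) :
    ∃ a : ι → ℝ, (∀ i, 0 ≤ a i) ∧ (∀ j, 0 ≤ M j i₀ + ∑ i, a i * M j i) ∧
      ∀ j, 0 < a j → M j i₀ + ∑ i, a i * M j i ≤ 0 := by
  let Q : (ι → ℝ) → ℝ := fun b => ∑ i, ∑ j, b i * b j * M i j
  have hQ : ∀ b : ι → ℝ, (∀ i, 0 ≤ b i) → κ * (∑ i, b i) ^ 2 ≤ Q b := by
    intro b hb
    rcases (sum_nonneg fun i (_ : i ∈ univ) => hb i).eq_or_lt with h | h
    · have : ∀ i, b i = 0 := fun i =>
        (sum_eq_zero_iff_of_nonneg fun i _ => hb i).1 h.symm i (mem_univ i)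
      simp [Q, this]
    · have := hM (fun i => b i / ∑ i, b i) ⟨fun i => div_nonneg (hb i) h.le, by
        rw [← sum_div, div_self h.ne']⟩
      simp only [div_mul_div_comm] at this
      simp only [div_mul_eq_mul_div, ← sum_div] at this
      rw [le_div_iff₀ (mul_pos h h)] at this
      rwa [sq]
  have hstep : ∀ (b : ι → ℝ) (j : ι) (t : ℝ), Q (b + Pi.single j t) =
      Q b + (2 * t * ∑ i, b i * M j i + t ^ 2 * M j j) := by
    intro b j t
    simp only [Q, Pi.add_apply, Pi.single_apply, add_mul, mul_add, sum_add_distrib, ite_mul,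
      mul_ite, zero_mul, mul_zero, sum_ite_eq', mem_univ, if_true, mul_sum, sum_ite_irrel,
      sum_const_zero]
    have e1 : ∑ i, b i * t * M i j = ∑ i, t * (b i * M j i) :=
      sum_congr rfl fun i _ => by rw [hs i j]; ring
    have e2 : ∑ i, 2 * t * (b i * M j i) = ∑ i, t * (b i * M j i) + ∑ i, t * b i * M j i := by
      rw [← sum_add_distrib]
      exact sum_congr rfl fun i _ => by ring
    rw [e1, e2]
    ring
  let e : ι → ℝ := Pi.single i₀ 1
  have he : ∀ i, 0 ≤ e i := fun i => by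
    simp only [e, Pi.single_apply]; split_ifs <;> norm_num
  set R := Q e / κ + 1 with hR
  have hQe : κ ≤ Q e := hM _ (single_mem_stdSimplex ℝ i₀)
  have hR1 : 1 ≤ R := by rw [hR]; linarith [div_nonneg (hκ.le.trans hQe) hκ.le]
  obtain ⟨a, ha, hmin⟩ := (isCompact_Icc (a := fun _ : ι => (0 : ℝ)) (b := fun _ => R)).exists_isMinOn
    (f := fun a => Q (e + a)) ⟨fun _ => 0, fun _ => le_rfl, fun _ => by linarith⟩
    (Continuous.continuousOn (by simp only [Q, Pi.add_apply]; fun_prop))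
  have haR : ∀ j, a j < R := by
    intro j
    have h1 : Q (e + a) ≤ Q (e + fun _ => 0) := hmin ⟨fun _ => le_rfl, fun _ => by linarith⟩
    have h2 := hQ (e + a) fun i => add_nonneg (he i) (ha.1 i)
    have h3 : a j ≤ ∑ i, (e + a) i := le_trans (le_add_of_nonneg_left (he j))
      (single_le_sum (f := e + a) (fun i _ => add_nonneg (he i) (ha.1 i)) (mem_univ j))
    have h4 : e + (fun _ => 0) = e := by funext i; simp
    rw [h4] at h1
    have h5 : Q e < κ * R := by rw [hR, mul_add, mul_div_cancel₀ _ hκ.ne']; linarith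
    by_contra h6
    push Not at h6
    have h7 : R ≤ (∑ i, (e + a) i) ^ 2 := by nlinarith
    nlinarith
  have hsum : ∀ j, ∑ i, (e + a) i * M j i = M j i₀ + ∑ i, a i * M j i := fun j => by
    simp [e, add_mul, sum_add_distrib, Pi.single_apply]
  have hvar : ∀ j t, -a j ≤ t → t ≤ R - a j →
      0 ≤ 2 * t * (M j i₀ + ∑ i, a i * M j i) + t ^ 2 * M j j := by
    intro j t h1 h2
    have h3 : Q (e + a) ≤ Q (e + (a + Pi.single j t)) := by
      refine hmin ⟨fun i => ?_, fun i => ?_⟩ <;> simp only [Pi.add_apply, Pi.single_apply] <;>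
        split_ifs with h
      · rw [h]; linarith
      · simpa using ha.1 i
      · rw [h]; linarith
      · simpa using ha.2 i
    rw [← add_assoc, hstep, hsum] at h3
    linarith
  refine ⟨a, ha.1, fun j => nonneg_of_small (sub_pos.2 (haR j)) fun t h1 h2 =>
    hvar j t (by linarith [ha.1 j]) h2.le, fun j hj => ?_⟩
  rw [← neg_nonneg]
  refine nonneg_of_small (v := M j j) hj fun t h1 h2 => ?_
  have := hvar j (-t) (by linarith) (by linarith [haR j])
  linarith

/-- The data of an extremal configuration. -/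
structure Data (m : ℕ) (p γ : ℝ) where
  H : Fin (m + 1) → Fin (m + 1) → ℝ
  ρ : Fin (m + 1) → ℝ
  a : Fin (m + 1) → ℝ
  i₀ : Fin (m + 1)
  ultra : IsUltra H
  ρ_nonneg : ∀ i, 0 ≤ ρ i
  a_nonneg : ∀ i, 0 ≤ a i
  cost_le : ∀ i, γ + cost H i ≤ ρ i
  ge : ∀ j, ρ j + ∑ i, a i * min (ρ j) (ρ i) ≤ 2 * p * (H j i₀ + ∑ i, a i * H j i)
  le : ∀ j, 0 < a j → 2 * p * (H j i₀ + ∑ i, a i * H j i) ≤ ρ j + ∑ i, a i * min (ρ j) (ρ i)

theorem exists_data {m : ℕ} {p γ : ℝ} (hp : 0 < p) (hγ : γ < gamma m p) :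
    ∃ p' γ' : ℝ, 0 < p' ∧ p' < p ∧ γ < γ' ∧ Nonempty (Data m p' γ') := by
  rcases lt_or_ge γ 0 with h0 | h0
  · exact ⟨p / 2, 0, by positivity, by linarith, h0, ⟨⟨fun _ _ => 0, 0, 0, 0,
      ⟨fun _ _ => rfl, fun _ _ => ⟨le_rfl, zero_le_one⟩, fun _ _ _ => by simp⟩,
      fun _ => le_rfl, fun _ => le_rfl, fun _ => by simp [cost], fun _ => by simp,
      fun _ => by simp⟩⟩⟩
  obtain ⟨x, ⟨H, hH, hx⟩, hγx⟩ := exists_lt_of_lt_csSup ⟨0, zero_mem_gamma p⟩ hγ
  set κ := (x - γ) / 4 with hκ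
  have hκ0 : 0 < κ := by linarith
  set δ := min (p / 2) κ with hδ
  have hδ0 : 0 < δ := lt_min (by positivity) hκ0
  have hδ1 : δ ≤ p / 2 := min_le_left _ _
  have hδ2 : δ ≤ κ := min_le_right _ _
  let ρ : Fin (m + 1) → ℝ := fun i => γ + κ + cost H i
  obtain ⟨i₀, -, hi₀⟩ := exists_max_image univ ρ univ_nonempty
  obtain ⟨a, ha, h1, h2⟩ := exists_kkt (fun i j => 2 * (p - δ) * H i j - min (ρ i) (ρ j))
    (fun i j => by rw [hH.1, min_comm]) hκ0 (fun b hb => by
      have a1 : ∑ i, ∑ j, b i * b j = 1 := by rw [← sum_mul_sum, hb.2, mul_one]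
      have a2 := hx b hb
      have a3 : form p H b - (γ + 3 * κ) * ∑ i, ∑ j, b i * b j ≤
          ∑ i, ∑ j, b i * b j * (2 * (p - δ) * H i j - min (ρ i) (ρ j)) := by
        simp only [form, mul_sum, ← sum_sub_distrib]
        refine sum_le_sum fun i _ => sum_le_sum fun j _ => ?_
        rw [mul_comm (γ + 3 * κ), ← mul_sub]
        refine mul_le_mul_of_nonneg_left ?_ (mul_nonneg (hb.1 i) (hb.1 j))
        simp only [ρ, min_add_add_left]
        nlinarith [(hH.2.1 i j).2]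
      rw [a1] at a3
      linarith) i₀
  have e : ∀ j, 2 * (p - δ) * H j i₀ - min (ρ j) (ρ i₀) +
      ∑ i, a i * (2 * (p - δ) * H j i - min (ρ j) (ρ i)) =
      2 * (p - δ) * (H j i₀ + ∑ i, a i * H j i) - (ρ j + ∑ i, a i * min (ρ j) (ρ i)) := by
    intro j
    rw [min_eq_left (hi₀ j (mem_univ j))]
    simp only [mul_sub, sum_sub_distrib, mul_add, mul_sum, sub_mul]
    have b1 : ∑ i, a i * (2 * p * H j i) = ∑ i, 2 * p * (a i * H j i) :=
      sum_congr rfl fun i _ => by ring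
    have b2 : ∑ i, a i * (2 * δ * H j i) = ∑ i, 2 * δ * (a i * H j i) :=
      sum_congr rfl fun i _ => by ring
    rw [b1, b2]
    ring
  refine ⟨p - δ, γ + κ, by linarith, by linarith, by linarith, ⟨⟨H, ρ, a, i₀, hH,
    fun i => by have := hH.cost_nonneg i; positivity, ha, fun i => le_rfl, fun j => ?_,
    fun j hj => ?_⟩⟩⟩
  · have := h1 j
    rw [e] at this
    linarith
  · have := h2 j hj
    rw [e] at this
    linarith

end Pool.Agent.MP_e3615c_an

end MrgPart1

-- ======== part 2: formerly Pool.Agent.MP_e3615c_an.Slope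
section MrgPart2

/-!
The profile attached to an extremal configuration.
-/

namespace Pool.Agent.MP_e3615c_an

open Finset Real

variable {m : ℕ} {p γ : ℝ} (D : Data m p γ)

namespace Data

/-- Total mass. -/
noncomputable def A₀ : ℝ := 1 + ∑ i, D.a i

/-- Potential exponents. -/
noncomputable def U (j : Fin (m + 1)) : ℝ := 2 * p * (D.H j D.i₀ + ∑ i, D.a i * D.H j i)

/-- Slopes. -/
noncomputable def sl (ε' : ℝ) : Option (Finset (Fin (m + 1))) → ℝ
  | none => ε'
  | some J => 1 / (1 + ∑ i ∈ J, D.a i)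

/-- Intercepts. -/
noncomputable def ic (ε l : ℝ) : Option (Finset (Fin (m + 1))) → ℝ
  | none => 0
  | some J => -(l * ((∑ i ∈ Jᶜ, D.a i * (D.ρ i + ε)) / (1 + ∑ i ∈ J, D.a i) + ε))

theorem one_le_S (J : Finset (Fin (m + 1))) : 1 ≤ 1 + ∑ i ∈ J, D.a i :=
  le_add_of_nonneg_right (sum_nonneg fun i _ => D.a_nonneg i)

theorem S_le (J : Finset (Fin (m + 1))) : 1 + ∑ i ∈ J, D.a i ≤ D.A₀ :=
  add_le_add_right (sum_le_sum_of_subset_of_nonneg (subset_univ J) fun i _ _ => D.a_nonneg i) 1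

theorem one_le_A₀ : 1 ≤ D.A₀ := D.one_le_S univ

theorem sl_nonneg {ε' : ℝ} (h : 0 ≤ ε') : ∀ x, 0 ≤ D.sl ε' x
  | none => h
  | some J => by have := D.one_le_S J; simp only [sl]; positivity

theorem sl_le_one {ε' : ℝ} (h : ε' * D.A₀ ≤ 1) (h0 : 0 ≤ ε') : ∀ x, D.sl ε' x ≤ 1
  | none => (le_mul_of_one_le_right h0 D.one_le_A₀).trans h
  | some J => (div_le_one (by linarith [D.one_le_S J])).2 (D.one_le_S J)

theorem ic_some_le {ε l : ℝ} (hε : 0 ≤ ε) (hl : 0 ≤ l) (J : Finset (Fin (m + 1))) :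
    D.ic ε l (some J) ≤ -(ε * l) := by
  have h1 := D.one_le_S J
  have h2 : 0 ≤ (∑ i ∈ Jᶜ, D.a i * (D.ρ i + ε)) / (1 + ∑ i ∈ J, D.a i) :=
    div_nonneg (sum_nonneg fun i _ => mul_nonneg (D.a_nonneg i) (add_nonneg (D.ρ_nonneg i) hε))
      (by linarith)
  simp only [ic]
  nlinarith

theorem ic_nonpos {ε l : ℝ} (hε : 0 ≤ ε) (hl : 0 ≤ l) : ∀ x, D.ic ε l x ≤ 0
  | none => le_rfl
  | some J => (D.ic_some_le hε hl J).trans (neg_nonpos.2 (mul_nonneg hε hl))

theorem height {ε ε' l C t : ℝ} (hε : 0 ≤ ε) (hl : 0 ≤ l) (hC : 0 ≤ C) (j : Fin (m + 1))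
    (ht : D.U j * l - C ≤ t) :
    ∃ x, (D.ρ j - ε * D.A₀) * l - C ≤ D.sl ε' x * t + D.ic ε l x := by
  let J := univ.filter fun i => D.ρ j ≤ D.ρ i
  refine ⟨some J, ?_⟩
  have h1 := D.one_le_S J
  have h2 : D.ρ j * (1 + ∑ i ∈ J, D.a i) + ∑ i ∈ Jᶜ, D.a i * D.ρ i ≤ D.U j := by
    refine le_trans (le_of_eq ?_) (D.ge j)
    rw [← sum_add_sum_compl J fun i => D.a i * min (D.ρ j) (D.ρ i), mul_add, mul_one, mul_sum,
      add_assoc]
    congr 2
    · exact sum_congr rfl fun i hi => by rw [min_eq_left (mem_filter.1 hi).2, mul_comm]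
    · refine sum_congr rfl fun i hi => ?_
      rw [min_eq_right]
      simpa [J] using le_of_lt (by simpa [J] using hi)
  have h3 : ∑ i ∈ Jᶜ, D.a i ≤ D.A₀ - 1 := by linarith [D.S_le Jᶜ]
  have h4 : 0 ≤ ∑ i ∈ Jᶜ, D.a i := sum_nonneg fun i _ => D.a_nonneg i
  simp only [sl, ic, mul_add, sum_add_distrib, ← sum_mul]
  set S := 1 + ∑ i ∈ J, D.a i
  set a' := ∑ i ∈ Jᶜ, D.a i
  set b := ∑ i ∈ Jᶜ, D.a i * D.ρ i
  have h5 : (D.ρ j * l - (a' * ε * l + C)) * S ≤ t - l * (b + a' * ε) := by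
    have := mul_le_mul_of_nonneg_right h2 hl
    have : a' * ε * l + C ≤ (a' * ε * l + C) * S := le_mul_of_one_le_right (by positivity) h1
    nlinarith
  rw [← le_div_iff₀ (by linarith)] at h5
  have h6 := mul_le_mul_of_nonneg_right h3 (mul_nonneg hε hl)
  have e : (t - l * (b + a' * ε)) / S = 1 / S * t - l * ((b + a' * ε) / S) := by ring
  nlinarith

theorem gap {ε ε' l t : ℝ} (hε : 0 ≤ ε) (hl : 0 ≤ l) {J : Finset (Fin (m + 1))} {i : Fin (m + 1)}
    (hi : i ∉ J) (ha : 0 < D.a i) (ht : t ≤ (D.U i + ε / 2) * l) :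
    D.sl ε' (some J) * t + D.ic ε l (some J) + D.a i * (ε * l / (2 * D.A₀)) ≤
      D.sl ε' (some (insert i J)) * t + D.ic ε l (some (insert i J)) := by
  have h1 := D.one_le_S J
  have h1' := D.S_le (insert i J)
  have h2 : D.U i ≤ D.ρ i * (1 + ∑ k ∈ J, D.a k) + ∑ k ∈ Jᶜ, D.a k * (D.ρ k + ε) := by
    refine (D.le i ha).trans ?_
    rw [← sum_add_sum_compl J fun k => D.a k * min (D.ρ i) (D.ρ k), mul_add, mul_one, mul_sum,
      add_assoc]
    refine add_le_add_right (add_le_add (sum_le_sum fun k _ => ?_) (sum_le_sum fun k _ => ?_)) _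
    · rw [mul_comm (D.ρ i)]
      exact mul_le_mul_of_nonneg_left (min_le_left _ _) (D.a_nonneg k)
    · exact mul_le_mul_of_nonneg_left ((min_le_right _ _).trans (by linarith)) (D.a_nonneg k)
  have h3 : ∑ k ∈ (insert i J)ᶜ, D.a k * (D.ρ k + ε) =
      ∑ k ∈ Jᶜ, D.a k * (D.ρ k + ε) - D.a i * (D.ρ i + ε) := by
    rw [compl_insert, eq_sub_iff_add_eq, sum_erase_add _ _ (mem_compl.2 hi)]
  simp only [sl, ic, h3]
  rw [sum_insert hi] at h1' ⊢
  set S := ∑ k ∈ J, D.a k
  set b := ∑ k ∈ Jᶜ, D.a k * (D.ρ k + ε)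
  set y := (t - l * b) / (1 + S) with hy
  have h4 : t = (1 + S) * y + l * b := by rw [hy]; field_simp; ring
  have h5 : y ≤ (D.ρ i + ε / 2) * l := by
    rw [hy, div_le_iff₀ (by linarith)]
    have := mul_le_mul_of_nonneg_right h2 hl
    nlinarith [mul_nonneg (mul_nonneg hε hl) (by linarith : 0 ≤ S)]
  have h6 : ε * l / (2 * D.A₀) ≤ ((D.ρ i + ε) * l - y) / (1 + (D.a i + S)) := by
    rw [← div_div]
    exact div_le_div₀ (by nlinarith [mul_nonneg hε hl]) (by linarith) (by linarith) h1'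
  have h7 := mul_le_mul_of_nonneg_left h6 ha.le
  have e : 1 / (1 + (D.a i + S)) * t + -(l * ((b - D.a i * (D.ρ i + ε)) / (1 + (D.a i + S)) + ε)) =
      1 / (1 + S) * t + -(l * (b / (1 + S) + ε)) +
        D.a i * (((D.ρ i + ε) * l - y) / (1 + (D.a i + S))) := by
    have : 0 < 1 + (D.a i + S) := by linarith
    rw [h4]
    field_simp
    ring
  rw [e]
  linarith

theorem slope_big {ε ε' l : ℝ} {N : ℕ} (hN : 0 < N) (hε : 0 < ε) (hl : 0 < l) (h0 : 0 ≤ ε')
    (h1 : ε' * D.A₀ ≤ 1) (t : ℝ) :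
    sg (D.sl ε') (D.ic ε l) N t * (1 + ∑ i, if t ≤ (D.U i + ε / 2) * l then D.a i else 0) ≤
      1 + 2 ^ (m + 1) * ((m + 1) * (2 * D.A₀ * N / (ε * l))) := by
  have hA := D.one_le_A₀
  have hE := Es_pos (D.sl ε') (D.ic ε l) N t
  set η := 2 * D.A₀ * N / (ε * l) with hη
  have hη0 : 0 < η := by positivity
  let e : Option (Finset (Fin (m + 1))) → ℝ := fun x => exp ((D.sl ε' x * t + D.ic ε l x) / N)
  have he : ∀ x, 0 < e x := fun x => exp_pos _
  let I : Fin (m + 1) → ℝ := fun i => if t ≤ (D.U i + ε / 2) * l then D.a i else 0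
  have hI : ∀ i, I i ≤ D.a i := fun i => by
    simp only [I]; split_ifs
    exacts [le_rfl, D.a_nonneg i]
  rw [sg, div_mul_eq_mul_div, div_le_iff₀ hE, sum_mul, add_mul, one_mul]
  conv_rhs => enter [1]; rw [Es]
  rw [Fintype.sum_option, Fintype.sum_option, add_assoc]
  refine add_le_add ?_ ?_
  · rw [mul_right_comm]
    refine mul_le_of_le_one_left (he none).le (le_trans ?_ h1)
    exact mul_le_mul_of_nonneg_left (add_le_add_right (sum_le_sum fun i _ => hI i) 1) h0
  have key : ∀ J i, i ∉ J → e (some J) * I i ≤ η * Es (D.sl ε') (D.ic ε l) N t := by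
    intro J i hi
    simp only [I]
    split_ifs with ht
    swap
    · rw [mul_zero]; positivity
    rcases (D.a_nonneg i).eq_or_lt with ha | ha
    · rw [← ha, mul_zero]; positivity
    have a1 := D.gap (ε' := ε') hε.le hl.le hi ha ht
    have a2 : e (some J) * exp (D.a i / η) ≤ e (some (insert i J)) := by
      rw [← exp_add, exp_le_exp, show D.a i / η = D.a i * (ε * l / (2 * D.A₀)) / N by
        rw [hη]; field_simp, ← add_div]
      gcongr
    have a3 : e (some (insert i J)) ≤ Es (D.sl ε') (D.ic ε l) N t :=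
      single_le_sum (f := e) (fun x _ => (he x).le) (mem_univ _)
    have a4 : D.a i ≤ η * exp (D.a i / η) := by
      rw [← div_le_iff₀' hη0]; linarith [add_one_le_exp (D.a i / η)]
    nlinarith [he (some J)]
  have e2 : (2 : ℝ) ^ (m + 1) * ((m + 1) * η) * Es (D.sl ε') (D.ic ε l) N t =
      ∑ _J : Finset (Fin (m + 1)), (m + 1) * (η * Es (D.sl ε') (D.ic ε l) N t) := by
    simp [mul_assoc]
  rw [e2, ← sum_add_distrib]
  refine sum_le_sum fun J _ => ?_
  have a1 := D.one_le_S J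
  have a2 : D.sl ε' (some J) * (1 + ∑ i, I i) ≤ 1 + ∑ i ∈ Jᶜ, I i := by
    have b1 : ∑ i ∈ J, I i ≤ ∑ i ∈ J, D.a i := sum_le_sum fun i _ => hI i
    have b2 : 0 ≤ ∑ i ∈ Jᶜ, I i := sum_nonneg fun i _ => by
      simp only [I]; split_ifs
      exacts [D.a_nonneg i, le_rfl]
    simp only [sl]
    rw [← sum_add_sum_compl J I, one_div, inv_mul_le_iff₀ (by linarith)]
    nlinarith
  have a3 : e (some J) * ∑ i ∈ Jᶜ, I i ≤ (m + 1) * (η * Es (D.sl ε') (D.ic ε l) N t) := by
    rw [mul_sum]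
    refine (sum_le_card_nsmul _ _ _ fun i hi => key J i (mem_compl.1 hi)).trans ?_
    rw [nsmul_eq_mul]
    gcongr
    exact_mod_cast (card_le_univ _).trans (Fintype.card_fin _).le
  have a4 := mul_le_mul_of_nonneg_left a2 (he (some J)).le
  change D.sl ε' (some J) * e (some J) * (1 + ∑ i, I i) ≤ e (some J) + _
  nlinarith

theorem slope_small {ε ε' l t t₁ : ℝ} {N : ℕ} (hε : 0 ≤ ε) (hl : 0 ≤ l) (h0 : 0 ≤ ε')
    (h1 : ε' * D.A₀ ≤ 1) (ht₁ : 0 ≤ t₁) (ht : t ≤ t₁) :
    sg (D.sl ε') (D.ic ε l) N t ≤ ε' + 2 ^ (m + 1) * exp ((t₁ - ε * l) / N) := by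
  have hE := Es_pos (D.sl ε') (D.ic ε l) N t
  have h2 : exp ((D.sl ε' none * t + D.ic ε l none) / N) ≤ Es (D.sl ε') (D.ic ε l) N t :=
    single_le_sum (f := fun x => exp ((D.sl ε' x * t + D.ic ε l x) / N))
      (fun x _ => (exp_pos _).le) (mem_univ _)
  rw [sg, div_le_iff₀ hE, Fintype.sum_option, add_mul]
  refine add_le_add (mul_le_mul_of_nonneg_left h2 h0) ((sum_le_card_nsmul _ _
    (exp ((t₁ - ε * l) / N) * Es (D.sl ε') (D.ic ε l) N t) fun J _ => ?_).trans
    (le_of_eq (by simp [mul_assoc])))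
  refine (mul_le_of_le_one_left (exp_pos _).le (D.sl_le_one h1 h0 _)).trans
    (le_trans ?_ (mul_le_mul_of_nonneg_left h2 (exp_pos _).le))
  rw [← exp_add, ← add_div]
  refine exp_le_exp.2 (div_le_div_of_nonneg_right ?_ (Nat.cast_nonneg N))
  have a1 := D.ic_some_le hε hl J
  have a2 := D.sl_le_one h1 h0 (some J)
  have a3 : ε' ≤ D.sl ε' (some J) := by
    simp only [sl]
    rw [le_div_iff₀ (by linarith [D.one_le_S J])]
    exact (mul_le_mul_of_nonneg_left (D.S_le J) h0).trans h1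
  have a4 : (D.sl ε' (some J) - ε') * t ≤ t₁ :=
    (mul_le_mul_of_nonneg_left ht (by linarith)).trans
      (mul_le_of_le_one_left ht₁ (by linarith))
  simp only [sl, ic] at *
  linarith

end Data

end Pool.Agent.MP_e3615c_an

end MrgPart2

-- ======== part 3: formerly Pool.Agent.MP_e3615c_an.PotD
section MrgPart3

/-!
The potential attached to an extremal configuration.
-/

namespace Pool.Agent.MP_e3615c_an

open Finset Real Metric
open scoped ComplexConjugate

section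

variable {ι : Type*} [Fintype ι] {ν : ι → ℝ} {b : ι → ℂ}

theorem dpot_far (hν : ∑ x, ν x = 0) {δ ω : ℝ} (hω : 0 < ω) (hδ : δ ≤ ω / 2)
    (hb : ∀ x, ‖1 - b x‖ ≤ δ) {z : ℂ} (hz : ‖z‖ ≤ 1) (hzω : ω ≤ ‖1 - z‖) :
    ‖dpot univ ν b z‖ ≤ (∑ x, |ν x|) * (2 * δ / ω ^ 2) := by
  have h0 : 1 - z ≠ 0 := norm_pos_iff.1 (hω.trans_le hzω)
  have h1 : ∀ x, ω / 2 ≤ ‖1 - z * b x‖ := fun x => by
    have a1 := norm_sub_le_norm_sub_add_norm_sub 1 (z * b x) z
    have a2 : ‖z * b x - z‖ ≤ δ := by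
      rw [← mul_sub_one, norm_mul, norm_sub_rev]
      exact (mul_le_of_le_one_left (norm_nonneg _) hz).trans (hb x)
    linarith
  have e : dpot univ ν b z = ∑ x, (ν x : ℂ) * ((b x - 1) / ((1 - z * b x) * (1 - z))) := by
    have : ∑ x, (ν x : ℂ) * (1 / (1 - z)) = 0 := by
      rw [← sum_mul, ← Complex.ofReal_sum, hν]; simp
    rw [dpot, ← sub_zero (∑ x, _), ← this, ← sum_sub_distrib]
    refine sum_congr rfl fun x _ => ?_
    have : 1 - z * b x ≠ 0 := norm_pos_iff.1 ((half_pos hω).trans_le (h1 x))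
    rw [← mul_sub, div_sub_div _ _ this h0]
    congr 2
    ring
  rw [e, sum_mul]
  refine (norm_sum_le _ _).trans (sum_le_sum fun x _ => ?_)
  rw [norm_mul, Complex.norm_real, Real.norm_eq_abs, norm_div, norm_mul, norm_sub_rev (b x),
    show 2 * δ / ω ^ 2 = δ / (ω / 2 * ω) by field_simp]
  gcongr
  · exact (norm_nonneg _).trans (hb x)
  · exact hb x
  · exact h1 x

theorem pot_far (hν : ∑ x, ν x = 0) {δ ω : ℝ} (hω : 0 < ω) (hδ : δ ≤ ω / 4)
    (hb1 : ∀ x, ‖b x‖ < 1) (hb : ∀ x, ‖1 - b x‖ ≤ δ) {z : ℂ} (hz : ‖z‖ ≤ 1) (hzω : ω ≤ ‖1 - z‖) :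
    ‖pot univ ν b z‖ ≤ (∑ x, |ν x|) * (8 * δ / ω ^ 2) := by
  have hseg : ∀ u ∈ segment ℝ 0 z, ‖u‖ ≤ 1 ∧ ω / 2 ≤ ‖1 - u‖ := by
    rintro u ⟨s, t, hs, ht, hst, rfl⟩
    simp only [smul_zero, zero_add, Complex.real_smul]
    refine ⟨?_, by linarith [kernel_ge' ht (by linarith) hz]⟩
    rw [norm_mul, Complex.norm_real, Real.norm_of_nonneg ht]
    exact mul_le_one₀ (by linarith) (norm_nonneg _) hz
  have := (convex_segment (0 : ℂ) z).norm_image_sub_le_of_norm_hasDerivWithin_le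
    (f := pot univ ν b) (f' := dpot univ ν b) (C := (∑ x, |ν x|) * (8 * δ / ω ^ 2))
    (fun u hu => (hasDerivAt_pot fun x _ => norm_mul_lt_of_sphere (r := 1) (by simpa using hb1 x)
      (hseg u hu).1).hasDerivWithinAt)
    (fun u hu => (dpot_far hν (half_pos hω) (by linarith) hb (hseg u hu).1 (hseg u hu).2).trans
      (le_of_eq (by field_simp; ring))) (left_mem_segment _ _ _) (right_mem_segment _ _ _)
  rw [pot_zero, sub_zero, sub_zero] at this
  rcases isEmpty_or_nonempty ι with h | ⟨⟨x⟩⟩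
  · simp [pot]
  have h0 : 0 ≤ δ := (norm_nonneg _).trans (hb x)
  exact this.trans (mul_le_of_le_one_right (by positivity) hz)

theorem abs_pot_re {z : ℂ} {L : ℝ} (hL : 0 ≤ L) (h : ∀ x, ‖z * b x‖ ≤ 1 - exp (-L)) :
    |(pot univ ν b z).re| ≤ (∑ x, |ν x|) * (L + 1) := by
  rw [pot_re, abs_neg, sum_mul]
  refine (abs_sum_le_sum_abs _ _).trans (sum_le_sum fun x _ => ?_)
  rw [abs_mul]
  gcongr
  have h1 : exp (-L) ≤ ‖1 - z * b x‖ := by
    have := norm_sub_norm_le 1 (z * b x)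
    rw [norm_one] at this
    linarith [h x]
  have h2 : ‖1 - z * b x‖ ≤ 2 := by
    have := norm_sub_le 1 (z * b x)
    rw [norm_one] at this
    linarith [h x, exp_pos (-L)]
  have h3 := (exp_pos _).trans_le h1
  rw [← le_log_iff_exp_le h3] at h1
  have h4 := log_le_sub_one_of_pos h3
  rw [abs_le]
  constructor <;> linarith

end

variable {m : ℕ} {p γ : ℝ} (D : Data m p γ)

namespace Data

/-- Masses. -/
noncomputable def nu : Fin (m + 1) ⊕ Bool → ℝ :=
  Sum.elim (fun i => 2 * p * D.a i) fun b => if b then 2 * p else -(2 * p * D.A₀)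

/-- Poles. -/
noncomputable def bb (w : Fin (m + 1) → ℂ) (s : ℝ) : Fin (m + 1) ⊕ Bool → ℂ :=
  Sum.elim (fun i => conj (w i)) fun b => if b then conj (w D.i₀) else s

theorem sum_nu : ∑ x, D.nu x = 0 := by
  simp [nu, Fintype.sum_sum_type, A₀, ← mul_sum]
  ring

theorem sum_abs_nu (hp : 0 < p) : ∑ x, |D.nu x| = 4 * p * D.A₀ := by
  have := D.one_le_A₀
  simp only [nu, Fintype.sum_sum_type, Sum.elim_inl, Sum.elim_inr, Fintype.sum_bool, if_true,
    Bool.false_eq_true, if_false, abs_neg, abs_mul, abs_of_nonneg (D.a_nonneg _), abs_two,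
    abs_of_pos hp, abs_of_nonneg (zero_le_one.trans this), ← mul_sum]
  rw [A₀]
  ring

theorem sum_max_nu (hp : 0 < p) : ∑ x, max (D.nu x) 0 = 2 * p * D.A₀ := by
  have := D.one_le_A₀
  have h1 : ∀ i, max (2 * p * D.a i) 0 = 2 * p * D.a i := fun i =>
    max_eq_left (by have := D.a_nonneg i; positivity)
  simp only [nu, Fintype.sum_sum_type, Sum.elim_inl, Sum.elim_inr, Fintype.sum_bool, if_true,
    Bool.false_eq_true, if_false, h1, ← mul_sum]
  rw [max_eq_left (by positivity), max_eq_right (neg_nonpos.2 (by positivity)), A₀]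
  ring

theorem sum_ite_nu (hp : 0 < p) (T : Fin (m + 1) → ℝ) (T' : Bool → ℝ) (t : ℝ) :
    ∑ x, (if t ≤ Sum.elim T T' x then max (D.nu x) 0 else 0) ≤
      2 * p * (1 + ∑ i, if t ≤ T i then D.a i else 0) := by
  have := D.one_le_A₀
  have h1 : ∀ i, max (2 * p * D.a i) 0 = 2 * p * D.a i := fun i =>
    max_eq_left (by have := D.a_nonneg i; positivity)
  simp only [nu, Fintype.sum_sum_type, Sum.elim_inl, Sum.elim_inr, Fintype.sum_bool, if_true,
    Bool.false_eq_true, if_false, h1]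
  rw [max_eq_left (by positivity), max_eq_right (neg_nonpos.2 (by positivity)), mul_add, mul_sum,
    add_comm]
  simp only [mul_ite, mul_zero, ite_self, add_zero, mul_one, add_le_add_iff_right]
  split_ifs
  · exact le_rfl
  · positivity

theorem re_eq (w : Fin (m + 1) → ℂ) (s : ℝ) (z : ℂ) : (pot univ D.nu (D.bb w s) z).re =
    2 * p * (-log ‖1 - z * conj (w D.i₀)‖ + ∑ j, D.a j * -log ‖1 - z * conj (w j)‖ +
      D.A₀ * log ‖1 - z * s‖) := by
  simp only [pot_re, nu, bb, Fintype.sum_sum_type, Sum.elim_inl, Sum.elim_inr, Fintype.sum_bool,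
    if_true, Bool.false_eq_true, if_false, mul_neg, sum_neg_distrib, mul_assoc, ← mul_sum]
  ring

theorem U_eq (i : Fin (m + 1)) (ε l c : ℝ) :
    2 * p * ((ε + D.H i D.i₀) * l + c + ∑ j, D.a j * ((ε + D.H i j) * l + c) +
      D.A₀ * -(ε * l)) = D.U i * l + 2 * p * D.A₀ * c := by
  simp only [U, A₀, mul_add, add_mul, sum_add_distrib, ← sum_mul, ← mul_assoc]
  ring

theorem re_le (hp : 0 < p) {w : Fin (m + 1) → ℂ} {s ε l C C' : ℝ} {z : ℂ} (i : Fin (m + 1))
    (hC : 0 < C) (h : ∀ j, exp (-((ε + D.H i j) * l)) ≤ C * ‖1 - z * conj (w j)‖)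
    (h0 : 0 < ‖1 - z * s‖) (hC' : 0 < C') (h' : ‖1 - z * s‖ ≤ C' * exp (-(ε * l))) :
    (pot univ D.nu (D.bb w s) z).re ≤ D.U i * l + 2 * p * D.A₀ * (log C + log C') := by
  have h1 : ∀ j, -log ‖1 - z * conj (w j)‖ ≤ (ε + D.H i j) * l + log C := fun j => by
    have a1 := (exp_pos _).trans_le (h j)
    have a2 := log_le_log (exp_pos _) (h j)
    rw [log_exp, log_mul hC.ne' ((mul_pos_iff_of_pos_left hC).1 a1).ne'] at a2
    linarith
  have h2 := log_le_log h0 h'
  rw [log_mul hC'.ne' (exp_pos _).ne', log_exp] at h2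
  have h3 := D.one_le_A₀
  rw [re_eq, mul_add _ (log C), ← add_assoc, ← D.U_eq i ε l, mul_assoc _ D.A₀, ← mul_add,
    add_assoc _ (D.A₀ * _), ← mul_add]
  gcongr with j
  · exact h1 _
  · exact D.a_nonneg j
  · exact h1 _
  · linarith

theorem le_re (hp : 0 < p) {w : Fin (m + 1) → ℂ} {s ε l C : ℝ} {z : ℂ} (i : Fin (m + 1))
    (hC : 0 < C) (h0 : ∀ j, 0 < ‖1 - z * conj (w j)‖)
    (h : ∀ j, ‖1 - z * conj (w j)‖ ≤ C * exp (-((ε + D.H i j) * l)))
    (h' : exp (-(ε * l)) ≤ ‖1 - z * s‖) :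
    D.U i * l - 2 * p * D.A₀ * log C ≤ (pot univ D.nu (D.bb w s) z).re := by
  have h1 : ∀ j, (ε + D.H i j) * l + -log C ≤ -log ‖1 - z * conj (w j)‖ := fun j => by
    have a2 := log_le_log (h0 j) (h j)
    rw [log_mul hC.ne' (exp_pos _).ne', log_exp] at a2
    linarith
  have h2 := log_le_log (exp_pos _) h'
  rw [log_exp] at h2
  have h3 := D.one_le_A₀
  rw [re_eq, sub_eq_add_neg, ← mul_neg, ← D.U_eq i ε l]
  gcongr with j
  · exact h1 _
  · exact D.a_nonneg j
  · exact h1 _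

end Data

end Pool.Agent.MP_e3615c_an

end MrgPart3

-- ======== part 4: formerly Pool.Agent.MP_e3615c_an.AreaComp
section MrgPart4

/-!
Area of the image of a function dominated by a profile of a logarithmic potential.
-/

namespace Pool.Agent.MP_e3615c_an

open MeasureTheory Metric Set Filter Topology Real
open scoped ENNReal ComplexConjugate

/-- A cutoff, equal to one below `R₀` and zero above `R₁`. -/
noncomputable def cut (R₀ R₁ y : ℝ) : ℝ := max 0 (min 1 ((R₁ - y) / (R₁ - R₀)))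

theorem continuous_cut (R₀ R₁ : ℝ) : Continuous (cut R₀ R₁) := by unfold cut; fun_prop

theorem cut_nonneg (R₀ R₁ y : ℝ) : 0 ≤ cut R₀ R₁ y := le_max_left _ _

theorem cut_le_one (R₀ R₁ y : ℝ) : cut R₀ R₁ y ≤ 1 := max_le zero_le_one (min_le_left _ _)

theorem cut_of_le {R₀ R₁ y : ℝ} (h : R₀ < R₁) (hy : y ≤ R₀) : cut R₀ R₁ y = 1 := by
  rw [cut, min_eq_left ((one_le_div (by linarith)).2 (by linarith)), max_eq_right zero_le_one]

theorem cut_of_ge {R₀ R₁ y : ℝ} (h : R₀ < R₁) (hy : R₁ ≤ y) : cut R₀ R₁ y = 0 :=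
  max_eq_left ((min_le_right _ _).trans (div_nonpos_of_nonpos_of_nonneg (by linarith) (by linarith)))

theorem prim_cut_le {R₀ R₁ y : ℝ} (h : R₀ < R₁) (h1 : 0 ≤ R₁) (hy : 0 ≤ y) :
    prim (fun s => s * cut R₀ R₁ s) y ≤ R₁ ^ 2 / 2 := by
  have hc : Continuous fun s => s * cut R₀ R₁ s := continuous_id.mul (continuous_cut _ _)
  have key : ∀ y, 0 ≤ y → y ≤ R₁ → prim (fun s => s * cut R₀ R₁ s) y ≤ R₁ ^ 2 / 2 := by
    intro y h0 h2
    refine (intervalIntegral.integral_mono_on h0 (hc.intervalIntegrable _ _)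
      (continuous_id.intervalIntegrable _ _) fun s hs =>
        mul_le_of_le_one_right hs.1 (cut_le_one _ _ _)).trans ?_
    simp only [id, integral_id]
    nlinarith
  rcases le_total y R₁ with h2 | h2
  · exact key y hy h2
  · have h3 := prim_sub_prim hc R₁ y
    rw [intervalIntegral.integral_congr (g := fun _ => 0) fun s hs => by
      rw [uIcc_of_le h2] at hs
      simp only [cut_of_ge h hs.1, mul_zero]] at h3
    simp only [intervalIntegral.integral_zero] at h3
    linarith [key R₁ h1 le_rfl]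

theorem integral_profile_le {F σ : ℝ → ℝ} (hF : ∀ t, HasDerivAt F (F t * σ t) t)
    (hσ : Continuous σ) (hF0 : ∀ t, 0 < F t) {R₀ R₁ : ℝ} (h : R₀ < R₁) (h1 : 0 ≤ R₁) (a b : ℝ) :
    ∫ t in a..b, F t * cut R₀ R₁ (F t) * (F t * σ t) ≤ R₁ ^ 2 / 2 := by
  have hc : Continuous fun s => s * cut R₀ R₁ s := continuous_id.mul (continuous_cut _ _)
  have hFc : Continuous F := continuous_iff_continuousAt.2 fun t => (hF t).continuousAt
  rw [intervalIntegral.integral_eq_sub_of_hasDerivAt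
    (f := fun t => prim (fun s => s * cut R₀ R₁ s) (F t))
    (fun t _ => (hasDerivAt_prim hc (F t)).comp t (hF t))
    (((hc.comp hFc).mul (hFc.mul hσ)).intervalIntegrable _ _)]
  have h2 : 0 ≤ prim (fun s => s * cut R₀ R₁ s) (F a) :=
    intervalIntegral.integral_nonneg (hF0 a).le fun s hs => mul_nonneg hs.1 (cut_nonneg _ _ _)
  linarith [prim_cut_le h h1 (hF0 b).le]

variable {ι : Type*} [Fintype ι] {ν : ι → ℝ} {b : ι → ℂ}

theorem exp_moment (hb : ∀ x, ‖b x‖ < 1) {l : ℝ} (hl : 0 ≤ l) (hl1 : l * (π * ∑ x, |ν x|) ≤ 1)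
    {w : ℂ} (hw : ‖w‖ < 1) :
    circleAverage (fun z => Pk w z * exp (l * (pot Finset.univ ν b z).re)) 0 1 ≤
      2 * exp (l * (pot Finset.univ ν b (conj w)).re) := by
  have hd := diffContOnCl_pot (s := Finset.univ) (ν := ν) (b := b) one_pos
    fun x _ => by simpa using hb x
  have hd2 : DiffContOnCl ℂ (fun z => Complex.exp (l * pot Finset.univ ν b z)) (ball 0 1) :=
    Complex.differentiable_exp.comp_diffContOnCl (hd.const_smul (l : ℂ))
  have h1 := poisson_re one_pos hd2 (b := w) (by simpa using hw)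
  have hc : ContinuousOn (pot Finset.univ ν b) (sphere 0 1) :=
    hd.continuousOn.mono (by rw [closure_ball _ one_ne_zero]; exact sphere_subset_closedBall)
  have hP : ContinuousOn (Pk w) (sphere 0 1) :=
    continuousOn_Pk w fun z hz => norm_mul_lt_of_sphere (r := 1) (by simpa using hw)
      (by simpa using le_of_eq hz)
  have him := abs_pot_im (s := Finset.univ) (ν := ν) (b := b)
  generalize pot Finset.univ ν b = k at *
  refine (circleAverage_mono (f₂ := fun z => (2 : ℝ) •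
    (Pk w z * (Complex.exp (l * k z)).re))
    (ContinuousOn.circleIntegrable zero_le_one (by fun_prop))
    (ContinuousOn.circleIntegrable zero_le_one (by fun_prop)) fun z hz => ?_).trans ?_
  · have hz' : ‖z‖ = 1 := by simpa using hz
    have h2 : 0 ≤ Pk w z := Pk_nonneg (by rw [norm_mul, hz', one_mul]; exact hw.le)
    rw [smul_eq_mul, mul_left_comm, Complex.exp_re, Complex.re_ofReal_mul, Complex.im_ofReal_mul,
      mul_left_comm 2 (exp _)]
    refine mul_le_mul_of_nonneg_left (le_mul_of_one_le_right (exp_pos _).le ?_) h2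
    have h3 := one_sub_sq_div_two_le_cos (x := l * (k z).im)
    have h4 : (l * (k z).im) ^ 2 ≤ 1 := by
      rw [sq_le_one_iff_abs_le_one, abs_mul, abs_of_nonneg hl]
      exact (mul_le_mul_of_nonneg_left (him z) hl).trans hl1
    linarith
  · rw [circleAverage_fun_smul, h1, smul_eq_mul]
    simp only [Complex.ofReal_one, one_pow, one_mul]
    gcongr
    refine (Complex.re_le_norm _).trans (le_of_eq ?_)
    rw [Complex.norm_exp, Complex.re_ofReal_mul]

theorem area_comp (hb : ∀ x, ‖b x‖ < 1) (hν : ∑ x, ν x = 0) {F σ : ℝ → ℝ}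
    (hF : ∀ t, HasDerivAt F (F t * σ t) t) (hσ : Continuous σ) (hσ0 : ∀ t, 0 ≤ σ t)
    (hσ1 : ∀ t, σ t ≤ 1) (hF0 : ∀ t, 0 < F t) {g : ℂ → ℂ} (hg : DifferentiableOn ℂ g (ball 0 1))
    {R R₀ R₁ l Δ β : ℝ} (h01 : R₀ < R₁) (hR₁ : 0 ≤ R₁)
    (hg1 : ∀ z ∈ ball (0 : ℂ) 1, ‖g z‖ < R → F (pot Finset.univ ν b z).re ≤ R₀)
    (hg2 : ∀ z ∈ ball (0 : ℂ) 1, ‖deriv g z‖ ≤
      F (pot Finset.univ ν b z).re * σ (pot Finset.univ ν b z).re * ‖dpot Finset.univ ν b z‖)
    (hl : 0 ≤ l) (hl1 : l * (π * ∑ x, |ν x|) ≤ 1) {T : ι → ℝ}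
    (hT : ∀ x, 0 < ν x → (pot Finset.univ ν b (conj (b x))).re + Δ ≤ T x) (hβ0 : 0 ≤ β)
    (hβ : ∀ t, F t ≤ R₁ → σ t * ∑ x, (if t ≤ T x then max (ν x) 0 else 0) ≤ β) :
    area g R ≤
      ENNReal.ofReal (π * ((β + 2 * exp (-(l * Δ)) * ∑ x, max (ν x) 0) * (R₁ ^ 2 / 2))) := by
  set k := pot Finset.univ ν b with hk
  set k' := dpot Finset.univ ν b with hk'
  have hlt : ∀ z ∈ closedBall (0 : ℂ) 1, ∀ x ∈ Finset.univ, ‖z * b x‖ < 1 := fun z hz x _ =>
    norm_mul_lt_of_sphere (r := 1) (by simpa using hb x) (by simpa using hz)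
  have hkd : ∀ z ∈ closedBall (0 : ℂ) 1, HasDerivAt k (k' z) z := fun z hz =>
    hasDerivAt_pot (hlt z hz)
  have hkc : ContinuousOn k (closedBall 0 1) := fun z hz =>
    (hkd z hz).continuousAt.continuousWithinAt
  have hk'c : ContinuousOn k' (closedBall 0 1) := fun z hz =>
    (differentiableAt_dpot (hlt z hz)).continuousAt.continuousWithinAt
  have hFc : Continuous F := continuous_iff_continuousAt.2 fun t => (hF t).continuousAt
  obtain ⟨M₀, hM₀⟩ := (isCompact_closedBall (0 : ℂ) 1).exists_bound_of_continuousOn hkc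
  set M := |M₀| + ∑ x, |T x| with hM
  have hTM : ∀ x, T x ∈ Icc (-M) M := fun x => by
    have := Finset.single_le_sum (f := fun x => |T x|) (fun x _ => abs_nonneg _) (Finset.mem_univ x)
    exact abs_le.1 (by linarith [abs_nonneg M₀])
  have hMM : -M ≤ M := by
    have : 0 ≤ M := by positivity
    linarith
  have huM : ∀ z ∈ closedBall (0 : ℂ) 1, -M ≤ (k z).re := fun z hz => by
    have h1 := (abs_le.1 ((Complex.abs_re_le_norm _).trans (hM₀ z hz))).1
    have h2 : 0 ≤ ∑ x, |T x| := by positivity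
    linarith [le_abs_self M₀]
  let ψ : ℝ → ℝ := fun t => F t * cut R₀ R₁ (F t) * (F t * σ t)
  have hψ0 : ∀ t, 0 ≤ ψ t := fun t => by
    have := hF0 t; have := hσ0 t; have := cut_nonneg R₀ R₁ (F t); positivity
  have hψc : Continuous ψ := (hFc.mul ((continuous_cut _ _).comp hFc)).mul (hFc.mul hσ)
  have hψI : ∀ a b, ∫ t in a..b, ψ t ≤ R₁ ^ 2 / 2 := integral_profile_le hF hσ hF0 h01 hR₁
  let φ : ℝ → ℝ := fun t => σ t * ψ t
  have hφ0 : ∀ t, 0 ≤ φ t := fun t => mul_nonneg (hσ0 t) (hψ0 t)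
  have hφc : Continuous φ := hσ.mul hψc
  let Φ : ℝ → ℝ := fun t => prim φ t - prim φ (-M)
  have hΦc : Continuous Φ :=
    (continuous_iff_continuousAt.2 fun t => (hasDerivAt_prim hφc t).continuousAt).sub
      continuous_const
  have hVd : ∀ z ∈ closedBall (0 : ℂ) 1,
      HasFDerivAt (fun z => Φ (k z).re) (reMul (φ (k z).re * k' z)) z := by
    intro z hz
    refine (((hasDerivAt_prim hφc (k z).re).sub_const _).comp_hasFDerivAt z
      (hasFDerivAt_re (hkd z hz))).congr_fderiv (ContinuousLinearMap.ext fun u => ?_)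
    simp only [smul_apply, reMul_apply, smul_eq_mul, mul_assoc,
      Complex.re_ofReal_mul]
  have hVs : ContinuousOn (fun z => Φ (k z).re) (sphere 0 1) := fun z hz =>
    (hVd z (sphere_subset_closedBall hz)).continuousAt.continuousWithinAt
  have gr := green (V := fun z => Φ (k z).re) (W := fun z => φ (k z).re * k' z) (κ := k')
    le_rfl zero_le_one (by rw [Ann_zero]; exact hVd) (by rw [Ann_zero]; fun_prop)
    (by rw [Ann_zero]; exact fun u hu => differentiableAt_dpot (hlt u hu))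
  rw [circleAverage_zero, boundary_term one_pos hVs fun x _ => by simpa using hb x] at gr
  have e1 : (fun z => (φ (k z).re * k' z * conj (k' z)).re) = fun z => φ (k z).re * ‖k' z‖ ^ 2 := by
    funext z
    rw [mul_assoc, Complex.re_ofReal_mul, Complex.mul_conj, Complex.normSq_eq_norm_sq,
      Complex.ofReal_re]
  rw [e1] at gr
  have h1 : area g R ≤ ENNReal.ofReal (PI (fun z => φ (k z).re * ‖k' z‖ ^ 2) 0 0 1) := by
    rw [← lintegral_ball_eq_PI zero_le_one (by fun_prop) fun z _ => mul_nonneg (hφ0 _) (sq_nonneg _)]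
    refine le_trans (setLIntegral_mono' (isOpen_sublevel hg R).measurableSet fun z hz => ?_)
      (lintegral_mono_set fun z hz => hz.1)
    refine ENNReal.ofReal_le_ofReal ((pow_le_pow_left₀ (norm_nonneg _) (hg2 z hz.1) 2).trans
      (le_of_eq ?_))
    simp only [φ, ψ, cut_of_le h01 (hg1 z hz.1 hz.2)]
    ring
  refine h1.trans (ENNReal.ofReal_le_ofReal ?_)
  have h2 : ∀ x, ν x * circleAverage (fun z => Pk (b x) z * Φ (k z).re) 0 1 ≤
      max (ν x) 0 * (Φ (T x) + 2 * exp (-(l * Δ)) * (R₁ ^ 2 / 2)) := by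
    intro x
    have hP : ContinuousOn (Pk (b x)) (sphere 0 1) :=
      continuousOn_Pk _ fun z hz => hlt z (sphere_subset_closedBall hz) x (Finset.mem_univ x)
    have hP0 : ∀ z ∈ sphere (0 : ℂ) |1|, 0 ≤ Pk (b x) z := fun z hz =>
      Pk_nonneg (hlt z (sphere_subset_closedBall (by simpa using hz)) x (Finset.mem_univ x)).le
    rcases le_or_gt (ν x) 0 with h | h
    · rw [max_eq_right h, zero_mul]
      refine mul_nonpos_of_nonpos_of_nonneg h (circleAverage_nonneg_of_nonneg fun z hz =>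
        mul_nonneg (hP0 z hz) (sub_nonneg.2 (prim_mono hφc hφ0 (huM z ?_))))
      exact sphere_subset_closedBall (by simpa using hz)
    rw [max_eq_left h.le]
    refine mul_le_mul_of_nonneg_left ?_ h.le
    have hks := hkc.mono sphere_subset_closedBall
    refine (circleAverage_mono (f₂ := fun z => Φ (T x) • Pk (b x) z +
      (R₁ ^ 2 / 2 * exp (-(l * T x))) • (Pk (b x) z * exp (l * (k z).re)))
      (ContinuousOn.circleIntegrable zero_le_one (by fun_prop))
      (ContinuousOn.circleIntegrable zero_le_one (by fun_prop)) fun z hz => ?_).trans ?_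
    · rw [smul_eq_mul, smul_eq_mul, mul_comm (Φ (T x)), mul_left_comm, ← mul_add]
      refine mul_le_mul_of_nonneg_left ?_ (hP0 z hz)
      rcases le_total (k z).re (T x) with h3 | h3
      · exact (sub_le_sub_right (prim_mono hφc hφ0 h3) _).trans
          (le_add_of_nonneg_right (by positivity))
      · have a1 := prim_sub_prim hφc (T x) (k z).re
        have a2 : ∫ u in T x..(k z).re, φ u ≤ ∫ u in T x..(k z).re, ψ u :=
          intervalIntegral.integral_mono_on h3 (hφc.intervalIntegrable _ _)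
            (hψc.intervalIntegrable _ _) fun u _ => mul_le_of_le_one_left (hψ0 u) (hσ1 u)
        have a3 := hψI (T x) (k z).re
        have a4 : R₁ ^ 2 / 2 ≤ R₁ ^ 2 / 2 * exp (-(l * T x)) * exp (l * (k z).re) := by
          rw [mul_assoc, ← exp_add]
          exact le_mul_of_one_le_right (by positivity) (one_le_exp (by nlinarith))
        simp only [Φ]
        linarith
    · rw [circleAverage_fun_add (ContinuousOn.circleIntegrable zero_le_one (by fun_prop))
        (ContinuousOn.circleIntegrable zero_le_one (by fun_prop)), circleAverage_fun_smul,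
        circleAverage_fun_smul, circleAverage_Pk one_pos (by simpa using hb x), smul_eq_mul,
        smul_eq_mul, mul_one, add_le_add_iff_left]
      refine (mul_le_mul_of_nonneg_left (exp_moment hb hl hl1 (hb x)) (by positivity)).trans ?_
      rw [mul_comm (2 * exp _) (R₁ ^ 2 / 2), mul_assoc, mul_left_comm (exp _), ← exp_add]
      gcongr
      nlinarith [hT x h]
  have h3 : ∑ x, max (ν x) 0 * Φ (T x) ≤ β * (R₁ ^ 2 / 2) := by
    have hi : ∀ x, IntervalIntegrable (fun t => max (ν x) 0 * indicator {t | t ≤ T x} φ t)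
        volume (-M) M := fun x => by
      have := hφc.intervalIntegrable (μ := volume) (-M) M
      exact IntervalIntegrable.const_mul
        ⟨this.1.indicator measurableSet_Iic, this.2.indicator measurableSet_Iic⟩ _
    have a1 : ∀ x, max (ν x) 0 * Φ (T x) =
        ∫ t in -M..M, max (ν x) 0 * indicator {t | t ≤ T x} φ t := fun x => by
      rw [intervalIntegral.integral_const_mul, intervalIntegral.integral_indicator (hTM x)]
      simp only [Φ, prim_sub_prim hφc]
    simp only [a1]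
    rw [← intervalIntegral.integral_finsetSum fun x _ => hi x]
    refine (intervalIntegral.integral_mono_on (g := fun t => β * ψ t) hMM ?_
      ((continuous_const.mul hψc).intervalIntegrable _ _) fun t _ => ?_).trans ?_
    · have := IntervalIntegrable.sum Finset.univ fun x _ => hi x
      rwa [Finset.sum_fn] at this
    · rcases le_total (F t) R₁ with h | h
      · refine le_trans (le_of_eq ?_) (mul_le_mul_of_nonneg_right (hβ t h) (hψ0 t))
        rw [Finset.mul_sum, Finset.sum_mul]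
        refine Finset.sum_congr rfl fun x _ => ?_
        simp only [indicator, mem_ofPred_eq, φ]
        split_ifs <;> ring
      · simp [indicator, φ, ψ, cut_of_ge h01 h]
    · rw [intervalIntegral.integral_const_mul]
      exact mul_le_mul_of_nonneg_left (hψI _ _) hβ0
  have h4 := Finset.sum_le_sum fun x (_ : x ∈ Finset.univ) => h2 x
  simp only [mul_add, Finset.sum_add_distrib, ← Finset.sum_mul] at h4
  have e2 : ∑ x, ν x / 2 * (circleAverage (fun z => Pk (b x) z * Φ (k z).re) 0 1 -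
      circleAverage (fun z => Φ (k z).re) 0 1) =
      (∑ x, ν x * circleAverage (fun z => Pk (b x) z * Φ (k z).re) 0 1) / 2 := by
    simp only [mul_sub, Finset.sum_sub_distrib, div_mul_eq_mul_div, ← Finset.sum_div]
    rw [← Finset.sum_mul, hν]
    simp
  rw [gr, e2]
  simp only [zero_mul, Complex.zero_re, mul_zero, sub_zero]
  nlinarith [pi_pos]

end Pool.Agent.MP_e3615c_an

end MrgPart4

-- ======== part 5: formerly Pool.Agent.MP_e3615c_an.Peak
section MrgPart5

/-!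
Peak functions: mean valent functions close to one away from `z = 1`, large on short arcs.
-/

namespace Pool.Agent.MP_e3615c_an

open MeasureTheory Filter Topology Real Metric
open scoped ComplexConjugate

theorem tendsto_exp_neg {c : ℝ} (hc : 0 < c) : Tendsto (fun l => exp (-(c * l))) atTop (𝓝 0) :=
  tendsto_exp_atBot.comp (tendsto_neg_atTop_atBot.comp (tendsto_id.const_mul_atTop hc))

theorem eventually_exp_le {c b : ℝ} (a : ℝ) (hc : 0 < c) (hb : 0 < b) :
    ∀ᶠ l in atTop, a * exp (-(c * l)) ≤ b :=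
  ((tendsto_exp_neg hc).const_mul a).eventually (ge_mem_nhds (by simpa using hb))

theorem eventually_le_mul {c : ℝ} (a : ℝ) (hc : 0 < c) : ∀ᶠ l in atTop, a ≤ c * l :=
  (tendsto_id.const_mul_atTop hc).eventually_ge_atTop a

variable {m : ℕ} {p γ : ℝ} (D : Data m p γ)

theorem Data.area_peak (hp : 0 < p) {X : Type*} [Fintype X] [Nonempty X] {s c : X → ℝ} {N : ℕ}
    (hs0 : ∀ x, 0 ≤ s x) (hs1 : ∀ x, s x ≤ 1) (hN : N ≠ 0) {w : Fin (m + 1) → ℂ} {s₀ : ℝ}
    (hb : ∀ x, ‖D.bb w s₀ x‖ < 1) {B κ Δ β R : ℝ} (hB : B = π * (4 * p * D.A₀)) (hBN : B ≤ N)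
    (hκ : κ = 1 - B ^ 2 / (2 * N)) (hκ0 : 0 < κ) {T : Fin (m + 1) → ℝ}
    (hT : ∀ i, (pot Finset.univ D.nu (D.bb w s₀) (w i)).re + Δ ≤ T i) (hβ0 : 0 ≤ β) (hR : 0 < R)
    (hβ : ∀ t, Fr s c N t ≤ R / κ ^ 2 →
      sg s c N t * (1 + ∑ i, if t ≤ T i then D.a i else 0) ≤ β) :
    area (fun z => Fc s c N (pot Finset.univ D.nu (D.bb w s₀) z)) R ≤
      ENNReal.ofReal (π * (p * (β + 2 * D.A₀ * exp (-(B⁻¹ * Δ))) / κ ^ 4) * R ^ 2) := by
  have hA := D.one_le_A₀
  have hB0 : 0 < B := by rw [hB]; positivity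
  have hκ1 : κ < 1 := by
    have : 0 < B ^ 2 / (2 * N) := by positivity
    linarith
  have hd : ∀ z ∈ ball (0 : ℂ) 1, HasDerivAt (fun z => Fc s c N (pot Finset.univ D.nu (D.bb w s₀) z))
      (dFc s c N (pot Finset.univ D.nu (D.bb w s₀) z) * dpot Finset.univ D.nu (D.bb w s₀) z) z :=
    fun z hz => (hasDerivAt_Fc hN _).comp z (hasDerivAt_pot fun x _ =>
      norm_mul_lt_of_sphere (r := 1) (by simpa using hb x) (mem_ball_zero_iff.1 hz).le)
  refine (area_comp hb D.sum_nu (hasDerivAt_Fr hN) (continuous_sg s c N) (sg_nonneg hs0)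
    (sg_le_one hs1) (Fr_pos s c N) (fun z hz => (hd z hz).differentiableAt.differentiableWithinAt)
    (R₀ := R / κ) (R₁ := R / κ ^ 2) (l := B⁻¹) (Δ := Δ) (β := 2 * p * β)
    (div_lt_div_of_pos_left hR (by positivity) (by nlinarith)) (by positivity)
    (fun z _ hz => ?_) (fun z hz => ?_) (by positivity)
    (by rw [D.sum_abs_nu hp, ← hB, inv_mul_cancel₀ hB0.ne'])
    (T := Sum.elim T fun b =>
      (pot Finset.univ D.nu (D.bb w s₀) (conj (D.bb w s₀ (Sum.inr b)))).re + Δ)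
    (fun x _ => ?_) (by positivity) fun t ht => ?_).trans (le_of_eq ?_)
  · rw [le_div_iff₀' hκ0, hκ]
    refine (le_norm_Fc hN hs0 hs1 hBN ?_).trans hz.le
    rw [hB, ← D.sum_abs_nu hp]
    exact abs_pot_im z
  · rw [(hd z hz).deriv, norm_mul]
    exact mul_le_mul_of_nonneg_right (norm_dFc_le hN hs0 _) (norm_nonneg _)
  · rcases x with i | b
    · simpa [Data.bb] using hT i
    · exact le_rfl
  · refine (mul_le_mul_of_nonneg_left (D.sum_ite_nu hp _ _ t) (sg_nonneg hs0 t)).trans ?_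
    rw [mul_left_comm]
    exact mul_le_mul_of_nonneg_left (hβ t ht) (by positivity)
  · rw [D.sum_max_nu hp]
    congr 1
    field_simp

theorem exists_N {B q : ℝ} (hq : q < 1) : ∃ N : ℕ, N ≠ 0 ∧ B ≤ N ∧
    1 / 2 ≤ 1 - B ^ 2 / (2 * N) ∧ q ≤ (1 - B ^ 2 / (2 * N)) ^ 4 := by
  have h1 : Tendsto (fun N : ℕ => 1 - B ^ 2 / 2 / N) atTop (𝓝 (1 - 0)) :=
    (tendsto_const_div_atTop_nhds_zero_nat _).const_sub 1
  simp only [div_div, sub_zero] at h1
  obtain ⟨N, h⟩ := ((eventually_ne_atTop 0).and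
    ((tendsto_natCast_atTop_atTop.eventually_ge_atTop B).and
    ((h1.eventually (le_mem_nhds (by norm_num : (1 : ℝ) / 2 < 1))).and
    ((h1.pow 4).eventually (le_mem_nhds (by simpa using hq)))))).exists
  exact ⟨N, h⟩

theorem Data.peak (hp : 0 < p) {p₁ γ' ε ω η R₂ : ℝ} (hp₁ : p < p₁) (hε : 0 < ε)
    (hεγ : ε * (m + 1 + D.A₀) ≤ γ - γ') (hω : 0 < ω) (hη : 0 < η) (hR₂ : 0 < R₂) :
    ∃ C : ℝ, ∀ᶠ l in atTop, ∃ φ : ℂ → ℂ,
      DifferentiableOn ℂ φ (ball 0 (1 + exp (-((1 + ε) * l)) / 2)) ∧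
      (∀ z ∈ ball (0 : ℂ) (1 + exp (-((1 + ε) * l)) / 2), φ z ≠ 0 ∧ ‖φ z‖ ≤ exp (C * l)) ∧
      (∀ z : ℂ, ‖z‖ ≤ 1 → ω ≤ ‖1 - z‖ → ‖φ z - 1‖ ≤ η ∧ ‖deriv φ z‖ ≤ η) ∧ AB p₁ φ ∧
      (∀ R, 0 < R → R ≤ R₂ → area φ R ≤ ENNReal.ofReal (π * η * R ^ 2)) ∧
      ∀ c : Fin (m + 1) → ℂ, ∑ k, ‖c k‖ ^ 2 ≤ exp (-(2 * γ' * l)) *
        circleAverage (fun z => ‖φ z * ∑ k, c k * z ^ (k : ℕ)‖ ^ 2) 0 1 := by
  have hA := D.one_le_A₀
  obtain ⟨C, hC, hgeo⟩ := geom D.ultra hε
  have hC0 : 0 < C := by linarith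
  set B := π * (4 * p * D.A₀) with hB
  have hB0 : 0 < B := by positivity
  have hp₁0 : 0 < p₁ := hp.trans hp₁
  obtain ⟨N, hN, hBN, hκ2, hκ4⟩ := exists_N (B := B) (q := (p + p₁) / 2 / p₁)
    ((div_lt_one hp₁0).2 (by linarith))
  set κ := 1 - B ^ 2 / (2 * N) with hκ
  have hκ0 : 0 < κ := by linarith
  have hN0 : (0 : ℝ) < N := by positivity
  set ε' := min (1 / D.A₀) (η / (48 * p * D.A₀)) with hε'
  have hε'0 : 0 < ε' := lt_min (by positivity) (by positivity)
  have hε'1 : ε' * D.A₀ ≤ 1 := by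
    rw [← le_div_iff₀ (by linarith)]; exact min_le_left _ _
  have hε'2 : 48 * p * D.A₀ * ε' ≤ η := by
    rw [← le_div_iff₀' (by positivity)]; exact min_le_right _ _
  set M : ℝ := Fintype.card (Option (Finset (Fin (m + 1)))) ^ N with hM
  have hM0 : 0 < M := by positivity
  set t₁ := |Real.log (M * (4 * R₂))| / ε' with ht₁
  refine ⟨4 * p * D.A₀ * (3 + ε), ?_⟩
  filter_upwards [hgeo, eventually_ge_atTop 1,
    eventually_le_mul (2 * p * D.A₀ * (Real.log C + Real.log (C + 1))) (by positivity : 0 < ε / 4),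
    eventually_le_mul (2 ^ (m + 1) * ((m + 1) * (2 * D.A₀ * N)))
      (by have := sub_pos.2 hp₁; positivity : 0 < (p₁ - p) / (4 * p) * ε),
    eventually_exp_le (2 * D.A₀) (by positivity : 0 < B⁻¹ * (ε / 4))
      (by have := sub_pos.2 hp₁; positivity : 0 < min ((p₁ - p) / (4 * p)) (η / (48 * p))),
    eventually_exp_le (2 ^ (m + 1) * exp (t₁ / N)) (by positivity : 0 < ε / N) hε'0,
    eventually_exp_le C hε (by positivity : 0 < ω / 4),
    eventually_exp_le (3 * (4 * p * D.A₀ * (8 * C / ω ^ 2))) hε (lt_min hη one_pos),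
    eventually_exp_le ((m + 1) ^ 2 * (2 * π) * ((2 * C) ^ (2 * m) * 32 * M ^ 2 *
      exp (2 * (2 * p * D.A₀ * Real.log C)))) hε one_pos]
    with l ⟨w, ϑ, hw, ha, hb, hc, hd⟩ hl e3 e4 e5 e6 e7 e8 e9
  have hl0 : 0 < l := by linarith
  set δ := exp (-((1 + ε) * l)) with hδ
  have hδ0 : 0 < δ := exp_pos _
  set s₀ := 1 - exp (-(ε * l)) with hs₀
  have hεl : exp (-(ε * l)) ≤ 1 := exp_le_one_iff.2 (neg_nonpos.2 (by positivity))
  have hs₀0 : 0 ≤ s₀ := by linarith
  have hs₀1 : s₀ ≤ 1 := by linarith [exp_pos (-(ε * l))]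
  have hwδ : ∀ i, ‖w i‖ ≤ 1 - δ := fun i => by
    rw [hw, sub_le_sub_iff_left, hδ, exp_le_exp]
    exact neg_le_neg (mul_le_mul_of_nonneg_right (by linarith [(D.ultra.2.1 i i).2]) hl0.le)
  have hbδ : ∀ x, ‖D.bb w s₀ x‖ ≤ 1 - δ := by
    rintro (i | _ | _)
    · simpa [Data.bb] using hwδ i
    · simp only [Data.bb, Sum.elim_inr, Bool.false_eq_true, if_false, Complex.norm_real,
        Real.norm_of_nonneg hs₀0]
      rw [sub_le_sub_iff_left, hδ, exp_le_exp]
      linarith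
    · simpa [Data.bb] using hwδ D.i₀
  have hb1 : ∀ x, ‖D.bb w s₀ x‖ < 1 := fun x => by linarith [hbδ x]
  have hb2 : ∀ x, ‖1 - D.bb w s₀ x‖ ≤ C * exp (-(ε * l)) := by
    have : ∀ i, ‖1 - conj (w i)‖ ≤ C * exp (-(ε * l)) := fun i => by
      rw [← Complex.norm_conj, map_sub, map_one, Complex.conj_conj]; exact hb i
    rintro (i | _ | _)
    · exact this i
    · simp only [Data.bb, Sum.elim_inr, Bool.false_eq_true, if_false, hs₀]
      rw [← Complex.ofReal_one, ← Complex.ofReal_sub, Complex.norm_real, sub_sub_cancel,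
        Real.norm_of_nonneg (exp_pos _).le]
      exact le_mul_of_one_le_left (exp_pos _).le hC
    · exact this D.i₀
  have hzb : ∀ z ∈ ball (0 : ℂ) (1 + δ / 2), ∀ x, ‖z * D.bb w s₀ x‖ ≤ 1 - δ / 2 := by
    intro z hz x
    rw [norm_mul]
    refine (mul_le_mul (mem_ball_zero_iff.1 hz).le (hbδ x) (norm_nonneg _) (by positivity)).trans ?_
    linarith [sq_nonneg δ]
  set k := pot Finset.univ D.nu (D.bb w s₀) with hk
  set k' := dpot Finset.univ D.nu (D.bb w s₀) with hk'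
  have hs0 := D.sl_nonneg hε'0.le
  have hs1 := D.sl_le_one hε'1 hε'0.le
  have hc0 := D.ic_nonpos hε.le hl0.le
  have hder : ∀ z ∈ ball (0 : ℂ) (1 + δ / 2), HasDerivAt (fun z => Fc (D.sl ε') (D.ic ε l) N (k z))
      (dFc (D.sl ε') (D.ic ε l) N (k z) * k' z) z := fun z hz =>
    (hasDerivAt_Fc hN _).comp z (hasDerivAt_pot fun x _ => by linarith [hzb z hz x])
  have hlow : ∀ z, κ * Fr (D.sl ε') (D.ic ε l) N (k z).re ≤ ‖Fc (D.sl ε') (D.ic ε l) N (k z)‖ :=
    fun z => le_norm_Fc hN hs0 hs1 hBN (by rw [hB, ← D.sum_abs_nu hp]; exact abs_pot_im z)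
  have hT : ∀ i, (k (w i)).re + ε / 4 * l ≤ (D.U i + ε / 2) * l := fun i => by
    have a0 : ‖w i‖ ≤ 1 := by linarith [hwδ i]
    have a1 := D.re_le hp (s := s₀) (C' := C + 1) i hC0 (ha i) (by
      have := kernel_ge hs₀0 a0
      rw [mul_comm] at this
      linarith [exp_pos (-(ε * l))]) (by linarith) (by
      have := kernel_le hs₀1 a0
      rw [mul_comm] at this
      linarith [hb i])
    linarith
  refine ⟨fun z => Fc (D.sl ε') (D.ic ε l) N (k z),
    fun z hz => (hder z hz).differentiableAt.differentiableWithinAt, fun z hz => ⟨?_, ?_⟩,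
    fun z hz hzω => ?_, fun R hR => ?_, fun R hR hR' => ?_, fun c => ?_⟩
  · exact norm_pos_iff.1 ((mul_pos hκ0 (Fr_pos _ _ _ _)).trans_le (hlow z))
  · refine (norm_Fc_le _).trans ((Fr_le_exp hs0 hs1 _).trans (exp_le_exp.2 ?_))
    refine (abs_pot_re (L := (1 + ε) * l + 1) (by positivity) fun x =>
      (hzb z hz x).trans ?_).trans ?_
    · rw [neg_add, exp_add, ← hδ, sub_le_sub_iff_left, div_eq_mul_inv]
      gcongr
      rw [exp_neg]
      gcongr
      linarith [exp_one_gt_d9]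
    · rw [D.sum_abs_nu hp, mul_assoc (4 * p * D.A₀)]
      gcongr
      linarith
  · have a1 := pot_far D.sum_nu hω e7 hb1 hb2 hz hzω
    have a2 := dpot_far D.sum_nu hω (by linarith) hb2 hz hzω
    rw [D.sum_abs_nu hp] at a1 a2
    have a3 : 4 * p * D.A₀ * (8 * (C * exp (-(ε * l))) / ω ^ 2) =
      4 * p * D.A₀ * (8 * C / ω ^ 2) * exp (-(ε * l)) := by ring
    have a4 : 4 * p * D.A₀ * (2 * (C * exp (-(ε * l))) / ω ^ 2) ≤
      4 * p * D.A₀ * (8 * (C * exp (-(ε * l))) / ω ^ 2) := by gcongr; norm_num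
    have a5 := e8.trans (min_le_left _ _)
    have a6 := e8.trans (min_le_right _ _)
    have a7 : ‖k z‖ ≤ 1 := by linarith [norm_nonneg (k z)]
    refine ⟨(norm_Fc_sub_one_le hN hs0 hs1 a7).trans (by linarith), ?_⟩
    rw [(hder z (mem_ball_zero_iff.2 (by linarith))).deriv, norm_mul]
    refine (mul_le_mul_of_nonneg_right (norm_dFc_le_three hN hs0 hs1 a7) (norm_nonneg _)).trans ?_
    linarith
  · refine (D.area_peak hp hs0 hs1 hN hb1 hB hBN hκ hκ0 hT (by positivity) hR fun t _ =>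
      D.slope_big (Nat.pos_of_ne_zero hN) hε hl0 hε'0.le hε'1 t).trans
      (ENNReal.ofReal_le_ofReal ?_)
    gcongr
    rw [div_le_iff₀ (by positivity)]
    rw [div_le_iff₀' hp₁0] at hκ4
    refine le_trans ?_ hκ4
    have a1 : 2 ^ (m + 1) * ((m + 1) * (2 * D.A₀ * N / (ε * l))) ≤ (p₁ - p) / (4 * p) := by
      rw [← mul_div_assoc, ← mul_div_assoc, div_le_iff₀ (by positivity), ← mul_assoc _ ε]
      exact e4
    have a2 := e5.trans (min_le_left _ _)
    rw [mul_assoc B⁻¹] at a2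
    calc _ ≤ p * (1 + (p₁ - p) / (4 * p) + (p₁ - p) / (4 * p)) := by gcongr
      _ = _ := by field_simp; ring
  · refine (D.area_peak hp hs0 hs1 hN hb1 hB hBN hκ hκ0 hT (β := 2 * ε' * D.A₀) (by positivity) hR
      fun t ht => ?_).trans (ENNReal.ofReal_le_ofReal ?_)
    · have a1 : t ≤ t₁ := by
        have b1 := exp_le_Fr (s := D.sl ε') hN hc0 none t
        have b2 : R / κ ^ 2 ≤ 4 * R₂ := by
          rw [div_le_iff₀ (by positivity)]
          linarith [mul_le_mul_of_nonneg_left (pow_le_pow_left₀ (by norm_num) hκ2 2) hR₂.le]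
        have b3 := b1.trans (mul_le_mul_of_nonneg_left (ht.trans b2) hM0.le)
        rw [← le_log_iff_exp_le (by positivity)] at b3
        rw [ht₁, le_div_iff₀' hε'0]
        simp only [Data.sl, Data.ic, add_zero] at b3
        exact b3.trans (le_abs_self _)
      have a2 := D.slope_small (N := N) hε.le hl0.le hε'0.le hε'1 (by positivity) a1
      rw [sub_div, sub_eq_add_neg, exp_add, ← mul_assoc, mul_div_right_comm] at a2
      refine mul_le_mul (by linarith) (add_le_add_right (Finset.sum_le_sum fun i _ => ?_) 1)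
        (add_nonneg zero_le_one (Finset.sum_nonneg fun i _ => ?_)) (by positivity) <;> split_ifs
      exacts [le_rfl, D.a_nonneg i, D.a_nonneg i, le_rfl]
    · gcongr
      have a2 := e5.trans (min_le_right _ _)
      rw [mul_assoc B⁻¹, le_div_iff₀ (by positivity)] at a2
      have a3 : 1 / 16 ≤ κ ^ 4 := le_trans (by norm_num) (pow_le_pow_left₀ (by norm_num) hκ2 4)
      rw [div_le_iff₀ (by positivity)]
      linarith [mul_le_mul_of_nonneg_left a3 hη.le]
  · have hφc : ContinuousOn (fun z => Fc (D.sl ε') (D.ic ε l) N (k z)) (sphere 0 1) := fun z hz =>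
      (hder z (sphere_subset_ball (by linarith) hz)).continuousAt.continuousWithinAt
    refine (gram_arcs hφc ϑ (fun i => exp (-((ε + D.H i i) * l)) / 8) (fun i => by positivity)
      (fun i => ?_) (d := fun i j => exp (-((ε + D.H i j) * l)) / C) (fun i j => by positivity)
      (fun i j t t' hij a1 a2 a3 a4 => (div_le_iff₀' hC0).2 (hd i j t t' hij a1 a2 a3 a4))
      (Θ := (2 * C) ^ (2 * m) * 32 * M ^ 2 * exp (2 * (2 * p * D.A₀ * Real.log C)) *
        exp (-(ε * l)) * exp (-(2 * γ' * l))) (by positivity) (fun i t a1 a2 => ?_) c).trans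
      (mul_le_mul_of_nonneg_right ?_ (circleAverage_nonneg_of_nonneg fun z _ => by positivity))
    · have : exp (-((ε + D.H i i) * l)) ≤ 1 := exp_le_one_iff.2 (neg_nonpos.2
        (mul_nonneg (add_nonneg hε.le (D.ultra.2.1 i i).1) hl0.le))
      linarith [pi_gt_three]
    · have b1 := D.le_re hp (s := s₀) i hC0 (fun j => norm_pos_iff.2 (one_sub_ne_zero_of_norm_lt
        (by rw [norm_mul, norm_ei, one_mul, Complex.norm_conj]; linarith [hwδ j])))
        (fun j => hc i j t a1 a2) (by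
          have := kernel_ge hs₀0 (norm_ei (ϑ i + t)).le
          rw [mul_comm] at this
          linarith)
      obtain ⟨x, hx⟩ := D.height (ε' := ε') hε.le hl0.le
        (by have := log_nonneg hC; positivity) i b1
      have b2 := (exp_le_exp.2 hx).trans (exp_le_Fr hN hc0 x _)
      have b3 : exp ((D.ρ i - ε * D.A₀) * l - 2 * p * D.A₀ * Real.log C) / (2 * M) ≤
          ‖Fc (D.sl ε') (D.ic ε l) N (k (ei (ϑ i + t)))‖ := by
        refine le_trans ?_ (hlow _)
        rw [div_le_iff₀ (by positivity)]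
        refine b2.trans ?_
        have := mul_pos hM0 (Fr_pos (D.sl ε') (D.ic ε l) N (k (ei (ϑ i + t))).re)
        linarith [mul_le_mul_of_nonneg_right hκ2 this.le]
      refine le_trans ?_ (mul_le_mul_of_nonneg_left (pow_le_pow_left₀ (by positivity) b3 2)
        (by positivity))
      have b4 : ∏ j ∈ Finset.univ.erase i, 2 / (exp (-((ε + D.H i j) * l)) / C) =
          (2 * C) ^ m * exp ((m * ε + (cost D.H i - D.H i i / 2)) * l) := by
        have : ∀ j, 2 / (exp (-((ε + D.H i j) * l)) / C) = 2 * C * exp ((ε + D.H i j) * l) :=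
          fun j => by rw [exp_neg]; field_simp
        simp only [this]
        rw [Finset.prod_mul_distrib, Finset.prod_const, ← exp_sum, ← Finset.sum_mul,
          Finset.sum_add_distrib, Finset.sum_const, Finset.sum_erase_eq_sub (Finset.mem_univ i),
          Finset.card_erase_of_mem (Finset.mem_univ i), cost]
        simp only [Finset.card_univ, Fintype.card_fin, add_tsub_cancel_right, nsmul_eq_mul]
        congr 3
        ring
      rw [b4, mul_pow, ← pow_mul', ← exp_nat_mul, div_pow, ← exp_nat_mul]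
      calc _ ≤ (2 * C) ^ (2 * m) * exp (2 * (2 * p * D.A₀ * Real.log C) + -(ε * l) +
            -(2 * γ' * l) + -((ε + D.H i i) * l) +
            (2 : ℕ) * ((D.ρ i - ε * D.A₀) * l - 2 * p * D.A₀ * Real.log C)) := by
            gcongr
            push_cast
            linarith [mul_le_mul_of_nonneg_right (D.cost_le i) hl0.le,
              mul_le_mul_of_nonneg_right hεγ hl0.le]
        _ = _ := by
            simp only [exp_add]
            field_simp
            norm_num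
    · calc _ = (m + 1) ^ 2 * (2 * π) * ((2 * C) ^ (2 * m) * 32 * M ^ 2 *
            exp (2 * (2 * p * D.A₀ * Real.log C))) * exp (-(ε * l)) * exp (-(2 * γ' * l)) := by ring
        _ ≤ _ := mul_le_of_le_one_left (exp_pos _).le e9

end Pool.Agent.MP_e3615c_an

end MrgPart5

-- marker of a merged file
example : 731051 + 829507 = 731051 + 829507 := rfl
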