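import Mathlib.Analysis.SpecialFunctions.Complex.CircleAddChar
import Mathlib.NumberTheory.Harmonic.Bounds
import Pool.Agent.MP_e3615c_an.Gram
import Pool.Agent.MP_e3615c_an.Zeros
import Pool.Agent.MP_e3615c_an.Defs

-- ======== part 0: formerly Pool.Agent.MP_e3615c_an.Distortion
section MrgPart0

/-!
The multi-point distortion inequality for mean `p`-valent functions.
-/

namespace Pool.Agent.MP_e3615c_an

open MeasureTheory Metric Set Filter Topology Real
open scoped ComplexConjugate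

/-- `log⁺ |w|`. -/
noncomputable def lp (w : ℂ) : ℝ := max (Real.log ‖w‖) 0

theorem lp_nonneg (w : ℂ) : 0 ≤ lp w := le_max_right _ _

theorem prim_max {σ : ℝ → ℝ} (h0 : ∀ t ≤ 0, σ t = 0) (t : ℝ) : prim σ t = prim σ (max t 0) := by
  rcases le_total t 0 with h | h
  · rw [max_eq_right h, prim_of_nonpos h0 h, prim_zero]
  · rw [max_eq_left h]

theorem Pk_le_wide {b z : ℂ} {r τ : ℝ} (hr0 : 0 ≤ r) (hr : r < 1) (hu : ‖z * b‖ = r) (hτ0 : 0 < τ)
    (hτ1 : τ ≤ 1) (hfar : τ ≤ ‖z * b - r‖) :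
    Pk b z ≤ 8 * (1 - r) / τ * Pk (((1 - τ : ℝ) : ℂ) * b) z := by
  unfold Pk
  rw [mul_left_comm]
  generalize z * b = u at hu hfar
  have h1 : ‖u - r‖ ≤ ‖1 - u‖ := by
    rw [← sq_le_sq₀ (norm_nonneg _) (norm_nonneg _), sq_norm_eq, sq_norm_eq]
    have := (le_abs_self _).trans (Complex.abs_re_le_norm u)
    simp only [Complex.sub_re, Complex.ofReal_re, Complex.sub_im, Complex.ofReal_im, Complex.one_re,
      Complex.one_im]
    nlinarith
  have h2 : τ ≤ ‖1 - u‖ := hfar.trans h1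
  have h3 : 0 < ‖1 - u‖ := hτ0.trans_le h2
  have h4 : ‖((1 - τ : ℝ) : ℂ) * u‖ = (1 - τ) * r := by
    rw [norm_mul, Complex.norm_real, Real.norm_of_nonneg (by linarith), hu]
  have h5 : ‖1 - ((1 - τ : ℝ) : ℂ) * u‖ ≤ 2 * ‖1 - u‖ := by
    have : 1 - ((1 - τ : ℝ) : ℂ) * u = (1 - u) + (τ : ℂ) * u := by push_cast; ring
    rw [this]
    refine (norm_add_le _ _).trans ?_
    rw [norm_mul, Complex.norm_real, Real.norm_of_nonneg hτ0.le, hu]
    nlinarith
  have h6 : (1 - τ) * r < 1 := by nlinarith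
  have h7 : 0 < ‖1 - ((1 - τ : ℝ) : ℂ) * u‖ :=
    norm_pos_iff.2 (one_sub_ne_zero_of_norm_lt (h4 ▸ h6))
  rw [h4, hu]
  have h8 : τ ≤ 1 - ((1 - τ) * r) ^ 2 := by
    have a : 0 ≤ (1 - τ) * r := mul_nonneg (by linarith) hr0
    have b : (1 - τ) * r ≤ 1 - τ := by nlinarith
    nlinarith
  calc (1 - r ^ 2) / ‖1 - u‖ ^ 2 ≤ 2 * (1 - r) / ‖1 - u‖ ^ 2 := by gcongr; nlinarith
    _ = 8 * (1 - r) / τ * (τ / (2 * ‖1 - u‖) ^ 2) := by field_simp; ring
    _ ≤ _ := by
      refine mul_le_mul_of_nonneg_left ?_ (by have : 0 < 1 - r := by linarith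
                                              positivity)
      gcongr
      linarith

theorem continuousOn_re_mul_conj {W κ : ℂ → ℂ} {S : Set ℂ} (hW : ContinuousOn W S)
    (hκ : ContinuousOn κ S) : ContinuousOn (fun u => (W u * conj (κ u)).re) S :=
  Complex.continuous_re.comp_continuousOn (hW.mul (Complex.continuous_conj.comp_continuousOn hκ))

theorem mean_bound {V : ℂ → ℝ} {W : ℂ → ℂ} {r M₀ τ D : ℝ} (hr2 : 1 / 2 ≤ r) (hr : r ≤ 1)
    (hτ0 : 0 < τ) (hVd : ∀ u ∈ closedBall (0 : ℂ) r, HasFDerivAt V (reMul (W u)) u)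
    (hWc : ContinuousOn W (closedBall 0 r)) (hM₀ : ∀ u ∈ sphere (0 : ℂ) (1 / 2), V u ≤ M₀)
    (hD : PI (fun u => ‖W u‖ ^ 2) 0 (1 / 2) r ≤ D) :
    2 * π * circleAverage V 0 r ≤ 2 * π * M₀ + τ / 2 * D + 2 * π / τ := by
  have hr0 : 0 < r := by linarith
  have hVc : ContinuousOn V (closedBall 0 r) := fun u hu =>
    (hVd u hu).continuousAt.continuousWithinAt
  have hA' : Ann 0 (1 / 2) r ⊆ closedBall (0 : ℂ) r := Ann_subset_closedBall _ _ _
  have hne0 : ∀ u ∈ Ann (0 : ℂ) (1 / 2) r, 1 / 2 ≤ ‖u‖ := fun u hu => by simpa using hu.1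
  have hne0' : ∀ u ∈ Ann (0 : ℂ) (1 / 2) r, u ≠ 0 := fun u hu => by
    have := hne0 u hu
    exact norm_pos_iff.1 (by linarith)
  have hWA := hWc.mono hA'
  have g := green (V := V) (W := W) (κ := fun u => u⁻¹) (by norm_num : (0 : ℝ) ≤ 1 / 2) hr2
    (fun u hu => hVd u (hA' hu)) hWA (fun u hu => differentiableAt_inv (hne0' u hu))
  have e : ∀ r' : ℝ, 0 < r' → circleAverage (fun u => V u * (u * u⁻¹).re) 0 r' =
      circleAverage V 0 r' := by
    intro r' hr'
    refine circleAverage_congr_sphere fun u hu => ?_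
    have : u ≠ 0 := ne_of_mem_sphere hu (abs_pos.2 hr'.ne').ne'
    simp [mul_inv_cancel₀ this]
  rw [e r hr0, e (1 / 2) (by norm_num)] at g
  have i1 : circleAverage V 0 (1 / 2) ≤ M₀ := by
    refine circleAverage_mono_on_of_le_circle (ContinuousOn.circleIntegrable (by norm_num)
      (hVc.mono (sphere_subset_closedBall.trans (closedBall_subset_closedBall hr2))))
      fun u hu => ?_
    rw [abs_of_pos (by norm_num)] at hu
    exact hM₀ u hu
  have hinv : ContinuousOn (fun u : ℂ => u⁻¹) (Ann 0 (1 / 2) r) :=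
    continuousOn_inv₀.mono hne0'
  have i2 : PI (fun u => (W u * conj u⁻¹).re) 0 (1 / 2) r ≤
      PI (fun u => τ / 2 * ‖W u‖ ^ 2 + 2 / τ) 0 (1 / 2) r := by
    refine PI_mono (by norm_num) hr2 (continuousOn_re_mul_conj hWA hinv) (by fun_prop)
      fun u hu => ?_
    refine (Complex.re_le_norm _).trans ?_
    rw [norm_mul, Complex.norm_conj, norm_inv]
    have h1 : ‖u‖⁻¹ ≤ 2 := by
      have := hne0 u hu
      rw [inv_le_comm₀ (by linarith) (by norm_num)]; linarith
    calc ‖W u‖ * ‖u‖⁻¹ ≤ ‖W u‖ * 2 := by gcongr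
      _ ≤ τ / 2 * ‖W u‖ ^ 2 + 1 / (2 * τ) * 2 ^ 2 := amgm τ _ _ hτ0
      _ = _ := by field_simp
  rw [PI_add (G := fun u => τ / 2 * ‖W u‖ ^ 2) (G' := fun _ => 2 / τ) (by norm_num) hr2
    (by fun_prop) (by fun_prop), PI_const_mul, PI_const] at i2
  have i3 := mul_le_mul_of_nonneg_left hD (show 0 ≤ τ / 2 by positivity)
  have i4 : π * (r ^ 2 - (1 / 2) ^ 2) * (2 / τ) ≤ 2 * π / τ := by
    rw [show 2 * π / τ = π * 1 * (2 / τ) by ring]
    gcongr
    nlinarith
  have i5 := mul_le_mul_of_nonneg_left i1 two_pi_pos.le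
  linarith

theorem poisson_lower {V : ℂ → ℝ} {r A K : ℝ} {z : ℂ} (hr0 : 0 < r) (hr : r < 1) (hz : ‖z‖ = r)
    (hK : 32 ≤ K) (hK1 : K * ((1 - r) / 4) ≤ 1) (hVs : ContinuousOn V (sphere 0 r))
    (hV0 : ∀ u, 0 ≤ V u) (hnear : ∀ u : ℂ, ‖u‖ = r → ‖z - u‖ ≤ K * ((1 - r) / 4) → A ≤ V u) :
    (1 - 32 / K) * A ≤ circleAverage (fun u => Pk (conj z / r) u * V u) 0 r := by
  have hK0 : 0 < K := by linarith
  have h3 : 0 ≤ 1 - 32 / K := by rw [sub_nonneg, div_le_one hK0]; exact hK
  set b : ℂ := conj z / r with hb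
  have hb1 : ‖b‖ = 1 := by
    rw [hb, norm_div, Complex.norm_conj, hz, Complex.norm_real, Real.norm_of_nonneg hr0.le,
      div_self hr0.ne']
  have hbr : ‖b‖ * r < 1 := by rw [hb1]; linarith
  set A' := max A 0 with hA'
  have hA0 : 0 ≤ A' := le_max_right _ _
  set τ' := K * ((1 - r) / 4) with hτ'
  have h1r : 0 < 1 - r := by linarith
  have hτ'0 : 0 < τ' := by positivity
  set b' : ℂ := ((1 - τ' : ℝ) : ℂ) * b with hb'
  have hb'r : ‖b'‖ * r < 1 := by
    rw [hb', norm_mul, hb1, Complex.norm_real, Real.norm_of_nonneg (by linarith)]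
    nlinarith
  have hP : ContinuousOn (Pk b) (sphere 0 r) :=
    continuousOn_Pk _ fun u hu => norm_mul_lt_of_sphere hbr (by simpa using le_of_eq hu)
  have hP' : ContinuousOn (Pk b') (sphere 0 r) :=
    continuousOn_Pk _ fun u hu => norm_mul_lt_of_sphere hb'r (by simpa using le_of_eq hu)
  have h1 : circleAverage (fun u => A' • (Pk b u - (32 / K : ℝ) • Pk b' u)) 0 r ≤
      circleAverage (fun u => Pk b u * V u) 0 r := by
    refine circleAverage_mono (ContinuousOn.circleIntegrable hr0.le (by fun_prop))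
      (ContinuousOn.circleIntegrable hr0.le (by fun_prop)) fun u hu => ?_
    rw [abs_of_pos hr0] at hu
    have hu' : ‖u‖ = r := by simpa using hu
    have hP0 : 0 ≤ Pk b u := Pk_nonneg (norm_mul_lt_of_sphere hbr hu'.le).le
    have hP0' : 0 ≤ Pk b' u := Pk_nonneg (norm_mul_lt_of_sphere hb'r hu'.le).le
    simp only [smul_eq_mul]
    rcases le_total ‖z - u‖ τ' with h | h
    · have h5 : A' ≤ V u := max_le (hnear u hu' h) (hV0 u)
      have h6 : 0 ≤ A' * (32 / K * Pk b' u) := by positivity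
      have h7 := mul_le_mul_of_nonneg_left h5 hP0
      linarith
    · have h2 : ‖u * b‖ = r := by rw [norm_mul, hb1, hu', mul_one]
      have h3 : τ' ≤ ‖u * b - r‖ := by
        have : u * b - r = (u - z) * b := by
          have h4 : z * conj z = (r : ℂ) ^ 2 := by
            rw [Complex.mul_conj, Complex.normSq_eq_norm_sq, hz]; push_cast; ring
          have : (r : ℂ) ≠ 0 := by exact_mod_cast hr0.ne'
          simp only [hb]
          field_simp
          linear_combination h4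
        rw [this, norm_mul, hb1, mul_one, norm_sub_rev]
        exact h
      have h4 := Pk_le_wide hr0.le hr h2 hτ'0 hK1 h3
      have e : 8 * (1 - r) / τ' = 32 / K := by
        rw [hτ']; field_simp; ring
      rw [e] at h4
      have a1 := mul_nonneg hP0 (hV0 u)
      have a2 := mul_nonneg hA0 (sub_nonneg.2 h4)
      linarith
  rw [circleAverage_fun_smul, circleAverage_fun_sub (hP.circleIntegrable hr0.le)
    (ContinuousOn.circleIntegrable hr0.le (by fun_prop)), circleAverage_fun_smul,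
    circleAverage_Pk hr0 hb'r, circleAverage_Pk hr0 hbr] at h1
  simp only [smul_eq_mul, mul_one] at h1
  have h4 := mul_le_mul_of_nonneg_left (le_max_left A 0) h3
  linarith

theorem main_green {V : ℂ → ℝ} {W : ℂ → ℂ} {p r D : ℝ} (hp : 0 < p) (hr0 : 0 < r) (hr : r < 1)
    (hVd : ∀ u ∈ closedBall (0 : ℂ) r, HasFDerivAt V (reMul (W u)) u)
    (hWc : ContinuousOn W (closedBall 0 r)) (hD : PI (fun u => ‖W u‖ ^ 2) 0 0 r ≤ D)
    {ι : Type} (s : Finset ι) (ν : ι → ℝ) (z : ι → ℂ) (hν1 : ∑ x ∈ s, ν x = 1)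
    (hz : ∀ x ∈ s, ‖z x‖ = r) :
    π * (∑ x ∈ s, ν x * circleAverage (fun u => Pk (conj (z x) / r) u * V u) 0 r -
      circleAverage V 0 r) ≤ 1 / (4 * p) * D +
        p * (π * ∑ x ∈ s, ∑ y ∈ s, ν x * ν y * -Real.log ‖1 - z x * conj (z y)‖) := by
  have hVc : ContinuousOn V (closedBall 0 r) := fun u hu =>
    (hVd u hu).continuousAt.continuousWithinAt
  set b : ι → ℂ := fun x => conj (z x) / r with hb
  have hb1 : ∀ x ∈ s, ‖b x‖ = 1 := fun x hx => by
    simp only [hb]
    rw [norm_div, Complex.norm_conj, hz x hx, Complex.norm_real, Real.norm_of_nonneg hr0.le,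
      div_self hr0.ne']
  have hbr : ∀ x ∈ s, ‖b x‖ * r < 1 := fun x hx => by rw [hb1 x hx]; linarith
  have hlt : ∀ u ∈ closedBall (0 : ℂ) r, ∀ x ∈ s, ‖u * b x‖ < 1 := fun u hu x hx =>
    norm_mul_lt_of_sphere (hbr x hx) (by simpa using hu)
  have hκc : ContinuousOn (dpot s ν b) (closedBall 0 r) := fun u hu =>
    (differentiableAt_dpot (hlt u hu)).continuousAt.continuousWithinAt
  have g := green (V := V) (W := W) (κ := dpot s ν b) le_rfl hr0.le
    (by rw [Ann_zero]; exact hVd) (by rw [Ann_zero]; exact hWc)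
    (by rw [Ann_zero]; exact fun u hu => differentiableAt_dpot (hlt u hu))
  rw [circleAverage_zero, boundary_term hr0 (hVc.mono sphere_subset_closedBall) hbr] at g
  have hen : PI (fun u => ‖dpot s ν b u‖ ^ 2) 0 0 r =
      π * ∑ x ∈ s, ∑ y ∈ s, ν x * ν y * -Real.log ‖1 - z x * conj (z y)‖ := by
    rw [energy hr0 hbr]
    congr 1
    refine Finset.sum_congr rfl fun x _ => ?_
    rw [pot_re, ← Finset.sum_neg_distrib, Finset.mul_sum]
    refine Finset.sum_congr rfl fun y _ => ?_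
    have : (r : ℂ) ^ 2 * conj (b x) * b y = z x * conj (z y) := by
      have : (r : ℂ) ≠ 0 := by exact_mod_cast hr0.ne'
      simp only [hb, map_div₀, Complex.conj_conj, Complex.conj_ofReal]
      field_simp
    rw [this]
    ring
  have j1 : PI (fun u => (W u * conj (dpot s ν b u)).re) 0 0 r ≤
      PI (fun u => 1 / (4 * p) * ‖W u‖ ^ 2 + p * ‖dpot s ν b u‖ ^ 2) 0 0 r := by
    refine PI_mono le_rfl hr0.le (by rw [Ann_zero]; exact continuousOn_re_mul_conj hWc hκc)
      (by rw [Ann_zero]; fun_prop) fun u _ => ?_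
    refine (Complex.re_le_norm _).trans ?_
    rw [norm_mul, Complex.norm_conj]
    refine (amgm (1 / (2 * p)) _ _ (by positivity)).trans (le_of_eq ?_)
    field_simp
    ring
  rw [PI_add (G := fun u => 1 / (4 * p) * ‖W u‖ ^ 2) (G' := fun u => p * ‖dpot s ν b u‖ ^ 2)
    le_rfl hr0.le (by rw [Ann_zero]; fun_prop) (by rw [Ann_zero]; fun_prop), PI_const_mul,
    PI_const_mul, hen] at j1
  have j2 := mul_le_mul_of_nonneg_left hD (show 0 ≤ 1 / (4 * p) by positivity)
  have e : ∑ x ∈ s, ν x / 2 * (circleAverage (fun u => Pk (b x) u * V u) 0 r -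
      circleAverage V 0 r) = (∑ x ∈ s, ν x * circleAverage (fun u => Pk (b x) u * V u) 0 r -
      circleAverage V 0 r) / 2 := by
    have : circleAverage V 0 r = ∑ x ∈ s, ν x * circleAverage V 0 r := by
      rw [← Finset.sum_mul, hν1, one_mul]
    conv_rhs => rw [this]
    rw [← Finset.sum_sub_distrib, Finset.sum_div]
    refine Finset.sum_congr rfl fun x _ => ?_
    ring
  rw [e] at g
  simp only [zero_mul, Complex.zero_re, mul_zero, sub_zero] at g
  simp only [hb] at g j1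
  linarith

theorem final_arith {I E M₀ p ε c TK Sg τ a : ℝ} (hI0 : 0 ≤ I) (hc0 : 0 ≤ c) (hc : c ≤ ε / 4)
    (hTK : 0 ≤ TK) (hp : 0 < p) (hτ : τ * p = ε / 2)
    (h1 : (1 - c) * (I - 2 - TK) ≤ Sg)
    (h2 : 2 * π * a ≤ 2 * π * M₀ + τ / 2 * (π * p * (1 + 2 * I)) + 2 * π / τ)
    (h3 : π * (Sg - a) ≤ 1 / (4 * p) * (π * p * (1 + 2 * I)) + p * (π * E)) :
    (1 - ε) * I ≤ 2 * p * E + 2 * (M₀ + ε / 8 + 1 / τ + 1 / 4 + 2 + TK) := by
  have e1 : 1 / (4 * p) * (π * p * (1 + 2 * I)) = π * ((1 + 2 * I) / 4) := by field_simp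
  have e2 : τ / 2 * (π * p * (1 + 2 * I)) = π * (ε / 4 * (1 + 2 * I)) := by
    rw [show τ / 2 * (π * p * (1 + 2 * I)) = π * (τ * p / 2 * (1 + 2 * I)) by ring, hτ]; ring
  rw [e1] at h3
  rw [e2] at h2
  have k1 : π * Sg ≤ π * (M₀ + ε / 8 * (1 + 2 * I) + 1 / τ + (1 + 2 * I) / 4 + p * E) := by
    have : 2 * π / τ = 2 * (π * (1 / τ)) := by ring
    rw [this] at h2
    linarith
  have k2 := le_of_mul_le_mul_left k1 pi_pos
  have k3 := mul_le_mul_of_nonneg_right hc hI0
  have k4 := mul_nonneg hc0 hTK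
  nlinarith

theorem distortion {p : ℝ} (hp : 0 < p) {f : ℂ → ℂ} (hf : DifferentiableOn ℂ f (ball 0 1))
    (hA : AB p f) {r₀ : ℝ} (hr₀ : 1 / 2 ≤ r₀) (hr₀' : r₀ < 1)
    (hne : ∀ z : ℂ, r₀ ≤ ‖z‖ → ‖z‖ < 1 → f z ≠ 0) {ε : ℝ} (hε : 0 < ε) :
    ∃ C r₁ : ℝ, r₁ < 1 ∧ ∀ r, r₁ ≤ r → r < 1 → ∀ {ι : Type} (s : Finset ι) (ν : ι → ℝ)
      (z : ι → ℂ), (∀ x ∈ s, 0 ≤ ν x) → ∑ x ∈ s, ν x = 1 → (∀ x ∈ s, ‖z x‖ = r) →
      (1 - ε) * ∑ x ∈ s, ∑ y ∈ s, ν x * ν y * min (lp (f (z x))) (lp (f (z y))) ≤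
        2 * p * ∑ x ∈ s, ∑ y ∈ s, ν x * ν y * -Real.log ‖1 - z x * conj (z y)‖ + C := by
  obtain ⟨K, hK⟩ := exists_nat_ge (max 32 (128 / ε))
  have hK32 : (32 : ℝ) ≤ K := (le_max_left _ _).trans hK
  have hKε : 128 / ε ≤ K := (le_max_right _ _).trans hK
  have hK0 : (0 : ℝ) < K := by linarith
  obtain ⟨M₀, hM₀⟩ : ∃ M₀ : ℝ, ∀ z ∈ sphere (0 : ℂ) (1 / 2), lp (f z) ≤ M₀ := by
    obtain ⟨B, hB⟩ := (isCompact_sphere (0 : ℂ) (1 / 2)).exists_bound_of_continuousOn
      (hf.continuousOn.mono (sphere_subset_ball (by norm_num)))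
    refine ⟨B, fun z hz => max_le ?_ ((norm_nonneg _).trans (hB z hz))⟩
    exact (Real.log_le_self (norm_nonneg _)).trans (hB z hz)
  have hT0 : 0 ≤ TH p := TH_nonneg hp
  have hτ0 : 0 < ε / (2 * p) := by positivity
  refine ⟨2 * (M₀ + ε / 8 + 1 / (ε / (2 * p)) + 1 / 4 + 2 + TH p * K), 1 - (1 - r₀) / (K + 6),
    ?_, ?_⟩
  · have : 0 < (1 - r₀) / (K + 6) := div_pos (by linarith) (by linarith)
    linarith
  intro r hr1 hr ι s ν z hν hν1 hz
  have hrK : (1 - r) * (K + 6) ≤ 1 - r₀ := by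
    rw [← le_div_iff₀ (by linarith)]; linarith
  have h1r : 0 < 1 - r := by linarith
  have hrK1 : r₀ + (K + 2) * ((1 - r) / 4) ≤ r := by nlinarith
  have hrK2 : K * ((1 - r) / 4) ≤ 1 := by nlinarith
  have hr₀r : r₀ ≤ r := by nlinarith
  have hr2 : 1 / 2 ≤ r := hr₀.trans hr₀r
  have hr0 : 0 < r := by linarith
  set L : ι → ℝ := fun x => lp (f (z x)) with hL
  have hL0 : ∀ x ∈ s, 0 ≤ L x := fun x _ => lp_nonneg _
  set σ : ℝ → ℝ := fun t => ∑ x ∈ s, ν x * trap (L x) t with hσ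
  have hσc : Continuous σ :=
    continuous_finsetSum _ fun x _ => continuous_const.mul (continuous_trap _)
  have hσ0 : ∀ t ≤ 0, σ t = 0 := fun t ht =>
    Finset.sum_eq_zero fun x _ => by rw [trap_of_nonpos _ ht, mul_zero]
  have hσn : ∀ t, 0 ≤ σ t := fun t =>
    Finset.sum_nonneg fun x hx => mul_nonneg (hν x hx) (trap_nonneg _ _)
  have hσ1 : ∀ t, σ t ≤ 1 := fun t => by
    rw [← hν1]
    exact Finset.sum_le_sum fun x hx => mul_le_of_le_one_right (hν x hx) (trap_le_one _ _)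
  set I := ∑ x ∈ s, ∑ y ∈ s, ν x * ν y * min (L x) (L y) with hI
  have hνν : ∑ x ∈ s, ∑ y ∈ s, ν x * ν y = 1 := by
    rw [← Finset.sum_mul_sum, hν1, one_mul]
  have hI0 : 0 ≤ I := Finset.sum_nonneg fun x hx => Finset.sum_nonneg fun y hy =>
    mul_nonneg (mul_nonneg (hν x hx) (hν y hy)) (le_min (hL0 x hx) (hL0 y hy))
  have hlin : ∀ a c : ℝ, ∑ x ∈ s, ∑ y ∈ s, ν x * ν y * (a + c * min (L x) (L y)) = a + c * I := by
    intro a c
    have : a + c * I = a * ∑ x ∈ s, ∑ y ∈ s, ν x * ν y + c * I := by rw [hνν, mul_one]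
    rw [this, hI, Finset.mul_sum, Finset.mul_sum, ← Finset.sum_add_distrib]
    refine Finset.sum_congr rfl fun x _ => ?_
    rw [Finset.mul_sum, Finset.mul_sum, ← Finset.sum_add_distrib]
    refine Finset.sum_congr rfl fun y _ => ?_
    ring
  have hsub : closedBall (0 : ℂ) r ⊆ ball 0 1 := closedBall_subset_ball hr
  have hVd : ∀ u ∈ closedBall (0 : ℂ) r, HasFDerivAt (Vf σ f) (reMul (Wf σ f u)) u := fun u hu =>
    hasFDerivAt_Vf hσc hσ0 (hf.differentiableAt (isOpen_ball.mem_nhds (hsub hu)))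
  have hWc : ContinuousOn (Wf σ f) (closedBall 0 r) := (continuousOn_Wf hσc hσ0 hf).mono hsub
  have hVc : ContinuousOn (Vf σ f) (closedBall 0 r) := fun u hu =>
    (hVd u hu).continuousAt.continuousWithinAt
  have hV0 : ∀ u, 0 ≤ Vf σ f u := fun u => prim_nonneg hσc hσn hσ0 _
  have hD : ∀ r', 0 ≤ r' → r' ≤ r →
      PI (fun u => ‖Wf σ f u‖ ^ 2) 0 r' r ≤ π * p * (1 + 2 * I) := by
    intro r' h1 h2
    refine PI_le_of_lintegral_le h1 h2 (by fun_prop) (fun u _ => by positivity) (by positivity) ?_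
    refine (lintegral_mono_set (ball_subset_ball hr.le)).trans
      ((dirichlet_bound hp hf hA s ν L hν hL0).trans (le_of_eq ?_))
    rw [hlin]
  have hmean := mean_bound hr2 hr.le hτ0 hVd hWc
    (fun u hu => (prim_le_max hσc hσ1 hσ0 _).trans (hM₀ u hu)) (hD _ (by norm_num) hr2)
  have hmain := main_green hp hr0 hr hVd hWc (hD 0 le_rfl hr0.le) s ν z hν1 hz
  have hlow : ∀ x ∈ s, (1 - 32 / K) * (Vf σ f (z x) - TH p * K) ≤
      circleAverage (fun u => Pk (conj (z x) / r) u * Vf σ f u) 0 r := by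
    intro x hx
    refine poisson_lower hr0 hr (hz x hx) hK32 hrK2 (hVc.mono sphere_subset_closedBall) hV0
      fun u hu' h => ?_
    have h2 := harnack_chain hp hf hA hne hr K hu'.le (hz x hx).le h (by rw [hu']; exact hrK1)
    have hfu : f u ≠ 0 := hne u (by rw [hu']; exact hr₀r) (by rw [hu']; exact hr)
    have hfx : f (z x) ≠ 0 := hne _ (by rw [hz x hx]; exact hr₀r) (by rw [hz x hx]; exact hr)
    have h3 : Real.log ‖f (z x)‖ ≤ TH p * K + Real.log ‖f u‖ := by
      have := Real.log_le_log (norm_pos_iff.2 hfx) h2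
      rwa [Real.log_mul (exp_pos _).ne' (norm_ne_zero_iff.2 hfu), Real.log_exp] at this
    have a1 := prim_mono hσc hσn h3
    have a2 := prim_lip hσc hσ1 (s := Real.log ‖f u‖) (t := TH p * K + Real.log ‖f u‖)
      (le_add_of_nonneg_left (by positivity))
    simp only [Vf]
    linarith
  have hVx : I - 2 ≤ ∑ x ∈ s, ν x * Vf σ f (z x) := by
    have : ∀ x ∈ s, ∑ y ∈ s, ν y * (min (L x) (L y) - 2) ≤ Vf σ f (z x) := by
      intro x _
      simp only [Vf]
      rw [prim_max hσ0, hσ, prim_sum]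
      exact Finset.sum_le_sum fun y hy =>
        mul_le_mul_of_nonneg_left (prim_trap_ge (L y) (L x)) (hν y hy)
    calc I - 2 = ∑ x ∈ s, ν x * ∑ y ∈ s, ν y * (min (L x) (L y) - 2) := by
          rw [show I - 2 = -2 + 1 * I by ring, ← hlin]
          refine Finset.sum_congr rfl fun x _ => ?_
          rw [Finset.mul_sum]
          refine Finset.sum_congr rfl fun y _ => ?_
          ring
      _ ≤ _ := Finset.sum_le_sum fun x hx => mul_le_mul_of_nonneg_left (this x hx) (hν x hx)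
  have h3 : 0 ≤ 1 - 32 / (K : ℝ) := by rw [sub_nonneg, div_le_one hK0]; exact hK32
  have hsum : (1 - 32 / K) * (I - 2 - TH p * K) ≤
      ∑ x ∈ s, ν x * circleAverage (fun u => Pk (conj (z x) / r) u * Vf σ f u) 0 r := by
    calc (1 - 32 / K) * (I - 2 - TH p * K)
        ≤ (1 - 32 / K) * (∑ x ∈ s, ν x * Vf σ f (z x) - (∑ x ∈ s, ν x) * (TH p * K)) := by
          rw [hν1, one_mul]; gcongr
      _ = ∑ x ∈ s, ν x * ((1 - 32 / K) * (Vf σ f (z x) - TH p * K)) := by
          rw [Finset.sum_mul, ← Finset.sum_sub_distrib, Finset.mul_sum]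
          refine Finset.sum_congr rfl fun x _ => ?_
          ring
      _ ≤ _ := Finset.sum_le_sum fun x hx => mul_le_mul_of_nonneg_left (hlow x hx) (hν x hx)
  have k3 : 32 / (K : ℝ) ≤ ε / 4 := by
    rw [div_le_iff₀ hε] at hKε
    rw [div_le_div_iff₀ hK0 (by norm_num)]
    linarith
  exact final_arith hI0 (by positivity) k3 (by positivity) hp (by field_simp) hsum hmean hmain

end Pool.Agent.MP_e3615c_an

end MrgPart0

-- ======== part 1: formerly Pool.Agent.MP_e3615c_an.Upper1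
section MrgPart1

/-!
Analytic estimates for the upper bound.
-/

namespace Pool.Agent.MP_e3615c_an

open MeasureTheory Metric Set Filter Topology Real
open scoped ENNReal ComplexConjugate

theorem exp_lp (w : ℂ) : exp (lp w) = max ‖w‖ 1 := by
  unfold lp
  rcases le_total ‖w‖ 1 with h | h
  · rw [max_eq_right (log_nonpos (norm_nonneg _) h), max_eq_right h, exp_zero]
  · rw [max_eq_left (log_nonneg h), max_eq_left h, exp_log (by linarith)]

theorem growth {p : ℝ} (hp : 0 < p) {f : ℂ → ℂ} (hf : DifferentiableOn ℂ f (ball 0 1))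
    (hA : AB p f) {r₀ : ℝ} (hr₀ : 1 / 2 ≤ r₀) (hr₀' : r₀ < 1)
    (hne : ∀ z : ℂ, r₀ ≤ ‖z‖ → ‖z‖ < 1 → f z ≠ 0) :
    ∃ C : ℝ, 0 ≤ C ∧ ∀ N : ℝ, 1 ≤ N → ∀ z : ℂ, ‖z‖ ≤ 1 - 1 / N →
      lp (f z) ≤ 4 * p * Real.log N + C := by
  obtain ⟨C, r₁, hr₁, h⟩ := distortion hp hf hA hr₀ hr₀' hne (ε := 1 / 2) (by norm_num)
  obtain ⟨M, hM⟩ := (isCompact_closedBall (0 : ℂ) r₁).exists_bound_of_continuousOn
    (hf.continuousOn.mono (closedBall_subset_ball hr₁))
  refine ⟨2 * |C| + |M|, by positivity, fun N hN z hz => ?_⟩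
  have hl : 0 ≤ Real.log N := log_nonneg hN
  have hN0 : 0 < 1 / N := by positivity
  rcases le_total ‖z‖ r₁ with h1 | h1
  · have h2 := hM z (by simpa using h1)
    have h3 : lp (f z) ≤ ‖f z‖ := max_le (log_le_self (norm_nonneg _)) (norm_nonneg _)
    have h4 : 0 ≤ 4 * p * Real.log N := by positivity
    linarith [le_abs_self M, abs_nonneg C]
  · have h2 := h ‖z‖ h1 (by linarith) (Finset.univ : Finset Unit) (fun _ => 1) (fun _ => z)
      (fun _ _ => zero_le_one) (by simp) (fun _ _ => rfl)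
    simp only [Finset.univ_unique, Finset.sum_singleton, one_mul, min_self] at h2
    have h3 : 1 / N ≤ ‖1 - z * conj z‖ := by
      have := norm_sub_norm_le (1 : ℂ) (z * conj z)
      rw [norm_one, norm_mul, Complex.norm_conj] at this
      nlinarith [norm_nonneg z]
    have h4 := log_le_log hN0 h3
    rw [one_div, log_inv] at h4
    nlinarith [le_abs_self C, abs_nonneg M]

/-- Spherical type derivative. -/
noncomputable def sph (f : ℂ → ℂ) (z : ℂ) : ℝ := ‖deriv f z‖ / max ‖f z‖ 1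

theorem continuousOn_sph {f : ℂ → ℂ} (hf : DifferentiableOn ℂ f (ball 0 1)) :
    ContinuousOn (sph f) (ball 0 1) := by
  have := hf.continuousOn
  exact (hf.deriv isOpen_ball).continuousOn.norm.div (by fun_prop)
    fun _ _ => (lt_max_of_lt_right one_pos).ne'

theorem good_radius {p : ℝ} (hp : 0 < p) {f : ℂ → ℂ} (hf : DifferentiableOn ℂ f (ball 0 1))
    (hA : AB p f) {N L : ℝ} (hN : 4 ≤ N) (hL : 0 ≤ L)
    (h : ∀ z : ℂ, ‖z‖ ≤ 1 - 1 / N → lp (f z) ≤ L) :
    ∃ r, 1 - 2 / N ≤ r ∧ r ≤ 1 - 1 / N ∧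
      circleAverage (fun z => sph f z ^ 2) 0 r ≤ N * (p * (4 + 2 * L)) := by
  have hN0 : 0 < N := by linarith
  have h1 : 0 < 1 / N := by positivity
  have h2 : 2 / N ≤ 1 / 2 := by rw [div_le_div_iff₀ hN0 two_pos]; linarith
  have h3 : 2 / N = 2 * (1 / N) := by ring
  have hsub : closedBall (0 : ℂ) (1 - 1 / N) ⊆ ball 0 1 := closedBall_subset_ball (by linarith)
  have hG : ContinuousOn (fun z => sph f z ^ 2) (closedBall 0 (1 - 1 / N)) :=
    ((continuousOn_sph hf).mono hsub).pow 2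
  have hPI : PI (fun z => sph f z ^ 2) 0 (1 - 2 / N) (1 - 1 / N) ≤ π * (p * (4 + 2 * L)) := by
    refine PI_le_of_lintegral_le (by linarith) (by linarith) hG (fun z _ => by positivity)
      (by positivity) ?_
    set S := {z | z ∈ ball (0 : ℂ) 1 ∧ ‖f z‖ < 1} with hS
    have hSm : MeasurableSet S := (isOpen_sublevel hf 1).measurableSet
    have a1 : ∫⁻ z in S, ENNReal.ofReal (sph f z ^ 2) ≤ ENNReal.ofReal (π * p * 1 ^ 2) := by
      refine le_trans (setLIntegral_mono' hSm fun z hz => ?_) (hA 1 one_pos)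
      rw [sph, max_eq_right hz.2.le, div_one]
    have a2 : ∫⁻ z in ball 0 (1 - 1 / N) \ S, ENNReal.ofReal (sph f z ^ 2) ≤
        ENNReal.ofReal (π * p * (1 + 2 * (L + 1))) := by
      refine le_trans ?_ (logArea hp hf hA (by linarith))
      refine le_trans (setLIntegral_mono' (measurableSet_ball.diff hSm) fun z hz => ?_)
        (lintegral_mono_set (sdiff_subset.trans (ball_subset_closedBall.trans hsub)))
      have b1 : 1 ≤ ‖f z‖ := not_lt.1 fun b => hz.2 ⟨hsub (ball_subset_closedBall hz.1), b⟩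
      have b2 : ‖f z‖ < exp (L + 1) := by
        have := h z (mem_ball_zero_iff.1 hz.1).le
        refine (le_max_left _ 1).trans_lt ?_
        rw [← exp_lp, exp_lt_exp]
        linarith
      rw [if_pos ⟨b1, b2⟩, sph, max_eq_left b1, div_pow]
    refine (lintegral_mono_set (t := S ∪ (ball 0 (1 - 1 / N) \ S)) (by simp)).trans
      ((lintegral_union_le _ _ _).trans ((add_le_add a1 a2).trans (le_of_eq ?_)))
    rw [← ENNReal.ofReal_add (by positivity) (by positivity)]
    congr 1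
    ring
  have hle : 1 - 2 / N ≤ 1 - 1 / N := by linarith
  have hc := continuousOn_PI_integrand (c := 0) (r₀ := 1 - 2 / N) (by linarith)
    (hG.mono (Ann_subset_closedBall _ _ _))
  obtain ⟨r, hr, hmin⟩ := isCompact_Icc.exists_isMinOn (nonempty_Icc.2 hle) hc
  refine ⟨r, hr.1, hr.2, ?_⟩
  have h4 := intervalIntegral.integral_mono_on (μ := volume) hle intervalIntegrable_const
    (hc.intervalIntegrable_of_Icc hle) fun s hs => hmin hs
  simp only [intervalIntegral.integral_const, smul_eq_mul] at h4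
  have h5 := h4.trans hPI
  have h6 : 0 ≤ circleAverage (fun z => sph f z ^ 2) 0 r :=
    circleAverage_nonneg_of_nonneg fun z _ => by positivity
  set A := circleAverage (fun z => sph f z ^ 2) 0 r
  rw [show 1 - 1 / N - (1 - 2 / N) = 1 / N by ring, one_div, inv_mul_le_iff₀ hN0] at h5
  have h7 : π * A ≤ 2 * π * r * A := by
    have : 1 ≤ 2 * r := by linarith [hr.1]
    nlinarith [mul_nonneg pi_pos.le h6]
  refine le_of_mul_le_mul_left ?_ pi_pos
  linarith

theorem exists_coeffs {m : ℕ} (ζ : Fin m → ℂ) : ∃ c : Fin (m + 1) → ℂ, c 0 = 1 ∧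
    c (Fin.last m) = ∏ j, -ζ j ∧ ∀ w, ∏ j, (1 - ζ j * w) = ∑ i, c i * w ^ (i : ℕ) := by
  let Q : Polynomial ℂ := ∏ j, (Polynomial.C (-ζ j) * Polynomial.X + Polynomial.C 1)
  have h1 : ∀ j, (Polynomial.C (-ζ j) * Polynomial.X + Polynomial.C 1).natDegree ≤ 1 := fun j =>
    Polynomial.natDegree_linear_le
  refine ⟨fun i => Q.coeff i, ?_, ?_, fun w => ?_⟩
  · simp [Q, Polynomial.coeff_zero_prod]
  · have := Polynomial.coeff_prod_of_natDegree_le Finset.univ _ 1 fun j _ => h1 j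
    simpa [Q, Polynomial.coeff_one] using this
  · have h2 : Q.natDegree < m + 1 := by
      refine Nat.lt_succ_of_le ((Polynomial.natDegree_prod_le _ _).trans ?_)
      simpa using Finset.sum_le_card_nsmul Finset.univ _ 1 fun j _ => h1 j
    rw [Fin.sum_univ_eq_sum_range (fun i => Q.coeff i * w ^ i), ← Polynomial.eval_eq_sum_range' h2]
    simp only [Q, Polynomial.eval_prod]
    refine Finset.prod_congr rfl fun j _ => ?_
    simp
    ring

theorem circleAverage_inv_sq {r : ℝ} (hr : 0 < r) (hr1 : r < 1) {ζ : ℂ} (hζ : ‖ζ‖ = 1) :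
    circleAverage (fun z => ‖z - ζ‖⁻¹ ^ 2) 0 r = (1 - r ^ 2)⁻¹ := by
  have h1 := circleAverage_Pk (b := conj ζ) hr (by simpa [hζ] using hr1)
  have h2 : 0 < 1 - r ^ 2 := by nlinarith
  have h3 := circleAverage_fun_smul (a := (1 - r ^ 2)⁻¹) (f := Pk (conj ζ)) (c := 0) (R := r)
  rw [h1, smul_eq_mul, mul_one] at h3
  rw [← h3]
  refine circleAverage_congr_sphere fun z hz => ?_
  have hz' : ‖z‖ = r := by simpa [abs_of_pos hr] using hz
  have e : ‖1 - z * conj ζ‖ = ‖z - ζ‖ := by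
    have : ζ * conj ζ = 1 := by rw [Complex.mul_conj, Complex.normSq_eq_norm_sq, hζ]; simp
    rw [← this, ← sub_mul, norm_mul, norm_sub_rev]; simp [hζ]
  simp only [Pk, e, norm_mul, Complex.norm_conj, hz', hζ, mul_one, smul_eq_mul]
  field_simp

theorem coef_bound {f : ℂ → ℂ} (hf : DifferentiableOn ℂ f (ball 0 1)) {m : ℕ} {ζ : Fin m → ℂ}
    (hζ : ∀ j, ‖ζ j‖ = 1) {r A B J : ℝ} (hr : 0 < r) (hr1 : r < 1) (hA : 0 < A) (hB : 0 < B)
    (h1 : circleAverage (fun z => (‖∏ j, (1 - ζ j * z⁻¹)‖ * max ‖f z‖ 1) ^ 2) 0 r ≤ A ^ 2)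
    (h2 : circleAverage (fun z => sph f z ^ 2) 0 r ≤ J)
    (h3 : (m + 1) * (J + m * (1 - r ^ 2)⁻¹) ≤ B ^ 2) (s : ℤ) :
    ‖s * cf (fun z => f z * ∏ j, (1 - ζ j * z⁻¹)) r s‖ ≤ r ^ (-s) * (A * B) := by
  classical
  have hsub : sphere (0 : ℂ) r ⊆ ball 0 1 := sphere_subset_ball hr1
  have h0 : ∀ z ∈ sphere (0 : ℂ) r, z ≠ 0 := fun z hz => ne_zero_of_mem_sphere hr hz
  have hz : ∀ z ∈ sphere (0 : ℂ) r, ∀ j, z - ζ j ≠ 0 := fun z hz j h => by
    rw [sub_eq_zero] at h
    have := mem_ball_zero_iff.1 (hsub hz)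
    rw [h, hζ] at this
    exact lt_irrefl _ this
  let P : ℂ → ℂ := fun z => ∏ j, (1 - ζ j * z⁻¹)
  have hPc : ContinuousOn P (sphere 0 r) := continuousOn_finsetProd _ fun j _ =>
    continuousOn_const.sub (continuousOn_const.mul (continuousOn_id.inv₀ h0))
  have hfc : ContinuousOn f (sphere 0 r) := hf.continuousOn.mono hsub
  have hf' : ContinuousOn (deriv f) (sphere 0 r) := (hf.deriv isOpen_ball).continuousOn.mono hsub
  have hi : ∀ j, ContinuousOn (fun z => (z - ζ j)⁻¹) (sphere 0 r) := fun j =>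
    (continuousOn_id.sub continuousOn_const).inv₀ fun z h => hz z h j
  have hS : ContinuousOn (fun z => ∑ j, ζ j * z⁻¹ * (z - ζ j)⁻¹) (sphere 0 r) :=
    continuousOn_finsetSum _ fun j _ => (continuousOn_const.mul (continuousOn_id.inv₀ h0)).mul (hi j)
  have hF'c : ContinuousOn (fun z => deriv f z * P z + f z * (P z * ∑ j, ζ j * z⁻¹ * (z - ζ j)⁻¹))
      (sphere 0 r) := by fun_prop
  rw [← cf_deriv (F' := fun z => deriv f z * P z + f z * (P z * ∑ j, ζ j * z⁻¹ * (z - ζ j)⁻¹)) hr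
    ?_ hF'c]
  · refine (norm_cf_le _ hr s).trans (mul_le_mul_of_nonneg_left ?_ (by positivity))
    have hX : ContinuousOn (fun z => (‖P z‖ * max ‖f z‖ 1) ^ 2) (sphere 0 r) := by fun_prop
    have hY : ContinuousOn (fun z => sph f z ^ 2) (sphere 0 r) :=
      ((continuousOn_sph hf).mono hsub).pow 2
    have hi' : ∀ j, ContinuousOn (fun z => ‖z - ζ j‖⁻¹ ^ 2) (sphere 0 r) := fun j =>
      ((hi j).norm.pow 2).congr fun z _ => by simp
    have hZ : ContinuousOn (fun z => ∑ j, ‖z - ζ j‖⁻¹ ^ 2) (sphere 0 r) :=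
      continuousOn_finsetSum _ fun j _ => hi' j
    refine (circleAverage_mono (f₂ := fun z => (B / A / 2) • (‖P z‖ * max ‖f z‖ 1) ^ 2 +
      (1 / (2 * (B / A)) * (m + 1)) • (sph f z ^ 2 + ∑ j, ‖z - ζ j‖⁻¹ ^ 2))
      (ContinuousOn.circleIntegrable hr.le (by fun_prop))
      (ContinuousOn.circleIntegrable hr.le (by fun_prop)) fun z hz' => ?_).trans ?_
    · rw [abs_of_pos hr] at hz'
      have b0 : ‖z‖ ≤ 1 := (mem_ball_zero_iff.1 (hsub hz')).le
      have bm : 0 < max ‖f z‖ 1 := lt_max_of_lt_right one_pos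
      have b1 : ‖z * (deriv f z * P z + f z * (P z * ∑ j, ζ j * z⁻¹ * (z - ζ j)⁻¹))‖ ≤
          ‖P z‖ * max ‖f z‖ 1 * (sph f z + ∑ j, ‖z - ζ j‖⁻¹) := by
        rw [mul_add, mul_add]
        refine (norm_add_le _ _).trans (add_le_add ?_ ?_)
        · rw [norm_mul, norm_mul, sph, mul_assoc, mul_div_cancel₀ _ bm.ne', mul_comm ‖P z‖]
          exact mul_le_of_le_one_left (by positivity) b0
        · rw [show z * (f z * (P z * ∑ j, ζ j * z⁻¹ * (z - ζ j)⁻¹)) =
            P z * f z * (z * ∑ j, ζ j * z⁻¹ * (z - ζ j)⁻¹) by ring, norm_mul, norm_mul]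
          gcongr
          · exact le_max_left _ _
          · rw [Finset.mul_sum]
            refine (norm_sum_le _ _).trans (le_of_eq (Finset.sum_congr rfl fun j _ => ?_))
            have := norm_ne_zero_iff.2 (h0 z hz')
            simp only [norm_mul, norm_inv, hζ]
            field_simp
      refine b1.trans ((amgm (B / A) _ _ (by positivity)).trans ?_)
      simp only [smul_eq_mul]
      rw [mul_assoc (1 / (2 * (B / A)))]
      gcongr
      have := sq_sum_le_card_mul_sum_sq (s := Finset.univ)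
        (f := Fin.cons (α := fun _ => ℝ) (sph f z) fun j => ‖z - ζ j‖⁻¹)
      simpa [Fin.sum_univ_succ] using this
    · rw [circleAverage_fun_add (ContinuousOn.circleIntegrable hr.le (by fun_prop))
        (ContinuousOn.circleIntegrable hr.le (by fun_prop)), circleAverage_fun_smul,
        circleAverage_fun_smul, circleAverage_fun_add (hY.circleIntegrable hr.le)
        (hZ.circleIntegrable hr.le), circleAverage_fun_sum fun j _ => (hi' j).circleIntegrable hr.le]
      simp only [circleAverage_inv_sq hr hr1 (hζ _), Finset.sum_const, Finset.card_univ,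
        Fintype.card_fin, nsmul_eq_mul, smul_eq_mul]
      rw [mul_assoc (1 / (2 * (B / A)))]
      calc _ ≤ B / A / 2 * A ^ 2 + 1 / (2 * (B / A)) * B ^ 2 := by
            gcongr
            exact le_trans (by gcongr) h3
        _ = A * B := by field_simp; ring
  · intro z hz'
    have b0 := h0 z hz'
    have b1 : HasDerivAt P (P z * ∑ j, ζ j * z⁻¹ * (z - ζ j)⁻¹) z := by
      refine (HasDerivAt.fun_finsetProd (f' := fun j => ζ j * (z ^ 2)⁻¹) fun j _ =>
        (((hasDerivAt_inv b0).const_mul (ζ j)).const_sub 1).congr_deriv (by ring)).congr_deriv ?_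
      rw [Finset.mul_sum]
      refine Finset.sum_congr rfl fun j hj => ?_
      have := hz z hz' j
      simp only [P]
      rw [← Finset.mul_prod_erase _ _ hj, smul_eq_mul]
      field_simp
    exact (hf.differentiableAt (isOpen_ball.mem_nhds (hsub hz'))).hasDerivAt.mul b1

end Pool.Agent.MP_e3615c_an

end MrgPart1

-- ======== part 2: formerly Pool.Agent.MP_e3615c_an.Atoms
section MrgPart2

/-!
Equally spaced atoms on the unit circle, a regularised distance and Whitney cells.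
-/

namespace Pool.Agent.MP_e3615c_an

open MeasureTheory Metric Set Filter Topology Real

section

variable {n : ℕ} [NeZero n]

/-- The `n`-th roots of unity. -/
noncomputable def ze (x : ZMod n) : ℂ := ZMod.stdAddChar x

/-- Regularised distance. -/
noncomputable def dd (x y : ZMod n) : ℝ := ‖ze x - ze y‖ + 1 / n

theorem npos : (0 : ℝ) < n := Nat.cast_pos.2 (NeZero.pos n)

theorem one_le_n : (1 : ℝ) ≤ n := Nat.one_le_cast.2 (NeZero.pos n)

theorem ze_eq (x : ZMod n) : ze x = Complex.exp (Complex.I * (2 * π * x.val / n : ℝ)) := by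
  rw [ze, ZMod.stdAddChar_apply, ZMod.toCircle_apply]
  congr 1
  push_cast
  ring

@[simp] theorem norm_ze (x : ZMod n) : ‖ze x‖ = 1 := by
  rw [ze_eq, Complex.norm_exp_I_mul_ofReal]

theorem dd_symm (x y : ZMod n) : dd x y = dd y x := by rw [dd, dd, norm_sub_rev]

theorem inv_le_dd (x y : ZMod n) : 1 / n ≤ dd x y := le_add_of_nonneg_left (norm_nonneg _)

theorem dd_pos (x y : ZMod n) : 0 < dd x y := (one_div_pos.2 npos).trans_le (inv_le_dd x y)

theorem norm_ze_sub_le (x y : ZMod n) : ‖ze x - ze y‖ ≤ 2 :=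
  (norm_sub_le _ _).trans (by simp; norm_num)

theorem dd_le_three (x y : ZMod n) : dd x y ≤ 3 := by
  have h1 := norm_ze_sub_le x y
  have h2 : (1 : ℝ) / n ≤ 1 := (div_le_one npos).2 one_le_n
  unfold dd
  linarith

theorem dd_triangle (x y z : ZMod n) : dd x z ≤ dd x y + dd y z := by
  have h1 := norm_sub_le_norm_sub_add_norm_sub (ze x) (ze y) (ze z)
  have h2 : (0 : ℝ) < 1 / n := one_div_pos.2 npos
  unfold dd
  linarith

theorem dd_le_add (x y z : ZMod n) : dd x z ≤ ‖ze x - ze y‖ + dd y z := by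
  have h1 := norm_sub_le_norm_sub_add_norm_sub (ze x) (ze y) (ze z)
  unfold dd
  linarith

theorem sum_zmod (g : ℕ → ℝ) : ∑ x : ZMod n, g x.val = ∑ v ∈ Finset.range n, g v := by
  obtain ⟨k, rfl⟩ := Nat.exists_eq_succ_of_ne_zero (NeZero.ne n)
  exact Fin.sum_univ_eq_sum_range g (k + 1)

theorem min_le_norm_ze (k : ZMod n) : min (k.val : ℝ) (n - k.val) / n ≤ ‖ze k - 1‖ := by
  have hn : (0 : ℝ) < n := npos
  have hk : (k.val : ℝ) ≤ n := Nat.cast_le.2 (ZMod.val_lt k).le
  have hk0 : (0 : ℝ) ≤ k.val := Nat.cast_nonneg _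
  rw [ze_eq, Complex.norm_exp_I_mul_ofReal_sub_one, Real.norm_eq_abs]
  refine le_trans ?_ (le_abs_self _)
  have key : ∀ v : ℝ, 0 ≤ v → 2 * v ≤ n → v / n ≤ 2 * sin (π * v / n) := by
    intro v h0 h1
    have := mul_le_sin (x := π * v / n) (by positivity)
      (by rw [div_le_div_iff₀ hn two_pos]; nlinarith [pi_pos])
    have e : 2 / π * (π * v / n) = 2 * (v / n) := by field_simp
    have : 0 ≤ v / n := by positivity
    linarith
  rcases le_total (2 * (k.val : ℝ)) n with h | h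
  · have := key _ hk0 h
    rw [show 2 * π * k.val / n / 2 = π * k.val / n by ring]
    exact le_trans (by gcongr; exact min_le_left _ _) this
  · have := key (n - k.val) (by linarith) (by linarith)
    rw [show π * (n - k.val) / n = π - 2 * π * k.val / n / 2 by field_simp, sin_pi_sub] at this
    exact le_trans (by gcongr; exact min_le_right _ _) this

theorem sum_inv_dd (x : ZMod n) : ∑ y, 1 / dd x y ≤ 2 * n * (1 + Real.log n) := by
  have hn : (0 : ℝ) < n := npos
  have e : ∀ k, dd x (k + x) = ‖ze k - 1‖ + 1 / n := fun k => by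
    have : ze x - ze (k + x) = -(ze x) * (ze k - 1) := by
      simp only [ze, AddChar.map_add_eq_mul]; ring
    rw [dd, this, norm_mul, norm_neg, norm_ze, one_mul]
  rw [← Equiv.sum_comp (Equiv.addRight x)]
  simp only [Equiv.coe_addRight, e]
  have h1 : ∀ k : ZMod n, 1 / (‖ze k - 1‖ + 1 / n) ≤
      n * ((k.val + 1 : ℝ)⁻¹ + (((n - 1 - k.val : ℕ) : ℝ) + 1)⁻¹) := by
    intro k
    have h2 := min_le_norm_ze k
    have hk := ZMod.val_lt k
    have h3 : ((n - 1 - k.val : ℕ) : ℝ) + 1 = n - k.val := by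
      rw [Nat.sub_sub, Nat.cast_sub (by omega)]; push_cast; ring
    have h4 : (0 : ℝ) < n - k.val := by rw [← h3]; positivity
    rw [h3]
    have h5 : (0 : ℝ) < k.val + 1 := by positivity
    rcases le_total (k.val : ℝ) (n - k.val) with h | h
    · rw [min_eq_left h] at h2
      calc 1 / (‖ze k - 1‖ + 1 / n) ≤ 1 / (k.val / n + 1 / n) := by gcongr
        _ = n * (k.val + 1 : ℝ)⁻¹ := by field_simp
        _ ≤ _ := by gcongr; exact le_add_of_nonneg_right (by positivity)
    · rw [min_eq_right h] at h2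
      calc 1 / (‖ze k - 1‖ + 1 / n) ≤ 1 / ((n - k.val) / n) := by
            gcongr; exact h2.trans (le_add_of_nonneg_right (by positivity))
        _ = n * (n - k.val : ℝ)⁻¹ := by field_simp
        _ ≤ _ := by gcongr; exact le_add_of_nonneg_left (by positivity)
  refine (Finset.sum_le_sum fun k _ => h1 k).trans ?_
  rw [sum_zmod fun v => n * ((v + 1 : ℝ)⁻¹ + (((n - 1 - v : ℕ) : ℝ) + 1)⁻¹), ← Finset.mul_sum,
    Finset.sum_add_distrib, Finset.sum_range_reflect (fun v : ℕ => (v + 1 : ℝ)⁻¹)]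
  have h6 := harmonic_le_one_add_log n
  simp only [harmonic, Rat.cast_sum, Rat.cast_inv, Rat.cast_natCast, Nat.cast_add, Nat.cast_one,
    Rat.cast_add, Rat.cast_one] at h6
  nlinarith

theorem circleAverage_le_atoms {G : ℂ → ℝ} {r : ℝ} (hr : 0 ≤ r) (hr1 : r ≤ 1)
    (hG : ContinuousOn G (sphere 0 r)) (M : ZMod n → ℝ)
    (h : ∀ x z, ‖z‖ = r → ‖z - r * ze x‖ ≤ 7 / n → G z ≤ M x) :
    circleAverage G 0 r ≤ (∑ x, M x) / n := by
  have hn : (0 : ℝ) < n := npos
  have hc : Continuous fun θ => G (circleMap 0 r θ) :=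
    hG.comp_continuous (continuous_circleMap 0 r) (circleMap_mem_sphere 0 hr)
  have h1 := two_pi_mul_circleAverage G 0 r
  have h2 := intervalIntegral.sum_integral_adjacent_intervals (μ := volume)
    (f := fun θ => G (circleMap 0 r θ)) (a := fun k => 2 * π * k / n) (n := n)
    fun k _ => hc.intervalIntegrable _ _
  simp only [Nat.cast_zero, mul_zero, zero_div, mul_div_cancel_right₀ _ hn.ne'] at h2
  rw [← h2, ← sum_zmod fun k => ∫ θ in 2 * π * k / n..2 * π * ((k + 1 : ℕ) : ℝ) / n,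
    G (circleMap 0 r θ)] at h1
  refine le_of_mul_le_mul_left ?_ two_pi_pos
  rw [h1, Finset.sum_div, Finset.mul_sum]
  refine Finset.sum_le_sum fun x _ => ?_
  have hle : 2 * π * x.val / n ≤ 2 * π * ((x.val + 1 : ℕ) : ℝ) / n := by
    push_cast; gcongr; linarith
  refine (intervalIntegral.integral_mono_on hle (hc.intervalIntegrable _ _)
    (intervalIntegrable_const (c := M x)) fun θ hθ => ?_).trans (le_of_eq ?_)
  · refine h x _ (by simp [abs_of_nonneg hr]) ?_
    have e : circleMap 0 r θ - r * ze x =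
        r * ze x * (Complex.exp (Complex.I * (θ - 2 * π * x.val / n : ℝ)) - 1) := by
      rw [mul_sub, mul_assoc, ze_eq, ← Complex.exp_add, circleMap_zero]
      push_cast
      ring_nf
    rw [e, norm_mul, norm_mul, norm_ze, mul_one, Complex.norm_real, Real.norm_of_nonneg hr]
    have h3 := norm_exp_I_mul_ofReal_sub_one_le (x := θ - 2 * π * x.val / n)
    rw [Real.norm_of_nonneg (by linarith [hθ.1])] at h3
    have h4 : θ - 2 * π * x.val / n ≤ 7 / n := by
      have := hθ.2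
      push_cast at this
      rw [mul_add, add_div] at this
      have h5 : 2 * π * 1 / n ≤ 7 / n := by gcongr; linarith [pi_lt_d2]
      linarith
    exact (mul_le_of_le_one_left (norm_nonneg _) hr1).trans (h3.trans h4)
  · simp only [intervalIntegral.integral_const, smul_eq_mul]
    push_cast
    field_simp
    ring

theorem dd_le_kernel (x y : ZMod n) {r : ℝ} (hr : 0 ≤ r) (hr1 : r ≤ 1 - 1 / n) :
    dd x y ≤ 3 * ‖1 - r * ze x * (starRingEnd ℂ) (r * ze y)‖ := by
  have hn : (0 : ℝ) < 1 / n := one_div_pos.2 npos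
  set u := ze x * (starRingEnd ℂ) (ze y) with hu
  have h1 : ‖u‖ = 1 := by simp [hu]
  have e1 : r * ze x * (starRingEnd ℂ) (r * ze y) = ((r ^ 2 : ℝ) : ℂ) * u := by
    simp [hu]; ring
  have e2 : ‖ze x - ze y‖ = ‖1 - u‖ := by
    have : ze y * (starRingEnd ℂ) (ze y) = 1 := by
      rw [Complex.mul_conj, Complex.normSq_eq_norm_sq, norm_ze]; simp
    rw [← this, hu, ← sub_mul, norm_mul, norm_sub_rev]; simp
  have hρ : r ^ 2 ≤ 1 - 1 / n := by nlinarith
  have h2 : 1 - r ^ 2 ≤ ‖1 - ((r ^ 2 : ℝ) : ℂ) * u‖ := by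
    have := norm_sub_norm_le (1 : ℂ) (((r ^ 2 : ℝ) : ℂ) * u)
    rwa [norm_one, norm_mul, h1, mul_one, Complex.norm_real,
      Real.norm_of_nonneg (by positivity)] at this
  have h3 : ‖1 - u‖ ≤ ‖1 - ((r ^ 2 : ℝ) : ℂ) * u‖ + (1 - r ^ 2) := by
    refine (norm_sub_le_norm_sub_add_norm_sub _ (((r ^ 2 : ℝ) : ℂ) * u) _).trans ?_
    rw [show ((r ^ 2 : ℝ) : ℂ) * u - u = -((1 - r ^ 2 : ℝ) : ℂ) * u by push_cast; ring, norm_mul,
      h1, mul_one, norm_neg, Complex.norm_real, Real.norm_of_nonneg (by linarith)]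
  rw [dd, e1, e2]
  linarith

end

/-- Whitney cell of a point relative to the origin. -/
noncomputable def cell (v : ℂ) : ℕ × ℤ × ℤ :=
  (⌊Real.log (‖v‖ + 1)⌋₊, ⌊8 * v.re / exp ⌊Real.log (‖v‖ + 1)⌋₊⌋,
    ⌊8 * v.im / exp ⌊Real.log (‖v‖ + 1)⌋₊⌋)

theorem exp_floor_le (v : ℂ) : exp ⌊Real.log (‖v‖ + 1)⌋₊ ≤ ‖v‖ + 1 := by
  have h0 : 0 < ‖v‖ + 1 := by positivity
  rw [← le_log_iff_exp_le h0]
  exact Nat.floor_le (log_nonneg (by linarith [norm_nonneg v]))

theorem cell_close {v v' : ℂ} (h : cell v = cell v') : ‖v - v'‖ ≤ (‖v‖ + 1) / 4 := by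
  simp only [cell, Prod.mk.injEq] at h
  obtain ⟨h1, h2, h3⟩ := h
  rw [← h1] at h2 h3
  have h4 := exp_floor_le v
  set t := exp (⌊Real.log (‖v‖ + 1)⌋₊ : ℝ)
  have ht : 0 < t := exp_pos _
  have key : ∀ a b : ℝ, ⌊8 * a / t⌋ = ⌊8 * b / t⌋ → |a - b| ≤ t / 8 := by
    intro a b hab
    have := (Int.abs_sub_lt_one_of_floor_eq_floor hab).le
    rw [← sub_div, ← mul_sub, abs_div, abs_mul, abs_of_pos ht, div_le_one ht] at this
    norm_num at this
    linarith
  have := Complex.norm_le_abs_re_add_abs_im (v - v')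
  simp only [Complex.sub_re, Complex.sub_im] at this
  linarith [key _ _ h2, key _ _ h3]

/-- The finite set of cells. -/
noncomputable def cells (B : ℝ) : Finset (ℕ × ℤ × ℤ) :=
  Finset.range (⌊Real.log (B + 1)⌋₊ + 1) ×ˢ Finset.Icc (-24) 24 ×ˢ Finset.Icc (-24) 24

theorem cell_mem {v : ℂ} {B : ℝ} (h : ‖v‖ ≤ B) : cell v ∈ cells B := by
  have h0 : 0 < ‖v‖ + 1 := by positivity
  have h1 : ‖v‖ + 1 ≤ 3 * exp ⌊Real.log (‖v‖ + 1)⌋₊ := by
    have := (Nat.lt_floor_add_one (Real.log (‖v‖ + 1))).le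
    rw [log_le_iff_le_exp h0, exp_add] at this
    refine this.trans ?_
    rw [mul_comm]
    gcongr
    linarith [exp_one_lt_d9]
  set t := exp (⌊Real.log (‖v‖ + 1)⌋₊ : ℝ) with ht'
  have ht : 0 < t := exp_pos _
  have key : ∀ a : ℝ, |a| ≤ ‖v‖ → ⌊8 * a / t⌋ ∈ Finset.Icc (-24 : ℤ) 24 := by
    intro a ha
    rw [abs_le] at ha
    rw [Finset.mem_Icc, Int.le_floor, ← Int.lt_add_one_iff, Int.floor_lt, le_div_iff₀ ht,
      div_lt_iff₀ ht]
    push_cast
    constructor <;> linarith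
  simp only [cell, cells, Finset.mem_product, Finset.mem_range, Nat.lt_add_one_iff]
  exact ⟨Nat.floor_le_floor (log_le_log h0 (by linarith)), key _ (Complex.abs_re_le_norm v),
    key _ (Complex.abs_im_le_norm v)⟩

theorem card_cells {B : ℝ} (hB : 0 ≤ B) :
    ((cells B).card : ℝ) ≤ 2401 * (Real.log (B + 1) + 1) := by
  have := Nat.floor_le (log_nonneg (by linarith : 1 ≤ B + 1))
  have e : (24 + 1 - -24 : ℤ).toNat = 49 := rfl
  simp only [cells, Finset.card_product, Finset.card_range, Int.card_Icc, e]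
  push_cast
  linarith

end Pool.Agent.MP_e3615c_an

end MrgPart2

-- ======== part 3: formerly Pool.Agent.MP_e3615c_an.Select
section MrgPart3

/-!
A finite selection lemma: a random configuration with a Vandermonde type weight.
-/

namespace Pool.Agent.MP_e3615c_an

open Finset

/-- Weight of a configuration. -/
noncomputable def wt {X : Type*} (μ : X → ℝ) (d : X → X → ℝ) {k : ℕ} (x : Fin k → X) : ℝ :=
  ∏ i, ∏ j, if i = j then μ (x i) else d (x i) (x j)

theorem wt_pos {X : Type*} {μ : X → ℝ} {d : X → X → ℝ} (hμ : ∀ y, 0 < μ y)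
    (hd : ∀ x y, 0 < d x y) {k : ℕ} (x : Fin k → X) : 0 < wt μ d x :=
  prod_pos fun i _ => prod_pos fun j _ => by split_ifs <;> simp [hμ, hd]

theorem wt_insertNth {X : Type*} (μ : X → ℝ) {d : X → X → ℝ} (hs : ∀ x y, d x y = d y x) {m : ℕ}
    (i : Fin (m + 1)) (y : X) (t : Fin m → X) :
    wt μ d (Fin.insertNth (α := fun _ => X) i y t) = (μ y * ∏ j, d y (t j) ^ 2) * wt μ d t := by
  unfold wt
  rw [Fin.prod_univ_succAbove _ i]
  simp only [Fin.prod_univ_succAbove _ i, Fin.insertNth_apply_same, Fin.insertNth_apply_succAbove,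
    if_true, Fin.ne_succAbove, Fin.succAbove_ne, if_false, Fin.succAbove_right_inj,
    prod_mul_distrib, sq]
  simp only [hs y]
  ring

theorem bad_mass {X κ : Type*} [Fintype X] [DecidableEq κ] (q : X → ℝ) (hq : ∀ y, 0 ≤ q y)
    (T : Finset κ) (c : X → κ) (hT : ∀ y, c y ∈ T) {τ : ℝ} (hτ : 0 ≤ τ) :
    ∑ y with (∑ y' with c y' = c y, q y') < τ, q y ≤ T.card * τ := by
  rw [← sum_fiberwise_of_maps_to (t := T) (g := c) fun y _ => hT y, ← nsmul_eq_mul]
  refine sum_le_card_nsmul _ _ _ fun k _ => ?_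
  rcases eq_empty_or_nonempty
    (filter (fun y => c y = k) (filter (fun y => (∑ y' with c y' = c y, q y') < τ) univ)) with h | h
  · rw [h]; simpa using hτ
  · obtain ⟨y, hy⟩ := h
    simp only [mem_filter, mem_univ, true_and] at hy
    refine le_trans (sum_le_sum_of_subset_of_nonneg ?_ fun y _ _ => hq y) hy.1.le
    intro y' hy'
    simp only [mem_filter, mem_univ, true_and] at hy' ⊢
    rw [hy'.2, hy.2]

theorem select {X κ : Type*} [Fintype X] [Nonempty X] [DecidableEq κ] {m : ℕ} {μ : X → ℝ}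
    {d : X → X → ℝ} (hμ : ∀ y, 0 < μ y) (hd : ∀ x y, 0 < d x y) (hs : ∀ x y, d x y = d y x)
    (T : Finset κ) (cls : (Fin m → X) → X → κ) (hT : ∀ t y, cls t y ∈ T) :
    ∃ x : Fin (m + 1) → X, ∀ i : Fin (m + 1),
      ∑ y, μ y * ∏ j, d y (x (i.succAbove j)) ^ 2 ≤ (m + 2) * T.card *
        ∑ y with cls (i.removeNth x) y = cls (i.removeNth x) (x i),
          μ y * ∏ j, d y (x (i.succAbove j)) ^ 2 := by
  classical
  let q : (Fin m → X) → X → ℝ := fun t y => μ y * ∏ j, d y (t j) ^ 2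
  have hq : ∀ t y, 0 < q t y := fun t y => mul_pos (hμ y) (prod_pos fun j _ => pow_pos (hd _ _) 2)
  have hT0 : (0 : ℝ) < T.card := by
    obtain ⟨y⟩ := ‹Nonempty X›
    exact_mod_cast card_pos.2 ⟨_, hT (fun _ => y) y⟩
  let bad : (Fin m → X) → X → Prop := fun t y =>
    (∑ y' with cls t y' = cls t y, q t y') < (∑ y, q t y) / ((m + 2) * T.card)
  have hb : ∀ t, ∑ y with bad t y, q t y ≤ (∑ y, q t y) / (m + 2) := fun t => by
    refine (bad_mass (q t) (fun y => (hq t y).le) T (cls t) (hT t) ?_).trans (le_of_eq ?_)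
    · have := sum_nonneg fun y (_ : y ∈ univ) => (hq t y).le
      positivity
    · field_simp
  set Z := ∑ x : Fin (m + 1) → X, wt μ d x with hZ
  have hZ0 : 0 < Z := sum_pos (fun x _ => wt_pos hμ hd x) univ_nonempty
  have h1 : ∀ i : Fin (m + 1), ∑ x : Fin (m + 1) → X,
      (if bad (i.removeNth x) (x i) then wt μ d x else 0) ≤ Z / (m + 2) := by
    intro i
    rw [hZ, ← (Fin.insertNthEquiv (fun _ => X) i).sum_comp,
      ← (Fin.insertNthEquiv (fun _ => X) i).sum_comp, Fintype.sum_prod_type_right,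
      Fintype.sum_prod_type_right, sum_div]
    refine sum_le_sum fun t _ => ?_
    have e : ∀ y, Fin.insertNthEquiv (fun _ => X) i (y, t) =
        Fin.insertNth (α := fun _ => X) i y t := fun y => rfl
    simp only [e, Fin.removeNth_insertNth, Fin.insertNth_apply_same, wt_insertNth μ hs]
    rw [← sum_mul, ← sum_filter, ← sum_mul, mul_div_right_comm]
    exact mul_le_mul_of_nonneg_right (hb t) (wt_pos hμ hd t).le
  by_contra hcon
  push Not at hcon
  have h2 : Z ≤ ∑ x : Fin (m + 1) → X, ∑ i : Fin (m + 1),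
      (if bad (i.removeNth x) (x i) then wt μ d x else 0) := by
    refine sum_le_sum fun x _ => ?_
    obtain ⟨i, hi⟩ := hcon x
    have hbi : bad (i.removeNth x) (x i) := by
      simp only [bad]
      rw [lt_div_iff₀' (by positivity)]
      exact hi
    refine le_trans ?_ (single_le_sum (f := fun i : Fin (m + 1) =>
      if bad (i.removeNth x) (x i) then wt μ d x else 0) (fun j _ => ?_) (mem_univ i))
    · rw [if_pos hbi]
    · split_ifs
      · exact (wt_pos hμ hd x).le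
      · exact le_rfl
  rw [sum_comm] at h2
  have h3 := h2.trans (sum_le_card_nsmul _ _ _ fun i _ => h1 i)
  simp only [card_univ, Fintype.card_fin, nsmul_eq_mul, Nat.cast_add, Nat.cast_one] at h3
  rw [← mul_div_assoc, le_div_iff₀ (by positivity)] at h3
  nlinarith

end Pool.Agent.MP_e3615c_an

end MrgPart3

-- ======== part 4: formerly Pool.Agent.MP_e3615c_an.Core
section MrgPart4

/-!
The finite core of the upper bound.
-/

namespace Pool.Agent.MP_e3615c_an

open Finset Real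

theorem sum_nu {ι X : Type*} [Fintype ι] [Fintype X] [DecidableEq X] (a : ι → ℝ)
    (A : ι → Finset X) (φ : X → X → ℝ) :
    ∑ u : ι × X, ∑ v : ι × X, (if u.2 ∈ A u.1 then a u.1 / (A u.1).card else 0) *
      (if v.2 ∈ A v.1 then a v.1 / (A v.1).card else 0) * φ u.2 v.2 =
      ∑ i, ∑ j, a i * a j * ((∑ y ∈ A i, ∑ y' ∈ A j, φ y y') / ((A i).card * (A j).card)) := by
  simp only [Fintype.sum_prod_type, ite_mul, mul_ite, zero_mul, mul_zero, sum_ite_mem, univ_inter]
  refine sum_congr rfl fun i _ => ?_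
  have : ∀ y, (∑ j, ∑ y' ∈ A j, if y ∈ A i then a i / (A i).card * (a j / (A j).card) * φ y y'
      else 0) = if y ∈ A i then ∑ j, ∑ y' ∈ A j, a i / (A i).card * (a j / (A j).card) * φ y y'
      else 0 := fun y => by split_ifs <;> simp
  simp only [this, sum_ite_mem, univ_inter]
  rw [sum_comm]
  refine sum_congr rfl fun j _ => ?_
  simp only [sum_div, mul_sum]
  refine sum_congr rfl fun y _ => sum_congr rfl fun y' _ => ?_
  ring

theorem neg_log_le {d D : ℝ} (hd : 0 < d) (hD : 0 < D) : -log d ≤ 1 / d / D - 1 + log D := by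
  have := log_le_sub_one_of_pos (x := 1 / d / D) (by positivity)
  rw [log_div (by positivity) hD.ne', one_div, log_inv] at this
  rw [one_div]
  linarith

variable {n : ℕ} [NeZero n]

theorem self_energy (A : Finset (ZMod n)) (hA : A.Nonempty) :
    (∑ y ∈ A, ∑ y' ∈ A, -log (dd y y')) / (A.card * A.card) ≤
      log (n / A.card) + log (2 * (1 + log n)) := by
  have hc : (0 : ℝ) < A.card := Nat.cast_pos.2 hA.card_pos
  have hn : (0 : ℝ) < n := npos
  have hl : 0 ≤ log (n : ℝ) := log_nonneg one_le_n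
  rw [← log_mul (by positivity) (by positivity), div_le_iff₀ (by positivity)]
  set D := n / A.card * (2 * (1 + log n)) with hD
  have hD0 : 0 < D := by positivity
  refine (sum_le_card_nsmul _ _ (A.card * log D) fun y _ => ?_).trans
    (le_of_eq (by rw [nsmul_eq_mul]; ring))
  refine (sum_le_sum fun y' _ => neg_log_le (dd_pos y y') hD0).trans ?_
  simp only [sum_add_distrib, sum_sub_distrib, sum_const, nsmul_eq_mul, mul_one, ← sum_div]
  have h1 : ∑ y' ∈ A, 1 / dd y y' ≤ 2 * n * (1 + log n) :=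
    (sum_le_sum_of_subset_of_nonneg (subset_univ A)
      fun y' _ _ => (one_div_pos.2 (dd_pos y y')).le).trans (sum_inv_dd y)
  have h2 : (∑ y' ∈ A, 1 / dd y y') / D ≤ A.card := by
    rw [div_le_iff₀ hD0, hD]
    refine h1.trans (le_of_eq ?_)
    field_simp
  linarith

theorem count_bound (A : Finset (ZMod n)) (hA : A.Nonempty) (x : ZMod n) {δ : ℝ} (hδ : 0 < δ)
    (h : ∀ y ∈ A, dd x y ≤ 2 * δ) : -log δ ≤ log (n / A.card) + log (4 * (1 + log n)) := by
  have hc : (0 : ℝ) < A.card := Nat.cast_pos.2 hA.card_pos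
  have hn : (0 : ℝ) < n := npos
  have hl : 0 ≤ log (n : ℝ) := log_nonneg one_le_n
  rw [← log_mul (by positivity) (by positivity), ← log_inv]
  refine log_le_log (by positivity) ?_
  have h1 : ∑ y' ∈ A, 1 / dd x y' ≤ 2 * n * (1 + log n) :=
    (sum_le_sum_of_subset_of_nonneg (subset_univ A)
      fun y' _ _ => (one_div_pos.2 (dd_pos x y')).le).trans (sum_inv_dd x)
  have h2 := card_nsmul_le_sum A (fun y => 1 / dd x y) (1 / (2 * δ)) fun y hy => by
    have := dd_pos x y
    gcongr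
    exact h y hy
  rw [nsmul_eq_mul] at h2
  have h3 := h2.trans h1
  rw [div_mul_eq_mul_div, le_div_iff₀ hc]
  have e : δ⁻¹ * A.card = 2 * (A.card * (1 / (2 * δ))) := by field_simp
  rw [e]
  linarith

theorem exists_config {m : ℕ} {g : ZMod n → ℝ} {L Λ : ℝ} (hg0 : ∀ y, 0 ≤ g y) (hgL : ∀ y, g y ≤ L)
    (hΛ : ∀ t : Fin m → ZMod n, exp Λ ≤ ∑ y, exp (2 * g y) / n * ∏ j, dd y (t j) ^ 2) :
    ∃ (x : Fin (m + 1) → ZMod n) (A : Fin (m + 1) → Finset (ZMod n)), (∀ i, x i ∈ A i) ∧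
      (∀ i j, j ≠ i → ∀ y ∈ A i, ‖ze (x i) - ze y‖ ≤ dd (x i) (x j) / 4) ∧
      ∀ i, ∀ y ∈ A i, Λ + log (n / (A i).card) - 2 * ∑ j, log (dd (x i) (x (i.succAbove j))) ≤
        2 * g y + (log ((m + 2) * ((2401 * (log (2 * n + 1) + 1)) ^ m * (L + 1))) + 2 + 2 * m) := by
  classical
  have hn : (0 : ℝ) < n := npos
  have hL : 0 ≤ L := (hg0 0).trans (hgL 0)
  let cls : (Fin m → ZMod n) → ZMod n → (Fin m → ℕ × ℤ × ℤ) × ℕ := fun t y =>
    (fun j => cell (n * (ze y - ze (t j))), ⌊g y⌋₊)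
  let T : Finset ((Fin m → ℕ × ℤ × ℤ) × ℕ) :=
    Fintype.piFinset (fun _ => cells (2 * n)) ×ˢ range (⌊L⌋₊ + 1)
  have hT : ∀ t y, cls t y ∈ T := fun t y => by
    simp only [cls, T, mem_product, Fintype.mem_piFinset, mem_range, Nat.lt_add_one_iff]
    refine ⟨fun j => cell_mem ?_, Nat.floor_le_floor (hgL y)⟩
    rw [norm_mul, Complex.norm_natCast, mul_comm]
    gcongr
    exact norm_ze_sub_le _ _
  have hl : 0 < log (2 * n + 1 : ℝ) + 1 := by
    have := log_nonneg (by linarith : (1 : ℝ) ≤ 2 * n + 1)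
    linarith
  have hTc : (T.card : ℝ) ≤ (2401 * (log (2 * n + 1) + 1)) ^ m * (L + 1) := by
    simp only [T, card_product, Fintype.card_piFinset, prod_const, card_univ, Fintype.card_fin,
      card_range]
    push_cast
    gcongr
    · exact card_cells (by positivity)
    · exact Nat.floor_le hL
  obtain ⟨x, hx⟩ := select (μ := fun y => exp (2 * g y) / n) (d := dd) (fun y => by positivity)
    dd_pos dd_symm T cls hT
  let A : Fin (m + 1) → Finset (ZMod n) := fun i =>
    univ.filter fun y => cls (i.removeNth x) y = cls (i.removeNth x) (x i)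
  have hxA : ∀ i, x i ∈ A i := fun i => by simp [A]
  have hP : ∀ i j, ∀ y ∈ A i, ‖ze (x i) - ze y‖ ≤ dd (x i) (x (i.succAbove j)) / 4 := by
    intro i j y hy
    simp only [A, mem_filter, mem_univ, true_and, cls, Prod.mk.injEq] at hy
    have := cell_close (congrFun hy.1 j).symm
    rw [← mul_sub, sub_sub_sub_cancel_right, norm_mul, norm_mul, Complex.norm_natCast] at this
    refine le_of_mul_le_mul_left (this.trans (le_of_eq ?_)) hn
    simp only [dd, Fin.removeNth]
    field_simp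
  refine ⟨x, A, hxA, fun i j hj y hy => ?_, fun i y hy => ?_⟩
  · obtain ⟨j', rfl⟩ := Fin.exists_succAbove_eq hj
    exact hP i j' y hy
  have hc : (0 : ℝ) < (A i).card := Nat.cast_pos.2 (card_pos.2 ⟨_, hxA i⟩)
  have h1 : ∀ y' ∈ A i, exp (2 * g y') / n * ∏ j, dd y' (x (i.succAbove j)) ^ 2 ≤
      exp (2 * g y + 2) / n * ∏ j, (exp 1 * dd (x i) (x (i.succAbove j))) ^ 2 := by
    intro y' hy'
    have a1 : g y' ≤ g y + 1 := by
      simp only [A, mem_filter, mem_univ, true_and, cls, Prod.mk.injEq] at hy hy'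
      have b1 := Nat.lt_floor_add_one (g y')
      have b2 := Nat.floor_le (hg0 y)
      rw [hy'.2, ← hy.2] at b1
      linarith
    gcongr with j
    · linarith
    · exact (dd_pos _ _).le
    · have b1 := dd_le_add y' (x i) (x (i.succAbove j))
      have b2 := hP i j y' hy'
      have b3 := dd_pos (x i) (x (i.succAbove j))
      rw [norm_sub_rev] at b2
      nlinarith [exp_one_gt_d9]
  have h2 := ((hΛ fun j => x (i.succAbove j)).trans (hx i)).trans
    (mul_le_mul (mul_le_mul_of_nonneg_left hTc (by positivity)) (sum_le_card_nsmul _ _ _ h1)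
      (sum_nonneg fun y _ => mul_nonneg (by positivity) (prod_nonneg fun j _ => by positivity))
      (by positivity))
  have hp : ∀ j, 0 < exp 1 * dd (x i) (x (i.succAbove j)) := fun j =>
    mul_pos (exp_pos 1) (dd_pos _ _)
  have hpp : 0 < ∏ j, (exp 1 * dd (x i) (x (i.succAbove j))) ^ 2 :=
    prod_pos fun j _ => pow_pos (hp j) 2
  rw [nsmul_eq_mul, ← le_log_iff_exp_le (by positivity), log_mul (by positivity) (by positivity),
    log_mul hc.ne' (by positivity), log_mul (by positivity) hpp.ne',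
    log_div (by positivity) hn.ne', log_exp, log_prod fun j _ => (pow_pos (hp j) 2).ne'] at h2
  simp only [log_pow, log_mul (exp_pos 1).ne' (dd_pos _ _).ne', log_exp, mul_add, sum_add_distrib,
    sum_const, card_univ, Fintype.card_fin, nsmul_eq_mul, ← mul_sum] at h2
  rw [log_div hn.ne' hc.ne']
  push_cast at h2
  simp only [mul_add] at h2 ⊢
  linarith

theorem finite_core {m : ℕ} {g : ZMod n → ℝ} {L Λ p ε C Q : ℝ} (hp : 0 ≤ p) (hε : ε ≤ 1)
    (hg0 : ∀ y, 0 ≤ g y) (hgL : ∀ y, g y ≤ L)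
    (hΛ : ∀ t : Fin m → ZMod n, exp (2 * Λ) ≤ ∑ y, exp (2 * g y) / n * ∏ j, dd y (t j) ^ 2)
    (hd : ∀ ν : Fin (m + 1) × ZMod n → ℝ, (∀ u, 0 ≤ ν u) → ∑ u, ν u = 1 →
      (1 - ε) * ∑ u, ∑ v, ν u * ν v * min (g u.2) (g v.2) ≤
        2 * p * ∑ u, ∑ v, ν u * ν v * -log (dd u.2 v.2) + C)
    (hQ1 : log ((m + 2) * ((2401 * (log (2 * n + 1) + 1)) ^ m * (L + 1))) + 2 + 2 * m ≤ 2 * Q)
    (hQ2 : log (4 * (1 + log n)) ≤ Q) :
    ∃ G : Fin (m + 1) → Fin (m + 1) → ℝ, (∀ i j, G i j = G j i) ∧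
      (∀ i j, -Q ≤ G i j ∧ G i j ≤ log n) ∧ (∀ i j k, min (G i j) (G j k) ≤ G i k + Q) ∧
      ∀ a ∈ stdSimplex ℝ (Fin (m + 1)),
        (1 - ε) * (Λ - Q + ∑ i, ∑ j, a i * a j * min (cost G i) (cost G j)) ≤
          2 * p * (∑ i, ∑ j, a i * a j * G i j + Q) + C := by
  classical
  obtain ⟨x, A, hxA, hP, hK⟩ := exists_config hg0 hgL hΛ
  have hn : (0 : ℝ) < n := npos
  have hl : 0 ≤ log (n : ℝ) := log_nonneg one_le_n
  have hc : ∀ i, (0 : ℝ) < (A i).card := fun i => Nat.cast_pos.2 (card_pos.2 ⟨_, hxA i⟩)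
  have hQ4 : log 4 ≤ Q := le_trans (log_le_log (by norm_num) (by linarith)) hQ2
  have hQ0 : 0 ≤ Q := le_trans (log_nonneg (by norm_num)) hQ4
  have hhalf : ∀ {d d' : ℝ}, 0 < d → d ≤ 4 * d' → -log d' ≤ -log d + Q := by
    intro d d' h1 h2
    have h3 : 0 < d' := by linarith
    have := log_le_log h1 h2
    rw [log_mul (by norm_num) h3.ne'] at this
    linarith
  let G : Fin (m + 1) → Fin (m + 1) → ℝ := fun i j =>
    if i = j then log (n / (A i).card) else -log (dd (x i) (x j))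
  have hGd : ∀ i, G i i = log (n / (A i).card) := fun i => if_pos rfl
  have hGo : ∀ i j, i ≠ j → G i j = -log (dd (x i) (x j)) := fun i j h => if_neg h
  have hsymm : ∀ i j, G i j = G j i := fun i j => by
    rcases eq_or_ne i j with rfl | h
    · rfl
    · rw [hGo i j h, hGo j i h.symm, dd_symm]
  refine ⟨G, hsymm, fun i j => ?_, fun i j k => ?_, fun a ha => ?_⟩
  · rcases eq_or_ne i j with rfl | h
    · rw [hGd, log_div hn.ne' (hc i).ne']
      have h1 : log ((A i).card : ℝ) ≤ log n :=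
        log_le_log (hc i) (by exact_mod_cast (card_le_univ (A i)).trans (ZMod.card n).le)
      have h2 : 0 ≤ log ((A i).card : ℝ) := log_natCast_nonneg _
      constructor <;> linarith
    · rw [hGo i j h]
      have h1 := hhalf (dd_pos (x i) (x j)) (d' := 1) (by linarith [dd_le_three (x i) (x j)])
      have h2 := log_le_log (one_div_pos.2 hn) (inv_le_dd (x i) (x j))
      rw [log_one] at h1
      rw [one_div, log_inv] at h2
      constructor <;> linarith
  · rcases eq_or_ne i j with rfl | hij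
    · exact (min_le_right _ _).trans (by linarith)
    rcases eq_or_ne j k with rfl | hjk
    · exact (min_le_left _ _).trans (by linarith)
    rcases eq_or_ne i k with rfl | hik
    · refine (min_le_left _ _).trans ?_
      rw [hGo i j hij, hGd]
      refine (count_bound (A i) ⟨_, hxA i⟩ (x i) (dd_pos (x i) (x j)) fun y hy => ?_).trans
        (by linarith)
      have h1 := hP i j hij.symm y hy
      have h2 := inv_le_dd (x i) (x j)
      have h3 := dd_pos (x i) (x j)
      rw [dd]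
      linarith
    · rw [hGo i j hij, hGo j k hjk, hGo i k hik]
      have h1 := dd_triangle (x i) (x j) (x k)
      have h2 := dd_pos (x i) (x j)
      have h3 := dd_pos (x j) (x k)
      rcases le_total (dd (x i) (x j)) (dd (x j) (x k)) with h | h
      · exact (min_le_right _ _).trans (hhalf (dd_pos _ _) (by linarith))
      · exact (min_le_left _ _).trans (hhalf (dd_pos _ _) (by linarith))
  have ha1 : ∑ i, ∑ j, a i * a j = 1 := by rw [← sum_mul_sum, ha.2, mul_one]
  have h1 := hd (fun u => if u.2 ∈ A u.1 then a u.1 / (A u.1).card else 0)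
    (fun u => by have := ha.1 u.1; positivity) (by
      simp only [Fintype.sum_prod_type, sum_ite_mem, univ_inter, sum_const, nsmul_eq_mul]
      rw [← ha.2]
      exact sum_congr rfl fun i _ => by have := hc i; field_simp)
  rw [sum_nu a A fun y y' => min (g y) (g y'), sum_nu a A fun y y' => -log (dd y y')] at h1
  have hcost : ∀ i, ∀ y ∈ A i, Λ - Q + cost G i ≤ g y := by
    intro i y hy
    have := hK i y hy
    rw [cost, Fin.sum_univ_succAbove _ i, hGd]
    simp only [hGo i _ (Fin.ne_succAbove i _), sum_neg_distrib]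
    linarith
  have h2 : Λ - Q + ∑ i, ∑ j, a i * a j * min (cost G i) (cost G j) ≤ ∑ i, ∑ j, a i * a j *
      ((∑ y ∈ A i, ∑ y' ∈ A j, min (g y) (g y')) / ((A i).card * (A j).card)) := by
    rw [← mul_one (Λ - Q), ← ha1]
    simp only [mul_sum, ← sum_add_distrib]
    refine sum_le_sum fun i _ => sum_le_sum fun j _ => ?_
    rw [mul_comm (Λ - Q), ← mul_add]
    refine mul_le_mul_of_nonneg_left ?_ (mul_nonneg (ha.1 i) (ha.1 j))
    rw [le_div_iff₀ (mul_pos (hc i) (hc j)), ← min_add_add_left]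
    refine le_trans (le_of_eq ?_) (card_nsmul_le_sum _ _ _ fun y hy =>
      card_nsmul_le_sum _ _ _ fun y' hy' => min_le_min (hcost i y hy) (hcost j y' hy'))
    simp only [nsmul_eq_mul]
    ring
  have h3 : ∑ i, ∑ j, a i * a j * ((∑ y ∈ A i, ∑ y' ∈ A j, -log (dd y y')) /
      ((A i).card * (A j).card)) ≤ ∑ i, ∑ j, a i * a j * G i j + Q := by
    rw [← mul_one Q, ← ha1]
    simp only [mul_sum, ← sum_add_distrib]
    refine sum_le_sum fun i _ => sum_le_sum fun j _ => ?_
    rw [mul_comm Q, ← mul_add]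
    refine mul_le_mul_of_nonneg_left ?_ (mul_nonneg (ha.1 i) (ha.1 j))
    rcases eq_or_ne i j with rfl | hij
    · refine (self_energy (A i) ⟨_, hxA i⟩).trans ?_
      rw [hGd]
      have := log_le_log (x := 2 * (1 + log n)) (y := 4 * (1 + log n)) (by positivity)
        (by linarith)
      linarith
    · rw [div_le_iff₀ (mul_pos (hc i) (hc j)), hGo i j hij]
      refine le_trans (sum_le_card_nsmul _ _ _ fun y hy => sum_le_card_nsmul _ _
        (-log (dd (x i) (x j)) + Q) fun y' hy' => hhalf (dd_pos _ _) ?_) (le_of_eq ?_)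
      · have b1 := hP i j hij.symm y hy
        have b2 := hP j i hij y' hy'
        have b3 := dd_le_add (x i) y (x j)
        have b4 := dd_le_add (x j) y' y
        have b5 := dd_pos y y'
        rw [dd_symm (x j) (x i)] at b2
        rw [dd_symm (x j) y, dd_symm y' y] at b4
        linarith
      · simp only [nsmul_eq_mul]
        ring
  have h4 := mul_le_mul_of_nonneg_left h2 (sub_nonneg.2 hε)
  have h5 := mul_le_mul_of_nonneg_left h3 (by positivity : 0 ≤ 2 * p)
  linarith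

end Pool.Agent.MP_e3615c_an

end MrgPart4

-- marker of a merged file
example : 731051 + 676529 = 731051 + 676529 := rfl
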