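import Mathlib.Tactic.Polynomial.Basic
import Pool.Agent.MP_e3615c_an.Zeros
import Pool.Agent.MP_e3615c_an.Gram
import Pool.Agent.MP_e3615c_an.Peak
import Pool.Agent.MP_e3615c_an.Core

-- ======== part 0: formerly Pool.Agent.MP_e3615c_an.Perturb
section MrgPart0

/-!
Area of a product with an almost constant factor.
-/

namespace Pool.Agent.MP_e3615c_an

open MeasureTheory Metric Set Filter Topology Real
open scoped ENNReal

theorem measurable_dsq (g : ℂ → ℂ) (a : ℝ) :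
    Measurable fun z => ENNReal.ofReal (a * ‖deriv g z‖ ^ 2) :=
  (((measurable_deriv g).norm.pow_const 2).const_mul a).ennreal_ofReal

theorem lintegral_dsq (g : ℂ → ℂ) {a : ℝ} (ha : 0 ≤ a) (S : Set ℂ) :
    ∫⁻ z in S, ENNReal.ofReal (a * ‖deriv g z‖ ^ 2) =
      ENNReal.ofReal a * ∫⁻ z in S, ENNReal.ofReal (‖deriv g z‖ ^ 2) := by
  simp only [ENNReal.ofReal_mul ha]
  rw [lintegral_const_mul' _ _ ENNReal.ofReal_ne_top]

theorem add_sq_le {τ : ℝ} (hτ : 0 < τ) (x y : ℝ) :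
    (x + y) ^ 2 ≤ (1 + τ) * x ^ 2 + (1 + 1 / τ) * y ^ 2 := by
  have : (1 + τ) * x ^ 2 + (1 + 1 / τ) * y ^ 2 - (x + y) ^ 2 = (τ * x - y) ^ 2 / τ := by
    field_simp; ring
  have h2 : 0 ≤ (τ * x - y) ^ 2 / τ := by positivity
  linarith

theorem perturb {η : ℝ} (hη : 0 < η) : ∃ τ V : ℝ, 0 < τ ∧ τ ≤ 1 / 2 ∧ 0 < V ∧
    ∀ (Ω : Set ℂ) (g h : ℂ → ℂ) (c R A D : ℝ), MeasurableSet Ω →
      DifferentiableOn ℂ g (ball 0 1) → DifferentiableOn ℂ h (ball 0 1) → 0 < c → 0 < R →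
      0 ≤ A → 0 ≤ D → (∀ z ∈ ball (0 : ℂ) 1 ∩ Ω, |‖h z‖ - c| ≤ τ * c) →
      ∫⁻ z in ball 0 1 ∩ Ω, ENNReal.ofReal (‖deriv h z‖ ^ 2) ≤ ENNReal.ofReal (π * D * c ^ 2) →
      (∀ R', R / c ≤ R' → R' ≤ 2 * (R / c) → area g R' ≤ ENNReal.ofReal (π * A * R' ^ 2)) →
      ∫⁻ z in {z | z ∈ ball (0 : ℂ) 1 ∧ ‖g z * h z‖ < R} ∩ Ω,
        ENNReal.ofReal (‖deriv (fun z => g z * h z) z‖ ^ 2) ≤
        ENNReal.ofReal (π * ((1 + η) * A + V * D) * R ^ 2) := by
  have hcont : ContinuousAt (fun τ : ℝ => (1 + τ) ^ 3 / (1 - τ) ^ 2) 0 :=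
    ContinuousAt.div (by fun_prop) (by fun_prop) (by norm_num)
  have hev : ∀ᶠ τ : ℝ in 𝓝[>] 0, (1 + τ) ^ 3 / (1 - τ) ^ 2 ≤ 1 + η :=
    (hcont.eventually (ge_mem_nhds (by simpa using hη))).filter_mono nhdsWithin_le_nhds
  obtain ⟨τ, hτ, hτ0, hτ1⟩ := (hev.and (Ioc_mem_nhdsGT (by norm_num : (0 : ℝ) < 1 / 2))).exists
  have h1τ : 0 < 1 - τ := by linarith
  refine ⟨τ, (1 + 1 / τ) / (1 - τ) ^ 2, hτ0, hτ1, by positivity, ?_⟩
  intro Ω g h c R A D hΩ hg hh hc hR hA hD hhc hDh hAg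
  set R' := R / (c * (1 - τ)) with hR'
  have hR'0 : 0 < R' := by positivity
  set S := {z | z ∈ ball (0 : ℂ) 1 ∧ ‖g z * h z‖ < R} ∩ Ω with hS
  have hSm : MeasurableSet S := (isOpen_sublevel (hg.mul hh) R).measurableSet.inter hΩ
  have hSg : S ⊆ {z | z ∈ ball (0 : ℂ) 1 ∧ ‖g z‖ < R'} := fun z hz => by
    refine ⟨hz.1.1, ?_⟩
    have a1 := (abs_le.1 (hhc z ⟨hz.1.1, hz.2⟩)).1
    have a2 := hz.1.2
    rw [norm_mul] at a2
    rw [hR', lt_div_iff₀ (by positivity)]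
    exact lt_of_le_of_lt (mul_le_mul_of_nonneg_left (by linarith) (norm_nonneg _)) a2
  have h1 : ∫⁻ z in S, ENNReal.ofReal (‖deriv (fun z => g z * h z) z‖ ^ 2) ≤
      ∫⁻ z in S, (ENNReal.ofReal ((1 + τ) ^ 3 * c ^ 2 * ‖deriv g z‖ ^ 2) +
        ENNReal.ofReal ((1 + 1 / τ) * R' ^ 2 * ‖deriv h z‖ ^ 2)) := by
    refine setLIntegral_mono' hSm fun z hz => ?_
    have hz1 := isOpen_ball.mem_nhds hz.1.1
    rw [← ENNReal.ofReal_add (by positivity) (by positivity),
      deriv_fun_mul (hg.differentiableAt hz1) (hh.differentiableAt hz1)]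
    refine ENNReal.ofReal_le_ofReal ?_
    have a1 : ‖h z‖ ≤ (1 + τ) * c := by linarith [(abs_le.1 (hhc z ⟨hz.1.1, hz.2⟩)).2]
    have a2 := (hSg hz).2.le
    calc _ ≤ (‖deriv g z‖ * ((1 + τ) * c) + R' * ‖deriv h z‖) ^ 2 := by
          gcongr
          refine (norm_add_le _ _).trans ?_
          rw [norm_mul, norm_mul]
          gcongr
      _ ≤ _ := (add_sq_le hτ0 _ _).trans (le_of_eq (by ring))
  rw [lintegral_add_left (measurable_dsq _ _), lintegral_dsq _ (by positivity),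
    lintegral_dsq _ (by positivity)] at h1
  have h2 := (lintegral_mono_set hSg).trans (hAg R'
    (by rw [hR']; gcongr; nlinarith)
    (by rw [hR', ← div_div, div_le_iff₀ h1τ]; nlinarith [div_pos hR hc]))
  have h3 := (lintegral_mono_set (s := S) (t := ball 0 1 ∩ Ω) fun z hz => ⟨hz.1.1, hz.2⟩).trans hDh
  refine h1.trans ((add_le_add (mul_le_mul_right h2 _) (mul_le_mul_right h3 _)).trans ?_)
  rw [← ENNReal.ofReal_mul (by positivity), ← ENNReal.ofReal_mul (by positivity),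
    ← ENNReal.ofReal_add (by positivity) (by positivity)]
  refine ENNReal.ofReal_le_ofReal ?_
  calc _ = π * ((1 + τ) ^ 3 / (1 - τ) ^ 2 * A + (1 + 1 / τ) / (1 - τ) ^ 2 * D) * R ^ 2 := by
        rw [hR']; field_simp
    _ ≤ _ := by gcongr

theorem lintegral_dsq_le {h : ℂ → ℂ} {S : Set ℂ} (hS : MeasurableSet S) {c : ℂ} {r M : ℝ}
    (hr : 0 ≤ r) (hsub : S ⊆ ball c r) (hM : ∀ z ∈ S, ‖deriv h z‖ ≤ M) :
    ∫⁻ z in S, ENNReal.ofReal (‖deriv h z‖ ^ 2) ≤ ENNReal.ofReal (π * (r * M) ^ 2) := by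
  refine (setLIntegral_mono' (g := fun _ => ENNReal.ofReal (M ^ 2)) hS fun z hz =>
    ENNReal.ofReal_le_ofReal (pow_le_pow_left₀ (norm_nonneg _) (hM z hz) 2)).trans ?_
  refine (lintegral_mono_set hsub).trans (le_of_eq ?_)
  rw [setLIntegral_const, Complex.volume_ball, ← ENNReal.ofReal_pow hr,
    ← ENNReal.ofReal_coe_nnreal, ← ENNReal.ofReal_mul (by positivity),
    ← ENNReal.ofReal_mul (by positivity), NNReal.coe_real_pi]
  congr 1
  ring

theorem AB.mono {p q : ℝ} {f : ℂ → ℂ} (h : AB p f) (hpq : p ≤ q) : AB q f := fun R hR =>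
  (h R hR).trans (ENNReal.ofReal_le_ofReal (by have := pi_pos; gcongr))

end Pool.Agent.MP_e3615c_an

end MrgPart0

-- ======== part 1: formerly Pool.Agent.MP_e3615c_an.Glue
section MrgPart1

/-!
Gluing a peak function to a function analytic and zero free on the closed disc.
-/

namespace Pool.Agent.MP_e3615c_an

open MeasureTheory Metric Set Filter Topology Real
open scoped ENNReal

/-- Analytic in a neighbourhood of the closed disc and zero free on it. -/
def Nice (f : ℂ → ℂ) : Prop :=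
  ∃ ρ : ℝ, 1 < ρ ∧ DifferentiableOn ℂ f (ball 0 ρ) ∧ ∀ z ∈ closedBall (0 : ℂ) 1, f z ≠ 0

theorem exists_small (a : ℝ) {b : ℝ} (hb : 0 < b) : ∃ x : ℝ, 0 < x ∧ x ≤ 1 ∧ a * x ≤ b := by
  have h1 : ∀ᶠ x : ℝ in 𝓝[>] 0, a * x ≤ b :=
    (((by fun_prop : Continuous fun x : ℝ => a * x).tendsto 0).eventually
      (ge_mem_nhds (by simpa using hb))).filter_mono nhdsWithin_le_nhds
  obtain ⟨x, h2, h3, h4⟩ := (h1.and (Ioc_mem_nhdsGT one_pos)).exists
  exact ⟨x, h3, h4, h2⟩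

theorem glue {f : ℂ → ℂ} (hf : Nice f) {p₁ p₂ : ℝ} (hp₁ : 0 ≤ p₁) (hA : AB p₁ f) (hp : p₁ < p₂) :
    ∃ ω η R₂ : ℝ, 0 < ω ∧ 0 < η ∧ 0 < R₂ ∧ ∀ φ : ℂ → ℂ, DifferentiableOn ℂ φ (ball 0 1) →
      (∀ z : ℂ, ‖z‖ ≤ 1 → ω ≤ ‖1 - z‖ → ‖φ z - 1‖ ≤ η ∧ ‖deriv φ z‖ ≤ η) → AB p₁ φ →
      (∀ R, 0 < R → R ≤ R₂ → area φ R ≤ ENNReal.ofReal (π * η * R ^ 2)) →
      AB p₂ fun z => f z * φ z := by
  obtain ⟨ρ, hρ, hfd, hf0⟩ := hf
  have hsub : closedBall (0 : ℂ) 1 ⊆ ball 0 ρ := closedBall_subset_ball hρ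
  have hf1 : DifferentiableOn ℂ f (ball 0 1) := hfd.mono (ball_subset_ball hρ.le)
  set e := (p₂ - p₁) / 4 with he
  have he0 : 0 < e := by linarith
  obtain ⟨η₁, hη₁, hη₁1, hη₁e⟩ := exists_small p₁ he0
  obtain ⟨τ, V, hτ, hτ2, hV, hper⟩ := perturb hη₁
  obtain ⟨M₀, hM₀⟩ := (isCompact_closedBall (0 : ℂ) 1).exists_bound_of_continuousOn
    ((hfd.deriv isOpen_ball).continuousOn.mono hsub)
  set M := |M₀| + 1 with hM
  have hM0 : 0 < M := by positivity
  have hMd : ∀ z ∈ ball (0 : ℂ) 1, ‖deriv f z‖ ≤ M := fun z hz => by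
    linarith [hM₀ z (ball_subset_closedBall hz), le_abs_self M₀]
  set c := ‖f 1‖ with hc
  have hc0 : 0 < c := norm_pos_iff.2 (hf0 1 (by simp))
  have hcont : ContinuousAt (fun z => ‖f z‖) 1 :=
    (hfd.continuousOn.continuousAt (isOpen_ball.mem_nhds (hsub (by simp)))).norm
  obtain ⟨ω₁, hω₁, hω₁'⟩ := Metric.continuousAt_iff.1 hcont (τ * c) (by positivity)
  obtain ⟨ω₂, hω₂, hω₂1, hω₂e⟩ := exists_small (V * (M / c) ^ 2) he0
  obtain ⟨η₂, hη₂, hη₂1, hη₂e⟩ := exists_small (V + 2) he0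
  obtain ⟨x, hx, hx1, hxe⟩ := exists_small 2 he0
  refine ⟨min ω₁ ω₂, min τ η₂, 2 * (M / x / c), lt_min hω₁ hω₂, lt_min hτ hη₂, by positivity,
    fun φ hφ h1 h2 h3 R hR => ?_⟩
  set ω := min ω₁ ω₂
  set η := min τ η₂
  have hω0 : 0 < ω := lt_min hω₁ hω₂
  have hη0 : 0 < η := lt_min hτ hη₂
  have hηη : η ≤ η₂ := min_le_right _ _
  have hωω : ω ≤ ω₂ := min_le_right _ _
  have key : ∀ A₁ A₂ : ℝ, 0 ≤ A₁ → 0 ≤ A₂ →
      (∀ R', R / 1 ≤ R' → R' ≤ 2 * (R / 1) → area f R' ≤ ENNReal.ofReal (π * A₁ * R' ^ 2)) →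
      (∀ R', R / c ≤ R' → R' ≤ 2 * (R / c) → area φ R' ≤ ENNReal.ofReal (π * A₂ * R' ^ 2)) →
      (1 + η₁) * (A₁ + A₂) ≤ p₁ + 2 * e →
      area (fun z => f z * φ z) R ≤ ENNReal.ofReal (π * p₂ * R ^ 2) := by
    intro A₁ A₂ a1 a2 a3 a4 a5
    have hm : ∀ z ∈ ball (0 : ℂ) 1 ∩ (ball 1 ω)ᶜ, ‖φ z - 1‖ ≤ η ∧ ‖deriv φ z‖ ≤ η := fun z hz =>
      h1 z (mem_ball_zero_iff.1 hz.1).le (by simpa [dist_eq_norm, norm_sub_rev] using hz.2)
    have b1 := hper (ball 1 ω)ᶜ f φ 1 R A₁ (η ^ 2) measurableSet_ball.compl hf1 hφ one_pos hR a1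
      (by positivity) (fun z hz => by
        have := abs_norm_sub_norm_le (φ z) 1
        rw [norm_one] at this
        linarith [(hm z hz).1, min_le_left τ η₂])
      ((lintegral_dsq_le (measurableSet_ball.inter measurableSet_ball.compl) zero_le_one
        inter_subset_left fun z hz => (hm z hz).2).trans (le_of_eq (by congr 1; ring))) a3
    have b2 := hper (ball 1 ω) φ f c R A₂ ((ω * M / c) ^ 2) measurableSet_ball hφ hf1 hc0 hR a2
      (by positivity) (fun z hz => (hω₁' (ball_subset_ball (min_le_left _ _) hz.2)).le)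
      ((lintegral_dsq_le (measurableSet_ball.inter measurableSet_ball) hω0.le
        inter_subset_right fun z hz => hMd z hz.1).trans (le_of_eq (by congr 1; field_simp))) a4
    simp only [mul_comm (φ _)] at b2
    unfold area
    rw [← lintegral_inter_add_sdiff _ _ (measurableSet_ball (x := (1 : ℂ)) (ε := ω)), Set.sdiff_eq]
    refine (add_le_add b2 b1).trans ?_
    rw [← ENNReal.ofReal_add (by positivity) (by positivity), ← add_mul, ← mul_add]
    refine ENNReal.ofReal_le_ofReal ?_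
    have := pi_pos
    gcongr
    have c1 : V * η ^ 2 ≤ e := by
      have : η ^ 2 ≤ η₂ := by nlinarith
      nlinarith
    have c2 : V * (ω * M / c) ^ 2 ≤ e := by
      have d1 : ω ^ 2 ≤ ω₂ := by nlinarith
      refine le_trans ?_ hω₂e
      rw [mul_div_assoc, mul_pow, mul_comm (ω ^ 2), ← mul_assoc]
      gcongr
    linarith
  rcases le_total R (M / x) with h | h
  · refine key p₁ η hp₁ hη0.le (fun R' a1 _ => hA R' (by linarith)) (fun R' a1 a2 =>
      h3 R' ((div_pos hR hc0).trans_le a1) (a2.trans (by gcongr))) ?_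
    nlinarith
  · refine key (x ^ 2) p₁ (by positivity) hp₁ (fun R' a1 _ => ?_)
      (fun R' a1 _ => h2 R' ((div_pos hR hc0).trans_le a1)) (by nlinarith)
    refine (lintegral_dsq_le (isOpen_sublevel hf1 R').measurableSet zero_le_one
      (fun z hz => hz.1) fun z hz => hMd z hz.1).trans (ENNReal.ofReal_le_ofReal ?_)
    rw [mul_assoc, ← mul_pow]
    have := pi_pos
    rw [div_le_iff₀' hx] at h
    have h4 : 1 * M ≤ x * R' := by nlinarith
    gcongr

theorem glue_poly {p₂ p₃ : ℝ} (hp₂ : 0 ≤ p₂) (hp : p₂ < p₃) : ∃ τ : ℝ, 0 < τ ∧ τ ≤ 1 / 2 ∧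
    ∀ G q : ℂ → ℂ, DifferentiableOn ℂ G (ball 0 1) → Differentiable ℂ q → AB p₂ G →
      (∀ z : ℂ, ‖z‖ ≤ 1 → ‖q z‖ ≤ τ) →
      ∫⁻ z in ball (0 : ℂ) 1, ENNReal.ofReal (‖deriv q z‖ ^ 2) ≤ ENNReal.ofReal (π * τ) →
      AB p₃ fun z => G z * (1 + q z) := by
  obtain ⟨η₁, hη₁, -, hη₁e⟩ := exists_small p₂ (half_pos (sub_pos.2 hp))
  obtain ⟨τ, V, hτ, hτ2, hV, hper⟩ := perturb hη₁
  obtain ⟨x, hx, -, hxe⟩ := exists_small V (half_pos (sub_pos.2 hp))
  refine ⟨min τ x, lt_min hτ hx, (min_le_left _ _).trans hτ2, fun G q hG hq hA h1 h2 R hR => ?_⟩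
  have := hper univ G (fun z => 1 + q z) 1 R p₂ x MeasurableSet.univ hG
    (hq.const_add 1).differentiableOn one_pos hR hp₂ hx.le (fun z hz => by
      have := abs_norm_sub_norm_le (1 + q z) 1
      rw [norm_one, add_sub_cancel_left] at this
      linarith [h1 z (mem_ball_zero_iff.1 hz.1).le, min_le_left τ x]) (by
      simp only [inter_univ, deriv_const_add', one_pow, mul_one]
      refine h2.trans (ENNReal.ofReal_le_ofReal ?_)
      have := pi_pos
      gcongr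
      exact min_le_right _ _) fun R' a1 _ => hA R' (by linarith)
  rw [inter_univ] at this
  refine this.trans (ENNReal.ofReal_le_ofReal ?_)
  have := pi_pos
  gcongr
  linarith

end Pool.Agent.MP_e3615c_an

end MrgPart1

-- ======== part 2: formerly Pool.Agent.MP_e3615c_an.Solve
section MrgPart2

/-!
Prescribing a block of coefficients by a small polynomial perturbation.
-/

namespace Pool.Agent.MP_e3615c_an

open MeasureTheory Metric Set Filter Topology Real

theorem tail_bound {Ψ : ℂ → ℂ} {ρ ρ' M : ℝ} (h1 : 1 < ρ) (h2 : ρ < ρ')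
    (hΨ : DifferentiableOn ℂ Ψ (ball 0 ρ')) (hM : ∀ z ∈ sphere (0 : ℂ) ρ, ‖Ψ z‖ ≤ M) (n : ℕ)
    {z : ℂ} (hz : ‖z‖ ≤ 1) :
    ‖Ψ z - ∑ s ∈ Finset.range n, cf Ψ 1 s * z ^ s‖ ≤ M * ρ⁻¹ ^ n / (1 - ρ⁻¹) := by
  have hρ : 0 < ρ := by linarith
  have hs := hasSum_cf hΨ one_pos (h1.trans h2) z (mem_ball_zero_iff.2 (by linarith))
  rw [← hasSum_nat_add_iff' n] at hs
  have hg := (hasSum_geometric_of_lt_one (by positivity) (inv_lt_one_of_one_lt₀ h1)).mul_left
    (M * ρ⁻¹ ^ n)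
  rw [div_eq_mul_inv]
  refine hs.norm_le_of_bounded hg fun s => ?_
  rw [norm_mul, norm_pow, cf_radius hΨ one_pos (h1.trans h2) hρ h2]
  refine (mul_le_of_le_one_right (norm_nonneg _) (pow_le_one₀ (norm_nonneg _) hz)).trans
    ((norm_cf_le_of_bound hρ (hΨ.continuousOn.mono (sphere_subset_ball h2)) hM _).trans
      (le_of_eq ?_))
  rw [zpow_neg, zpow_natCast, ← inv_pow, pow_add]
  ring

theorem prescribe {m n : ℕ} {G : ℂ → ℂ} {ρ ρ' M Θ Λ τ : ℝ} (hn : 0 < n) (h1 : 1 < ρ) (h1' : ρ ≤ 2)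
    (h2 : ρ < ρ') (hG : DifferentiableOn ℂ G (ball 0 ρ'))
    (hM : ∀ z ∈ sphere (0 : ℂ) ρ, ‖G z‖ ≤ M) (hΘ : 0 ≤ Θ)
    (hgram : ∀ c : Fin (m + 1) → ℂ, ∑ k, ‖c k‖ ^ 2 ≤
      Θ * circleAverage (fun z => ‖G z * ∑ k, c k * z ^ (k : ℕ)‖ ^ 2) 0 1)
    (hτ : M * 2 ^ m * ρ⁻¹ ^ n / (1 - ρ⁻¹) ≤ τ) (hτ1 : 4 * Θ * τ ^ 2 * (m + 1) ≤ 1) (hτ2 : τ ≤ Λ) :
    ∃ q : ℂ → ℂ, Differentiable ℂ q ∧
      (∀ z : ℂ, ‖z‖ ≤ 1 → ‖q z‖ ^ 2 ≤ n * (16 * Θ * (m + 1) * Λ ^ 2)) ∧
      ∫⁻ z in ball (0 : ℂ) 1, ENNReal.ofReal (‖deriv q z‖ ^ 2) ≤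
        ENNReal.ofReal (π * (2 * (n + m) * (16 * Θ * (m + 1) * Λ ^ 2))) ∧
      ∀ i : Fin (m + 1), cf (fun z => G z * (1 + q z)) 1 ((n + m - i : ℕ) : ℤ) =
        if i = 0 then (Λ : ℂ) else 0 := by
  have hρ : 0 < ρ := by linarith
  have hi : ρ⁻¹ < 1 := inv_lt_one_of_one_lt₀ h1
  have hi0 : 0 < ρ⁻¹ := by positivity
  have hi1 : 0 < 1 - ρ⁻¹ := by linarith
  have hM0 : 0 ≤ M := (norm_nonneg _).trans (hM ρ (by simp [abs_of_pos hρ]))
  have hGc : ContinuousOn G (sphere 0 1) := hG.continuousOn.mono (sphere_subset_ball (h1.trans h2))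
  have hτ0 : 0 ≤ τ := le_trans (by positivity) hτ
  obtain ⟨u, hu, hu2⟩ := solve_min (fun (i : Fin (m + 1)) (s : Fin n) => cf G 1 ((s : ℕ) - (i : ℕ)))
    (Θ := 4 * Θ) (by positivity) (fun c => by
      let Ψ : ℂ → ℂ := fun z => G z * ∑ k, c k * z ^ (k : ℕ)
      have hΨ : DifferentiableOn ℂ Ψ (ball 0 ρ') := hG.mul (by fun_prop)
      have a1 : ∀ s : ℤ, ∑ i, c i * cf G 1 (s - (i : ℕ)) = cf Ψ 1 s := fun s => by
        rw [← cf_sum _ c (fun i => ((i : ℕ) : ℤ)) one_pos hGc]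
        simp only [zpow_natCast, Ψ]
      have a2 : ∀ z ∈ sphere (0 : ℂ) ρ, ‖Ψ z‖ ≤ M * (2 ^ m * ∑ k, ‖c k‖) := fun z hz => by
        rw [norm_mul, Finset.mul_sum]
        gcongr
        · exact hM z hz
        · refine (norm_sum_le _ _).trans (Finset.sum_le_sum fun k _ => ?_)
          rw [norm_mul, norm_pow, mul_comm, mem_sphere_zero_iff_norm.1 hz]
          gcongr
          exact (pow_le_pow_left₀ hρ.le h1' _).trans
            (pow_le_pow_right₀ one_le_two (Nat.lt_succ_iff.1 k.2))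
      have a3 : circleAverage (fun z => ‖Ψ z‖ ^ 2) 0 1 ≤
          2 * ∑ s ∈ Finset.range n, ‖cf Ψ 1 s‖ ^ 2 + 2 * (τ * ∑ k, ‖c k‖) ^ 2 := by
        have hΨc := hΨ.continuousOn.mono (sphere_subset_ball (h1.trans h2))
        rw [← parseval_fin _ _ (fun s => s) (injOn_id _), ← smul_eq_mul, ← circleAverage_fun_smul,
          ← circleAverage_const (2 * (τ * ∑ k, ‖c k‖) ^ 2) 0 1, ← circleAverage_fun_add
          (ContinuousOn.circleIntegrable zero_le_one (by fun_prop))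
          (ContinuousOn.circleIntegrable zero_le_one (by fun_prop))]
        refine circleAverage_mono ((hΨc.norm.pow 2).circleIntegrable zero_le_one)
          (ContinuousOn.circleIntegrable zero_le_one (by fun_prop)) fun z hz => ?_
        have b1 := tail_bound h1 h2 hΨ a2 n (z := z) (by simpa using le_of_eq hz)
        have b2 : M * (2 ^ m * ∑ k, ‖c k‖) * ρ⁻¹ ^ n / (1 - ρ⁻¹) ≤ τ * ∑ k, ‖c k‖ :=
          le_trans (le_of_eq (by ring)) (mul_le_mul_of_nonneg_right hτ (by positivity))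
        have b3 := norm_le_norm_add_norm_sub' (Ψ z) (∑ s ∈ Finset.range n, cf Ψ 1 s * z ^ s)
        have b4 := pow_le_pow_left₀ (norm_nonneg _) (b3.trans (add_le_add_right (b1.trans b2) _)) 2
        rw [smul_eq_mul]
        nlinarith [sq_nonneg (‖∑ s ∈ Finset.range n, cf Ψ 1 s * z ^ s‖ - τ * ∑ k, ‖c k‖)]
      have a4 := sq_sum_le_card_mul_sum_sq (s := Finset.univ) (f := fun k => ‖c k‖)
      simp only [Finset.card_univ, Fintype.card_fin, Nat.cast_add, Nat.cast_one] at a4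
      have a5 := (hgram c).trans (mul_le_mul_of_nonneg_left a3 hΘ)
      simp only [a1]
      rw [Fin.sum_univ_eq_sum_range (fun s => ‖cf Ψ 1 s‖ ^ 2)]
      have a6 : 0 ≤ ∑ k, ‖c k‖ ^ 2 := by positivity
      have a7 := mul_le_mul_of_nonneg_left a4 (by positivity : 0 ≤ Θ * τ ^ 2)
      have a8 := mul_le_mul_of_nonneg_right hτ1 a6
      rw [mul_pow] at a5
      nlinarith)
    fun i => (if i = 0 then (Λ : ℂ) else 0) - cf G 1 ((n + m - i : ℕ) : ℤ)
  have hQ : ∑ s, ‖u s‖ ^ 2 ≤ 16 * Θ * (m + 1) * Λ ^ 2 := by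
    refine hu2.trans ((mul_le_mul_of_nonneg_left (Finset.sum_le_card_nsmul _ _ ((2 * Λ) ^ 2)
      fun i _ => ?_) (by positivity)).trans (le_of_eq (by simp; ring)))
    gcongr
    refine (norm_sub_le _ _).trans ?_
    have a1 : ‖if i = 0 then (Λ : ℂ) else 0‖ ≤ Λ := by
      split_ifs
      · simp [abs_of_nonneg (hτ0.trans hτ2)]
      · simpa using hτ0.trans hτ2
    have a2 : ‖cf G 1 ((n + m - i : ℕ) : ℤ)‖ ≤ τ := by
      rw [cf_radius hG one_pos (h1.trans h2) hρ h2]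
      refine (norm_cf_le_of_bound hρ (hG.continuousOn.mono (sphere_subset_ball h2)) hM _).trans
        (le_trans ?_ hτ)
      rw [zpow_neg, zpow_natCast, ← inv_pow, le_div_iff₀ hi1]
      have b1 : ρ⁻¹ ^ (n + m - i) ≤ ρ⁻¹ ^ n :=
        pow_le_pow_of_le_one hi0.le hi.le (by have := i.2; omega)
      have b2 : (1 : ℝ) ≤ 2 ^ m := one_le_pow₀ one_le_two
      calc _ ≤ ρ⁻¹ ^ n * M * 2 ^ m := by gcongr; linarith
        _ = _ := by ring
    linarith
  have he : InjOn (fun s : Fin n => n + m - s) (Finset.univ : Finset (Fin n)) :=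
    fun s _ t _ h => Fin.ext (by have := s.2; have := t.2; simp only at h; omega)
  refine ⟨fun z => ∑ s, u s * z ^ (n + m - s), by fun_prop, fun z hz => ?_, ?_, fun i => ?_⟩
  · refine le_trans ?_ (mul_le_mul_of_nonneg_left hQ (by positivity))
    have a4 := sq_sum_le_card_mul_sum_sq (s := Finset.univ) (f := fun k => ‖u k‖)
    simp only [Finset.card_univ, Fintype.card_fin] at a4
    refine le_trans (pow_le_pow_left₀ (norm_nonneg _) ((norm_sum_le _ _).trans
      (Finset.sum_le_sum fun s _ => ?_)) 2) a4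
    rw [norm_mul, norm_pow]
    exact mul_le_of_le_one_right (norm_nonneg _) (pow_le_one₀ (norm_nonneg _) hz)
  · refine (dirichlet_poly _ u _ he (N := n + m) (by positivity)
      fun s _ => by exact_mod_cast Nat.sub_le _ _).trans (ENNReal.ofReal_le_ofReal ?_)
    have := pi_pos
    gcongr
  · simp only [mul_add, mul_one, ← zpow_natCast]
    rw [cf_add (h := fun z => G z * ∑ s : Fin n, u s * z ^ ((n + m - s : ℕ) : ℤ)) one_pos hGc
      (hGc.mul (continuousOn_finsetSum _ fun s _ =>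
      continuousOn_const.mul (continuousOn_zpow_sphere one_pos _))), cf_sum _ _ _ one_pos hGc,
      ← eq_sub_iff_add_eq', ← hu i]
    refine Finset.sum_congr rfl fun s _ => ?_
    congr 2
    have := s.2
    have := i.2
    omega

end Pool.Agent.MP_e3615c_an

end MrgPart2

-- ======== part 3: formerly Pool.Agent.MP_e3615c_an.Stage
section MrgPart3

/-!
One step of the construction of extremal functions.
-/

namespace Pool.Agent.MP_e3615c_an

open MeasureTheory Filter Topology Real Metric Set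

theorem eventually_linear_le_exp {ε : ℝ} (hε : 0 < ε) (a b : ℝ) :
    ∀ᶠ l in atTop, a + b * l ≤ exp (ε * l) / 8 := by
  filter_upwards [eventually_ge_atTop 1,
    eventually_le_mul (|a| + |b|) (by positivity : 0 < ε ^ 2 / 16)] with l h1 h2
  have h3 := quadratic_le_exp_of_nonneg (by positivity : 0 ≤ ε * l)
  have h4 := mul_le_mul_of_nonneg_right h2 (by linarith : 0 ≤ l)
  have h5 := mul_le_mul_of_nonneg_right (le_abs_self b) (by linarith : 0 ≤ l)
  have h6 := le_mul_of_one_le_right (abs_nonneg a) h1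
  have h7 : 0 ≤ ε * l := by positivity
  nlinarith [le_abs_self a]

theorem tail_le {x M : ℝ} (hx : 0 < x) (hx1 : x ≤ 1) (hM : 0 ≤ M) (n : ℕ) :
    M * (1 + x)⁻¹ ^ n / (1 - (1 + x)⁻¹) ≤ M * exp (-(n * x / 2)) * (2 / x) := by
  have h1 : (1 + x)⁻¹ ≤ 1 - x / 2 := by
    rw [inv_le_iff_one_le_mul₀ (by linarith)]; nlinarith
  have h2 : (1 + x)⁻¹ ^ n ≤ exp (-(n * x / 2)) := by
    rw [show -(n * x / 2) = n * -(x / 2) by ring, exp_nat_mul]
    gcongr
    linarith [add_one_le_exp (-(x / 2))]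
  rw [div_eq_mul_inv, ← inv_div x 2]
  have h3 : x / 2 ≤ 1 - (1 + x)⁻¹ := by linarith
  have h4 : 0 < 1 - (1 + x)⁻¹ := by linarith
  gcongr

theorem log_ceil {t : ℝ} (ht : 0 ≤ t) :
    1 ≤ ⌈exp t⌉₊ ∧ t ≤ Real.log ⌈exp t⌉₊ ∧ Real.log ⌈exp t⌉₊ ≤ t + 1 := by
  have h0 := exp_pos t
  have h1 := Nat.le_ceil (exp t)
  have h2 := Nat.ceil_lt_add_one h0.le
  refine ⟨Nat.one_le_ceil_iff.2 h0, (le_log_iff_exp_le (h0.trans_le h1)).2 h1, ?_⟩
  rw [log_le_iff_le_exp (h0.trans_le h1), exp_add]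
  nlinarith [one_le_exp ht, exp_one_gt_d9]

theorem stage {m : ℕ} {p γ : ℝ} (hp : 0 < p) (hγ : γ < gamma m p) :
    ∃ p', 0 < p' ∧ p' < p ∧ ∀ f, Nice f → ∀ p₁ p₃, p' < p₁ → AB p₁ f → p₁ < p₃ →
      ∀ r η₀ K : ℝ, r < 1 → 0 < η₀ → ∃ g, Nice g ∧ AB p₃ g ∧
        (∀ z : ℂ, ‖z‖ ≤ r → ‖g z - f z‖ ≤ η₀) ∧ ∃ n : ℕ, 1 ≤ n ∧ ∃ Λ : ℝ, 0 < Λ ∧
          K * (n : ℝ) ^ (-1 / 2 + γ) ≤ Λ ∧ ∀ i : Fin (m + 1),
            cf g (1 / 2) ((n + m - i : ℕ) : ℤ) = if i = 0 then (Λ : ℂ) else 0 := by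
  obtain ⟨p', γ₁, hp', hp'p, hγ₁, ⟨D⟩⟩ := exists_data hp hγ
  refine ⟨p', hp', hp'p, fun f hf p₁ p₃ h1 hA h3 r η₀ K hr hη₀ => ?_⟩
  set κ := (γ₁ - γ) / 2 with hκ
  have hκ0 : 0 < κ := by linarith
  have hA₀ := D.one_le_A₀
  obtain ⟨ε, hε, hε1, hεκ⟩ := exists_small (m + 1 + D.A₀ + 4 * |γ|) hκ0
  obtain ⟨ω, η, R₂, hω, hη, hR₂, hglue⟩ := glue hf (hp'.trans h1).le hA
    (p₂ := (p₁ + p₃) / 2) (by linarith)
  obtain ⟨τ, hτ, hτ2, hpoly⟩ := glue_poly (p₂ := (p₁ + p₃) / 2) (p₃ := p₃) (by linarith)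
    (by linarith)
  obtain ⟨ρ, hρ, hfd, hf0⟩ := hf
  obtain ⟨M₀, hM₀⟩ := (isCompact_closedBall (0 : ℂ) ((1 + ρ) / 2)).exists_bound_of_continuousOn
    (hfd.continuousOn.mono (closedBall_subset_ball (by linarith)))
  have hM₀0 : 0 ≤ M₀ := (norm_nonneg _).trans (hM₀ 0 (mem_closedBall_self (by linarith)))
  have hfc : ContinuousOn f (sphere 0 1) := hfd.continuousOn.mono (sphere_subset_ball hρ)
  obtain ⟨M₁, hM₁⟩ := (isCompact_sphere (0 : ℂ) 1).exists_bound_of_continuousOn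
    (hfc.inv₀ fun z hz => hf0 z (sphere_subset_closedBall hz))
  obtain ⟨x, hx, hx1, hxe⟩ := exists_small (3 * M₀) hη₀
  obtain ⟨C, hC⟩ := D.peak hp' h1 hε (γ' := γ + κ) (ω := min ω (1 - r)) (η := min η x)
    (by linarith [mul_nonneg (abs_nonneg γ) hε.le]) (lt_min hω (by linarith)) (lt_min hη hx) hR₂
  set τ' := min τ x with hτ'
  have hτ'0 : 0 < τ' := lt_min hτ hx
  set K' := |K| + 1 with hK'
  have hK'1 : 1 ≤ K' := by linarith [abs_nonneg K]
  obtain ⟨l, ⟨φ, hφd, hφ0, hφ1, hφA, hφa, hφg⟩, hl, e1, e2, e3⟩ := (hC.and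
    ((eventually_ge_atTop 1).and ((eventually_exp_le 1 (by linarith : 0 < 1 + ε)
      (sub_pos.2 hρ)).and ((eventually_exp_le
      (2 * (m + 1) * (16 * M₁ ^ 2 * (m + 1) * (K' ^ 2 * exp (2 * |γ|)))) hκ0
      (by positivity : 0 < τ' ^ 2)).and (eventually_linear_le_exp hε
      (M₀ * 2 ^ m * 8 + (|γ| + 1)) (C + (1 + ε) + (|γ| + 1) * (1 + 2 * ε))))))).exists
  have hl0 : 0 ≤ l := by linarith
  set δ := exp (-((1 + ε) * l)) with hδ
  have hδ0 : 0 < δ := exp_pos _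
  have hδ1 : δ ≤ 1 := exp_le_one_iff.2 (neg_nonpos.2 (by positivity))
  obtain ⟨hn1, hn2, hn3⟩ := log_ceil (t := (1 + 2 * ε) * l) (by positivity)
  have hn4 := Nat.le_ceil (exp ((1 + 2 * ε) * l))
  set n := ⌈exp ((1 + 2 * ε) * l)⌉₊ with hn
  have hn0 : (0 : ℝ) < n := by exact_mod_cast hn1
  have hn1' : (1 : ℝ) ≤ n := by exact_mod_cast hn1
  set Λ := K' * (n : ℝ) ^ (-1 / 2 + γ) with hΛ
  have hΛ0 : 0 < Λ := by positivity
  have hsub : ball (0 : ℂ) (1 + δ / 2) ⊆ closedBall 0 ((1 + ρ) / 2) :=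
    ball_subset_closedBall.trans (closedBall_subset_closedBall (by linarith))
  have hGd : DifferentiableOn ℂ (fun z => f z * φ z) (ball 0 (1 + δ / 2)) :=
    (hfd.mono (ball_subset_ball (by linarith))).mul hφd
  have h11 : ball (0 : ℂ) 1 ⊆ ball 0 (1 + δ / 2) := ball_subset_ball (by linarith)
  have hQ : 2 * (m + 1) * (n * (16 * (M₁ ^ 2 * exp (-(2 * (γ + κ) * l))) * (m + 1) * Λ ^ 2)) ≤
      τ' ^ 2 := by
    refine le_trans ?_ e2
    have a1 : n * Λ ^ 2 = K' ^ 2 * exp (2 * γ * Real.log n) := by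
      rw [hΛ, mul_pow, rpow_def_of_pos hn0, ← exp_nat_mul, mul_left_comm]
      conv_lhs => rw [← exp_log hn0, log_exp, ← exp_add]
      congr 2
      push_cast
      ring
    have a2 : exp (2 * γ * Real.log n) * exp (-(2 * (γ + κ) * l)) ≤
        exp (2 * |γ|) * exp (-(κ * l)) := by
      rw [← exp_add, ← exp_add, exp_le_exp]
      have b1 : γ * (Real.log n - l) ≤ |γ| * (2 * ε * l + 1) :=
        (mul_le_mul_of_nonneg_right (le_abs_self γ) (by linarith [mul_nonneg hε.le hl0])).trans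
          (mul_le_mul_of_nonneg_left (by linarith) (abs_nonneg γ))
      have b2 : 4 * |γ| * ε * l ≤ κ * l :=
        mul_le_mul_of_nonneg_right (by
          linarith [mul_nonneg (by positivity : 0 ≤ m + 1 + D.A₀) hε.le]) hl0
      linarith
    calc _ = 2 * (m + 1) * (16 * M₁ ^ 2 * (m + 1) * ((n * Λ ^ 2) * exp (-(2 * (γ + κ) * l)))) := by
          ring
      _ ≤ 2 * (m + 1) * (16 * M₁ ^ 2 * (m + 1) * (K' ^ 2 * (exp (2 * |γ|) * exp (-(κ * l))))) := by
          rw [a1, mul_assoc (K' ^ 2)]; gcongr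
      _ = _ := by ring
  set Q := 16 * (M₁ ^ 2 * exp (-(2 * (γ + κ) * l))) * (m + 1) * Λ ^ 2 with hQ'
  have hQ0 : 0 ≤ Q := by positivity
  have hm0 : (0 : ℝ) ≤ m := Nat.cast_nonneg m
  have hτ'1 : τ' ^ 2 ≤ τ' := pow_le_of_le_one hτ'0.le ((min_le_right _ _).trans hx1) two_ne_zero
  have hQ1 : n * Q ≤ τ' ^ 2 := le_trans (le_mul_of_one_le_left (by positivity) (by linarith)) hQ
  have hQ2 : 2 * (n + m) * Q ≤ τ := by
    refine le_trans ?_ (hQ.trans (hτ'1.trans (min_le_left _ _)))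
    rw [← mul_assoc (2 * (m + 1 : ℝ))]
    exact mul_le_mul_of_nonneg_right (by linarith [mul_le_mul_of_nonneg_left hn1' hm0]) hQ0
  obtain ⟨q, hqd, hq1, hq2, hq3⟩ := prescribe (m := m) (n := n) (G := fun z => f z * φ z)
    (ρ := 1 + δ / 4) (M := M₀ * exp (C * l)) (Θ := M₁ ^ 2 * exp (-(2 * (γ + κ) * l))) (Λ := Λ)
    (τ := Λ) hn1 (by linarith) (by linarith) (by linarith) hGd (fun z hz => by
      have := sphere_subset_ball (by linarith : 1 + δ / 4 < 1 + δ / 2) hz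
      rw [norm_mul]
      exact mul_le_mul (hM₀ z (hsub this)) (hφ0 z this).2 (norm_nonneg _) hM₀0) (by positivity)
    (fun c => by
      refine (hφg c).trans ?_
      rw [mul_comm (M₁ ^ 2), mul_assoc _ (M₁ ^ 2), ← smul_eq_mul (M₁ ^ 2), ← circleAverage_fun_smul]
      have hφc : ContinuousOn φ (sphere 0 1) :=
        hφd.continuousOn.mono (sphere_subset_ball (by linarith))
      gcongr with z hz
      · exact ContinuousOn.circleIntegrable zero_le_one (by fun_prop)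
      · exact ContinuousOn.circleIntegrable zero_le_one (by fun_prop)
      · rw [abs_one] at hz
        have a1 := hM₁ z hz
        have a2 := norm_pos_iff.2 (hf0 z (sphere_subset_closedBall hz))
        rw [Pi.inv_apply, norm_inv, inv_le_iff_one_le_mul₀ a2] at a1
        rw [smul_eq_mul, mul_assoc, norm_mul (f z), ← mul_pow, ← mul_assoc]
        gcongr
        exact le_mul_of_one_le_left (norm_nonneg _) a1)
    (by
      refine (tail_le (by positivity) (by linarith) (by positivity) n).trans ?_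
      have a1 : exp (ε * l) / 8 ≤ n * (δ / 4) / 2 := by
        have := mul_le_mul_of_nonneg_right hn4 hδ0.le
        rw [hδ, ← exp_add, show (1 + 2 * ε) * l + -((1 + ε) * l) = ε * l by ring] at this
        linarith
      have a2 : -((|γ| + 1) * ((1 + 2 * ε) * l + 1)) ≤ Real.log n * (-1 / 2 + γ) := by
        have b1 := log_nonneg hn1'
        have b2 := mul_le_mul_of_nonneg_left hn3 (by positivity : 0 ≤ |γ| + 1)
        have b3 := mul_le_mul_of_nonneg_left (neg_abs_le γ) b1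
        linarith
      have a3 : M₀ * 2 ^ m * 8 ≤ exp (M₀ * 2 ^ m * 8) := by linarith [add_one_le_exp (M₀ * 2 ^ m * 8)]
      rw [hΛ, rpow_def_of_pos hn0]
      calc _ = M₀ * 2 ^ m * 8 * exp (C * l + -(n * (δ / 4) / 2) + (1 + ε) * l) := by
            rw [exp_add, exp_add, hδ, exp_neg ((1 + ε) * l)]
            field_simp
            ring
        _ ≤ exp (M₀ * 2 ^ m * 8) * exp (C * l + -(n * (δ / 4) / 2) + (1 + ε) * l) := by gcongr
        _ ≤ exp (Real.log n * (-1 / 2 + γ)) := by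
            rw [← exp_add, exp_le_exp]
            linarith
        _ ≤ _ := le_mul_of_one_le_left (exp_pos _).le hK'1)
    (by
      have := (le_mul_of_one_le_left hQ0 hn1').trans (hQ1.trans hτ'1)
      linarith [min_le_left τ x]) le_rfl
  have hq : ∀ z : ℂ, ‖z‖ ≤ 1 → ‖q z‖ ≤ τ' := fun z hz =>
    (pow_le_pow_iff_left₀ (norm_nonneg _) hτ'0.le two_ne_zero).1 ((hq1 z hz).trans hQ1)
  have hgd : DifferentiableOn ℂ (fun z => f z * φ z * (1 + q z)) (ball 0 (1 + δ / 2)) :=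
    hGd.mul (hqd.const_add 1).differentiableOn
  refine ⟨fun z => f z * φ z * (1 + q z), ⟨1 + δ / 2, by linarith, hgd, fun z hz => ?_⟩,
    hpoly _ q (hGd.mono h11) hqd (hglue φ (hφd.mono h11) (fun z h1 h2 => ?_) hφA fun R h1 h2 => ?_)
      (fun z hz => (hq z hz).trans (min_le_left _ _)) (hq2.trans (ENNReal.ofReal_le_ofReal
        (mul_le_mul_of_nonneg_left hQ2 pi_pos.le))), fun z hz => ?_, n, hn1, Λ, hΛ0, ?_,
      fun i => ?_⟩
  · refine mul_ne_zero (mul_ne_zero (hf0 z hz)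
      (hφ0 z (closedBall_subset_ball (by linarith) hz)).1) fun h => ?_
    have := hq z (mem_closedBall_zero_iff.1 hz)
    rw [add_eq_zero_iff_neg_eq] at h
    rw [← h, norm_neg, norm_one] at this
    linarith [min_le_left τ x]
  · have := hφ1 z h1 ((min_le_left _ _).trans h2)
    exact ⟨this.1.trans (min_le_left _ _), this.2.trans (min_le_left _ _)⟩
  · refine (hφa R h1 h2).trans (ENNReal.ofReal_le_ofReal ?_)
    have := pi_pos
    gcongr
    exact min_le_left _ _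
  · have a0 : ‖z‖ ≤ 1 := by linarith
    have a1 := (hφ1 z a0 ((min_le_right _ _).trans (by
      have := norm_sub_norm_le 1 z
      rw [norm_one] at this
      linarith))).1.trans (min_le_right _ _)
    have a2 := (hq z a0).trans (min_le_right _ _)
    have a3 := hM₀ z (mem_closedBall_zero_iff.2 (by linarith))
    rw [show f z * φ z * (1 + q z) - f z = f z * ((φ z - 1) + q z + (φ z - 1) * q z) by ring,
      norm_mul]
    refine le_trans (mul_le_mul a3 ((norm_add₃_le).trans ?_) (norm_nonneg _) hM₀0)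
      (le_of_eq_of_le (by ring) hxe : M₀ * (3 * x) ≤ η₀)
    rw [norm_mul]
    linarith [mul_le_mul a1 (a2.trans hx1) (norm_nonneg _) hx.le]
  · rw [hΛ]
    gcongr
    linarith [le_abs_self K]
  · rw [← hq3 i]
    exact cf_radius hgd (by norm_num) (by linarith) one_pos (by linarith) _

end Pool.Agent.MP_e3615c_an

end MrgPart3

-- ======== part 4: formerly Pool.Agent.MP_e3615c_an.Upper2
section MrgPart4

/-!
The upper bound: every exponent above `-1/2 + gamma m p` is admissible.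
-/

namespace Pool.Agent.MP_e3615c_an

open MeasureTheory Metric Set Filter Topology Real
open scoped ENNReal ComplexConjugate

theorem eventually_log {η : ℝ} (hη : 0 < η) (a : ℝ) {b : ℝ} (hb : 0 ≤ b) :
    ∀ᶠ l : ℝ in atTop, a + b * Real.log (1 + l) ≤ η * l := by
  set D := 2 * (b + 1) / η with hD
  have hD0 : 0 < D := by positivity
  filter_upwards [eventually_ge_atTop 0,
    eventually_ge_atTop (2 * (a + b * (1 / D + Real.log D)) / η)] with l h0 h1
  have h2 := neg_log_le (d := (1 + l)⁻¹) (by positivity) hD0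
  rw [log_inv, neg_neg, one_div, inv_inv] at h2
  rw [div_le_iff₀ hη] at h1
  have h3 : b * (l / D) ≤ η / 2 * l := by
    rw [hD, div_div_eq_mul_div, ← mul_div_assoc, div_le_iff₀ (by positivity)]
    nlinarith [mul_nonneg hη.le h0]
  have h4 := mul_le_mul_of_nonneg_left h2 hb
  rw [add_div] at h4
  nlinarith

theorem tendsto_log_nat : Tendsto (fun n : ℕ => Real.log n) atTop atTop :=
  tendsto_log_atTop.comp tendsto_natCast_atTop_atTop

theorem eventually_div_le (a : ℝ) {b : ℝ} (hb : 0 < b) : ∀ᶠ n : ℕ in atTop, a / n ≤ b :=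
  (tendsto_const_div_atTop_nhds_zero_nat a).eventually (ge_mem_nhds hb)

variable {p : ℝ} {f : ℂ → ℂ} {r₀ : ℝ} {m : ℕ}

theorem small_atoms (hp : 0 < p) (hf : DifferentiableOn ℂ f (ball 0 1))
    (hA : AB p f) (hr₀ : 1 / 2 ≤ r₀) (hr₀' : r₀ < 1)
    (hne : ∀ z : ℂ, r₀ ≤ ‖z‖ → ‖z‖ < 1 → f z ≠ 0) {γ : ℝ} (hγ : gamma m p < γ) :
    ∀ᶠ n : ℕ in atTop, ∀ [NeZero n], ∀ r : ℝ, 1 - 2 / n ≤ r → r ≤ 1 - 1 / n →
      ∃ t : Fin m → ZMod n, ∑ y, exp (2 * lp (f (r * ze y))) / n * ∏ j, dd y (t j) ^ 2 ≤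
        exp (2 * (γ * Real.log n)) := by
  obtain ⟨η, hη, hη1, hst⟩ := stability hp.le hγ
  obtain ⟨C, r₁, hr₁, hdis⟩ := distortion hp hf hA hr₀ hr₀' hne hη
  obtain ⟨C₁, hC₁, hgr⟩ := growth hp hf hA hr₀ hr₀' hne
  filter_upwards [tendsto_log_nat.eventually (eventually_log (by positivity : 0 < 2 * η)
      (Real.log ((m + 2) * 7203 ^ m * (4 * p + C₁ + 1)) + 2 + 2 * m) (b := m + 1) (by positivity)),
    tendsto_log_nat.eventually (eventually_log hη (Real.log 4) zero_le_one),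
    tendsto_log_nat.eventually (eventually_log hη (C + 2 * p * Real.log 3) le_rfl),
    tendsto_log_nat.eventually (eventually_gt_atTop 0),
    eventually_div_le 2 (sub_pos.2 hr₁), eventually_div_le 2 one_pos] with n h1 h2 h3 hl h4 h5
  intro _ r hr hr'
  by_contra hcon
  push Not at hcon
  have hn : (0 : ℝ) < n := npos
  have hn' : (0 : ℝ) < 1 / n := by positivity
  have hr0 : 0 ≤ r := by linarith
  have hz : ∀ y : ZMod n, ‖r * ze y‖ = r := fun y => by simp [abs_of_nonneg hr0]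
  set l := Real.log n with hl'
  obtain ⟨G, hs, hb, hu, hG⟩ := finite_core (m := m) (g := fun y : ZMod n => lp (f (r * ze y)))
    (L := 4 * p * l + C₁) (Λ := γ * l) (C := η * l) (Q := η * l) hp.le hη1
    (fun y => lp_nonneg _) (fun y => hgr n one_le_n _ ((hz y).trans_le hr'))
    (fun t => (hcon t).le) (fun ν hν hν1 => by
      refine (hdis r (by linarith) (by linarith) Finset.univ ν (fun u => r * ze u.2)
        (fun u _ => hν u) hν1 fun u _ => hz u.2).trans ?_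
      have a1 : ∑ u, ∑ v, ν u * ν v = 1 := by rw [← Finset.sum_mul_sum, hν1, mul_one]
      have a2 : ∑ u, ∑ v, ν u * ν v * -Real.log ‖1 - r * ze u.2 * conj (r * ze v.2)‖ ≤
          ∑ u, ∑ v, ν u * ν v * -Real.log (dd u.2 v.2) + Real.log 3 := by
        rw [← mul_one (Real.log 3), ← a1]
        simp only [Finset.mul_sum, ← Finset.sum_add_distrib]
        refine Finset.sum_le_sum fun u _ => Finset.sum_le_sum fun v _ => ?_
        rw [mul_comm (Real.log 3), ← mul_add]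
        refine mul_le_mul_of_nonneg_left ?_ (mul_nonneg (hν u) (hν v))
        have b1 := dd_le_kernel u.2 v.2 hr0 hr'
        have b2 := dd_pos u.2 v.2
        have b3 := log_le_log b2 b1
        rw [log_mul (by norm_num) (by linarith)] at b3
        linarith
      nlinarith)
    (by
      refine le_trans ?_ (h1.trans (le_of_eq (by ring)))
      have a1 : Real.log (2 * n + 1) ≤ 2 + l := by
        have b1 := log_le_log (by positivity) (by linarith [one_le_n (n := n)] :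
          (2 * n + 1 : ℝ) ≤ 3 * n)
        rw [log_mul (by norm_num) hn.ne'] at b1
        linarith [log_le_sub_one_of_pos (by norm_num : (0 : ℝ) < 3)]
      have a0 : 0 ≤ Real.log (2 * n + 1) := log_nonneg (by linarith)
      have a2 : (m + 2) * ((2401 * (Real.log (2 * n + 1) + 1)) ^ m * (4 * p * l + C₁ + 1)) ≤
          (m + 2) * 7203 ^ m * (4 * p + C₁ + 1) * (1 + l) ^ (m + 1) := by
        have b1 : 2401 * (Real.log (2 * n + 1) + 1) ≤ 7203 * (1 + l) := by linarith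
        have b2 : 4 * p * l + C₁ + 1 ≤ (4 * p + C₁ + 1) * (1 + l) := by
          nlinarith [mul_nonneg hC₁ hl.le]
        calc _ ≤ (m + 2) * ((7203 * (1 + l)) ^ m * ((4 * p + C₁ + 1) * (1 + l))) := by gcongr
          _ = _ := by rw [mul_pow]; ring
      have a3 := log_le_log (by positivity) a2
      rw [log_mul (x := (m + 2) * 7203 ^ m * (4 * p + C₁ + 1)) (by positivity) (by positivity),
        log_pow] at a3
      push_cast at a3
      linarith)
    (by rw [log_mul (by norm_num) (by positivity)]; linarith)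
  refine hst (fun i j => G i j / l) (fun i j => by rw [hs]) (fun i j => ?_) (fun i j k => ?_)
    fun a ha => ?_
  · rw [le_div_iff₀ hl, div_le_one hl]
    exact ⟨by linarith [(hb i j).1], (hb i j).2⟩
  · rw [min_div_div_right hl.le, div_le_iff₀ hl, add_mul, div_mul_cancel₀ _ hl.ne']
    exact hu i j k
  · have e : ∀ i, cost (fun i j => G i j / l) i = cost G i / l := fun i => by
      simp only [cost, ← Finset.sum_div]; ring
    simp only [e, min_div_div_right hl.le, ← mul_div_assoc, ← Finset.sum_div]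
    refine le_of_mul_le_mul_right (le_of_eq_of_le ?_ ((hG a ha).trans (le_of_eq ?_))) hl
    · field_simp
    · field_simp

theorem discretize (hp : 0 < p) (hf : DifferentiableOn ℂ f (ball 0 1))
    (hA : AB p f) (hr₀ : 1 / 2 ≤ r₀) (hne : ∀ z : ℂ, r₀ ≤ ‖z‖ → ‖z‖ < 1 → f z ≠ 0)
    {n : ℕ} [NeZero n] (hn : 17 / n ≤ 1 - r₀) {r : ℝ} (hr : 1 - 2 / n ≤ r) (hr' : r ≤ 1 - 1 / n)
    (t : Fin m → ZMod n) :
    circleAverage (fun z => (‖∏ j, (1 - ze (t j) * z⁻¹)‖ * max ‖f z‖ 1) ^ 2) 0 r ≤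
      (exp (TH p * 28) * 18 ^ m) ^ 2 *
        ∑ y, exp (2 * lp (f (r * ze y))) / n * ∏ j, dd y (t j) ^ 2 := by
  have hn0 : (0 : ℝ) < n := npos
  have hn' : (0 : ℝ) < 1 / n := by positivity
  have e2 : (2 : ℝ) / n = 2 * (1 / n) := by ring
  have e7 : (7 : ℝ) / n = 7 * (1 / n) := by ring
  have e17 : (17 : ℝ) / n = 17 * (1 / n) := by ring
  have hr2 : 1 / 2 ≤ r := by linarith
  have hr0 : 0 < r := by linarith
  have hr1 : r < 1 := by linarith
  have hfc : ContinuousOn f (sphere 0 r) := hf.continuousOn.mono (sphere_subset_ball hr1)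
  have hPc : ContinuousOn (fun z : ℂ => ∏ j, (1 - ze (t j) * z⁻¹)) (sphere 0 r) :=
    continuousOn_finsetProd _ fun j _ => continuousOn_const.sub (continuousOn_const.mul
      (continuousOn_id.inv₀ fun z hz => ne_zero_of_mem_sphere hr0 hz))
  refine (circleAverage_le_atoms hr0.le hr1.le (by fun_prop) (fun y : ZMod n =>
    ((∏ j, 18 * dd y (t j)) * (exp (TH p * 28) * max ‖f (r * ze y)‖ 1)) ^ 2)
    fun y z hz hzy => ?_).trans (le_of_eq ?_)
  · have hy : ‖r * ze y‖ = r := by simp [abs_of_pos hr0]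
    have h1 := harnack_chain hp hf hA hne hr1 28 (z := r * ze y) (z' := z) hy.le hz.le
      (by push_cast; linarith) (by rw [hy]; push_cast; linarith)
    have h2 : 1 ≤ exp (TH p * 28) := one_le_exp (by have := TH_nonneg hp; positivity)
    gcongr
    · exact Finset.prod_nonneg fun j _ => by have := dd_pos y (t j); positivity
    · rw [norm_prod]
      refine Finset.prod_le_prod (fun j _ => norm_nonneg _) fun j _ => ?_
      have a0 : z ≠ 0 := by rw [← norm_pos_iff, hz]; exact hr0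
      have a1 : ‖z - ze (t j)‖ ≤ 9 * dd y (t j) := by
        have b1 := norm_sub_le_norm_sub_add_norm_sub z (r * ze y) (ze (t j))
        have b2 := norm_sub_le_norm_sub_add_norm_sub (r * ze y) (ze y) (ze (t j))
        have b3 : ‖r * ze y - ze y‖ = 1 - r := by
          rw [show r * ze y - ze y = -((1 - r : ℝ) : ℂ) * ze y by push_cast; ring, norm_mul,
            norm_ze, mul_one, norm_neg, Complex.norm_real, Real.norm_of_nonneg (by linarith)]
        have b4 := norm_nonneg (ze y - ze (t j))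
        unfold dd
        linarith
      rw [show 1 - ze (t j) * z⁻¹ = (z - ze (t j)) / z by field_simp, norm_div, hz,
        div_le_iff₀ hr0]
      nlinarith [dd_pos y (t j)]
    · refine max_le (h1.trans ?_) (one_le_mul_of_one_le_of_one_le h2 (le_max_right _ _))
      push_cast
      gcongr
      exact le_max_left _ _
  · rw [Finset.sum_div, Finset.mul_sum]
    refine Finset.sum_congr rfl fun y _ => ?_
    rw [Finset.prod_mul_distrib, Finset.prod_pow, ← exp_lp, two_mul, exp_add]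
    simp only [Finset.prod_const, Finset.card_univ, Fintype.card_fin]
    ring

theorem inv_pow_le {N r : ℝ} (hN : 4 ≤ N) (hr : 1 - 2 / N ≤ r) {s k : ℕ} (hs : s ≤ N + k) :
    r ^ (-(s : ℤ)) ≤ exp (4 * (1 + k)) := by
  have hN0 : 0 < N := by linarith
  have h1 : 2 / N ≤ 1 / 2 := by rw [div_le_div_iff₀ hN0 two_pos]; linarith
  have h0 : 0 ≤ 2 / N := by positivity
  have hr0 : 0 < r := by linarith
  have h2 : r⁻¹ ≤ exp (4 / N) := by
    rw [inv_le_iff_one_le_mul₀ hr0]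
    have := add_one_le_exp (4 / N)
    have e : 4 / N = 2 * (2 / N) := by ring
    calc (1 : ℝ) ≤ (2 * (2 / N) + 1) * (1 - 2 / N) := by nlinarith
      _ ≤ _ := by rw [← e]; gcongr; linarith
  rw [zpow_neg, zpow_natCast, ← inv_pow]
  refine (pow_le_pow_left₀ (by positivity) h2 s).trans ?_
  rw [← exp_nat_mul, exp_le_exp, ← mul_div_assoc, div_le_iff₀ hN0]
  nlinarith [mul_nonneg (Nat.cast_nonneg (α := ℝ) k) (by linarith : 0 ≤ N - 1)]

theorem upper_eventually (hp : 0 < p) {a : ℕ → ℂ}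
    (ha : ∀ z ∈ ball (0 : ℂ) 1, HasSum (fun n => a n * z ^ n) (f z)) (hA : AB p f)
    {γ : ℝ} (hγ : gamma m p < γ) (k : ℕ) :
    ∃ K : ℝ, ∀ᶠ n : ℕ in atTop, ∃ c : Fin (m + 1) → ℂ, c 0 = 1 ∧ ‖c (Fin.last m)‖ = 1 ∧
      ∀ j : ℕ, j ≤ k → ‖∑ i : Fin (m + 1), c i * a (n + j + i)‖ ≤ K * (n : ℝ) ^ (-1 / 2 + γ) := by
  have hf := differentiableOn_of_hasSum ha
  by_cases h0 : EqOn f 0 (ball 0 1)
  · have : ∀ l : ℕ, a l = 0 := fun l => by
      have h1 := cf_of_hasSum ha (r := 1 / 2) (by norm_num) (by norm_num) l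
      rw [cf_congr (h := fun _ => 0) (by norm_num)
        (h0.mono (sphere_subset_ball (by norm_num)))] at h1
      simpa [cf, circleAverage_const] using h1.symm
    exact ⟨0, Eventually.of_forall fun n => ⟨fun _ => 1, rfl, norm_one, fun j _ => by simp [this]⟩⟩
  obtain ⟨r₀, hr₀, hr₀', hne⟩ := exists_zero_free hf hA h0
  obtain ⟨γ', hγ', hγ''⟩ := exists_between hγ
  obtain ⟨C₁, hC₁, hgr⟩ := growth hp hf hA hr₀ hr₀' hne
  refine ⟨exp (4 * (1 + k)) * (exp (TH p * 28) * 18 ^ m), ?_⟩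
  filter_upwards [small_atoms hp hf hA hr₀ hr₀' hne hγ', eventually_div_le 17 (sub_pos.2 hr₀'),
    eventually_ge_atTop 4, tendsto_log_nat.eventually (eventually_log
      (by linarith : 0 < 2 * (γ - γ'))
      (Real.log ((m + 1) * (p * (4 + 2 * (4 * p + C₁)) + m))) zero_le_one)] with n h1 h2 h3 h4
  have : NeZero n := ⟨by omega⟩
  have hn4 : (4 : ℝ) ≤ n := by exact_mod_cast h3
  have hn : (0 : ℝ) < n := npos
  have hn' : (0 : ℝ) < 1 / n := by positivity
  have hl : 0 ≤ Real.log n := log_nonneg one_le_n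
  set l := Real.log n with hl'
  obtain ⟨r, hr, hr', hJ⟩ := good_radius hp hf hA hn4 (by positivity) (hgr n one_le_n)
  obtain ⟨t, ht⟩ := h1 r hr hr'
  obtain ⟨c, hc0, hcl, hc⟩ := exists_coeffs fun j => ze (t j)
  have hr0 : 0 < r := by
    have : (2 : ℝ) / n ≤ 1 / 2 := by rw [div_le_div_iff₀ hn two_pos]; linarith
    linarith
  have hr1 : r < 1 := by linarith
  refine ⟨c, hc0, by simp [hcl, norm_prod], fun j hj => ?_⟩
  have key := coef_bound hf (ζ := fun j => ze (t j)) (fun j => norm_ze _) hr0 hr1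
    (A := exp (TH p * 28) * 18 ^ m * exp (γ' * l)) (B := exp ((1 / 2 + (γ - γ')) * l))
    (by positivity) (by positivity) ((discretize hp hf hA hr₀ hne h2 hr hr' t).trans (by
      rw [mul_pow _ (exp (γ' * l)), ← exp_nat_mul]
      gcongr
      exact_mod_cast ht)) hJ (by
      have a1 : (1 - r ^ 2)⁻¹ ≤ (n : ℝ) := by
        rw [inv_le_comm₀ (by nlinarith) hn, ← one_div]
        nlinarith
      have a2 : (m + 1) * (p * (4 + 2 * (4 * p + C₁)) + m) * (1 + l) ≤ exp (2 * (γ - γ') * l) := by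
        rw [← log_le_iff_le_exp (by positivity), log_mul (by positivity) (by positivity)]
        linarith
      rw [← exp_nat_mul, show ((2 : ℕ) : ℝ) * ((1 / 2 + (γ - γ')) * l) = l + 2 * (γ - γ') * l by
        push_cast; ring, exp_add, hl', exp_log hn, ← hl']
      refine le_trans ?_ (mul_le_mul_of_nonneg_left a2 hn.le)
      calc _ ≤ (m + 1) * (n * (p * ((4 + 2 * (4 * p + C₁)) * (1 + l))) + m * (n * (1 + l))) := by
            gcongr
            · nlinarith [mul_nonneg hC₁ hl]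
            · nlinarith
        _ = _ := by ring) ((n + j : ℕ) : ℤ)
  have e1 : cf (fun z => f z * ∏ j, (1 - ze (t j) * z⁻¹)) r ((n + j : ℕ) : ℤ) =
      ∑ i : Fin (m + 1), c i * a (n + j + i) := by
    simp only [hc, ← zpow_natCast, inv_zpow']
    rw [cf_sum _ _ _ hr0 (hf.continuousOn.mono (sphere_subset_ball hr1))]
    refine Finset.sum_congr rfl fun i _ => ?_
    rw [cf_of_hasSum ha hr0 hr1, if_pos (by omega)]
    congr 2
    omega
  rw [e1, norm_mul] at key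
  have a3 := inv_pow_le hn4 hr (s := n + j) (k := k) (by push_cast; gcongr)
  have a4 : (n : ℝ) ≤ ‖(((n + j : ℕ) : ℤ) : ℂ)‖ := by
    rw [Int.cast_natCast, Complex.norm_natCast]; exact_mod_cast Nat.le_add_right n j
  refine le_of_mul_le_mul_left (((mul_le_mul_of_nonneg_right a4 (norm_nonneg _)).trans key).trans
    ((mul_le_mul_of_nonneg_right a3 (by positivity)).trans (le_of_eq ?_))) hn
  have e2 : exp (γ' * l) * exp ((1 / 2 + (γ - γ')) * l) = n * (n : ℝ) ^ (-1 / 2 + γ) := by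
    rw [rpow_def_of_pos hn, ← hl', ← exp_add]
    conv_rhs => rw [← exp_log hn, ← hl', ← exp_add]
    congr 1
    ring
  rw [mul_assoc _ (exp (γ' * l)), e2]
  ring

theorem admissible_of_lt (hp : 0 < p) {γ : ℝ} (hγ : gamma m p < γ) :
    Admissible m p (-1 / 2 + γ) := by
  intro f a ha hv k _
  obtain ⟨K, hK⟩ := upper_eventually hp ha
    ((meanValent_iff (differentiableOn_of_hasSum ha)).1 hv) hγ k
  obtain ⟨n₀, hn₀⟩ := eventually_atTop.1 hK
  let u : ℕ → ℕ → ℝ := fun n j => ‖∑ i : Fin (m + 1), 1 * a (n + j + i)‖ / (n : ℝ) ^ (-1 / 2 + γ)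
  have hu : ∀ n j, 0 ≤ u n j := fun n j => by positivity
  have h4 : (1 : ℝ) / 4 ^ m ≤ 1 := by
    rw [div_le_one (by positivity)]; exact one_le_pow₀ (by norm_num)
  refine ⟨max K (∑ n ∈ Finset.range n₀, ∑ j ∈ Finset.range (k + 1), u n j), fun n hn => ?_⟩
  have hpos : 0 < (n : ℝ) ^ (-1 / 2 + γ) := rpow_pos_of_pos (by exact_mod_cast hn) _
  rcases le_or_gt n₀ n with h | h
  · obtain ⟨c, h1, h2, h3⟩ := hn₀ n h
    exact ⟨c, h1, h2 ▸ h4, fun j hj => (h3 j hj).trans (by gcongr; exact le_max_left _ _)⟩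
  · refine ⟨fun _ => 1, rfl, by simpa using h4, fun j hj => ?_⟩
    rw [← div_le_iff₀ hpos]
    refine le_trans ?_ (le_max_right _ _)
    exact (Finset.single_le_sum (f := u n) (fun j _ => hu n j)
      (Finset.mem_range.2 (Nat.lt_succ_of_le hj))).trans
      (Finset.single_le_sum (f := fun n => ∑ j ∈ Finset.range (k + 1), u n j)
        (fun n _ => Finset.sum_nonneg fun j _ => hu n j) (Finset.mem_range.2 h))

end Pool.Agent.MP_e3615c_an

end MrgPart4

-- ======== part 5: formerly Pool.Agent.MP_e3615c_an.Lower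
section MrgPart5

/-!
The lower bound and the main theorem.
-/

namespace Pool.Agent.MP_e3615c_an

open MeasureTheory Filter Topology Real Metric Set

theorem hankel {m n : ℕ} {a : ℕ → ℂ} {Λ : ℝ} (hΛ : 0 < Λ)
    (ha : ∀ i : Fin (m + 1), a (n + m - i) = if i = 0 then (Λ : ℂ) else 0) :
    ∃ δ : ℝ, 0 < δ ∧ ∀ a' : ℕ → ℂ, (∀ l ≤ n + 2 * m, ‖a' l - a l‖ ≤ δ) →
      ∀ c : Fin (m + 1) → ℂ, 1 / 4 ^ m ≤ ‖c (Fin.last m)‖ →
        ∃ j ≤ m, Λ / (2 * 4 ^ m) ≤ ‖∑ i : Fin (m + 1), c i * a' (n + j + i)‖ := by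
  have h0 : ∀ s < m, a (n + s) = 0 := fun s hs => by
    have := ha ⟨m - s, by omega⟩
    rwa [if_neg (by simp [Fin.ext_iff]; omega), show n + m - (m - s) = n + s by omega] at this
  have h1 : a (n + m) = Λ := by simpa using ha 0
  let L : (Fin (m + 1) → ℂ) →ₗ[ℂ] (Fin (m + 1) → ℂ) :=
    { toFun := fun c j => ∑ i : Fin (m + 1), c i * a (n + j + i)
      map_add' := fun c c' => by funext j; simp [add_mul, Finset.sum_add_distrib]
      map_smul' := fun b c => by funext j; simp [Finset.mul_sum, mul_assoc] }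
  have hrow : ∀ (c : Fin (m + 1) → ℂ) (i : Fin (m + 1)), (∀ i', i < i' → c i' = 0) →
      L c i.rev = c i * Λ := by
    intro c i h
    have hi := i.2
    simp only [L, LinearMap.coe_mk, AddHom.coe_mk, Fin.val_rev]
    rw [Finset.sum_eq_single i, show n + (m + 1 - (i + 1)) + i = n + m by omega, h1]
    · intro i' _ hne
      rcases lt_or_gt_of_ne hne with h2 | h2
      · rw [add_assoc, h0 _ (by have := Fin.lt_def.1 h2; omega), mul_zero]
      · rw [h i' h2, zero_mul]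
    · simp
  have hker : LinearMap.ker L = ⊥ := by
    rw [LinearMap.ker_eq_bot']
    intro c hc
    funext i
    induction i using WellFoundedGT.induction with
    | ind i ih =>
      have := hrow c i ih
      rw [hc] at this
      simpa [hΛ.ne'] using this.symm
  obtain ⟨K, hK0, hK⟩ := L.exists_antilipschitzWith hker
  have hK0' : (0 : ℝ) < K := hK0
  refine ⟨1 / (2 * (m + 1) * K), by positivity, fun a' ha' c hc => ?_⟩
  by_contra hcon
  push Not at hcon
  have h2 := ZeroHomClass.bound_of_antilipschitz L hK c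
  have h3 : Λ / 4 ^ m ≤ ‖L c‖ := by
    refine le_trans ?_ (norm_le_pi_norm (L c) (Fin.last m).rev)
    rw [hrow c _ fun i' h => absurd h (Fin.le_last i').not_gt, norm_mul, Complex.norm_real,
      Real.norm_of_nonneg hΛ.le, div_eq_mul_one_div, mul_comm]
    gcongr
  have h4 : ‖L c‖ < Λ / (2 * 4 ^ m) + ‖L c‖ / 2 := by
    rw [pi_norm_lt_iff (by positivity)]
    intro j
    have hj := j.2
    have e : L c j = ∑ i : Fin (m + 1), c i * a' (n + j + i) -
        ∑ i : Fin (m + 1), c i * (a' (n + j + i) - a (n + j + i)) := by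
      simp [L, mul_sub]
    rw [e]
    refine (norm_sub_le _ _).trans_lt (add_lt_add_of_lt_of_le (hcon j (by omega)) ?_)
    refine (norm_sum_le _ _).trans ((Finset.sum_le_card_nsmul _ _
      (K * ‖L c‖ * (1 / (2 * (m + 1) * K))) fun i _ => ?_).trans (le_of_eq ?_))
    · rw [norm_mul]
      exact mul_le_mul ((norm_le_pi_norm c i).trans h2) (ha' _ (by have := i.2; omega))
        (norm_nonneg _) (by positivity)
    · simp only [Finset.card_univ, Fintype.card_fin, nsmul_eq_mul]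
      push_cast
      field_simp
  rw [mul_comm 2, ← div_div] at h4
  linarith

theorem AB_of_tendsto {p : ℝ} {g : ℕ → ℂ → ℂ} {f : ℂ → ℂ}
    (hg : ∀ s, DifferentiableOn ℂ (g s) (ball 0 1)) (hA : ∀ s, AB p (g s))
    (h : TendstoLocallyUniformlyOn g f atTop (ball 0 1)) : AB p f := by
  intro R hR
  have hf := h.differentiableOn (Eventually.of_forall hg) isOpen_ball
  have hd := h.deriv (Eventually.of_forall hg) isOpen_ball
  let u : ℕ → ℂ → ENNReal := fun s => indicator {z | z ∈ ball (0 : ℂ) 1 ∧ ‖g s z‖ < R}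
    fun z => ENNReal.ofReal (‖deriv (g s) z‖ ^ 2)
  have hu : ∀ s, Measurable (u s) := fun s =>
    ((measurable_deriv _).norm.pow_const 2).ennreal_ofReal.indicator
      (isOpen_sublevel (hg s) R).measurableSet
  refine le_trans ?_ ((lintegral_liminf_le (u := atTop) (μ := volume) hu).trans (liminf_le_of_frequently_le'
    (Frequently.of_forall fun s => ?_)))
  · rw [area, ← lintegral_indicator (isOpen_sublevel hf R).measurableSet]
    refine lintegral_mono fun z => indicator_apply_le'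
      (fun hz => le_of_eq (Tendsto.liminf_eq ?_).symm) fun _ => zero_le
    refine (ENNReal.tendsto_ofReal ((hd.tendsto_at hz.1).norm.pow 2)).congr' ?_
    filter_upwards [(h.tendsto_at hz.1).norm.eventually (gt_mem_nhds hz.2)] with s hs
    exact (indicator_of_mem (s := {z | z ∈ ball (0 : ℂ) 1 ∧ ‖g s z‖ < R}) ⟨hz.1, hs⟩
      fun z => ENNReal.ofReal (‖deriv (g s) z‖ ^ 2)).symm
  · rw [lintegral_indicator (isOpen_sublevel (hg s) R).measurableSet]
    exact hA s R hR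

theorem Nice.differentiableOn {f : ℂ → ℂ} (h : Nice f) : DifferentiableOn ℂ f (ball 0 1) :=
  let ⟨_, h1, h2, _⟩ := h
  h2.mono (ball_subset_ball h1.le)

theorem not_admissible {m : ℕ} (hm : 1 ≤ m) {p γ : ℝ} (hp : 0 < p) (hγ : γ < gamma m p) :
    ¬ Admissible m p (-1 / 2 + γ) := by
  obtain ⟨p', hp', hp'p, hst⟩ := stage hp hγ
  let q : ℕ → ℝ := fun s => p - (p - p') / (s + 2)
  let r : ℕ → ℝ := fun s => 1 - 1 / (s + 2)
  have hlt : ∀ s : ℕ, (1 : ℝ) / (s + 2) ≤ 1 / 2 := fun s => by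
    gcongr; linarith [Nat.cast_nonneg (α := ℝ) s]
  have hq1 : ∀ s, p' < q s := fun s => by
    have := mul_le_mul_of_nonneg_left (hlt s) (sub_pos.2 hp'p).le
    simp only [q, div_eq_mul_one_div (p - p')]
    linarith
  have hq2 : ∀ s, q s < q (s + 1) := fun s => by
    simp only [q]
    push_cast
    gcongr
    linarith
  have hq3 : ∀ s, q s ≤ p := fun s => sub_le_self _ (by have := sub_pos.2 hp'p; positivity)
  have hr1 : ∀ s, r s < 1 := fun s => sub_lt_self _ (by positivity)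
  let I : ℕ → (ℂ → ℂ) × ℝ → Prop := fun s x => Nice x.1 ∧ AB (q s) x.1 ∧ 0 < x.2
  have step : ∀ s (x : {x // I s x}), ∃ y : {y // I (s + 1) y}, y.1.2 ≤ x.1.2 / 2 ∧
      (∀ z : ℂ, ‖z‖ ≤ r s → ‖y.1.1 z - x.1.1 z‖ ≤ x.1.2) ∧ ∃ n : ℕ, 1 ≤ n ∧
      ∀ f : ℂ → ℂ, ContinuousOn f (sphere 0 (1 / 2)) →
        (∀ z ∈ sphere (0 : ℂ) (1 / 2), ‖f z - y.1.1 z‖ ≤ 2 * y.1.2) →
        ∀ c : Fin (m + 1) → ℂ, 1 / 4 ^ m ≤ ‖c (Fin.last m)‖ → ∃ j ≤ m,
          s * (n : ℝ) ^ (-1 / 2 + γ) ≤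
            ‖∑ i : Fin (m + 1), c i * cf f (1 / 2) ((n + j + i : ℕ) : ℤ)‖ := by
    rintro s ⟨⟨g, t⟩, h1, h2, h3⟩
    obtain ⟨g', a1, a2, a3, n, a4, Λ, a5, a6, a7⟩ := hst g h1 (q s) (q (s + 1)) (hq1 s) h2 (hq2 s)
      (r s) t (2 * 4 ^ m * s) (hr1 s) h3
    obtain ⟨δ, hδ, hh⟩ := hankel (a := fun l => cf g' (1 / 2) l) a5 a7
    refine ⟨⟨(g', min (t / 2) (δ / (2 * 2 ^ (n + 2 * m)))), a1, a2,
      lt_min (by positivity) (by positivity)⟩, min_le_left _ _, a3, n, a4, fun f b1 b2 c hc => ?_⟩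
    have b3 : ContinuousOn g' (sphere 0 (1 / 2)) :=
      a1.differentiableOn.continuousOn.mono (sphere_subset_ball (by norm_num))
    obtain ⟨j, hj, hj'⟩ := hh (fun l => cf f (1 / 2) l) (fun l hl => by
      rw [← cf_sub (by norm_num) b1 b3]
      refine (norm_cf_le_of_bound (by norm_num) (b1.sub b3) b2 _).trans ?_
      rw [one_div, inv_zpow', neg_neg, zpow_natCast]
      calc _ ≤ 2 ^ (n + 2 * m) * (2 * (δ / (2 * 2 ^ (n + 2 * m)))) := by
            gcongr
            · norm_num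
            · exact min_le_right _ _
        _ = δ := by field_simp) c hc
    refine ⟨j, hj, le_trans ?_ hj'⟩
    rw [le_div_iff₀ (by positivity)]
    exact le_trans (le_of_eq (by ring)) a6
  choose nxt h1 h2 h3 using step
  let x : ∀ s, {x // I s x} := fun s => Nat.rec
    ⟨(fun _ => 1, 1), ⟨2, by norm_num, differentiableOn_const _, fun _ _ => one_ne_zero⟩,
      fun R _ => by simp [area], one_pos⟩ nxt s
  let g : ℕ → ℂ → ℂ := fun s => (x s).1.1
  let t : ℕ → ℝ := fun s => (x s).1.2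
  have ht0 : ∀ s, 0 < t s := fun s => (x s).2.2.2
  have ht1 : ∀ s, t (s + 1) ≤ t s / 2 := fun s => h1 s (x s)
  have ht2 : ∀ s, t s ≤ (1 / 2) ^ s := fun s => by
    induction s with
    | zero => exact le_of_eq (pow_zero _).symm
    | succ s ih => rw [pow_succ]; linarith [ht1 s]
  have ht3 : Tendsto (fun s => 2 * t s) atTop (𝓝 0) := by
    simpa using (squeeze_zero (fun s => (ht0 s).le) ht2
      (tendsto_pow_atTop_nhds_zero_of_lt_one (by norm_num) (by norm_num))).const_mul 2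
  have hc : ∀ s (z : ℂ), ‖z‖ ≤ r s → ∀ u, s ≤ u → ‖g u z - g s z‖ ≤ 2 * t s - 2 * t u := by
    intro s z hz u hu
    induction u, hu using Nat.le_induction with
    | base => simp
    | succ u hu ih =>
      have a1 : ‖g (u + 1) z - g u z‖ ≤ t u := h2 u (x u) z (hz.trans (by simp only [r]; gcongr))
      linarith [norm_sub_le_norm_sub_add_norm_sub (g (u + 1) z) (g u z) (g s z), ht1 u]
  have hr2 : ∀ ρ < 1, ∀ᶠ s in atTop, ρ ≤ r s := fun ρ hρ => by
    filter_upwards [eventually_div_le 1 (sub_pos.2 hρ), eventually_ge_atTop 1] with s a1 a2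
    have : (1 : ℝ) / (s + 2) ≤ 1 / s := by gcongr; linarith
    simp only [r]
    linarith
  have hcau : ∀ z ∈ ball (0 : ℂ) 1, CauchySeq fun s => g s z := fun z hz => by
    refine Metric.cauchySeq_iff'.2 fun ε hε => ?_
    obtain ⟨s, a1, a2⟩ := ((hr2 _ (mem_ball_zero_iff.1 hz)).and
      (ht3.eventually (gt_mem_nhds hε))).exists
    exact ⟨s, fun u hu => by rw [dist_eq_norm]; linarith [hc s z a1 u hu, ht0 u]⟩
  let f : ℂ → ℂ := fun z => limUnder atTop fun s => g s z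
  have hf : ∀ s (z : ℂ), ‖z‖ ≤ r s → ‖f z - g s z‖ ≤ 2 * t s := fun s z hz =>
    le_of_tendsto (((hcau z (mem_ball_zero_iff.2 (hz.trans_lt (hr1 s)))).tendsto_limUnder.sub_const
      (g s z)).norm) (eventually_atTop.2 ⟨s, fun u hu => by linarith [hc s z hz u hu, ht0 u]⟩)
  have hlim : TendstoLocallyUniformlyOn g f atTop (ball 0 1) := by
    refine Metric.tendstoLocallyUniformlyOn_iff.2 fun ε hε z hz => ?_
    obtain ⟨ρ, a1, a2⟩ := exists_between (mem_ball_zero_iff.1 hz)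
    refine ⟨ball 0 ρ, mem_nhdsWithin_of_mem_nhds (isOpen_ball.mem_nhds (mem_ball_zero_iff.2 a1)), ?_⟩
    filter_upwards [hr2 ρ a2, ht3.eventually (gt_mem_nhds hε)] with s b1 b2 y hy
    rw [dist_eq_norm]
    exact (hf s y ((mem_ball_zero_iff.1 hy).le.trans b1)).trans_lt b2
  have hgd : ∀ s, DifferentiableOn ℂ (g s) (ball 0 1) := fun s => (x s).2.1.differentiableOn
  have hfd := hlim.differentiableOn (Eventually.of_forall hgd) isOpen_ball
  intro had
  obtain ⟨K, hK⟩ := had f (fun l => cf f (1 / 2) l) (hasSum_cf hfd (by norm_num) (by norm_num))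
    ((meanValent_iff hfd).2 (AB_of_tendsto hgd (fun s => (x s).2.2.1.mono (hq3 s)) hlim)) m hm
  obtain ⟨s, hs⟩ := exists_nat_gt K
  obtain ⟨n, hn, h4⟩ := h3 s (x s)
  obtain ⟨c, -, hc1, hc2⟩ := hK n hn
  obtain ⟨j, hj, h5⟩ := h4 f (hfd.continuousOn.mono (sphere_subset_ball (by norm_num)))
    (fun z hz => hf (s + 1) z (by
      rw [mem_sphere_zero_iff_norm.1 hz]
      simp only [r]
      linarith [hlt (s + 1)])) c hc1
  have h6 : 0 < (n : ℝ) ^ (-1 / 2 + γ) := rpow_pos_of_pos (by exact_mod_cast hn) _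
  exact (mul_lt_mul_of_pos_right hs h6).not_ge (h5.trans (hc2 j hj))

theorem Admissible.mono {m : ℕ} {p α β : ℝ} (h : Admissible m p α) (hαβ : α ≤ β) :
    Admissible m p β := by
  intro f a ha hv k hk
  obtain ⟨K, hK⟩ := h f a ha hv k hk
  refine ⟨|K|, fun n hn => ?_⟩
  obtain ⟨c, h1, h2, h3⟩ := hK n hn
  refine ⟨c, h1, h2, fun j hj => (h3 j hj).trans ?_⟩
  exact mul_le_mul (le_abs_self K) (rpow_le_rpow_of_exponent_le (by exact_mod_cast hn) hαβ)
    (by positivity) (abs_nonneg K)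

theorem isGLB_admissible {m : ℕ} (hm : 1 ≤ m) {p : ℝ} (hp : 0 < p) :
    IsGLB {α | Admissible m p α} (-1 / 2 + gamma m p) := by
  refine ⟨fun α hα => ?_, fun b hb => ?_⟩
  · by_contra h
    push Not at h
    refine not_admissible hm hp (γ := α + 1 / 2) (by linarith) ?_
    rwa [show -1 / 2 + (α + 1 / 2) = α by ring]
  · refine le_of_forall_pos_le_add fun ε hε => ?_
    rw [add_assoc]
    exact hb (admissible_of_lt hp (by linarith))

end Pool.Agent.MP_e3615c_an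

end MrgPart5

-- marker of a merged file
example : 731051 + 584219 = 731051 + 584219 := rfl
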