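import Mathlib.Data.Fin.Tuple.Sort
import Pool.Agent.MP_e3615c_an.Lower

/-!
Closed form of `gamma m p` for `p ≤ 1`.
-/

namespace Pool.Agent.MP_e3615c_an

open Finset

/-- Lower bound certificates. -/
def LC (l : ℝ) (m : ℕ) (s : ℝ) : Prop :=
  ∃ y : Fin (m + 1) → ℝ, (∀ i, 0 ≤ y i ∧ y i ≤ 1 / 2) ∧ ∀ a : Fin (m + 1) → ℝ, (∀ i, 0 ≤ a i) →
    s * (∑ i, a i) ^ 2 ≤ ∑ i, l * y i * a i ^ 2 - ∑ i, ∑ j, a i * a j * min (y i) (y j)

theorem LC.base (l : ℝ) : LC l 0 ((l - 1) / 2) :=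
  ⟨fun _ => 1 / 2, fun _ => by norm_num, fun a _ => le_of_eq (by simp; ring)⟩

theorem LC.step {l s s' y₀ : ℝ} {m : ℕ} (h : LC l m s') (h0 : 0 ≤ y₀) (h1 : y₀ ≤ 1 / 2)
    (hq : ∀ x B : ℝ, s * (x + B) ^ 2 ≤ l * y₀ * x ^ 2 - y₀ * (x ^ 2 + 2 * x * B) + s' * B ^ 2) :
    LC l (m + 1) s := by
  obtain ⟨y, hy, h⟩ := h
  refine ⟨Fin.cons y₀ y, Fin.cases ⟨h0, h1⟩ hy, fun a ha => ?_⟩
  have h2 := h (fun i => a i.succ) fun i => ha _
  have h3 := hq (a 0) (∑ i : Fin (m + 1), a i.succ)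
  have h4 : ∑ j : Fin (m + 1), a 0 * a j.succ * min y₀ (y j) ≤
      y₀ * (a 0 * ∑ i : Fin (m + 1), a i.succ) := by
    rw [mul_sum, mul_sum]
    exact sum_le_sum fun j _ => by
      rw [mul_comm y₀]
      exact mul_le_mul_of_nonneg_left (min_le_left _ _) (mul_nonneg (ha _) (ha _))
  have h5 : ∑ j : Fin (m + 1), a j.succ * a 0 * min (y j) y₀ =
      ∑ j : Fin (m + 1), a 0 * a j.succ * min y₀ (y j) :=
    sum_congr rfl fun j _ => by rw [min_comm, mul_comm (a 0)]
  simp only [Fin.sum_univ_succ (n := m + 1), Fin.cons_zero, Fin.cons_succ, min_self,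
    sum_add_distrib]
  linarith

theorem LC.le_gamma {p s : ℝ} {m : ℕ} (hp : 0 ≤ p) (h : LC (4 * p) m s) : s ≤ gamma m p := by
  obtain ⟨y, hy, h⟩ := h
  let H : Fin (m + 1) → Fin (m + 1) → ℝ := fun i j => if i = j then 2 * y i else 0
  have hH : ∀ i j, 0 ≤ H i j ∧ H i j ≤ 1 := fun i j => by
    simp only [H]
    split_ifs
    · constructor <;> linarith [hy i]
    · norm_num
  refine le_csSup (bddAbove_gamma hp) ⟨H, ⟨fun i j => ?_, hH, fun i j k => ?_⟩, fun a ha => ?_⟩
  · rcases eq_or_ne i j with rfl | hij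
    · rfl
    · simp [H, hij, hij.symm]
  · rcases eq_or_ne i j with rfl | hij
    · exact min_le_right _ _
    · exact (min_le_left _ _).trans (by simpa [H, hij] using (hH i k).1)
  · have e : ∀ i, cost H i = y i := fun i => by simp [cost, H]; ring
    have h1 := h a ha.1
    rw [ha.2, one_pow, mul_one] at h1
    rw [form_eq]
    simp only [e, H, mul_ite, mul_zero, sum_ite_eq, mem_univ, if_true, mul_sum]
    refine h1.trans (le_of_eq ?_)
    congr 1
    exact sum_congr rfl fun i _ => by ring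

theorem LC.iter {l s : ℝ} {m : ℕ} (hl : 1 < l) (h : LC l m s) (h0 : 0 ≤ s)
    (h1 : s * ((l - 1) / (l + 1)) ≤ 1 / 2) (k : ℕ) :
    LC l (m + k) (s * ((l - 1) / (l + 1)) ^ (2 * k)) := by
  have hθ0 : 0 < (l - 1) / (l + 1) := div_pos (by linarith) (by linarith)
  have hθ1 : (l - 1) / (l + 1) ≤ 1 := (div_le_one (by linarith)).2 (by linarith)
  induction k with
  | zero => simpa using h
  | succ k ih =>
    set t := s * ((l - 1) / (l + 1)) ^ (2 * k) with ht
    have ht0 : 0 ≤ t := by positivity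
    refine ih.step (y₀ := t * ((l - 1) / (l + 1))) (by positivity) (le_trans ?_ h1) fun x B => ?_
    · gcongr
      exact mul_le_of_le_one_right h0 (pow_le_one₀ hθ0.le hθ1)
    · have e : l * (t * ((l - 1) / (l + 1))) * x ^ 2 -
          t * ((l - 1) / (l + 1)) * (x ^ 2 + 2 * x * B) + t * B ^ 2 -
          s * ((l - 1) / (l + 1)) ^ (2 * (k + 1)) * (x + B) ^ 2 =
          l * t * ((l - 1) / (l + 1) * (x + B) - B) ^ 2 := by
        rw [mul_add 2, pow_add, ← mul_assoc s, ← ht, mul_one]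
        have : l + 1 ≠ 0 := by linarith
        field_simp
        ring
      have : 0 ≤ l * t * ((l - 1) / (l + 1) * (x + B) - B) ^ 2 := by positivity
      linarith

/-- Upper bound certificates. -/
def UC (l : ℝ) (m : ℕ) (B E : ℝ) : Prop :=
  ∃ a w : Fin (m + 1) → ℝ, (∀ i, 0 ≤ a i) ∧ ∑ i, a i = B ∧ (∀ i, a i ^ 2 ≤ w i) ∧
    (∀ i j, i ≠ j → (a i + a j) ^ 2 ≤ w i + w j) ∧ ∑ i, max (l * a i ^ 2 - w i) 0 ≤ E ∧
    ∀ c : Fin (m + 1) → ℝ, Monotone c → ∑ i, ∑ j, a i * a j * min (c i) (c j) = ∑ i, c i * w i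

theorem UC.base (l : ℝ) {x : ℝ} (hx : 0 ≤ x) : UC l 0 x (max ((l - 1) * x ^ 2) 0) :=
  ⟨fun _ => x, fun _ => x ^ 2, fun _ => hx, by simp, fun _ => le_rfl,
    fun i j h => (h (Fin.ext (by omega))).elim, by simp [sub_mul], fun c _ => by simp; ring⟩

theorem UC.step {l B E x : ℝ} {m : ℕ} (h : UC l m B E) (hx : 0 ≤ x) :
    UC l (m + 1) (x + B) (max (l * x ^ 2 - (x ^ 2 + 2 * x * B)) 0 + E) := by
  obtain ⟨a, w, h1, h2, h3, h4, h5, h6⟩ := h
  have hB : ∀ j, a j ≤ B := fun j => h2 ▸ single_le_sum (fun i _ => h1 i) (mem_univ j)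
  have hB0 : 0 ≤ B := (h1 0).trans (hB 0)
  have key : ∀ j, (x + a j) ^ 2 ≤ x ^ 2 + 2 * x * B + w j := fun j => by
    nlinarith [mul_le_mul_of_nonneg_left (hB j) hx, h3 j]
  refine ⟨Fin.cons x a, Fin.cons (x ^ 2 + 2 * x * B) w, Fin.cases hx h1,
    by simp [Fin.sum_univ_succ (n := m + 1), h2], Fin.cases (by simp; positivity) h3,
    fun i j hij => ?_, by simpa [Fin.sum_univ_succ (n := m + 1)] using h5, fun c hc => ?_⟩
  · induction i using Fin.cases <;> induction j using Fin.cases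
    · exact (hij rfl).elim
    · simpa using key _
    · simpa [add_comm] using key _
    · simpa using h4 _ _ fun h => hij (congrArg _ h)
  · have a1 := h6 (fun i => c i.succ) fun i j h => hc (Fin.succ_le_succ_iff.2 h)
    have a2 : ∀ j : Fin (m + 1), min (c 0) (c j.succ) = c 0 := fun j =>
      min_eq_left (hc (Fin.zero_le _))
    have a3 : ∀ j : Fin (m + 1), min (c j.succ) (c 0) = c 0 := fun j =>
      min_eq_right (hc (Fin.zero_le _))
    simp only [Fin.sum_univ_succ (n := m + 1), Fin.cons_zero, Fin.cons_succ, min_self,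
      sum_add_distrib, a1, a2, a3, ← sum_mul, ← mul_sum, h2]
    ring

theorem UC.iter {l B E : ℝ} {m : ℕ} (hl : 1 < l) (h : UC l m B E) (hB : 0 ≤ B) (k : ℕ) :
    UC l (m + k) (B * ((l + 1) / (l - 1)) ^ k) E := by
  have h1 : 0 < l - 1 := by linarith
  induction k with
  | zero => simpa using h
  | succ k ih =>
    set B' := B * ((l + 1) / (l - 1)) ^ k with hB'
    have := ih.step (x := 2 * B' / (l - 1)) (by positivity)
    rwa [show 2 * B' / (l - 1) + B' = B * ((l + 1) / (l - 1)) ^ (k + 1) by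
        rw [pow_succ, ← mul_assoc B, ← hB']; field_simp; ring,
      show l * (2 * B' / (l - 1)) ^ 2 - ((2 * B' / (l - 1)) ^ 2 + 2 * (2 * B' / (l - 1)) * B') = 0 by
        field_simp; ring, max_self, zero_add] at this

theorem UC.gamma_le {p B E : ℝ} {m : ℕ} (hp : p ≤ 1) (hB : 0 < B) (h : UC (4 * p) m B E) :
    gamma m p ≤ E / (2 * B ^ 2) := by
  obtain ⟨a, w, h1, h2, h3, h4, h5, h6⟩ := h
  refine csSup_le ⟨0, zero_mem_gamma p⟩ ?_
  rintro x ⟨H, hH, hx⟩
  let σ := Tuple.sort (cost H)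
  have a1 := hx (fun i => a (σ.symm i) / B) ⟨fun i => div_nonneg (h1 _) hB.le, by
    rw [← sum_div, Equiv.sum_comp σ.symm a, h2, div_self hB.ne']⟩
  have a2 : form p H (fun i => a (σ.symm i) / B) = (2 * p * ∑ i, ∑ j, a i * a j * H (σ i) (σ j) -
      ∑ i, cost H (σ i) * w i) / B ^ 2 := by
    rw [← h6 (fun i => cost H (σ i)) (Tuple.monotone_sort (cost H)), form, ← Equiv.sum_comp σ]
    simp only [mul_sum, ← sum_sub_distrib, sum_div]
    refine sum_congr rfl fun i _ => ?_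
    rw [← Equiv.sum_comp σ]
    refine sum_congr rfl fun j _ => ?_
    simp only [Equiv.symm_apply_apply]
    ring
  let G : Fin (m + 1) → Fin (m + 1) → ℝ := fun i j => H (σ i) (σ j)
  have a3 : ∀ i, cost H (σ i) = ∑ j, G i j - G i i / 2 := fun i => by
    rw [cost, ← Equiv.sum_comp σ]
  have a4 : ∑ i, ∑ j, G i j * w j = ∑ i, ∑ j, G i j * w i := by
    rw [sum_comm]
    exact sum_congr rfl fun i _ => sum_congr rfl fun j _ => by rw [show G j i = G i j from hH.1 _ _]
  have a5 : ∑ i, (∑ j, G i j * (4 * p * (a i * a j) - w i - w j) + G i i * w i) ≤ E := by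
    refine le_trans (sum_le_sum fun i _ => ?_) h5
    rw [← add_sum_erase _ _ (mem_univ i)]
    have b1 : ∑ j ∈ univ.erase i, G i j * (4 * p * (a i * a j) - w i - w j) ≤ 0 :=
      sum_nonpos fun j hj => mul_nonpos_of_nonneg_of_nonpos (hH.2.1 _ _).1 (by
        nlinarith [h4 i j (ne_of_mem_erase hj).symm, mul_nonneg (h1 i) (h1 j),
          sq_nonneg (a i - a j)])
    have b2 := mul_le_mul_of_nonneg_left (le_max_left (4 * p * a i ^ 2 - w i) 0)
      (hH.2.1 (σ i) (σ i)).1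
    have b3 := mul_le_of_le_one_left (le_max_right (4 * p * a i ^ 2 - w i) 0)
      (hH.2.1 (σ i) (σ i)).2
    simp only [G] at b1 ⊢
    linarith
  refine a1.trans ?_
  rw [a2, ← div_div]
  gcongr
  simp only [mul_sub, sum_add_distrib, sum_sub_distrib, a4] at a5
  simp only [a3, sub_mul, sum_sub_distrib, sum_mul, mul_sum]
  have e1 : ∑ i, ∑ j, G i j * (4 * p * (a i * a j)) =
      2 * ∑ i, ∑ j, 2 * p * (a i * a j * H (σ i) (σ j)) := by
    simp only [mul_sum, G]
    exact sum_congr rfl fun i _ => sum_congr rfl fun j _ => by ring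
  have e2 : ∑ i, G i i / 2 * w i = (∑ i, G i i * w i) / 2 := by
    rw [sum_div]; exact sum_congr rfl fun i _ => by ring
  linarith

theorem gamma_small {p : ℝ} (m : ℕ) (hp : 0 ≤ p) (h : p ≤ 1 / 4) : gamma m p = 0 := by
  refine le_antisymm ?_ (gamma_nonneg hp)
  have : UC (4 * p) m 1 0 := by
    induction m with
    | zero =>
      have := UC.base (4 * p) zero_le_one
      rwa [max_eq_right (by linarith)] at this
    | succ m ih => simpa using ih.step le_rfl
  simpa using this.gamma_le (by linarith) one_pos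

theorem gamma_mid {p : ℝ} (m : ℕ) (hp : 1 / 4 < p) (h : p ≤ 3 / 4) :
    gamma m p = (4 * p - 1) / 2 * ((4 * p - 1) / (4 * p + 1)) ^ (2 * m) := by
  have h1 : 1 < 4 * p := by linarith
  have h2 : 0 < 4 * p - 1 := by linarith
  refine le_antisymm ?_ ?_
  · have := (UC.base (4 * p) zero_le_one).iter h1 zero_le_one m
    rw [zero_add] at this
    refine (this.gamma_le (by linarith) (by positivity)).trans (le_of_eq ?_)
    rw [max_eq_left (by positivity), mul_comm 2 m, pow_mul]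
    simp only [div_pow]
    field_simp
  · have := (LC.base (4 * p)).iter h1 (by positivity) (by
      rw [← mul_div_assoc, div_le_iff₀ (by positivity)]; nlinarith) m
    rw [zero_add] at this
    exact this.le_gamma (by linarith)

theorem gamma_top {p : ℝ} {m : ℕ} (hm : 1 ≤ m) (hp : 3 / 4 ≤ p) (h : p ≤ 1) :
    gamma m p = (p - 1 / 2) * ((4 * p - 1) / (4 * p + 1)) ^ (2 * (m - 1)) := by
  obtain ⟨k, rfl⟩ := Nat.exists_eq_add_of_le hm
  have h1 : 1 < 4 * p := by linarith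
  have h2 : 0 < 4 * p - 1 := by linarith
  rw [add_tsub_cancel_left]
  refine le_antisymm ?_ ?_
  · have := ((UC.base (4 * p) (x := 1 / 2) (by norm_num)).step (x := 1 / 2) (by norm_num)).iter h1
      (by norm_num) k
    refine (this.gamma_le h (by positivity)).trans (le_of_eq ?_)
    rw [max_eq_left (by linarith), max_eq_left (by positivity), mul_comm 2 k, pow_mul]
    simp only [div_pow]
    field_simp
    ring
  · have := ((LC.base (4 * p)).step (s := p - 1 / 2) (y₀ := 1 / 2) (by norm_num) le_rfl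
      fun x B => by nlinarith [mul_nonneg (by linarith : 0 ≤ p) (sq_nonneg (x - B))]).iter h1
      (by linarith) (by rw [← mul_div_assoc, div_le_iff₀ (by positivity)]; nlinarith) k
    exact this.le_gamma (by linarith)

theorem isGLB_closed {m : ℕ} (hm : 1 ≤ m) {p : ℝ} (hp : 0 < p) (hp1 : p ≤ 1) :
    IsGLB {α | Admissible m p α}
      (if p ≤ 1 / 4 then -1 / 2
      else if p ≤ 3 / 4 then -1 / 2 + (4 * p - 1) / 2 * ((4 * p - 1) / (4 * p + 1)) ^ (2 * m)
      else -1 / 2 + (p - 1 / 2) * ((4 * p - 1) / (4 * p + 1)) ^ (2 * (m - 1))) := by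
  have h := isGLB_admissible hm hp
  split_ifs with h1 h2
  · simpa [gamma_small m hp.le h1] using h
  · rwa [gamma_mid m (not_le.1 h1) h2] at h
  · rwa [gamma_top hm (not_le.1 h2).le hp1] at h

end Pool.Agent.MP_e3615c_an
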