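import Pool.Agent.MP_e3615c_an.Rate

namespace Pool.Agent.Results.MP_e3615c_an.Rate

open Pool.Agent.MP_e3615c_an

/-- Exact exponential rate of `α_m(p) + 1/2` in `m` for every `p > 1/4`. -/
theorem result (m : ℕ) (hm : 1 ≤ m) (p : ℝ) (hp : 1 / 4 < p) :
    ∃ α₀ : ℝ, IsGLB {α : ℝ | Admissible m p α} α₀ ∧
      -1 / 2 + min (4 * p - 1) 1 / 2 * ((4 * p - 1) / (4 * p + 1)) ^ (2 * m) ≤ α₀ ∧
      α₀ ≤ -1 / 2 + 8 * p * (p + 1) ^ 2 * ((4 * p - 1) / (4 * p + 1)) ^ (2 * m) :=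
  rate hm hp

end Pool.Agent.Results.MP_e3615c_an.Rate
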