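import Mathlib
import Pool.Agent.MP_e3615c_an.Closed

/-!
Exact exponential rate of decay of `gamma m p` in `m`.
-/

namespace Pool.Agent.MP_e3615c_an

open Finset

theorem le_gamma_rate {p : ℝ} (hp : 1 / 4 < p) (m : ℕ) :
    min (4 * p - 1) 1 / 2 * ((4 * p - 1) / (4 * p + 1)) ^ (2 * m) ≤ gamma m p := by
  have h1 : 1 < 4 * p := by linarith
  have h0 : LC (4 * p) 0 (min (4 * p - 1) 1 / 2) := by
    obtain ⟨y, hy, h⟩ := LC.base (4 * p)
    refine ⟨y, hy, fun a ha => le_trans ?_ (h a ha)⟩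
    gcongr
    exact min_le_left _ _
  have h3 : 0 < 4 * p - 1 := by linarith
  have h2 : 0 ≤ min (4 * p - 1) 1 / 2 := by positivity
  have := h0.iter h1 h2 ((mul_le_of_le_one_right h2 ((div_le_one (by linarith)).2
    (by linarith))).trans (by linarith [min_le_right (4 * p - 1) 1])) m
  rw [zero_add] at this
  exact this.le_gamma (by linarith)

/-- General upper bound certificates. -/
def UD (l : ℝ) (m : ℕ) (B E : ℝ) : Prop :=
  ∃ a w : Fin (m + 1) → ℝ, (∀ i, 0 ≤ a i) ∧ ∑ i, a i = B ∧ (∀ i, 0 ≤ w i) ∧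
    (∀ i, a i ≤ max 1 (2 * B / (l - 1))) ∧
    ∑ i, ∑ j, max (l * (a i * a j) - w i - if i = j then 0 else w j) 0 ≤ E ∧
    ∀ c : Fin (m + 1) → ℝ, Monotone c → ∑ i, ∑ j, a i * a j * min (c i) (c j) = ∑ i, c i * w i

theorem UD.all {l : ℝ} (hl : 1 < l) (m : ℕ) : UD l m (((l + 1) / (l - 1)) ^ m)
    (l + l * min (((l + 1) / (l - 1)) ^ m) ((l + 1) / 2) ^ 2) := by
  have h0 : 0 < l - 1 := by linarith
  induction m with
  | zero =>
    refine ⟨fun _ => 1, fun _ => 1, fun _ => zero_le_one, by simp, fun _ => zero_le_one,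
      fun _ => le_max_left _ _, ?_, fun c _ => by simp⟩
    simp only [Fin.sum_univ_succ, univ_eq_empty, sum_empty, add_zero, if_true]
    exact max_le (by nlinarith [sq_nonneg (min (((l + 1) / (l - 1)) ^ 0) ((l + 1) / 2))])
      (by positivity)
  | succ m ih =>
    obtain ⟨a, w, h1, h2, h3, h4, h5, h6⟩ := ih
    set B := ((l + 1) / (l - 1)) ^ m with hB
    have hB0 : 0 < B := by positivity
    set x := 2 * B / (l - 1) with hx
    have hx0 : 0 < x := by positivity
    have e1 : ((l + 1) / (l - 1)) ^ (m + 1) = x + B := by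
      rw [pow_succ, ← hB, hx]; field_simp; ring
    have e2 : x ^ 2 + 2 * x * B = l * x ^ 2 := by rw [hx]; field_simp; ring
    have hxx : x ≤ 2 * (x + B) / (l - 1) := by rw [hx]; gcongr; linarith
    rw [e1]
    refine ⟨Fin.cons x a, Fin.cons (l * x ^ 2) w, Fin.cases hx0.le h1,
      by simp [Fin.sum_univ_succ (n := m + 1), h2], Fin.cases (by simp; positivity) h3,
      Fin.cases (hxx.trans (le_max_right _ _)) fun i => (h4 i).trans (max_le_max_left _ hxx), ?_,
      fun c hc => ?_⟩
    · have key : ∑ j, max (l * (x * a j) - l * x ^ 2 - w j) 0 ≤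
          l * (min (x + B) ((l + 1) / 2) ^ 2 - min B ((l + 1) / 2) ^ 2) / 2 := by
        rcases le_total 1 x with h | h
        · refine (sum_nonpos fun j _ => max_le ?_ le_rfl).trans ?_
          · have := (h4 j).trans (max_le h le_rfl)
            nlinarith [h3 j, mul_le_mul_of_nonneg_left this (by positivity : 0 ≤ l * x)]
          · have a1 : min B ((l + 1) / 2) ≤ min (x + B) ((l + 1) / 2) :=
              min_le_min_right _ (by linarith)
            have a2 := pow_le_pow_left₀ (by positivity) a1 2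
            exact div_nonneg (mul_nonneg (by linarith) (by linarith)) zero_le_two
        · have a1 : 2 * B ≤ l - 1 := by rwa [hx, div_le_one h0] at h
          rw [min_eq_left (by linarith), min_eq_left (by linarith)]
          refine (sum_le_sum (g := fun j => l * x * a j) fun j _ => max_le ?_ ?_).trans ?_
          · nlinarith [h3 j, mul_nonneg (by linarith : 0 ≤ l) (sq_nonneg x)]
          · have := h1 j; positivity
          · rw [← mul_sum, h2]
            nlinarith [mul_nonneg (by linarith : 0 ≤ l) (sq_nonneg x)]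
      have e3 : ∑ j, max (l * (a j * x) - w j - l * x ^ 2) 0 =
          ∑ j, max (l * (x * a j) - l * x ^ 2 - w j) 0 :=
        sum_congr rfl fun j _ => by congr 1; ring
      simp only [Fin.sum_univ_succ (n := m + 1), Fin.cons_zero, Fin.cons_succ, if_true,
        (Fin.succ_ne_zero _).symm, Fin.succ_ne_zero, if_false, Fin.succ_inj, sum_add_distrib, e3]
      rw [max_eq_right (le_of_eq (by ring))]
      linarith
    · have a1 := h6 (fun i => c i.succ) fun i j h => hc (Fin.succ_le_succ_iff.2 h)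
      have a2 : ∀ j : Fin (m + 1), min (c 0) (c j.succ) = c 0 := fun j =>
        min_eq_left (hc (Fin.zero_le _))
      have a3 : ∀ j : Fin (m + 1), min (c j.succ) (c 0) = c 0 := fun j =>
        min_eq_right (hc (Fin.zero_le _))
      simp only [Fin.sum_univ_succ (n := m + 1), Fin.cons_zero, Fin.cons_succ, min_self,
        sum_add_distrib, a1, a2, a3, ← sum_mul, ← mul_sum, h2, ← e2]
      ring

theorem UD.gamma_le {p B E : ℝ} {m : ℕ} (hB : 0 < B) (h : UD (4 * p) m B E) :
    gamma m p ≤ E / (2 * B ^ 2) := by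
  obtain ⟨a, w, h1, h2, -, -, h5, h6⟩ := h
  refine csSup_le ⟨0, zero_mem_gamma p⟩ ?_
  rintro x ⟨H, hH, hx⟩
  let σ := Tuple.sort (cost H)
  have a1 := hx (fun i => a (σ.symm i) / B) ⟨fun i => div_nonneg (h1 _) hB.le, by
    rw [← sum_div, Equiv.sum_comp σ.symm a, h2, div_self hB.ne']⟩
  have a2 : form p H (fun i => a (σ.symm i) / B) = (2 * p * ∑ i, ∑ j, a i * a j * H (σ i) (σ j) -
      ∑ i, cost H (σ i) * w i) / B ^ 2 := by
    rw [← h6 (fun i => cost H (σ i)) (Tuple.monotone_sort (cost H)), form, ← Equiv.sum_comp σ]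
    simp only [mul_sum, ← sum_sub_distrib, sum_div]
    refine sum_congr rfl fun i _ => ?_
    rw [← Equiv.sum_comp σ]
    refine sum_congr rfl fun j _ => ?_
    simp only [Equiv.symm_apply_apply]
    ring
  let G : Fin (m + 1) → Fin (m + 1) → ℝ := fun i j => H (σ i) (σ j)
  have a3 : ∀ i, cost H (σ i) = ∑ j, G i j - G i i / 2 := fun i => by
    rw [cost, ← Equiv.sum_comp σ]
  have a4 : ∑ i, ∑ j, G i j * w j = ∑ i, ∑ j, G i j * w i := by
    rw [sum_comm]
    exact sum_congr rfl fun i _ => sum_congr rfl fun j _ => by rw [show G j i = G i j from hH.1 _ _]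
  have a5 : ∑ i, ∑ j, G i j * (4 * p * (a i * a j) - w i - if i = j then 0 else w j) ≤ E :=
    le_trans (sum_le_sum fun i _ => sum_le_sum fun j _ =>
      (mul_le_mul_of_nonneg_left (le_max_left _ 0) (hH.2.1 _ _).1).trans
        (mul_le_of_le_one_left (le_max_right _ _) (hH.2.1 _ _).2)) h5
  have a6 : ∀ i, ∑ j, G i j * (if i = j then 0 else w j) = ∑ j, G i j * w j - G i i * w i := by
    intro i
    rw [← add_sum_erase _ _ (mem_univ i), ← add_sum_erase _ (fun j => G i j * w j) (mem_univ i),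
      if_pos rfl, mul_zero, zero_add, add_sub_cancel_left]
    exact sum_congr rfl fun j hj => by rw [if_neg (ne_of_mem_erase hj).symm]
  refine a1.trans ?_
  rw [a2, ← div_div]
  gcongr
  simp only [mul_sub, sum_sub_distrib, a6, a4] at a5
  simp only [a3, sub_mul, sum_sub_distrib, sum_mul, mul_sum]
  have e1 : ∑ i, ∑ j, G i j * (4 * p * (a i * a j)) =
      2 * ∑ i, ∑ j, 2 * p * (a i * a j * H (σ i) (σ j)) := by
    simp only [mul_sum, G]
    exact sum_congr rfl fun i _ => sum_congr rfl fun j _ => by ring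
  have e2 : ∑ i, G i i / 2 * w i = (∑ i, G i i * w i) / 2 := by
    rw [sum_div]; exact sum_congr rfl fun i _ => by ring
  linarith

theorem gamma_le_rate {p : ℝ} (hp : 1 / 4 < p) (m : ℕ) :
    gamma m p ≤ 8 * p * (p + 1) ^ 2 * ((4 * p - 1) / (4 * p + 1)) ^ (2 * m) := by
  have h1 : 1 < 4 * p := by linarith
  have h2 : 0 < 4 * p - 1 := by linarith
  have h3 : 0 < p := by linarith
  refine ((UD.all h1 m).gamma_le (by positivity)).trans ?_
  have h4 := pow_le_pow_left₀ (by positivity)
    (min_le_right (((4 * p + 1) / (4 * p - 1)) ^ m) ((4 * p + 1) / 2)) 2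
  calc _ ≤ 16 * p * (p + 1) ^ 2 / (2 * (((4 * p + 1) / (4 * p - 1)) ^ m) ^ 2) := by
        gcongr
        nlinarith [mul_le_mul_of_nonneg_left h4 h3.le]
    _ = _ := by
        rw [mul_comm 2 m, pow_mul]
        simp only [div_pow]
        field_simp
        ring

theorem rate {m : ℕ} (hm : 1 ≤ m) {p : ℝ} (hp : 1 / 4 < p) :
    ∃ α₀ : ℝ, IsGLB {α | Admissible m p α} α₀ ∧
      -1 / 2 + min (4 * p - 1) 1 / 2 * ((4 * p - 1) / (4 * p + 1)) ^ (2 * m) ≤ α₀ ∧
      α₀ ≤ -1 / 2 + 8 * p * (p + 1) ^ 2 * ((4 * p - 1) / (4 * p + 1)) ^ (2 * m) :=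
  ⟨_, isGLB_admissible hm (by linarith), by linarith [le_gamma_rate hp m],
    by linarith [gamma_le_rate hp m]⟩

end Pool.Agent.MP_e3615c_an
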